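import Mathlib

/-!
# [H93 CG ASG] Integral assignments

PROOF of `exists_assign` (complete; Mathlib only). For every label `a ∈ Λ` which occurs on `T` the set
`T_a = {b ∈ T | α b = a}` has `∑ v ∈ range B, μ a v` elements, so it can be divided into sets `T_{a,v}` (`v < B`) with `μ a v`
elements; put `c b = v` for `b ∈ T_{a,v}`. Formalization: for one finite set `T` (one label) by induction on `B`:
`|T| = ∑ v < B + 1, μ v`: choose a subset with `μ B` elements (`Finset.exists_subset_card_eq`), give it the value `B`, and use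
the induction hypothesis for the rest. Then treat the labels one by one: the function `c` on `T_a` for each `a` is chosen by
`choose`, and `c b := c_{α b} b`.
`sum_assign`: `∑ b ∈ T, c b = ∑ v < B, v * #{b ∈ T | c b = v}` (`Finset.sum_fiberwise_of_maps_to`; every `c b < B` for
`b ∈ T`), and `#{b ∈ T | c b = v} = ∑ a ∈ T.image α, μ a v`.
-/

set_option autoImplicit false

namespace Pool.H93.CG

/-- One label: a finite set with `∑ v < B, μ v` elements is divided into parts with `μ v` elements. -/
private theorem exists_assign_one {ι : Type} [DecidableEq ι] (B : ℕ) (μ : ℕ → ℕ) :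
    ∀ T : Finset ι, ∑ v ∈ Finset.range B, μ v = T.card →
      ∃ c : ι → ℕ, (∀ b ∈ T, c b < B) ∧ ∀ v < B, (T.filter fun b => c b = v).card = μ v := by
  induction B with
  | zero =>
    intro T hT
    refine ⟨fun _ => 0, ?_, ?_⟩
    · intro b hb
      have h0 : T.card = 0 := by rw [← hT]; simp
      have h1 : T = ∅ := Finset.card_eq_zero.mp h0
      rw [h1] at hb
      simp at hb
    · intro v hv
      omega
  | succ B ih =>
    intro T hT
    rw [Finset.sum_range_succ] at hT
    obtain ⟨S, hS, hSc⟩ := Finset.exists_subset_card_eq (s := T) (n := μ B) (by omega)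
    have hrest : ∑ v ∈ Finset.range B, μ v = (T \ S).card := by
      rw [Finset.card_sdiff_of_subset hS]
      omega
    obtain ⟨c, hc, hcv⟩ := ih (T \ S) hrest
    refine ⟨fun b => if b ∈ S then B else c b, ?_, ?_⟩
    · intro b hb
      by_cases hbS : b ∈ S
      · simp [hbS]
      · have := hc b (Finset.mem_sdiff.mpr ⟨hb, hbS⟩)
        simp only [hbS, if_false]
        omega
    · intro v hv
      by_cases hvB : v = B
      · subst hvB
        have : (T.filter fun b => (if b ∈ S then v else c b) = v) = S := by
          ext b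
          simp only [Finset.mem_filter]
          constructor
          · rintro ⟨hb, he⟩
            by_contra hbS
            have h1 := hc b (Finset.mem_sdiff.mpr ⟨hb, hbS⟩)
            simp only [hbS, if_false] at he
            omega
          · intro hb
            exact ⟨hS hb, by simp [hb]⟩
        rw [this, hSc]
      · have hvlt : v < B := by omega
        have : (T.filter fun b => (if b ∈ S then B else c b) = v) =
            ((T \ S).filter fun b => c b = v) := by
          ext b
          simp only [Finset.mem_filter, Finset.mem_sdiff]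
          constructor
          · rintro ⟨hb, he⟩
            by_cases hbS : b ∈ S
            · simp only [hbS, if_true] at he
              omega
            · simp only [hbS, if_false] at he
              exact ⟨⟨hb, hbS⟩, he⟩
          · rintro ⟨⟨hb, hbS⟩, he⟩
            exact ⟨hb, by simp [hbS, he]⟩
        rw [this, hcv v hvlt]

theorem exists_assign {ι Λ : Type} [DecidableEq ι] [DecidableEq Λ] (T : Finset ι) (α : ι → Λ)
    (B : ℕ) (μ : Λ → ℕ → ℕ)
    (h : ∀ a ∈ T.image α, ∑ v ∈ Finset.range B, μ a v = (T.filter fun b => α b = a).card) :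
    ∃ c : ι → ℕ, (∀ b ∈ T, c b < B) ∧ ∀ a ∈ T.image α, ∀ v < B,
      (T.filter fun b => α b = a ∧ c b = v).card = μ a v := by
  have key : ∀ a : Λ, ∃ c : ι → ℕ, a ∈ T.image α →
      (∀ b ∈ T.filter (fun b => α b = a), c b < B) ∧
        ∀ v < B, ((T.filter fun b => α b = a).filter fun b => c b = v).card = μ a v := by
    intro a
    by_cases ha : a ∈ T.image α
    · obtain ⟨c, hc⟩ := exists_assign_one B (μ a) (T.filter fun b => α b = a) (h a ha)
      exact ⟨c, fun _ => hc⟩
    · exact ⟨fun _ => 0, fun h => absurd h ha⟩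
  choose c hc using key
  refine ⟨fun b => c (α b) b, ?_, ?_⟩
  · intro b hb
    exact (hc (α b) (Finset.mem_image_of_mem α hb)).1 b (Finset.mem_filter.mpr ⟨hb, rfl⟩)
  · intro a ha v hv
    rw [← (hc a ha).2 v hv]
    refine congrArg Finset.card ?_
    ext b
    simp only [Finset.mem_filter]
    constructor
    · rintro ⟨hb, h1, h2⟩
      exact ⟨⟨hb, h1⟩, by rw [← h1]; exact h2⟩
    · rintro ⟨⟨hb, h1⟩, h2⟩
      exact ⟨hb, h1, by rw [h1]; exact h2⟩

theorem sum_assign {ι Λ : Type} [DecidableEq ι] [DecidableEq Λ] (T : Finset ι) (α : ι → Λ)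
    (B : ℕ) (μ : Λ → ℕ → ℕ) (c : ι → ℕ) (hc : ∀ b ∈ T, c b < B)
    (h : ∀ a ∈ T.image α, ∀ v < B, (T.filter fun b => α b = a ∧ c b = v).card = μ a v) :
    (∀ v < B, (T.filter fun b => c b = v).card = ∑ a ∈ T.image α, μ a v) ∧
      ∑ b ∈ T, c b = ∑ v ∈ Finset.range B, v * ∑ a ∈ T.image α, μ a v := by
  have h1 : ∀ v < B, (T.filter fun b => c b = v).card = ∑ a ∈ T.image α, μ a v := by
    intro v hv
    rw [Finset.card_eq_sum_card_fiberwise (f := α) (t := T.image α)
      (fun b hb => Finset.mem_coe.mpr
        (Finset.mem_image_of_mem α (Finset.mem_filter.mp (Finset.mem_coe.mp hb)).1))]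
    refine Finset.sum_congr rfl fun a ha => ?_
    rw [← h a ha v hv]
    refine congrArg Finset.card ?_
    ext b
    simp only [Finset.mem_filter]
    constructor
    · rintro ⟨⟨hb, h1⟩, h2⟩
      exact ⟨hb, h2, h1⟩
    · rintro ⟨hb, h1, h2⟩
      exact ⟨⟨hb, h2⟩, h1⟩
  refine ⟨h1, ?_⟩
  have h2 : ∑ b ∈ T, c b = ∑ v ∈ Finset.range B, ∑ b ∈ T with c b = v, c b :=
    (Finset.sum_fiberwise_of_maps_to (fun b hb => Finset.mem_range.mpr (hc b hb)) _).symm
  rw [h2]
  refine Finset.sum_congr rfl fun v hv => ?_
  rw [← h1 v (Finset.mem_range.mp hv)]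
  rw [Finset.sum_congr rfl (fun b hb => (Finset.mem_filter.mp hb).2)]
  rw [Finset.sum_const, smul_eq_mul, mul_comm]

end Pool.H93.CG
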