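import Pool.Agent.H93.CG.DstA

/-!
# [H93 CG DR] The rule distribution

PROOF (complete). Suppose no member of `liftL C Γ f` is true. Let `A₁ = supp n Γ ∪ supp n a ∪ supp n (u 0)` (at most
`3 k` points), extend `f` to `f'` injective on `A₁`; `liftL C Γ f = liftL C Γ f'`. Let `T = B 0 '' F`,
`S b = (C.gate b).children`; `Row C F j (B j) (u j)` for `j ≤ J`. `dst_fam` and `pieces` (`B0 = supp n (u 0)`, `A' = A₁`) give
`c : C.N → ℕ`. Note `⋃ b ∈ T, S b = ⋃₀ F`. Let `t v = {b | b ∈ T ∧ c b = v}.ncard`.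
(a) `c b ≤ J` for `b ∈ T`: `c b = kap (pmk C b' g)`, `b' = B 0 X`, `kap ≤ X.ncard ≤ J` (`kap_le`, `X.ncard ≤ 2 * Nat.card C.N < l`).
So `∑ j ∈ range (J + 1), t j = T.ncard = F.ncard` (`B 0` is injective on `F`: labels) and
`∑ j ∈ range (J + 1), j * t j = ∑ᶠ b ∈ T, c b` (sum over the fibres of `c`).
(b) `t j ∈ A j` for `j ≤ J`. Extend `f'` to `g` injective on `A₂ = A₁ ∪ supp n (u j)`. `⟨u j, false⟩ ∈ Γ`, and
`plit C ⟨u j, false⟩ g` is a member of `liftL C Γ g = liftL C Γ f'` (`liftL_congr`), so it is false and `pmk C (u j) g` is true. Its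
label is `sym (A j) (lift C T_j⁺ A₂ g)`, `T_j⁺ = (fun X => ⟨B j X, true⟩) '' F = (fun b => ⟨b, true⟩) '' (B j '' F)` (`gate_sym_up`),
`lift C T_j⁺ A₂ g = (fun z => ⟨z, true⟩) '' liftN C (B j '' F) A₂ g` (`lift_pos`). A member `⟨z, true⟩`, `z = pmk C (B j X) h`, is true if
and only if `kap z = j` (`cval_sym`, the label of `z` is `sym {j} _`). So
`tc (lift …) = {z ∈ liftN C (B j '' F) A₂ g | kap z = j}.ncard = {z ∈ liftN C (B 0 '' F) A₁ g | kap z = j}.ncard` (`dst_count` with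
`j ↦ 0`, `j' ↦ j`, `v ↦ j`) and `liftN C (B 0 '' F) A₁ g = liftN C (B 0 '' F) A₁ f'` (`g = f'` on `A₁`). By `pieces` this number is
equal to `t j` in `ZMod l`, and `t j ≤ T.ncard ≤ Nat.card C.N < l`, so `tc (lift …) % l = t j`, which is in `A j` by `cval_sym`.
(c) By the hypothesis `hsum` `∑ j ∈ range (J + 1), j * t j ∈ A'`. This is `∑ᶠ b ∈ T, c b = tc (lift C (⋃₀ F) A₁ f') % l` (`pieces`), and
the label of `pmk C a f'` is `sym A' (lift C (⋃₀ F) A₁ f')` (`gate_sym_up`), so `plit C ⟨a, true⟩ f'` is a true member of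
`liftL C Γ f'`, a contradiction.
-/

set_option autoImplicit false

namespace Pool.H93.CG

open Pool.H93.SY (Lit Atom tv supp supp_fix supp_smul supp_min supp_card_lt Fixes fixes_supp
  exists_even_perm exists_extend qd)
open scoped Pointwise
open FirstOrder.Language

variable {L : FirstOrder.Language.{0, 0}} {s n : ℕ} {C : Circuit L s n} {N M d k l : ℕ}

private theorem liftN_congr {T : Set C.N} {A : Finset (Fin n)} {f g : Fin n → Fin N}
    (h : ∀ i ∈ A, f i = g i) : liftN C T A f = liftN C T A g := by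
  ext z
  constructor
  · rintro ⟨x, hx, u, h1, h2, h3⟩
    exact ⟨x, hx, u, fun i hi => (h1 i hi).trans (h i hi), h2, h3⟩
  · rintro ⟨x, hx, u, h1, h2, h3⟩
    exact ⟨x, hx, u, fun i hi => (h1 i hi).trans (h i hi).symm, h2, h3⟩

/-- the number of true members of a set of nodes with labels `sym {j} X` -/
private theorem tc_row [L.Structure (Fin s ⊕ Fin N)] (hC : Small C k) {F : Set (Set (Lit C.N))}
    {j : ℕ} {B : Set (Lit C.N) → C.N} {u : C.N} (h : Row C F j B u) (A₂ : Finset (Fin n))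
    (g : Fin n → Fin N) :
    (ext hC N).tc l (lift C ((fun X => (⟨B X, true⟩ : Lit C.N)) '' F) A₂ g) =
      {z | z ∈ liftN C (B '' F) A₂ g ∧ kap hC l z = j}.ncard := by
  have e1 : (fun X => (⟨B X, true⟩ : Lit C.N)) '' F =
      (fun b => (⟨b, true⟩ : Lit C.N)) '' (B '' F) := by
    rw [Set.image_image]
  rw [e1, lift_pos]
  have e2 : ∀ z ∈ liftN C (B '' F) A₂ g, (ext hC N).ctr l (⟨z, true⟩ : Lit (PN C N)) ↔
      kap hC l z = j := by
    rintro z ⟨b, ⟨X, hX, rfl⟩, g', h1, h2, rfl⟩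
    have e3 : (ext hC N).gate (pmk C (B X) g') = .sym {j} (lift C X (supp n (B X)) g') := by
      rw [ext_gate, pgate0_sym (h.gate X hX)]
      rfl
    have e4 : (ext hC N).ctr l (⟨pmk C (B X) g', true⟩ : Lit (PN C N)) ↔
        (ext hC N).cval l (pmk C (B X) g') := ctr_true (C := ext hC N)
    rw [e4, cval_sym e3, Set.mem_singleton_iff]
    unfold kap
    rw [e3]
    rfl
  have e5 : {x | x ∈ (fun z => (⟨z, true⟩ : Lit (PN C N))) '' liftN C (B '' F) A₂ g ∧
      (ext hC N).ctr l x} = (fun z => (⟨z, true⟩ : Lit (PN C N))) ''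
        {z | z ∈ liftN C (B '' F) A₂ g ∧ kap hC l z = j} := by
    ext x
    constructor
    · rintro ⟨⟨z, hz, rfl⟩, h2⟩
      exact ⟨z, ⟨hz, (e2 z hz).1 h2⟩, rfl⟩
    · rintro ⟨z, ⟨hz, h2⟩, rfl⟩
      exact ⟨⟨z, hz, rfl⟩, (e2 z hz).2 h2⟩
  show {x | x ∈ (fun z => (⟨z, true⟩ : Lit (PN C N))) '' liftN C (B '' F) A₂ g ∧
      (ext hC N).ctr l x}.ncard = _
  rw [e5]
  refine Set.ncard_image_of_injective _ ?_
  intro x y hxy
  exact congrArg Lit.node hxy

theorem dist_true [L.Structure (Fin s ⊕ Fin N)] (hC : Small C k) (hN : Nice l n N d k)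
    (W : World N M d) (hW : Inv W L s) (h8 : 8 * k + 8 ≤ N)
    (hl : (2 * Nat.card C.N + 1) ^ 2 < l) {Γ : Set (Lit C.N)}
    (hΓ : (supp n Γ).card < k) {f : Fin n → Fin N} (hf : Set.InjOn f (supp n Γ)) {a : C.N}
    {F : Set (Set (Lit C.N))} {J : ℕ} {B : ℕ → Set (Lit C.N) → C.N} {u : ℕ → C.N}
    {A : ℕ → Set ℕ} {A' : Set ℕ} (hF : F.PairwiseDisjoint id) (hJ : ∀ X ∈ F, X.ncard ≤ J)
    (hB : ∀ j ≤ J, ∀ X ∈ F, C.gate (B j X) = .sym {j} X)
    (hu : ∀ j ≤ J, C.gate (u j) = .sym (A j) ((fun X => ⟨B j X, true⟩) '' F))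
    (ha : C.gate a = .sym A' (⋃₀ F))
    (hsum : ∀ t : ℕ → ℕ, (∀ j ≤ J, t j ∈ A j) → ∑ j ∈ Finset.range (J + 1), t j = F.ncard →
      ∑ j ∈ Finset.range (J + 1), j * t j ∈ A')
    (huΓ : ∀ j ≤ J, ⟨u j, false⟩ ∈ Γ) (haΓ : ⟨a, true⟩ ∈ Γ) :
    ∃ x ∈ liftL C Γ f, (ext hC N).ctr l x := by
  classical
  by_contra hcon
  push Not at hcon
  have hroom := hC.room
  have hn2 : 2 ≤ n := by omega
  have hrow : ∀ j ≤ J, Row C F j (B j) (u j) := fun j hj => ⟨hB j hj, A j, hu j hj⟩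
  have hna := hC.node a
  have hnu : ∀ j, (supp n (u j)).card < k := fun j => hC.node (u j)
  have hcl : ∀ S : Set (Lit C.N), S.ncard < l := by
    intro S
    have h1 := card_lit S
    nlinarith
  have hcN : Nat.card C.N < l := by nlinarith
  -- the first extension
  obtain ⟨A₁, hA₁⟩ : ∃ A₁, A₁ = supp n Γ ∪ supp n a ∪ supp n (u 0) := ⟨_, rfl⟩
  have hA1 : supp n Γ ⊆ A₁ := by
    rw [hA₁]
    exact Finset.subset_union_left.trans Finset.subset_union_left
  have hA2 : supp n a ⊆ A₁ := by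
    rw [hA₁]
    exact Finset.subset_union_right.trans Finset.subset_union_left
  have hA3 : supp n (u 0) ⊆ A₁ := by
    rw [hA₁]
    exact Finset.subset_union_right
  have hA4 : A₁.card ≤ 3 * k := by
    have h1 := Finset.card_union_le (supp n Γ) (supp n a)
    have h2 := Finset.card_union_le (supp n Γ ∪ supp n a) (supp n (u 0))
    have h3 := hnu 0
    rw [← hA₁] at h2
    omega
  obtain ⟨f', hf1, hf2⟩ := exists_extend (supp n Γ) A₁ hA1 f hf
    (Or.inr (by rw [Nat.card_fin]; omega))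
  have hf3 : liftL C Γ f = liftL C Γ f' := liftL_congr fun i hi => (hf1 i hi).symm
  rw [hf3] at hcon
  have hfam := dst_fam hn2 hF (hrow 0 (Nat.zero_le _))
  obtain ⟨c, hc1, hc2, hc3⟩ := pieces hC hN W hW (by have := hnu 0; omega) hfam hA3 (by omega)
    hf2 hl
  obtain ⟨T, hT⟩ : ∃ T, T = B 0 '' F := ⟨_, rfl⟩
  rw [← hT] at hc1 hc2 hc3
  -- (a)
  have hcJ : ∀ b ∈ T, c b ≤ J := by
    intro b hb
    obtain ⟨b', hb', -, g, hg1, hg2, hg3⟩ := hc1 b hb
    rw [hT] at hb'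
    obtain ⟨X, hX, rfl⟩ := hb'
    rw [hg3]
    refine (kap_le hC hN W hW (hB 0 (Nat.zero_le _) X hX) (hcl X) (hg2.mono ?_)).trans (hJ X hX)
    rw [Finset.coe_subset]
    exact Finset.subset_union_right
  have hTF : T.ncard = F.ncard := by
    rw [hT]
    refine Set.ncard_image_of_injOn ?_
    intro X hX Y hY hXY
    have h1 := hB 0 (Nat.zero_le _) X hX
    rw [hXY, hB 0 (Nat.zero_le _) Y hY] at h1
    injection h1 with _ h2
    exact h2.symm
  obtain ⟨Tf, hTf⟩ : ∃ Tf : Finset C.N, Tf = (Set.toFinite T).toFinset := ⟨_, rfl⟩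
  have hmem : ∀ b, b ∈ Tf ↔ b ∈ T := by
    intro b
    rw [hTf, Set.Finite.mem_toFinset]
  have ht : ∀ v, {b | b ∈ T ∧ c b = v}.ncard = (Tf.filter fun b => c b = v).card := by
    intro v
    rw [← Set.ncard_coe_finset]
    congr 1
    ext b
    simp [hmem]
  have hmaps : ∀ b ∈ Tf, c b ∈ Finset.range (J + 1) := by
    intro b hb
    rw [Finset.mem_range]
    have := hcJ b ((hmem b).1 hb)
    omega
  have hsum1 : ∑ j ∈ Finset.range (J + 1), {b | b ∈ T ∧ c b = j}.ncard = F.ncard := by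
    rw [← hTF]
    have h1 : T.ncard = Tf.card := by
      rw [← Set.ncard_coe_finset]
      congr 1
      ext b
      rw [Finset.mem_coe, hmem]
    rw [h1, Finset.card_eq_sum_card_fiberwise hmaps]
    exact Finset.sum_congr rfl fun j _ => ht j
  have hsum2 : ∑ j ∈ Finset.range (J + 1), j * {b | b ∈ T ∧ c b = j}.ncard = ∑ᶠ b ∈ T, c b := by
    rw [finsum_mem_eq_finite_toFinset_sum _ (Set.toFinite T), ← hTf,
      ← Finset.sum_fiberwise_of_maps_to hmaps]
    refine Finset.sum_congr rfl fun j _ => ?_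
    rw [ht j, Finset.sum_congr rfl (g := fun _ => j) (fun b hb => (Finset.mem_filter.1 hb).2),
      Finset.sum_const, smul_eq_mul, mul_comm]
  -- (b)
  have hb : ∀ j ≤ J, {b | b ∈ T ∧ c b = j}.ncard ∈ A j := by
    intro j hj
    have hc4 := Finset.card_union_le A₁ (supp n (u j))
    have hc5 := hnu j
    obtain ⟨g, hg1, hg2⟩ := exists_extend A₁ (A₁ ∪ supp n (u j)) Finset.subset_union_left f' hf2
      (Or.inr (by rw [Nat.card_fin]; omega))
    have e1 : liftL C Γ g = liftL C Γ f' := liftL_congr fun i hi => hg1 i (hA1 hi)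
    have e2 : plit C ⟨u j, false⟩ g ∈ liftL C Γ g :=
      plit_mem_lift hg2 (huΓ j hj) (hA1.trans Finset.subset_union_left) Finset.subset_union_right
    rw [e1] at e2
    have e3 := hcon _ e2
    have e4 : (ext hC N).cval l (pmk C (u j) g) := by
      by_contra h1
      exact e3 ((ctr_false (C := ext hC N)).2 h1)
    have e5 := gate_sym_up hC (hu j hj) (A' := A₁ ∪ supp n (u j)) Finset.subset_union_right
      (by omega) hg2
    rw [cval_sym e5, tc_row hC (hrow j hj),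
      ← dst_count hC hF (hrow 0 (Nat.zero_le _)) (hrow j hj) hA3 (by omega) hg2 j, ← hT,
      liftN_congr hg1] at e4
    have e6 := (ZMod.natCast_eq_natCast_iff' _ _ l).1 (hc2 j)
    rw [← e6, Nat.mod_eq_of_lt] at e4
    · exact e4
    · refine lt_of_le_of_lt ?_ hcN
      rw [← Set.ncard_univ]
      exact Set.ncard_le_ncard (Set.subset_univ _) (Set.toFinite _)
  -- (c)
  have hc := hsum _ hb hsum1
  rw [hsum2, hc3] at hc
  have hU : (⋃ b ∈ T, (C.gate b).children) = ⋃₀ F := by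
    rw [hT, Set.biUnion_image, Set.sUnion_eq_biUnion]
    refine Set.iUnion₂_congr fun X hX => ?_
    rw [hB 0 (Nat.zero_le _) X hX]
    rfl
  rw [hU] at hc
  have e1 := gate_sym_up hC ha (A' := A₁) hA2 (by omega) hf2
  have e2 : (ext hC N).cval l (pmk C a f') := (cval_sym e1).2 hc
  have e3 : plit C ⟨a, true⟩ f' ∈ liftL C Γ f' := plit_mem_lift hf2 haΓ hA1 hA2
  exact hcon _ e3 ((ctr_true (C := ext hC N)).2 e2)

end Pool.H93.CG
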