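import Pool.Agent.H93.CG.Vc

/-!
# [H93 CG RC] The rules cover and unit

PROOFS (complete). `(ext hC N).ctr l` is the truth of a placed signed node, see `Eval.lean` (`cval_sym`, `ctr_true`,
`ctr_false`). All supports have less than `k` points.
`cover_true`. The hypothesis with `c = 0` gives a node with label `sym A S`, so `Fixes (supp n a) S` (`fixes_sym`) and
`(supp n S).card < k` (`supp_min S (supp n a)`, `Finset.card_le_card`); `Fixes (supp n S) S` (`fixes_supp`). Let
`A' = supp n Γ ∪ supp n S`, extend `f` to `f'` injective on `A'` (`exists_extend`), `liftL C Γ f = liftL C Γ f'`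
(`liftL_congr`). Let `c = (ext hC N).tc l (lift C S A' f') % l`, `c ≤ S.ncard` by `vcount` (`Fixes A' S`:
`Pool.H93.SY.Fixes.mono`). The hypothesis gives `a`, `A`, `b` with `C.gate a = .sym A S`, `c ∈ A ↔ b = true`, `⟨a, b⟩ ∈ Γ`. Extend
`f'` to `g` injective on `A' ∪ supp n a`. The label of `pmk C a g` is `sym A (lift C S (A' ∪ supp n a) g)`
(`gate_sym_up`), and `lift C S (A' ∪ supp n a) g = lift C S A' g = lift C S A' f'` (`lift_up`, `lift_congr`). So
`(ext hC N).cval l (pmk C a g) ↔ c ∈ A` (`cval_sym`) and `plit C ⟨a, b⟩ g` is true; it is a member of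
`liftL C Γ g = liftL C Γ f'` (`plit_mem_lift`, `liftL_congr`).
`unit_true`. `A' = supp n Γ ∪ supp n a ∪ supp n x.node`, extend `f` to `f'` injective on `A'`. The label of `pmk C a f'` is
`sym A {plit C x f'}` (`gate_sym_up`, `lift_singleton`). If `plit C x f'` is true the number of true members is `1`
(`1 % l = 1` as `1 < l`), otherwise `0`. In the first alternative (`1 ∈ A`, `x.neg ∈ Γ`): if `plit C x f'` is true, `pmk C a f'` is
true, otherwise `plit C x.neg f' = (plit C x f').neg` (`plit_neg`) is true. The second alternative is similar. Membership in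
`liftL C Γ f'`: `plit_mem_lift` (the node of `x.neg` is `x.node`).
`fact_true`: copy of `ext_step_fact` in `Pool/Agent/H93/SY/LiftM.lean` and `cval_var`: with `f'` injective on `supp n Γ ∪ supp n a`
the label of `pmk C a f'` is the variable `⟨v.1, v.2.1, fun i => Sum.map id f' (v.2.2 i)⟩` (`pgate0_var`), and `hD` applies (`args_mem`).
-/

set_option autoImplicit false

namespace Pool.H93.CG

open Pool.H93.SY (Lit Atom tv supp supp_fix supp_smul supp_min supp_card_lt Fixes fixes_supp
  exists_even_perm exists_extend qd)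
open scoped Pointwise
open FirstOrder.Language

variable {L : FirstOrder.Language.{0, 0}} {s n : ℕ} {C : Circuit L s n} {N M d k l : ℕ}

theorem cover_true [L.Structure (Fin s ⊕ Fin N)] (hC : Small C k) (hN : Nice l n N d k)
    (W : World N M d) (hW : Inv W L s) (h8 : 8 * k + 8 ≤ N) {Γ : Set (Lit C.N)}
    (hΓ : (supp n Γ).card < k) {f : Fin n → Fin N} (hf : Set.InjOn f (supp n Γ))
    {S : Set (Lit C.N)} (hl : S.ncard < l)
    (h : ∀ c ≤ S.ncard, ∃ (a : C.N) (A : Set ℕ) (b : Bool),
      C.gate a = .sym A S ∧ (c ∈ A ↔ b = true) ∧ ⟨a, b⟩ ∈ Γ) :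
    ∃ x ∈ liftL C Γ f, (ext hC N).ctr l x := by
  classical
  have hroom := hC.room
  have hk := hC.kpos
  obtain ⟨a₀, A₀, b₀, ha₀, -, -⟩ := h 0 (Nat.zero_le _)
  have hna₀ := hC.node a₀
  have hsub : supp n S ⊆ supp n a₀ :=
    supp_min S (supp n a₀) (by omega) (fixes_sym (by omega) ha₀)
  have hSc := Finset.card_le_card hsub
  have hFix : Fixes (supp n S) S := fixes_supp (by omega) S
  have hc1 := Finset.card_union_le (supp n Γ) (supp n S)
  set A' : Finset (Fin n) := supp n Γ ∪ supp n S with hA'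
  have hΓA : supp n Γ ⊆ A' := Finset.subset_union_left
  have hSA : supp n S ⊆ A' := Finset.subset_union_right
  obtain ⟨f', hff, hfi⟩ := exists_extend (supp n Γ) A' hΓA f hf (Or.inr (by
    rw [Nat.card_fin]
    omega))
  have hFixA : Fixes A' S := Pool.H93.SY.Fixes.mono hFix hSA
  have hv := (vcount hC hN W hW hFixA (by omega) hfi hl).2
  obtain ⟨a, A, b, ha, hcb, hab⟩ := h _ hv
  have hna := hC.node a
  have hc2 := Finset.card_union_le A' (supp n a)
  obtain ⟨g, hgf, hgi⟩ := exists_extend A' (A' ∪ supp n a) Finset.subset_union_left f' hfi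
    (Or.inr (by
      rw [Nat.card_fin]
      omega))
  have hgate : (ext hC N).gate (pmk C a g) = .sym A (lift C S (A' ∪ supp n a) g) :=
    gate_sym_up hC ha Finset.subset_union_right (by omega) hgi
  have hlift : lift C S (A' ∪ supp n a) g = lift C S A' f' := by
    rw [← lift_up hC hFixA Finset.subset_union_left (by omega) hgi]
    exact lift_congr hgf
  rw [hlift] at hgate
  have hcv : (ext hC N).cval l (pmk C a g) ↔ b = true := by
    rw [cval_sym hgate]
    exact hcb
  rw [liftL_congr (g := g) (fun i hi => ((hgf i (hΓA hi)).trans (hff i hi)).symm)]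
  refine ⟨plit C ⟨a, b⟩ g, ?_, hcv⟩
  exact plit_mem_lift hgi hab (hΓA.trans Finset.subset_union_left) Finset.subset_union_right

theorem unit_true [L.Structure (Fin s ⊕ Fin N)] (hC : Small C k) (hl : 1 < l)
    (h8 : 8 * k + 8 ≤ N) {Γ : Set (Lit C.N)} (hΓ : (supp n Γ).card < k) {f : Fin n → Fin N}
    (hf : Set.InjOn f (supp n Γ)) {a : C.N} {A : Set ℕ} {x : Lit C.N}
    (ha : C.gate a = .sym A {x}) (haΓ : ⟨a, true⟩ ∈ Γ)
    (h : (1 ∈ A ∧ x.neg ∈ Γ) ∨ (0 ∈ A ∧ x ∈ Γ)) :
    ∃ x ∈ liftL C Γ f, (ext hC N).ctr l x := by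
  classical
  have hroom := hC.room
  have hk := hC.kpos
  have hna := hC.node a
  have hnx := hC.node x.node
  have hc1 := Finset.card_union_le (supp n Γ) (supp n a)
  have hc2 := Finset.card_union_le (supp n Γ ∪ supp n a) (supp n x.node)
  set A' : Finset (Fin n) := supp n Γ ∪ supp n a ∪ supp n x.node with hA'
  have hΓA : supp n Γ ⊆ A' := Finset.subset_union_left.trans Finset.subset_union_left
  have haA : supp n a ⊆ A' := Finset.subset_union_right.trans Finset.subset_union_left
  have hxA : supp n x.node ⊆ A' := Finset.subset_union_right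
  obtain ⟨f', hff, hfi⟩ := exists_extend (supp n Γ) A' hΓA f hf (Or.inr (by
    rw [Nat.card_fin]
    omega))
  rw [liftL_congr (g := f') (fun i hi => (hff i hi).symm)]
  have hgate : (ext hC N).gate (pmk C a f') = .sym A {plit C x f'} := by
    rw [gate_sym_up hC ha haA (by omega) hfi, lift_singleton hfi hxA]
    rfl
  have hma : plit C ⟨a, true⟩ f' ∈ liftL C Γ f' := plit_mem_lift hfi haΓ hΓA haA
  have h1 : (ext hC N).ctr l (plit C x f') → (ext hC N).tc l {plit C x f'} % l = 1 := by
    intro h2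
    have h3 : {y : Lit (ext hC N).N | y ∈ ({plit C x f'} : Set (Lit (ext hC N).N)) ∧
        (ext hC N).ctr l y} = {plit C x f'} := by
      ext y
      constructor
      · rintro ⟨h4, -⟩
        exact h4
      · intro h4
        refine ⟨h4, ?_⟩
        rw [Set.mem_singleton_iff.1 h4]
        exact h2
    have h5 : (ext hC N).tc l {plit C x f'} = 1 := by
      unfold Circuit.tc
      rw [h3]
      exact Set.ncard_singleton _
    rw [h5]
    exact Nat.mod_eq_of_lt hl
  have h0 : ¬ (ext hC N).ctr l (plit C x f') → (ext hC N).tc l {plit C x f'} % l = 0 := by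
    intro h2
    have h3 : {y : Lit (ext hC N).N | y ∈ ({plit C x f'} : Set (Lit (ext hC N).N)) ∧
        (ext hC N).ctr l y} = ∅ := by
      ext y
      constructor
      · rintro ⟨h4, h5⟩
        rw [Set.mem_singleton_iff.1 h4] at h5
        exact absurd h5 h2
      · intro h4
        exact absurd h4 (Set.notMem_empty y)
    unfold Circuit.tc
    rw [h3, Set.ncard_empty]
    exact Nat.zero_mod l
  rcases h with ⟨hA, hx⟩ | ⟨hA, hx⟩
  · by_cases h2 : (ext hC N).ctr l (plit C x f')
    · refine ⟨_, hma, ?_⟩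
      show (ext hC N).cval l (pmk C a f') ↔ true = true
      rw [cval_sym hgate, h1 h2]
      exact ⟨fun _ => rfl, fun _ => hA⟩
    · refine ⟨plit C x.neg f', plit_mem_lift hfi hx hΓA hxA, ?_⟩
      rw [plit_neg]
      exact ctr_neg.2 h2
  · by_cases h2 : (ext hC N).ctr l (plit C x f')
    · exact ⟨plit C x f', plit_mem_lift hfi hx hΓA hxA, h2⟩
    · refine ⟨_, hma, ?_⟩
      show (ext hC N).cval l (pmk C a f') ↔ true = true
      rw [cval_sym hgate, h0 h2]
      exact ⟨fun _ => rfl, fun _ => hA⟩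

theorem fact_true [L.Structure (Fin s ⊕ Fin N)] (hC : Small C k) (h8 : 8 * k + 8 ≤ N)
    {D : Set (Atom L (Fin s ⊕ Fin n) × Bool)}
    (hD : ∀ v b, (v, b) ∈ D → ∀ f : Fin n → Fin N,
      Set.InjOn f {p | ∃ i, v.2.2 i = Sum.inr p} →
      (Structure.RelMap v.2.1 (fun i => Sum.map id f (v.2.2 i)) ↔ b = true))
    {Γ : Set (Lit C.N)} (hΓ : (supp n Γ).card < k) {f : Fin n → Fin N}
    (hf : Set.InjOn f (supp n Γ)) {a : C.N} {v : Atom L (Fin s ⊕ Fin n)} {b : Bool}
    (ha : C.gate a = .var v) (hv : (v, b) ∈ D) (hx : ⟨a, b⟩ ∈ Γ) :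
    ∃ x ∈ liftL C Γ f, (ext hC N).ctr l x := by
  classical
  have hroom := hC.room
  have hna := hC.node a
  have h1 := Finset.card_union_le (supp n Γ) (supp n a)
  obtain ⟨f', hf1, hf2⟩ := exists_extend (supp n Γ) (supp n Γ ∪ supp n a)
    Finset.subset_union_left f hf (Or.inr (by rw [Nat.card_fin]; omega))
  rw [liftL_congr (g := f') (fun i hi => (hf1 i hi).symm)]
  refine ⟨plit C ⟨a, b⟩ f', plit_mem_lift hf2 hx Finset.subset_union_left
    Finset.subset_union_right, ?_⟩
  have hgate : (ext hC N).gate (pmk C a f') =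
      .var ⟨v.1, v.2.1, fun i => Sum.map id f' (v.2.2 i)⟩ := by
    rw [ext_gate, pgate0_var ha]
    rfl
  show (ext hC N).cval l (pmk C a f') ↔ b = true
  rw [cval_var hgate]
  refine hD v b hv f' (hf2.mono ?_)
  rintro p ⟨i, hi⟩
  exact Finset.mem_coe.2 (Finset.mem_union_right _ (args_mem (by omega) ha i hi))

end Pool.H93.CG
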