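import Pool.Agent.H93.CG.SumR
import Pool.Agent.H93.CG.DstR
import Pool.Agent.H93.CG.RuleC
import Pool.Agent.H93.SY.Bin

/-!
# [H93 CG ASM] Soundness in the world

PROOFS (complete).
`small_of_size`: copy of the proof of `small_of_size` in `Pool/Agent/H93/SY/LiftM.lean` (`choose_le_two_pow` is in
`Pool/Agent/H93/SY/Bin.lean`).
`step_true`: by cases on the rule. `hyp`, `ident`, `weak`, `cut`, `andI`, `andE`: the lemmas `ext_step_hyp`, … of `LiftE.lean` with
`P' = {Δ' | ∃ Δ ∈ P, ∃ g, Set.InjOn g (supp n Δ) ∧ Δ' = liftL C Δ g}` and any `D'` (take `D' = ∅`) give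
`BStep ψ ∅ (ext hC N) P' (liftL C Γ f)`, and `bstep_true` (with `hP`). `fact`: `fact_true`. `cover`, `unit`, `sum`, `dist`:
`cover_true` (`S.ncard ≤ 2 * Nat.card C.N < l` by `card_lit`), `unit_true`, `sum_true`, `dist_true`.
`no_refutation`. Suppose `R.size < n.choose k`. `small_of_size` gives `Small R.C k` and small supports of the lines. By strong
induction on `R.order Γ` every `liftL R.C Γ f` (`Γ` a line, `f` injective on its support) has a true member (`step_true` with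
`P = {Δ | Δ ∈ R.lines ∧ R.order Δ < R.order Γ}`, `R.step Γ`). For `Γ = ∅` (with some `f` injective on `supp n ∅`, as in `lift_main`)
`liftL R.C ∅ f = ∅` (`lift_empty`), a contradiction.
-/

set_option autoImplicit false

namespace Pool.H93.CG

open Pool.H93.SY (Lit Atom tv supp supp_fix supp_smul supp_min supp_card_lt Fixes fixes_supp
  exists_even_perm exists_extend qd)
open scoped Pointwise
open FirstOrder.Language

variable {L : FirstOrder.Language.{0, 0}} [L.IsRelational] {s n : ℕ} {N M d k l : ℕ}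

theorem small_of_size {ψ : L.Sentence} {D : Set (Atom L (Fin s ⊕ Fin n) × Bool)}
    (hn : 16 + 64 * k ≤ n) (R : Refutation ψ s n D) (hlt : R.size < n.choose k) :
    Small R.C k ∧ ∀ Γ ∈ R.lines, (supp n Γ).card < k := by
  have hfl : Finite (Lit R.C.N) := by
    refine Finite.of_injective (fun x : Lit R.C.N => (x.node, x.pos)) ?_
    intro x y hxy
    exact Lit.ext (congrArg Prod.fst hxy) (congrArg Prod.snd hxy)
  have hfin : R.lines.Finite := Set.toFinite _
  have h1 : 1 ≤ R.lines.ncard := by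
    rw [Nat.succ_le_iff, Set.ncard_pos hfin]
    exact ⟨∅, R.empty_mem⟩
  have hN : Nat.card R.C.N ≤ R.size := Nat.le_add_right _ _
  have hL : R.lines.ncard ≤ R.size := Nat.le_add_left _ _
  have hk : 0 < k := by
    rcases Nat.eq_zero_or_pos k with rfl | h
    · rw [Nat.choose_zero_right] at hlt
      omega
    · exact h
  have h2 : n.choose k ≤ 2 ^ (n / 8) := Pool.H93.SY.choose_le_two_pow (by omega)
  have hnode : ∀ a : R.C.N, (supp n a).card < k := by
    intro a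
    have h3 : (MulAction.orbit (Equiv.Perm (Fin n)) a).ncard ≤ Nat.card R.C.N := by
      rw [← Set.ncard_univ]
      exact Set.ncard_le_ncard (Set.subset_univ _) (Set.toFinite _)
    exact supp_card_lt a k (by omega) (by omega) (by omega)
  refine ⟨⟨hk, by omega, hnode⟩, ?_⟩
  intro Γ hΓ
  have h3 : (MulAction.orbit (Equiv.Perm (Fin n)) Γ).ncard ≤ R.lines.ncard := by
    apply Set.ncard_le_ncard _ hfin
    rintro _ ⟨σ, rfl⟩
    exact R.smul_mem σ Γ hΓ
  exact supp_card_lt Γ k (by omega) (by omega) (by omega)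

theorem step_true {C : Circuit L s n} [L.Structure (Fin s ⊕ Fin N)] (hC : Small C k)
    {ψ : L.Sentence} (hψ : (Fin s ⊕ Fin N) ⊨ ψ) (hn : 3 * k + qd ψ + 4 ≤ n)
    (hn' : 3 * k + qd ψ + 1 ≤ N) (h8 : 8 * k + 8 ≤ N) (hN : Nice l n N d k)
    (W : World N M d) (hW : Inv W L s) (hl : (2 * Nat.card C.N + 1) ^ 2 < l)
    {D : Set (Atom L (Fin s ⊕ Fin n) × Bool)}
    (hD : ∀ v b, (v, b) ∈ D → ∀ f : Fin n → Fin N,
      Set.InjOn f {p | ∃ i, v.2.2 i = Sum.inr p} →
      (Structure.RelMap v.2.1 (fun i => Sum.map id f (v.2.2 i)) ↔ b = true))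
    {P : Set (Set (Lit C.N))} (hP : ∀ Δ ∈ P, (supp n Δ).card < k)
    (hP' : ∀ Δ ∈ P, ∀ g : Fin n → Fin N, Set.InjOn g (supp n Δ) →
      ∃ x ∈ liftL C Δ g, (ext hC N).ctr l x)
    {Γ : Set (Lit C.N)} (hΓ : (supp n Γ).card < k) {f : Fin n → Fin N}
    (hf : Set.InjOn f (supp n Γ)) (hs : Step ψ D C P Γ) :
    ∃ x ∈ liftL C Γ f, (ext hC N).ctr l x := by
  obtain ⟨P', hPd⟩ : ∃ P' : Set (Set (Lit (PN C N))),
      P' = {Δ' | ∃ Δ ∈ P, ∃ g, Set.InjOn g (supp n Δ) ∧ Δ' = liftL C Δ g} := ⟨_, rfl⟩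
  have hPm : ∀ Δ ∈ P, ∀ g : Fin n → Fin N, Set.InjOn g (supp n Δ) → liftL C Δ g ∈ P' := by
    intro Δ hΔ g hg
    rw [hPd]
    exact ⟨Δ, hΔ, g, hg, rfl⟩
  have hbs : BStep ψ (∅ : Set (Atom L (Fin s ⊕ Fin N) × Bool)) (ext hC N) P' (liftL C Γ f) →
      ∃ x ∈ liftL C Γ f, (ext hC N).ctr l x := by
    intro hb
    refine bstep_true (C := ext hC N) hψ ?_ ?_ hb
    · intro v b hv
      exact absurd hv (Set.notMem_empty _)
    · intro Δ' hΔ'
      rw [hPd] at hΔ'
      obtain ⟨Δ, hΔ, g, hg, rfl⟩ := hΔ'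
      exact hP' Δ hΔ g hg
  have hcl : ∀ S : Set (Lit C.N), S.ncard < l := by
    intro S
    have h1 := card_lit S
    nlinarith
  cases hs with
  | hyp hx hxΓ => exact hbs (ext_step_hyp hC hn hn' h8 P' hΓ hf hx hxΓ)
  | fact ha hv hx => exact fact_true hC h8 hD hΓ hf ha hv hx
  | ident hab ha hb => exact hbs (ext_step_ident hC h8 P' hΓ hf hab ha hb)
  | weak hΔ hs => exact hbs (ext_step_weak hC h8 hP hPm hΓ hf hΔ hs)
  | cut h1 h2 => exact hbs (ext_step_cut hC h8 hP hPm hΓ hf h1 h2)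
  | andI hS ha h1 => exact hbs (ext_step_andI hC h8 hP hPm hΓ hf hS ha h1)
  | andE hS ha h1 => exact hbs (ext_step_andE hC h8 hP hPm hΓ hf hS ha h1)
  | cover h => exact cover_true hC hN W hW h8 hΓ hf (hcl _) h
  | unit ha haΓ h => exact unit_true hC hN.prime.one_lt h8 hΓ hf ha haΓ h
  | sum hT hd hp ha hsum hpΓ haΓ =>
    exact sum_true hC hN W hW h8 hl hΓ hf hT hd hp ha hsum hpΓ haΓ
  | dist hF hJ hB hu ha hsum huΓ haΓ =>
    exact dist_true hC hN W hW h8 hl hΓ hf hF hJ hB hu ha hsum huΓ haΓ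

/-- A small refutation is refuted by the world. -/
theorem no_refutation {ψ : L.Sentence} {D : Set (Atom L (Fin s ⊕ Fin n) × Bool)}
    (R : Refutation ψ s n D) (hlt : R.size < n.choose k) (hn : qd ψ + 16 + 64 * k ≤ n)
    (hn' : qd ψ + 16 + 8 * k ≤ N) [L.Structure (Fin s ⊕ Fin N)] (hψ : (Fin s ⊕ Fin N) ⊨ ψ)
    (hD : ∀ v b, (v, b) ∈ D → ∀ f : Fin n → Fin N,
      Set.InjOn f {p | ∃ i, v.2.2 i = Sum.inr p} →
      (Structure.RelMap v.2.1 (fun i => Sum.map id f (v.2.2 i)) ↔ b = true))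
    (hN : Nice l n N d k) (W : World N M d) (hW : Inv W L s)
    (hl : (2 * Nat.card R.C.N + 1) ^ 2 < l) : False := by
  obtain ⟨hC, hline⟩ := small_of_size (by omega) R hlt
  have main : ∀ m, ∀ Γ ∈ R.lines, R.order Γ = m → ∀ f : Fin n → Fin N,
      Set.InjOn f (supp n Γ) → ∃ x ∈ liftL R.C Γ f, (ext hC N).ctr l x := by
    intro m
    induction m using Nat.strong_induction_on with
    | _ m ih =>
      intro Γ hΓ hm f hf
      refine step_true hC hψ (by omega) (by omega) (by omega) hN W hW hl hD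
        (P := {Δ | Δ ∈ R.lines ∧ R.order Δ < R.order Γ}) (fun Δ hΔ => hline Δ hΔ.1) ?_
        (hline Γ hΓ) hf (R.step Γ hΓ)
      rintro Δ ⟨hΔ1, hΔ2⟩ g hg
      exact ih (R.order Δ) (by omega) Δ hΔ1 rfl g hg
  have hpos : 0 < N := by omega
  obtain ⟨e, -, he⟩ := exists_extend ∅ (supp n (∅ : Set (Lit R.C.N)))
    (Finset.empty_subset _) (fun _ => (⟨0, hpos⟩ : Fin N)) (by simp) (Or.inr (by
      have := hline ∅ R.empty_mem
      rw [Nat.card_fin]
      omega))
  obtain ⟨x, hx, -⟩ := main _ ∅ R.empty_mem rfl e he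
  have h1 : liftL R.C (∅ : Set (Lit R.C.N)) e = ∅ := lift_empty _ _
  rw [h1] at hx
  exact hx

end Pool.H93.CG
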