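import Pool.Agent.H93.CG.Defs
import Pool.Agent.H93.SY.World
import Pool.Agent.H93.SY.PermExt
import Pool.Agent.H93.SY.Rep

/-!
# Basic facts on supports of nodes (copies for the circuits with symmetric gates)
-/

set_option autoImplicit false

namespace Pool.H93.CG

open Pool.H93.SY (Lit Atom tv supp supp_fix supp_smul supp_min supp_card_lt Fixes fixes_supp
  exists_even_perm exists_extend)
open scoped Pointwise

variable {L : FirstOrder.Language.{0, 0}} {s n : ℕ} {C : Circuit L s n}

theorem smul_node {N : Type} [MulAction (Equiv.Perm (Fin n)) N] (σ : Equiv.Perm (Fin n))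
    (x : Lit N) : (σ • x).node = σ • x.node := rfl

theorem smul_pos {N : Type} [MulAction (Equiv.Perm (Fin n)) N] (σ : Equiv.Perm (Fin n))
    (x : Lit N) : (σ • x).pos = x.pos := rfl

theorem supp_lit (x : Lit C.N) : supp n x = supp n x.node := by
  have h : MulAction.stabilizer (Equiv.Perm (Fin n)) x =
      MulAction.stabilizer (Equiv.Perm (Fin n)) x.node := by
    ext σ
    rw [MulAction.mem_stabilizer_iff, MulAction.mem_stabilizer_iff]
    constructor
    · intro h1
      exact congrArg Lit.node h1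
    · intro h1
      exact Lit.ext h1 rfl
  unfold Pool.H93.SY.supp
  rw [h]

theorem fixes_and (hn : 2 ≤ n) {a : C.N} {S : Set (Lit C.N)} (h : C.gate a = .and S) :
    Fixes (supp n a) S := by
  intro σ h1 h2
  have h3 := C.gate_smul σ a
  rw [supp_fix hn a σ h1 h2, h] at h3
  have h4 : (Gate.and S : Gate (Atom L (Fin s ⊕ Fin n)) C.N) = .and (σ • S) := h3
  injection h4 with h5
  exact h5.symm

theorem fixes_sym (hn : 2 ≤ n) {a : C.N} {A : Set ℕ} {S : Set (Lit C.N)}
    (h : C.gate a = .sym A S) : Fixes (supp n a) S := by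
  intro σ h1 h2
  have h3 := C.gate_smul σ a
  rw [supp_fix hn a σ h1 h2, h] at h3
  have h4 : (Gate.sym A S : Gate (Atom L (Fin s ⊕ Fin n)) C.N) = .sym A (σ • S) := h3
  injection h4 with h5 h6
  exact h6.symm

theorem args_mem {a : C.N} (hn : (supp n a).card + 3 ≤ n) {v : Atom L (Fin s ⊕ Fin n)}
    (h : C.gate a = .var v) (i : Fin v.1) {p : Fin n} (hp : v.2.2 i = Sum.inr p) :
    p ∈ supp n a := by
  by_contra hpa
  have hD : (insert p (supp n a)).card + 2 ≤ n := by
    rw [Finset.card_insert_of_notMem hpa]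
    omega
  obtain ⟨q, hq⟩ : ∃ q, q ∉ insert p (supp n a) := by
    by_contra hcon
    push Not at hcon
    have h1 := Finset.card_le_card (fun x _ => hcon x : (Finset.univ : Finset (Fin n)) ⊆ _)
    rw [Finset.card_univ, Fintype.card_fin] at h1
    omega
  rw [Finset.mem_insert, not_or] at hq
  obtain ⟨σ, hσ1, hσ2⟩ := exists_even_perm (insert p (supp n a)) (Function.update id p q) (by
    intro x hx y hy hxy
    have hx' : x = p ∨ x ∈ supp n a := Finset.mem_insert.1 hx
    have hy' : y = p ∨ y ∈ supp n a := Finset.mem_insert.1 hy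
    by_cases hxp : x = p
    · by_cases hyp : y = p
      · rw [hxp, hyp]
      · rw [hxp, Function.update_self, Function.update_of_ne hyp] at hxy
        exact absurd (hy'.resolve_left hyp) (by rw [← show q = y from hxy]; exact hq.2)
    · by_cases hyp : y = p
      · rw [hyp, Function.update_self, Function.update_of_ne hxp] at hxy
        exact absurd (hx'.resolve_left hxp) (by rw [show x = q from hxy]; exact hq.2)
      · rw [Function.update_of_ne hxp, Function.update_of_ne hyp] at hxy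
        exact hxy) hD
  have h1 : σ • a = a := by
    refine supp_fix (by omega) a σ hσ1 ?_
    intro j hj
    have hjp : j ≠ p := by
      rintro rfl
      exact hpa hj
    rw [hσ2 j (Finset.mem_insert_of_mem hj), Function.update_of_ne hjp]
    rfl
  have h2 := C.gate_smul σ a
  rw [h1, h] at h2
  have h3 : (Gate.var v : Gate (Atom L (Fin s ⊕ Fin n)) C.N) = .var (v.act σ) := h2
  injection h3 with h4
  have h5 : v.2.2 = fun i => Sum.map id σ (v.2.2 i) := by
    obtain ⟨r, R, w⟩ := v
    have h6 : (⟨r, R, w⟩ : Atom L (Fin s ⊕ Fin n)) = ⟨r, R, fun i => Sum.map id σ (w i)⟩ := h4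
    injection h6 with h7 h8
    exact (Prod.mk.inj h8).2
  have h6 := congrFun h5 i
  rw [hp] at h6
  have h7 : (Sum.inr p : Fin s ⊕ Fin n) = Sum.inr (σ p) := h6
  injection h7 with h8
  rw [hσ2 p (Finset.mem_insert_self _ _), Function.update_self] at h8
  exact hq.1 h8.symm

theorem transfer_even {M : Type} {k : ℕ} (hnode : ∀ a : C.N, (supp n a).card ≤ k) {S : Set (Lit C.N)}
    {A A' : Finset (Fin n)} (hS : Fixes A S) (hA : A ⊆ A') (hA' : A'.card + k + 2 ≤ n)
    {e : Fin n → M} (he : Set.InjOn e A') {Q : Lit C.N → (Fin n → M) → Prop}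
    (hQ : ∀ x f f', (∀ i ∈ supp n x.node, f i = f' i) → Q x f → Q x f')
    (hQσ : ∀ (σ : Equiv.Perm (Fin n)) x f, Equiv.Perm.sign σ = 1 → Q x f →
      Q (σ • x) (fun i => f (σ⁻¹ i)))
    (h : ∃ x ∈ S, ∃ f : Fin n → M, (∀ i ∈ A, f i = e i) ∧
      Set.InjOn f (A ∪ supp n x.node : Finset (Fin n)) ∧ Q x f) :
    ∃ x ∈ S, ∃ f : Fin n → M, (∀ i ∈ A', f i = e i) ∧
      Set.InjOn f (A' ∪ supp n x.node : Finset (Fin n)) ∧ Q x f := by
  classical
  obtain ⟨x, hx, f, hfe, hfi, hQx⟩ := h
  have hBk : (supp n x.node).card ≤ k := hnode x.node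
  have hfi' : ∀ i ∈ A ∪ supp n x.node, ∀ j ∈ A ∪ supp n x.node, f i = f j → i = j := by
    intro i hi j hj hij
    exact hfi (Finset.mem_coe.2 hi) (Finset.mem_coe.2 hj) hij
  have he' : ∀ i ∈ A', ∀ j ∈ A', e i = e j → i = j := by
    intro i hi j hj hij
    exact he (Finset.mem_coe.2 hi) (Finset.mem_coe.2 hj) hij
  -- an injection of the support into the points outside `A'`
  obtain ⟨g, hg⟩ : ∃ g : Fin n → {j : Fin n // j ∉ A'}, Set.InjOn g (supp n x.node) := by
    have hcard : Nat.card {j : Fin n // j ∉ A'} = n - A'.card := by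
      rw [Nat.card_eq_fintype_card, Fintype.card_subtype_compl, Fintype.card_fin,
        Fintype.card_coe]
    have hpos : 0 < Nat.card {j : Fin n // j ∉ A'} := by omega
    obtain ⟨y⟩ := (Nat.card_pos_iff.1 hpos).1
    obtain ⟨g, -, hg⟩ := exists_extend (M := {j : Fin n // j ∉ A'}) ∅ (supp n x.node)
      (Finset.empty_subset _) (fun _ => y) (by intro a ha; simp at ha)
      (Or.inr (by rw [hcard]; omega))
    exact ⟨g, hg⟩
  let τ : Fin n → Fin n := fun i =>
    if i ∈ A then i else if hj : ∃ j ∈ A', e j = f i then hj.choose else (g i).1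
  have P1 : ∀ i, (∃ j ∈ A', e j = f i) → τ i ∈ A' ∧ e (τ i) = f i := by
    intro i hj
    by_cases hi : i ∈ A
    · have h1 : τ i = i := if_pos hi
      rw [h1]
      exact ⟨hA hi, (hfe i hi).symm⟩
    · have h1 : τ i = hj.choose := by
        show (if i ∈ A then i else if hj : ∃ j ∈ A', e j = f i then hj.choose else (g i).1) = _
        rw [if_neg hi, dif_pos hj]
      rw [h1]
      exact hj.choose_spec
  have P2 : ∀ i, (¬ ∃ j ∈ A', e j = f i) → i ∉ A ∧ τ i = (g i).1 := by
    intro i hj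
    have hi : i ∉ A := fun hi => hj ⟨i, hA hi, (hfe i hi).symm⟩
    refine ⟨hi, ?_⟩
    show (if i ∈ A then i else if hj : ∃ j ∈ A', e j = f i then hj.choose else (g i).1) = _
    rw [if_neg hi, dif_neg hj]
  have hτ : Set.InjOn τ (A ∪ supp n x.node : Finset (Fin n)) := by
    intro i hi i' hi' hii
    have hi1 : i ∈ A ∪ supp n x.node := Finset.mem_coe.1 hi
    have hi2 : i' ∈ A ∪ supp n x.node := Finset.mem_coe.1 hi'
    by_cases h1 : ∃ j ∈ A', e j = f i <;> by_cases h2 : ∃ j ∈ A', e j = f i'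
    · refine hfi' i hi1 i' hi2 ?_
      rw [← (P1 i h1).2, ← (P1 i' h2).2, hii]
    · have h3 := (P1 i h1).1
      rw [hii, (P2 i' h2).2] at h3
      exact absurd h3 (g i').2
    · have h3 := (P1 i' h2).1
      rw [← hii, (P2 i h1).2] at h3
      exact absurd h3 (g i).2
    · rw [(P2 i h1).2, (P2 i' h2).2] at hii
      have h3 : i ∈ supp n x.node := (Finset.mem_union.1 hi1).resolve_left (P2 i h1).1
      have h4 : i' ∈ supp n x.node := (Finset.mem_union.1 hi2).resolve_left (P2 i' h2).1
      exact hg (Finset.mem_coe.2 h3) (Finset.mem_coe.2 h4) (Subtype.ext hii)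
  obtain ⟨σ, hσ1, hσ2⟩ := exists_even_perm (A ∪ supp n x.node) τ hτ (by
    have h1 := Finset.card_union_le A (supp n x.node)
    have h2 := Finset.card_le_card hA
    omega)
  have hσA : ∀ i ∈ A, σ i = i := by
    intro i hi
    rw [hσ2 i (Finset.mem_union_left _ hi)]
    exact if_pos hi
  have hS' : σ • S = S := hS σ hσ1 hσA
  let f' : Fin n → M := fun i => if i ∈ A' then e i else f (σ⁻¹ i)
  have hf'A : ∀ i ∈ A', f' i = e i := fun i hi => if_pos hi
  have hf'σ : ∀ i ∈ A ∪ supp n x.node, f' (σ i) = f i := by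
    intro i hi
    by_cases h1 : ∃ j ∈ A', e j = f i
    · have h2 := P1 i h1
      rw [← hσ2 i hi] at h2
      rw [hf'A _ h2.1, h2.2]
    · have h2 := (P2 i h1).2
      rw [← hσ2 i hi] at h2
      have h3 : σ i ∉ A' := by
        rw [h2]
        exact (g i).2
      show (if σ i ∈ A' then e (σ i) else f (σ⁻¹ (σ i))) = f i
      rw [if_neg h3]
      have h4 : σ⁻¹ (σ i) = i := σ.symm_apply_apply i
      rw [h4]
  have hsupp : supp n (σ • x).node = (supp n x.node).image σ := by
    rw [smul_node, supp_smul]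
  refine ⟨σ • x, ?_, f', hf'A, ?_, ?_⟩
  · rw [← hS']
    exact Set.smul_mem_smul_set hx
  · have hout : ∀ p ∈ A' ∪ supp n (σ • x).node, p ∉ A' →
        ∃ i ∈ supp n x.node, σ i = p ∧ (¬ ∃ j ∈ A', e j = f i) ∧ f' p = f i := by
      intro p hp hpA
      have h1 := (Finset.mem_union.1 hp).resolve_left hpA
      rw [hsupp] at h1
      obtain ⟨i, hi, rfl⟩ := Finset.mem_image.1 h1
      have hi' : i ∈ A ∪ supp n x.node := Finset.mem_union_right _ hi
      refine ⟨i, hi, rfl, ?_, hf'σ i hi'⟩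
      intro hj
      have h2 := (P1 i hj).1
      rw [← hσ2 i hi'] at h2
      exact hpA h2
    intro p hp q hq hpq
    have hp' : p ∈ A' ∪ supp n (σ • x).node := Finset.mem_coe.1 hp
    have hq' : q ∈ A' ∪ supp n (σ • x).node := Finset.mem_coe.1 hq
    by_cases h1 : p ∈ A' <;> by_cases h2 : q ∈ A'
    · rw [hf'A p h1, hf'A q h2] at hpq
      exact he' p h1 q h2 hpq
    · obtain ⟨i, -, -, h3, h4⟩ := hout q hq' h2
      rw [hf'A p h1, h4] at hpq
      exact absurd ⟨p, h1, hpq⟩ h3
    · obtain ⟨i, -, -, h3, h4⟩ := hout p hp' h1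
      rw [hf'A q h2, h4] at hpq
      exact absurd ⟨q, h2, hpq.symm⟩ h3
    · obtain ⟨i, hi, h3, -, h4⟩ := hout p hp' h1
      obtain ⟨j, hj, h5, -, h6⟩ := hout q hq' h2
      rw [h4, h6] at hpq
      rw [← h3, ← h5, hfi' i (Finset.mem_union_right _ hi) j (Finset.mem_union_right _ hj) hpq]
  · refine hQ (σ • x) (fun i => f (σ⁻¹ i)) f' ?_ (hQσ σ x f hσ1 hQx)
    intro i hi
    rw [hsupp] at hi
    obtain ⟨j, hj, rfl⟩ := Finset.mem_image.1 hi
    show f (σ⁻¹ (σ j)) = f' (σ j)
    have h4 : σ⁻¹ (σ j) = j := σ.symm_apply_apply j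
    rw [h4, hf'σ j (Finset.mem_union_right _ hj)]

end Pool.H93.CG
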