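import Pool.Agent.H93.CG.Psu
import Pool.Agent.H88.SY.OrbitCount

/-!
# [H93 CG CNT] Counting placements

PROOF of `pcount` (complete): this is the proof of `pdrop` in `Pool/Agent/H93/SY/LiftD.lean` (proved there for the circuits
with modular gates, for sets `T` of nodes and sums of weights; copy it), with sets of signed nodes in place of sets of nodes
(`supp n x.node`; permutations act on signed nodes, `σ • x = ⟨σ • x.node, x.pos⟩`) and with the number of elements in
place of the sum of the weights (values in `ℕ`, `c = 1`). The steps: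
 Let `B x = supp n x.node \ A` (less than `k` points). For a set `D` of points outside `A` let `F D` be the number of the
`x ∈ S` with `B x = D`. An even permutation which fixes the points of `A` maps `S` to `S` (`hS`), so `F (D.image g) = F D`, so
`F D = G D.card` for all `D` disjoint from `A` (`Pool.Agent.H88.SY.eq_of_card_eq`, see `pdrop`), `G j = 0` for `k ≤ j`
(`hC.node`), and `S.ncard = ∑ j ∈ range k, (n - A.card).choose j * G j` (`hsum1` in `pdrop`).
 Let `X = A.image f`, `D'` disjoint from `X`, `D'.card = j`. If `k ≤ j` both sides are `0` (`psupp C z.node` has less than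
`k` points, `psupp_card`). Otherwise choose `D ⊆ Aᶜ` with `D.card = j` and `g₀` equal to `f` on `A` and mapping `D` bijectively onto
`D'` (as in `hfib` of `pdrop`). Then `x ↦ plit C x g₀` is a bijection from `{x ∈ S | B x = D}` to
`{z ∈ lift C S A f | psupp C z.node \ X = D'}`:
  - it maps into the set: `psupp C (pmk C x.node g₀) = (supp n x.node).image g₀`, and this without `X` is
    `(supp n x.node \ A).image g₀ = D'` (`g₀` is injective on `A ∪ D`);
  - injective: `pmk_fix` as in `pdrop`;
  - surjective: `z = plit C x g`, `g = f` on `A`, `g` injective on `A ∪ supp n x.node`, `(supp n x.node \ A).image g = D'`: as in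
    `pdrop` there is an even `σ` which fixes the points of `A` with `g₀ (σ i) = g i` on `A ∪ supp n x.node`, so
    `z = plit C (σ • x) g₀` (`pmk_eq_iff`), `σ • x ∈ S`.
-/

set_option autoImplicit false

namespace Pool.H93.CG

open Pool.H93.SY (Lit Atom tv supp supp_fix supp_smul supp_min supp_card_lt Fixes fixes_supp
  exists_even_perm exists_extend qd)
open scoped Pointwise
open FirstOrder.Language

variable {L : FirstOrder.Language.{0, 0}} {s n : ℕ} {C : Circuit L s n} {n' k : ℕ}

private theorem finite_lit' {N : Type} [Finite N] : Finite (Lit N) :=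
  Finite.of_injective (fun x : Lit N => (x.node, x.pos)) (by
    intro x y h
    have h1 := Prod.mk.inj h
    exact Lit.ext h1.1 h1.2)

private theorem sum_powerset_trunc {α : Type*} [DecidableEq α] (U : Finset α) (k : ℕ)
    (G : ℕ → ℕ) (hG : ∀ j, k ≤ j → G j = 0) :
    ∑ D ∈ U.powerset, G D.card = ∑ j ∈ Finset.range k, U.card.choose j * G j := by
  rw [Finset.sum_powerset_apply_card]
  have h1 : ∑ j ∈ Finset.range (U.card + 1), U.card.choose j • G j =
      ∑ j ∈ Finset.range (U.card + 1 + k), U.card.choose j * G j := by
    refine Finset.sum_subset_zero_on_sdiff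
      (Finset.range_subset_range.2 (Nat.le_add_right _ _)) ?_ ?_
    · intro j hj
      rw [Finset.mem_sdiff, Finset.mem_range, Finset.mem_range, not_lt] at hj
      rw [Nat.choose_eq_zero_of_lt (by omega), zero_mul]
    · intro j _
      rw [smul_eq_mul]
  have h2 : ∑ j ∈ Finset.range k, U.card.choose j * G j =
      ∑ j ∈ Finset.range (U.card + 1 + k), U.card.choose j * G j := by
    refine Finset.sum_subset_zero_on_sdiff
      (Finset.range_subset_range.2 (Nat.le_add_left _ _)) ?_ ?_
    · intro j hj
      rw [Finset.mem_sdiff, Finset.mem_range, Finset.mem_range, not_lt] at hj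
      rw [hG j hj.2, mul_zero]
    · intro j _
      rfl
  rw [h1, h2]

theorem pcount (hC : Small C k) {S : Set (Lit C.N)} {A : Finset (Fin n)} (hS : Fixes A S)
    (hA : A.card ≤ 8 * k) {f : Fin n → Fin n'} (hf : Set.InjOn f A) :
    ∃ G : ℕ → ℕ, (∀ j, k ≤ j → G j = 0) ∧
      S.ncard = ∑ j ∈ Finset.range k, (n - A.card).choose j * G j ∧
      ∀ D' : Finset (Fin n'), Disjoint D' (A.image f) →
        {z | z ∈ lift C S A f ∧ psupp C z.node \ A.image f = D'}.ncard = G D'.card := by
  classical
  have hfl : Finite (Lit C.N) := finite_lit'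
  have hfl' : Finite (Lit (PN C n')) := finite_lit'
  have := Fintype.ofFinite (Lit C.N)
  have := Fintype.ofFinite (Lit (PN C n'))
  have hroom := hC.room
  have hn2 : 2 ≤ n := by omega
  obtain ⟨TF, hTF⟩ : ∃ TF : Finset (Lit C.N), TF = Finset.univ.filter (· ∈ S) := ⟨_, rfl⟩
  have hmT : ∀ x, x ∈ TF ↔ x ∈ S := by
    intro x
    rw [hTF, Finset.mem_filter]
    simp
  have hTc : S.ncard = TF.card := by
    rw [← Set.ncard_coe_finset]
    congr 1
    ext x
    rw [Finset.mem_coe, hmT]
  have hSi : ∀ σ : Equiv.Perm (Fin n), Equiv.Perm.sign σ = 1 → (∀ i ∈ A, σ i = i) →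
      ∀ x ∈ S, σ • x ∈ S := by
    intro σ h1 h2 x hx
    have h3 := hS σ h1 h2
    rw [← h3]
    exact Set.smul_mem_smul_set hx
  -- the number of the members with given support outside `A`
  obtain ⟨FD, hFD⟩ : ∃ FD : Finset (Fin n) → ℕ, ∀ D, FD D =
      (TF.filter (fun x => supp n x.node \ A = D)).card := ⟨_, fun _ => rfl⟩
  have hFDinv : ∀ g : Equiv.Perm (Fin n), Equiv.Perm.sign g = 1 → (∀ a ∈ A, g a = a) →
      ∀ D, FD (D.image g) = FD D := by
    intro g hg1 hg2 D
    have hgA : A.image g = A := by
      ext y
      rw [Finset.mem_image]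
      constructor
      · rintro ⟨a, ha, rfl⟩
        rw [hg2 a ha]
        exact ha
      · intro hy
        exact ⟨y, hy, hg2 y hy⟩
    have himg : ∀ x : Lit C.N, supp n (g • x).node \ A = (supp n x.node \ A).image g := by
      intro x
      rw [smul_node, supp_smul, Finset.image_sdiff _ _ g.injective, hgA]
    have hg1' : Equiv.Perm.sign g⁻¹ = 1 := by
      rw [Equiv.Perm.sign_inv]
      exact hg1
    have hg2' : ∀ a ∈ A, g⁻¹ a = a := by
      intro a ha
      rw [Equiv.Perm.inv_eq_iff_eq]
      exact (hg2 a ha).symm
    rw [hFD, hFD]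
    symm
    refine Finset.card_bij (fun x _ => g • x) ?_ ?_ ?_
    · intro x hx
      rw [Finset.mem_filter, hmT] at hx ⊢
      exact ⟨hSi g hg1 hg2 x hx.1, by rw [himg, hx.2]⟩
    · intro x _ y _ hxy
      exact MulAction.injective g hxy
    · intro y hy
      rw [Finset.mem_filter, hmT] at hy
      refine ⟨g⁻¹ • y, ?_, smul_inv_smul g y⟩
      rw [Finset.mem_filter, hmT]
      refine ⟨hSi g⁻¹ hg1' hg2' y hy.1, ?_⟩
      have h1 := himg (g⁻¹ • y)
      rw [smul_inv_smul, hy.2] at h1
      exact (Finset.image_injective g.injective h1).symm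
  have hFDbig : ∀ D : Finset (Fin n), k ≤ D.card → FD D = 0 := by
    intro D hD
    rw [hFD, Finset.filter_eq_empty_iff.2, Finset.card_empty]
    intro x _ hx
    have h1 := hC.node x.node
    have h2 := Finset.card_le_card (Finset.sdiff_subset : supp n x.node \ A ⊆ supp n x.node)
    rw [hx] at h2
    omega
  obtain ⟨G, hG, hG0⟩ : ∃ G : ℕ → ℕ, (∀ D : Finset (Fin n), Disjoint D A →
      FD D = G D.card) ∧ ∀ j, k ≤ j → G j = 0 := by
    have h1 : ∀ j : ℕ, ∃ v : ℕ, (∀ D : Finset (Fin n), Disjoint D A → D.card = j →
        FD D = v) ∧ (k ≤ j → v = 0) := by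
      intro j
      rcases Nat.lt_or_ge j k with hj | hj
      · obtain ⟨D0, hD0, hD0c⟩ : ∃ D0 : Finset (Fin n), D0 ⊆ Aᶜ ∧ D0.card = j := by
          apply Finset.exists_subset_card_eq
          rw [Finset.card_compl, Fintype.card_fin]
          omega
        have hD0' : Disjoint D0 A := by
          rw [Finset.disjoint_left]
          intro a ha
          exact Finset.mem_compl.1 (hD0 ha)
        refine ⟨FD D0, fun D hD hDc => ?_, fun h => absurd h (by omega)⟩
        exact Pool.Agent.H88.SY.eq_of_card_eq hFDinv (j := j) (by omega) D D0 hD hD0' hDc hD0c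
      · exact ⟨0, fun D _ hDc => hFDbig D (by omega), fun _ => rfl⟩
    choose G hG1 hG2 using h1
    exact ⟨G, fun D hD => hG1 _ D hD rfl, hG2⟩
  refine ⟨G, hG0, ?_, ?_⟩
  · have h1 : TF.card = ∑ D ∈ (Aᶜ : Finset (Fin n)).powerset, FD D := by
      rw [Finset.card_eq_sum_card_fiberwise (s := TF) (t := (Aᶜ : Finset (Fin n)).powerset)
        (f := fun x => supp n x.node \ A) (fun x _ => by
          rw [Finset.mem_coe, Finset.mem_powerset]
          intro i hi
          exact Finset.mem_compl.2 (Finset.mem_sdiff.1 hi).2)]
      exact Finset.sum_congr rfl fun D _ => (hFD D).symm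
    rw [hTc, h1]
    have h2 : (Aᶜ : Finset (Fin n)).card = n - A.card := by
      rw [Finset.card_compl, Fintype.card_fin]
    rw [← h2, ← sum_powerset_trunc _ k G hG0]
    refine Finset.sum_congr rfl fun D hD => hG D ?_
    rw [Finset.disjoint_left]
    intro a ha
    exact Finset.mem_compl.1 (Finset.mem_powerset.1 hD ha)
  · intro D' hD'd
    -- the points of a placement outside the image of `A`
    have himf : ∀ (x : Lit C.N) (g : Fin n → Fin n'), (∀ i ∈ A, g i = f i) →
        Set.InjOn g (A ∪ supp n x.node : Finset (Fin n)) →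
        psupp C (plit C x g).node \ A.image f = (supp n x.node \ A).image g := by
      intro x g h1 h2
      show (supp n x.node).image g \ A.image f = (supp n x.node \ A).image g
      ext y
      rw [Finset.mem_sdiff, Finset.mem_image, Finset.mem_image, Finset.mem_image]
      constructor
      · rintro ⟨⟨i, hi, rfl⟩, h3⟩
        refine ⟨i, Finset.mem_sdiff.2 ⟨hi, fun hiA => h3 ⟨i, hiA, (h1 i hiA).symm⟩⟩, rfl⟩
      · rintro ⟨i, hi, rfl⟩
        rw [Finset.mem_sdiff] at hi
        refine ⟨⟨i, hi.1, rfl⟩, ?_⟩
        rintro ⟨a, ha, hai⟩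
        rw [← h1 a ha] at hai
        have h3 := h2 (Finset.mem_coe.2 (Finset.mem_union_left _ ha))
          (Finset.mem_coe.2 (Finset.mem_union_right _ hi.1)) hai
        exact hi.2 (h3 ▸ ha)
    have hcardB : ∀ (x : Lit C.N) (g : Fin n → Fin n'),
        Set.InjOn g (A ∪ supp n x.node : Finset (Fin n)) →
        ((supp n x.node \ A).image g).card = (supp n x.node \ A).card := by
      intro x g h2
      refine Finset.card_image_of_injOn (h2.mono ?_)
      rw [Finset.coe_subset]
      exact Finset.sdiff_subset.trans Finset.subset_union_right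
    have hD' : D' ⊆ ((A.image f)ᶜ : Finset (Fin n')) := by
      intro y hy
      exact Finset.mem_compl.2 (Finset.disjoint_left.1 hD'd hy)
    obtain ⟨LF, hLF⟩ : ∃ LF : Finset (Lit (PN C n')), LF = Finset.univ.filter
        (fun z => z ∈ lift C S A f ∧ psupp C z.node \ A.image f = D') := ⟨_, rfl⟩
    have hmL : ∀ z, z ∈ LF ↔ z ∈ lift C S A f ∧ psupp C z.node \ A.image f = D' := by
      intro z
      rw [hLF, Finset.mem_filter]
      simp
    have hLc : {z | z ∈ lift C S A f ∧ psupp C z.node \ A.image f = D'}.ncard = LF.card := by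
      rw [← Set.ncard_coe_finset]
      congr 1
      ext z
      rw [Finset.mem_coe, hmL]
      rfl
    rw [hLc]
    rcases Nat.lt_or_ge D'.card k with hj | hj
    · obtain ⟨D, hD, hDc⟩ : ∃ D : Finset (Fin n), D ⊆ Aᶜ ∧ D.card = D'.card := by
        apply Finset.exists_subset_card_eq
        rw [Finset.card_compl, Fintype.card_fin]
        omega
      have hDA : ∀ i ∈ D, i ∉ A := fun i hi => Finset.mem_compl.1 (hD hi)
      have hDdis : Disjoint D A := by
        rw [Finset.disjoint_left]
        exact hDA
      let e0 : {x // x ∈ D} ≃ {x // x ∈ D'} := Fintype.equivOfCardEq (by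
        rw [Fintype.card_coe, Fintype.card_coe, hDc])
      let g₀ : Fin n → Fin n' := fun i => if h : i ∈ D then (e0 ⟨i, h⟩).1 else f i
      have hg₀D : ∀ i (h : i ∈ D), g₀ i = (e0 ⟨i, h⟩).1 := fun i h => dif_pos h
      have hg₀A : ∀ i ∈ A, g₀ i = f i := fun i hi => dif_neg fun h => hDA i h hi
      have hg₀D' : ∀ i ∈ D, g₀ i ∈ D' := by
        intro i hi
        rw [hg₀D i hi]
        exact (e0 ⟨i, hi⟩).2
      have hg₀inj : Set.InjOn g₀ (A ∪ D : Finset (Fin n)) := by
        intro i hi j hj hij
        have hi' : i ∈ A ∨ i ∈ D := Finset.mem_union.1 hi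
        have hj' : j ∈ A ∨ j ∈ D := Finset.mem_union.1 hj
        rcases hi' with hi' | hi'
        · rcases hj' with hj' | hj'
          · rw [hg₀A i hi', hg₀A j hj'] at hij
            exact hf hi' hj' hij
          · rw [hg₀A i hi'] at hij
            have h1 := Finset.mem_compl.1 (hD' (hg₀D' j hj'))
            exact absurd (Finset.mem_image.2 ⟨i, hi', hij⟩) h1
        · rcases hj' with hj' | hj'
          · rw [hg₀A j hj'] at hij
            have h1 := Finset.mem_compl.1 (hD' (hg₀D' i hi'))
            exact absurd (Finset.mem_image.2 ⟨j, hj', hij.symm⟩) h1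
          · rw [hg₀D i hi', hg₀D j hj'] at hij
            have h1 := e0.injective (Subtype.ext hij)
            exact congrArg Subtype.val h1
      have hg₀im : D.image g₀ = D' := by
        apply Finset.eq_of_subset_of_card_le
        · intro y hy
          obtain ⟨i, hi, rfl⟩ := Finset.mem_image.1 hy
          exact hg₀D' i hi
        · rw [Finset.card_image_of_injOn (hg₀inj.mono (by
            rw [Finset.coe_subset]
            exact Finset.subset_union_right)), hDc]
      have hin : ∀ x : Lit C.N, supp n x.node \ A = D →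
          Set.InjOn g₀ (A ∪ supp n x.node : Finset (Fin n)) := by
        intro x hx
        rw [← Finset.union_sdiff_self_eq_union, hx]
        exact hg₀inj
      have hGD : G D'.card = FD D := by
        rw [← hDc]
        exact (hG D hDdis).symm
      rw [hGD, hFD]
      symm
      refine Finset.card_bij (fun x _ => plit C x g₀) ?_ ?_ ?_
      · intro x hx
        rw [Finset.mem_filter, hmT] at hx
        rw [hmL]
        refine ⟨⟨x, hx.1, g₀, hg₀A, hin x hx.2, rfl⟩, ?_⟩
        rw [himf x g₀ hg₀A (hin x hx.2), hx.2, hg₀im]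
      · intro x hx y hy he
        rw [Finset.mem_filter, hmT] at hx hy
        have hen0 := congrArg Lit.node he
        have hen : pmk C x.node g₀ = pmk C y.node g₀ := hen0
        have hep0 := congrArg Lit.pos he
        have hep : x.pos = y.pos := hep0
        obtain ⟨σ, hσ1, hσ2, hσ3, hσ4⟩ := pmk_fix hC hA (g := g₀) (h := g₀)
          (fun i _ => rfl) (hin x hx.2) (hin y hy.2) hen
        refine Lit.ext ?_ hep
        rw [← hσ3]
        symm
        refine supp_fix hn2 x.node σ hσ1 fun i hi => ?_
        by_cases hiA : i ∈ A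
        · exact hσ2 i hiA
        · have h1 : i ∈ D := by
            rw [← hx.2]
            exact Finset.mem_sdiff.2 ⟨hi, hiA⟩
          have h2 : σ i ∈ supp n y.node := by
            rw [← hσ3, supp_smul]
            exact Finset.mem_image_of_mem _ hi
          have h3 : σ i ∈ A ∪ D := by
            rw [← hy.2, Finset.union_sdiff_self_eq_union]
            exact Finset.mem_union_right _ h2
          exact hg₀inj (Finset.mem_coe.2 h3) (Finset.mem_coe.2 (Finset.mem_union_right _ h1))
            (hσ4 i hi)
      · intro z hz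
        rw [hmL] at hz
        obtain ⟨⟨x, hx, g, hg1, hg2, rfl⟩, hz2⟩ := hz
        rw [himf x g hg1 hg2] at hz2
        have hback : ∀ y : Fin n', y ∈ D' → ∃ i ∈ D, g₀ i = y := by
          intro y hy
          rw [← hg₀im] at hy
          obtain ⟨i, hi, h1⟩ := Finset.mem_image.1 hy
          exact ⟨i, hi, h1⟩
        have hgD' : ∀ i ∈ supp n x.node \ A, g i ∈ D' := by
          intro i hi
          rw [← hz2]
          exact Finset.mem_image_of_mem g hi
        have hτex : ∀ i : Fin n, ∃ j : Fin n, (i ∈ A → j = i) ∧
            (i ∈ supp n x.node \ A → j ∈ D ∧ g₀ j = g i) := by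
          intro i
          by_cases hiA : i ∈ A
          · exact ⟨i, fun _ => rfl, fun h => absurd hiA (Finset.mem_sdiff.1 h).2⟩
          · by_cases hib : i ∈ supp n x.node \ A
            · obtain ⟨j, hj, hj2⟩ := hback (g i) (hgD' i hib)
              exact ⟨j, fun h => absurd h hiA, fun _ => ⟨hj, hj2⟩⟩
            · exact ⟨i, fun h => absurd h hiA, fun h => absurd h hib⟩
        choose τ hτ1 hτ2 using hτex
        have hsplit : ∀ i ∈ A ∪ supp n x.node, i ∈ A ∨ i ∈ supp n x.node \ A := by
          intro i hi
          by_cases hiA : i ∈ A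
          · exact Or.inl hiA
          · exact Or.inr (Finset.mem_sdiff.2 ⟨(Finset.mem_union.1 hi).resolve_left hiA, hiA⟩)
        have hgτ : ∀ i ∈ A ∪ supp n x.node, g₀ (τ i) = g i := by
          intro i hi
          rcases hsplit i hi with h | h
          · rw [hτ1 i h, hg₀A i h, hg1 i h]
          · exact (hτ2 i h).2
        obtain ⟨σ, hσ1, hσ2⟩ := exists_even_perm (A ∪ supp n x.node) τ (by
          intro i hi j hj hij
          apply hg2 hi hj
          rw [← hgτ i hi, ← hgτ j hj, hij]) (by
          have := Finset.card_union_le A (supp n x.node)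
          have := hC.node x.node
          omega)
        have hσA : ∀ i ∈ A, σ i = i := by
          intro i hi
          rw [hσ2 i (Finset.mem_union_left _ hi), hτ1 i hi]
        have hσAi : A.image σ = A := by
          ext y
          rw [Finset.mem_image]
          constructor
          · rintro ⟨a, ha, rfl⟩
            rw [hσA a ha]
            exact ha
          · intro hy
            exact ⟨y, hy, hσA y hy⟩
        have hsub : (supp n x.node \ A).image σ = D := by
          apply Finset.eq_of_subset_of_card_le
          · intro y hy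
            obtain ⟨i, hi, rfl⟩ := Finset.mem_image.1 hy
            rw [hσ2 i (Finset.mem_union_right _ (Finset.mem_sdiff.1 hi).1)]
            exact (hτ2 i hi).1
          · rw [Finset.card_image_of_injective _ σ.injective, hDc, ← hz2, hcardB x g hg2]
        refine ⟨σ • x, ?_, ?_⟩
        · rw [Finset.mem_filter, hmT]
          refine ⟨hSi σ hσ1 hσA x hx, ?_⟩
          have e1 : supp n (σ • x).node \ A = (supp n x.node \ A).image σ := by
            rw [smul_node, supp_smul, Finset.image_sdiff _ _ σ.injective, hσAi]
          rw [e1, hsub]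
        · symm
          have e2 : pmk C x.node g = pmk C (σ • x.node) g₀ := by
            refine pmk_eq_iff.2 ⟨σ, hσ1, rfl, fun i hi => ?_⟩
            rw [hσ2 i (Finset.mem_union_right _ hi), hgτ i (Finset.mem_union_right _ hi)]
          exact Lit.ext e2 rfl
    · rw [hG0 _ hj]
      rw [Finset.card_eq_zero, Finset.eq_empty_iff_forall_notMem]
      intro z hz
      rw [hmL] at hz
      obtain ⟨⟨x, hx, g, hg1, hg2, rfl⟩, hz2⟩ := hz
      rw [himf x g hg1 hg2] at hz2
      have h1 := hcardB x g hg2
      rw [hz2] at h1
      have h2 := hC.node x.node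
      have h3 := Finset.card_le_card (Finset.sdiff_subset : supp n x.node \ A ⊆ supp n x.node)
      omega

end Pool.H93.CG
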