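import Pool.Agent.H93.SY.Defs

/-!
# Symmetric refutations in the sequent calculus with all symmetric gates

Propositional formulas are given by the nodes of a finite circuit (subformulas are shared) with
conjunctions and symmetric gates of unbounded fan-in; negation is a sign. A symmetric gate `sym A S`
says that the number of true members of `S` is an element of `A`; `A` is any set of natural numbers
(threshold gates, exact counting gates, counting gates modulo any number). The propositional
variables are the atomic statements `R (a 1, …, a k)` about the points of the universe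
`Fin s ⊕ Fin n`. The permutations of the `n` points of `Fin n` act on the circuit and on the lines
of a refutation; the other `s` points are fixed.

Signed nodes `Lit`, atoms `Atom` and the value `tv` of a term are those of `Pool.H93.SY`.
-/

set_option autoImplicit false

namespace Pool.H93.CG

open Pool.H93.SY (Lit Atom tv)
open scoped Pointwise

/-- The label of a node: a variable, a conjunction of a set of signed nodes, or a symmetric gate
`sym A S`: the number of true members of `S` is an element of `A`. -/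
inductive Gate (V N : Type) : Type
  | var (v : V)
  | and (S : Set (Lit N))
  | sym (A : Set ℕ) (S : Set (Lit N))

/-- The signed nodes that enter a gate. -/
def Gate.children {V N : Type} : Gate V N → Set (Lit N)
  | .var _ => ∅
  | .and S => S
  | .sym _ S => S

/-- The action of a permutation of `Fin n` on labels. -/
def Gate.act {L : FirstOrder.Language.{0, 0}} {s n : ℕ} {N : Type}
    [MulAction (Equiv.Perm (Fin n)) N] (σ : Equiv.Perm (Fin n)) :
    Gate (Atom L (Fin s ⊕ Fin n)) N → Gate (Atom L (Fin s ⊕ Fin n)) N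
  | .var v => .var (v.act σ)
  | .and S => .and (σ • S)
  | .sym A S => .sym A (σ • S)

/-- A symmetric circuit over the universe `Fin s ⊕ Fin n`: a finite acyclic circuit on which the
permutations of `Fin n` act by automorphisms. -/
structure Circuit (L : FirstOrder.Language.{0, 0}) (s n : ℕ) where
  /-- the nodes -/
  N : Type
  [fin : Finite N]
  [act : MulAction (Equiv.Perm (Fin n)) N]
  /-- the label of a node -/
  gate : N → Gate (Atom L (Fin s ⊕ Fin n)) N
  /-- the level of a node -/
  rank : N → ℕ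
  rank_lt : ∀ a, ∀ x ∈ (gate a).children, rank x.node < rank a
  gate_smul : ∀ (σ : Equiv.Perm (Fin n)) (a : N), gate (σ • a) = (gate a).act σ

attribute [instance] Circuit.fin Circuit.act

/-- The signed node `x` represents the propositional translation of the formula over the universe
`Fin s ⊕ Fin n` under the valuation `v`: a quantifier is the conjunction of the instances at all
points (an instance may be represented by several nodes), an equality is the truth constant (empty
conjunction) or its negation, `φ → θ` is `¬(φ ∧ ¬θ)`. -/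
def Circuit.Rep {L : FirstOrder.Language.{0, 0}} [L.IsRelational] {s n : ℕ}
    (C : Circuit L s n) :
    ∀ {k : ℕ}, L.BoundedFormula Empty k → (Fin k → Fin s ⊕ Fin n) → Lit C.N → Prop
  | _, .falsum, _, x => x.pos = false ∧ C.gate x.node = .and ∅
  | _, .equal t₁ t₂, v, x => (x.pos = true ↔ tv v t₁ = tv v t₂) ∧ C.gate x.node = .and ∅
  | _, .rel R ts, v, x => x.pos = true ∧ C.gate x.node = .var ⟨_, R, fun i => tv v (ts i)⟩
  | _, .imp φ θ, v, x => x.pos = false ∧
      ∃ y z, C.Rep φ v y ∧ C.Rep θ v z ∧ C.gate x.node = .and {y, z.neg}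
  | _, .all φ, v, x => x.pos = true ∧ ∃ S : Set (Lit C.N), C.gate x.node = .and S ∧
      (∀ b, ∃ y ∈ S, C.Rep φ (Fin.snoc v b) y) ∧ ∀ y ∈ S, ∃ b, C.Rep φ (Fin.snoc v b) y

/-- The rules. A line is a set `Γ` of signed nodes, read as the disjunction of its members; it
follows in one step from the lines in `P`. The hypotheses are `ψ` over the universe
`Fin s ⊕ Fin n` (`hyp`) and the atoms and negated atoms in `D` (`fact`).
The rules for the symmetric gates:
* `cover`: for every number `c ≤ |S|` the line has a member `sym A S`, `c ∈ A`, or `¬ sym A S`,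
  `c ∉ A`;
* `unit`: `¬ x, sym A {x}` if `1 ∈ A`, and `x, sym A {x}` if `0 ∈ A`;
* `sum`: from all `sym (A b) (S b)`, `b ∈ T`, the sets `S b` disjoint: `sym A' (⋃ S b)`, if every
  choice of `c b ∈ A b` has its sum in `A'`;
* `dist` (distribution): `F` is a family of disjoint sets of size at most `J`, `B j X` is the node
  `sym {j} X`, and `u j` says that the number of `X ∈ F` with exactly `j` true members is in `A j`
  (`j ≤ J`); from all `u j`: `sym A' (⋃ F)`, if `∑ j * t j ∈ A'` for all `t j ∈ A j` with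
  `∑ t j = |F|`. -/
inductive Step {L : FirstOrder.Language.{0, 0}} [L.IsRelational] (ψ : L.Sentence) {s n : ℕ}
    (D : Set (Atom L (Fin s ⊕ Fin n) × Bool)) (C : Circuit L s n) (P : Set (Set (Lit C.N))) :
    Set (Lit C.N) → Prop
  | hyp {Γ : Set (Lit C.N)} {x : Lit C.N} : C.Rep ψ default x → x ∈ Γ → Step ψ D C P Γ
  | fact {Γ : Set (Lit C.N)} {a : C.N} {v : Atom L (Fin s ⊕ Fin n)} {b : Bool} :
      C.gate a = .var v → (v, b) ∈ D → ⟨a, b⟩ ∈ Γ → Step ψ D C P Γ
  | ident {Γ : Set (Lit C.N)} {a b : C.N} : C.gate a = C.gate b → ⟨a, true⟩ ∈ Γ →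
      ⟨b, false⟩ ∈ Γ → Step ψ D C P Γ
  | weak {Γ Δ : Set (Lit C.N)} : Δ ∈ P → Δ ⊆ Γ → Step ψ D C P Γ
  | cut {Γ : Set (Lit C.N)} {a : C.N} : insert ⟨a, true⟩ Γ ∈ P → insert ⟨a, false⟩ Γ ∈ P →
      Step ψ D C P Γ
  | andI {Γ S : Set (Lit C.N)} {a : C.N} : C.gate a = .and S → ⟨a, true⟩ ∈ Γ →
      (∀ x ∈ S, insert x Γ ∈ P) → Step ψ D C P Γ
  | andE {Γ S : Set (Lit C.N)} {a : C.N} : C.gate a = .and S → ⟨a, false⟩ ∈ Γ →
      Γ ∪ Lit.neg '' S ∈ P → Step ψ D C P Γ
  | cover {Γ S : Set (Lit C.N)} : (∀ c ≤ S.ncard, ∃ (a : C.N) (A : Set ℕ) (b : Bool),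
      C.gate a = .sym A S ∧ (c ∈ A ↔ b = true) ∧ ⟨a, b⟩ ∈ Γ) → Step ψ D C P Γ
  | unit {Γ : Set (Lit C.N)} {a : C.N} {A : Set ℕ} {x : Lit C.N} : C.gate a = .sym A {x} →
      ⟨a, true⟩ ∈ Γ → (1 ∈ A ∧ x.neg ∈ Γ) ∨ (0 ∈ A ∧ x ∈ Γ) → Step ψ D C P Γ
  | sum {Γ : Set (Lit C.N)} {a p : C.N} {T : Set C.N} {A : C.N → Set ℕ} {A' : Set ℕ}
      {S : C.N → Set (Lit C.N)} : (∀ b ∈ T, C.gate b = .sym (A b) (S b)) →
      T.PairwiseDisjoint S → C.gate p = .and ((fun b => ⟨b, true⟩) '' T) →
      C.gate a = .sym A' (⋃ b ∈ T, S b) →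
      (∀ c : C.N → ℕ, (∀ b ∈ T, c b ∈ A b) → ∑ᶠ b ∈ T, c b ∈ A') →
      ⟨p, false⟩ ∈ Γ → ⟨a, true⟩ ∈ Γ → Step ψ D C P Γ
  | dist {Γ : Set (Lit C.N)} {a : C.N} {F : Set (Set (Lit C.N))} {J : ℕ}
      {B : ℕ → Set (Lit C.N) → C.N} {u : ℕ → C.N} {A : ℕ → Set ℕ} {A' : Set ℕ} :
      F.PairwiseDisjoint id → (∀ X ∈ F, X.ncard ≤ J) →
      (∀ j ≤ J, ∀ X ∈ F, C.gate (B j X) = .sym {j} X) →
      (∀ j ≤ J, C.gate (u j) = .sym (A j) ((fun X => ⟨B j X, true⟩) '' F)) →
      C.gate a = .sym A' (⋃₀ F) →
      (∀ t : ℕ → ℕ, (∀ j ≤ J, t j ∈ A j) → ∑ j ∈ Finset.range (J + 1), t j = F.ncard →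
        ∑ j ∈ Finset.range (J + 1), j * t j ∈ A') →
      (∀ j ≤ J, ⟨u j, false⟩ ∈ Γ) → ⟨a, true⟩ ∈ Γ → Step ψ D C P Γ

/-- A refutation of the translation of `ψ` over the universe `Fin s ⊕ Fin n` and of the facts in
`D`, symmetric under the permutations of `Fin n`: a symmetric circuit and a set of lines, closed
under these permutations, each of which follows in one step from earlier ones; the empty line is
among them. -/
structure Refutation {L : FirstOrder.Language.{0, 0}} [L.IsRelational] (ψ : L.Sentence)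
    (s n : ℕ) (D : Set (Atom L (Fin s ⊕ Fin n) × Bool)) where
  /-- the circuit -/
  C : Circuit L s n
  /-- the lines -/
  lines : Set (Set (Lit C.N))
  smul_mem : ∀ (σ : Equiv.Perm (Fin n)), ∀ Γ ∈ lines, σ • Γ ∈ lines
  /-- the order of the lines -/
  order : Set (Lit C.N) → ℕ
  step : ∀ Γ ∈ lines, Step ψ D C {Δ | Δ ∈ lines ∧ order Δ < order Γ} Γ
  empty_mem : ∅ ∈ lines

/-- The size of a refutation: the number of nodes of the circuit plus the number of lines. -/
noncomputable def Refutation.size {L : FirstOrder.Language.{0, 0}} [L.IsRelational]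
    {ψ : L.Sentence} {s n : ℕ} {D : Set (Atom L (Fin s ⊕ Fin n) × Bool)}
    (R : Refutation ψ s n D) : ℕ :=
  Nat.card R.C.N + R.lines.ncard

end Pool.H93.CG
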