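import Pool.Agent.H93.CG.PcsB

/-!
# [H93 CG DA] The nodes `sym {j} X`, `X ∈ F`

`F` is a family of disjoint sets; for a fixed `j`: `B j X` is a node with label `sym {j} X` for `X ∈ F`; `u` has the label
`sym A₀ ((fun X => ⟨B j X, true⟩) '' F)`.

PROOFS (complete).
`dst_fix`. Let `σ` be even and fix the points of `supp n u`. `σ •` the set of `u` is itself (`fixes_sym`), so for `X ∈ F` there
is `Y ∈ F` with `σ • B X = B Y` (compare the nodes of `σ • ⟨B X, true⟩ = ⟨σ • B X, true⟩`). The labels: `sym {j} (σ • X) = sym {j} Y`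
(`C.gate_smul`), so `σ • X = Y ∈ F` and `σ • B X = B (σ • X)`. Hence `σ • F ⊆ F` as sets of sets, and equality because the same holds for
`σ⁻¹` (`Fixes` for `F : Set (Set (Lit C.N))`, pointwise action on sets of sets; `Set.mem_smul_set_iff_inv_smul_mem`).
`dst_fam`: `Fam C (supp n u) (B '' F) (fun _ => {j}) S` with `S b = ((C.gate b)).children` (`S (B X) = X` for `X ∈ F`): fixed by
`dst_fix`; the gates; disjointness: `B X = B Y` gives `X = Y` (labels), and `F` is pairwise disjoint.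
`dst_supp`. `supp n (B X) ⊆ supp n u ∪ supp n (B' X)` for two such nodes (`j`, `j'`, nodes `u`, `u'`): `supp_min` with
the set `supp n u ∪ supp n (B' X)` (less than `2 k` points): an even `σ` fixing its points fixes `B' X`, so it fixes `X`
(`fixes_sym`), and `σ • B X = B (σ • X) = B X` (`dst_fix`).
`dst_count`. Let `A₂ = A' ∪ supp n u'` where `supp n u ⊆ A'`; `g` is injective on `A₂`. By `dst_supp`
`A₂ ∪ supp n (B X) = A₂ ∪ supp n (B' X)` for `X ∈ F`. The map `pmk C (B X) h ↦ pmk C (B' X) h` (`X ∈ F`, `h = g` on `A₂`, `h` injective on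
`A₂ ∪ supp n (B X)`) is a well defined bijection from `liftN C (B '' F) A₂ g` to `liftN C (B' '' F) A₂ g`:
`pmk C (B X) h = pmk C (B Y) h'` holds if and only if there is an even `σ` fixing the points of `A₂` with `σ • B X = B Y`
(equivalently `σ • X = Y`, equivalently `σ • B' X = B' Y`; `dst_fix`) and `h' (σ i) = h i` on `supp n (B X)` (`pmk_fix`, `pmk_eq_iff`);
the last condition on `A₂ ∪ supp n (B X)` is the same, because on `A₂` both sides are `g i`. Both nodes have the same set: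
the children of `pmk C (B X) h` are `lift C X (supp n (B X)) h = lift C X (A₂ ∪ supp n (B X)) h` (`gate_sym_up`), and the same for
`B'`; so `kap` is the same. `{z ∈ liftN C (B '' F) A₂ g | kap z = v}` and `{z ∈ liftN C (B' '' F) A₂ g | kap z = v}` have the same number of
elements. `liftN C (B '' F) A' g = liftN C (B '' F) A₂ g` by `liftN_up` (`Fixes A' (B '' F)` from `dst_fam`).
(`Set.ncard_congr`, or two inequalities by symmetry with `Set.ncard_le_ncard_of_injOn`.)
-/

set_option autoImplicit false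

namespace Pool.H93.CG

open Pool.H93.SY (Lit Atom tv supp supp_fix supp_smul supp_min supp_card_lt Fixes fixes_supp
  exists_even_perm exists_extend qd)
open scoped Pointwise
open FirstOrder.Language

variable {L : FirstOrder.Language.{0, 0}} {s n : ℕ} {C : Circuit L s n} {N M d k l : ℕ}

/-- The nodes `B X` with labels `sym {j} X`, and the node `u` which counts them. -/
structure Row (C : Circuit L s n) (F : Set (Set (Lit C.N))) (j : ℕ) (B : Set (Lit C.N) → C.N)
    (u : C.N) : Prop where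
  gate : ∀ X ∈ F, C.gate (B X) = .sym {j} X
  count : ∃ A₀ : Set ℕ, C.gate u = .sym A₀ ((fun X => ⟨B X, true⟩) '' F)

private theorem row_inj {F : Set (Set (Lit C.N))} {j : ℕ} {B : Set (Lit C.N) → C.N}
    {u : C.N} (h : Row C F j B u) {X Y : Set (Lit C.N)} (hX : X ∈ F) (hY : Y ∈ F)
    (e : B X = B Y) : X = Y := by
  have h1 := h.gate X hX
  rw [e, h.gate Y hY] at h1
  injection h1 with _ h2
  exact h2.symm

theorem dst_fix (hn : 2 ≤ n) {F : Set (Set (Lit C.N))} {j : ℕ} {B : Set (Lit C.N) → C.N}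
    {u : C.N} (h : Row C F j B u) {σ : Equiv.Perm (Fin n)} (hσ : Equiv.Perm.sign σ = 1)
    (hσ' : ∀ i ∈ supp n u, σ i = i) {X : Set (Lit C.N)} (hX : X ∈ F) :
    σ • X ∈ F ∧ σ • B X = B (σ • X) := by
  obtain ⟨A₀, hA₀⟩ := h.count
  have h1 := fixes_sym hn hA₀ σ hσ hσ'
  have h2 : σ • (⟨B X, true⟩ : Lit C.N) ∈ (fun X => (⟨B X, true⟩ : Lit C.N)) '' F := by
    rw [← h1]
    exact Set.smul_mem_smul_set ⟨X, hX, rfl⟩
  obtain ⟨Y, hY, h3⟩ := h2
  have h4 : B Y = σ • B X := congrArg Lit.node h3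
  have h5 := C.gate_smul σ (B X)
  rw [h.gate X hX, ← h4, h.gate Y hY] at h5
  have h6 : (Gate.sym {j} Y : Gate (Atom L (Fin s ⊕ Fin n)) C.N) = .sym {j} (σ • X) := h5
  injection h6 with _ h7
  rw [← h7]
  exact ⟨hY, h4.symm⟩

theorem dst_fam (hn : 2 ≤ n) {F : Set (Set (Lit C.N))} (hF : F.PairwiseDisjoint id) {j : ℕ}
    {B : Set (Lit C.N) → C.N} {u : C.N} (h : Row C F j B u) :
    Fam C (supp n u) (B '' F) (fun _ => {j}) (fun b => (C.gate b).children) := by
  have hch : ∀ X ∈ F, (C.gate (B X)).children = X := by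
    intro X hX
    rw [h.gate X hX]
    rfl
  refine ⟨?_, ?_, ?_⟩
  · intro σ hσ hσ'
    have hinv : ∀ i ∈ supp n u, σ⁻¹ i = i := by
      intro i hi
      have h1 : σ.symm (σ i) = i := σ.symm_apply_apply i
      rw [hσ' i hi] at h1
      exact h1
    ext y
    rw [Set.mem_smul_set_iff_inv_smul_mem]
    constructor
    · rintro ⟨X, hX, hXy⟩
      obtain ⟨h1, h2⟩ := dst_fix hn h hσ hσ' hX
      refine ⟨σ • X, h1, ?_⟩
      rw [← h2, hXy, smul_inv_smul]
    · rintro ⟨X, hX, rfl⟩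
      obtain ⟨h1, h2⟩ := dst_fix hn h (σ := σ⁻¹) (by rw [Equiv.Perm.sign_inv, hσ]) hinv hX
      exact ⟨σ⁻¹ • X, h1, h2.symm⟩
  · rintro b ⟨X, hX, rfl⟩
    show C.gate (B X) = .sym {j} (C.gate (B X)).children
    rw [hch X hX, h.gate X hX]
  · rintro b ⟨X, hX, rfl⟩ b' ⟨Y, hY, rfl⟩ hne
    show Disjoint (C.gate (B X)).children (C.gate (B Y)).children
    rw [hch X hX, hch Y hY]
    refine hF hX hY ?_
    rintro rfl
    exact hne rfl

theorem dst_supp (hC : Small C k) {F : Set (Set (Lit C.N))} {j j' : ℕ}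
    {B B' : Set (Lit C.N) → C.N} {u u' : C.N} (h : Row C F j B u) (h' : Row C F j' B' u')
    {X : Set (Lit C.N)} (hX : X ∈ F) : supp n (B X) ⊆ supp n u ∪ supp n (B' X) := by
  have hroom := hC.room
  have h1 := hC.node u
  have h2 := hC.node (B' X)
  have h3 := Finset.card_union_le (supp n u) (supp n (B' X))
  refine supp_min (B X) _ (by omega) ?_
  intro σ hσ hσ'
  have h4 : σ • X = X := fixes_sym (by omega) (h'.gate X hX) σ hσ
    (fun i hi => hσ' i (Finset.mem_union_right _ hi))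
  have h5 := (dst_fix (by omega) h hσ (fun i hi => hσ' i (Finset.mem_union_left _ hi)) hX).2
  rw [h5, h4]

private theorem dst_half [L.Structure (Fin s ⊕ Fin N)] (hC : Small C k)
    {F : Set (Set (Lit C.N))} {j j' : ℕ}
    {B B' : Set (Lit C.N) → C.N} {u u' : C.N} (h : Row C F j B u) (h' : Row C F j' B' u')
    {A₂ : Finset (Fin n)} (hu : supp n u ⊆ A₂) (hu' : supp n u' ⊆ A₂) (hA₂ : A₂.card ≤ 5 * k)
    {g : Fin n → Fin N} (v : ℕ) :
    {z | z ∈ liftN C (B '' F) A₂ g ∧ kap hC l z = v}.ncard ≤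
      {z | z ∈ liftN C (B' '' F) A₂ g ∧ kap hC l z = v}.ncard := by
  classical
  have hroom := hC.room
  have hn2 : 2 ≤ n := by omega
  -- the choice of a representation
  have hrep : ∀ z ∈ {z | z ∈ liftN C (B '' F) A₂ g ∧ kap hC l z = v}, ∃ p : Set (Lit C.N) × (Fin n → Fin N),
      p.1 ∈ F ∧ (∀ i ∈ A₂, p.2 i = g i) ∧ Set.InjOn p.2 (A₂ ∪ supp n (B p.1) : Finset (Fin n)) ∧
        z = pmk C (B p.1) p.2 := by
    rintro z ⟨⟨b, ⟨X, hX, rfl⟩, f, h1, h2, h3⟩, -⟩
    exact ⟨(X, f), hX, h1, h2, h3⟩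
  obtain ⟨p, hp⟩ : ∃ p : PN C N → Set (Lit C.N) × (Fin n → Fin N),
      ∀ z ∈ {z | z ∈ liftN C (B '' F) A₂ g ∧ kap hC l z = v},
        (p z).1 ∈ F ∧ (∀ i ∈ A₂, (p z).2 i = g i) ∧
        Set.InjOn (p z).2 (A₂ ∪ supp n (B (p z).1) : Finset (Fin n)) ∧
        z = pmk C (B (p z).1) (p z).2 := by
    refine ⟨fun z => if hz : z ∈ {z | z ∈ liftN C (B '' F) A₂ g ∧ kap hC l z = v} then
      (hrep z hz).choose else (∅, g), fun z hz => ?_⟩
    simp only [dif_pos hz]
    exact (hrep z hz).choose_spec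
  have hsub : ∀ X ∈ F, A₂ ∪ supp n (B' X) ⊆ A₂ ∪ supp n (B X) := by
    intro X hX i hi
    rcases Finset.mem_union.1 hi with h1 | h1
    · exact Finset.mem_union_left _ h1
    · rcases Finset.mem_union.1 (dst_supp hC h' h hX h1) with h2 | h2
      · exact Finset.mem_union_left _ (hu' h2)
      · exact Finset.mem_union_right _ h2
  refine Set.ncard_le_ncard_of_injOn (fun z => pmk C (B' (p z).1) (p z).2) ?_ ?_ (Set.toFinite _)
  · intro z hz
    obtain ⟨h1, h2, h3, h4⟩ := hp z hz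
    refine ⟨⟨B' (p z).1, ⟨_, h1, rfl⟩, (p z).2, h2, h3.mono ?_, rfl⟩, ?_⟩
    · rw [Finset.coe_subset]
      exact hsub _ h1
    · have e1 := hC.node (B (p z).1)
      have e2 := Finset.card_union_le A₂ (supp n (B (p z).1))
      have e3 := gate_sym_up hC (h.gate _ h1) (A' := A₂ ∪ supp n (B (p z).1))
        Finset.subset_union_right (by omega) h3
      have e4 := gate_sym_up hC (h'.gate _ h1) (A' := A₂ ∪ supp n (B (p z).1))
        (Finset.subset_union_right.trans (hsub _ h1)) (by omega) h3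
      have e5 : kap hC l (pmk C (B' (p z).1) (p z).2) = kap hC l (pmk C (B (p z).1) (p z).2) := by
        unfold kap
        rw [e3, e4]
        rfl
      rw [e5, ← h4]
      exact hz.2
  · intro z hz z' hz' hzz
    obtain ⟨h1, h2, h3, h4⟩ := hp z hz
    obtain ⟨h1', h2', h3', h4'⟩ := hp z' hz'
    simp only at hzz
    obtain ⟨σ, hσ1, hσ2, hσ3, hσ4⟩ := pmk_fix hC (A := A₂) (by omega)
      (fun i hi => (h2 i hi).trans (h2' i hi).symm)
      (h3.mono (by rw [Finset.coe_subset]; exact hsub _ h1))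
      (h3'.mono (by rw [Finset.coe_subset]; exact hsub _ h1')) hzz
    have hX : σ • (p z).1 = (p z').1 := by
      obtain ⟨e1, e2⟩ := dst_fix hn2 h' hσ1 (fun i hi => hσ2 i (hu' hi)) h1
      exact row_inj h' e1 h1' (e2.symm.trans hσ3)
    have hB : σ • B (p z).1 = B (p z').1 := by
      rw [(dst_fix hn2 h hσ1 (fun i hi => hσ2 i (hu hi)) h1).2, hX]
    rw [h4, h4']
    refine pmk_eq_iff.2 ⟨σ, hσ1, hB, fun i hi => ?_⟩
    rcases Finset.mem_union.1 (dst_supp hC h h' h1 hi) with e1 | e1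
    · rw [hσ2 i (hu e1), h2' i (hu e1), h2 i (hu e1)]
    · exact hσ4 i e1

theorem dst_count [L.Structure (Fin s ⊕ Fin N)] (hC : Small C k) {F : Set (Set (Lit C.N))}
    (hF : F.PairwiseDisjoint id) {j j' : ℕ}
    {B B' : Set (Lit C.N) → C.N} {u u' : C.N} (h : Row C F j B u) (h' : Row C F j' B' u')
    {A' : Finset (Fin n)} (hu : supp n u ⊆ A') (hA' : A'.card ≤ 4 * k) {g : Fin n → Fin N}
    (hg : Set.InjOn g (A' ∪ supp n u' : Finset (Fin n))) (v : ℕ) :
    {z | z ∈ liftN C (B '' F) A' g ∧ kap hC l z = v}.ncard =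
      {z | z ∈ liftN C (B' '' F) (A' ∪ supp n u') g ∧ kap hC l z = v}.ncard := by
  have hroom := hC.room
  have h1 := hC.node u'
  have h2 := Finset.card_union_le A' (supp n u')
  have h3 := (dst_fam (by omega) hF h).fix
  have h4 : liftN C (B '' F) A' g = liftN C (B '' F) (A' ∪ supp n u') g :=
    liftN_up hC (h3.mono hu) Finset.subset_union_left (by omega) hg
  rw [h4]
  exact le_antisymm
    (dst_half hC h h' (hu.trans Finset.subset_union_left) Finset.subset_union_right (by omega) v)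
    (dst_half hC h' h Finset.subset_union_right (hu.trans Finset.subset_union_left) (by omega) v)

end Pool.H93.CG
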