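import Mathlib

/-!
# [H93 CG DVD] The orbit weights are integers

PROOF (complete; Mathlib only). Put `P y = ∏ i ∈ range b, (y - d * (b0 + i))` (natural numbers) and `a = ∏ i, a i`.
`P n ≠ 0` by `hn`. It is enough to show `r ^ e ∣ P n` for every prime `r` and `e = padicValNat r a`
(`Nat.factorization`; `(Nat.factorization_le_iff_dvd ha hP).1`, or `Nat.dvd_of_factors_…`).
Every `a i` is positive and less than `k`.
(1) `k ≤ r`: `r` does not divide `a i < k`, so `e = 0`.
(2) `r < k` and `∀ e, r ^ e ∣ d → r ^ e ∣ n`. Then `r ^ (k * k) ∣ N - n` (`hQ`). `e` is the sum of the valuations of the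
`a i`, each less than `k` (`r ^ v ≤ a i < k` and `v < r ^ v`), and there are `b < k` of them, so `e ≤ k * k` and
`r ^ e ∣ N - n`. Hence `P N ≡ P n` modulo `r ^ e` (factor by factor: `N - d (b0 + i) ≡ n - d (b0 + i)`, as
`d (b0 + i) ≤ n ≤ N` these are honest differences; `Nat.ModEq` and `Finset.prod` : `Nat.ModEq.prod`? or induct /
work in `ZMod (r ^ e)` with `Nat.cast_sub`). `r ^ e ∣ a ∣ P N`, so `r ^ e ∣ P n`.
(3) `r < k` and `r ^ e' ∣ d`, `¬ r ^ e' ∣ n` for some `e'`. Let `f = padicValNat r n` (`n ≠ 0`: since `n = 0` would be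
divisible), `f < e'`, so `r ^ (f + 1) ∣ d` and `¬ r ^ (f + 1) ∣ n`, and `r ^ (f + 1)` is a prime power
(`Nat.Prime.isPrimePow`, `IsPrimePow.pow`), so `k ≤ r ^ (f + 1)` by `hq`. The valuation of every `a i < k` is at most `f`
(`r ^ v ∣ a i`, `r ^ v ≤ a i < r ^ (f + 1)`). So `e ≤ b * f`. `r ^ f ∣ n` and `r ^ f ∣ d`, so `r ^ f` divides every factor
`n - d (b0 + i)` and `r ^ (b * f) ∣ P n`.
-/

set_option autoImplicit false

namespace Pool.H93.CG

theorem prod_dvd {b b0 k d n N : ℕ} (a : Fin b → ℕ) (ha : ∀ i, 0 < a i ∧ a i < k) (hb : b < k)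
    (hn : ∀ i < b, d * (b0 + i) < n) (hN : n ≤ N)
    (hq : ∀ q, IsPrimePow q → q ∣ d → ¬ q ∣ n → k ≤ q)
    (hQ : ∀ r, r.Prime → r < k → (∀ e, r ^ e ∣ d → r ^ e ∣ n) → r ^ (k * k) ∣ N - n)
    (h : (∏ i, a i) ∣ ∏ i ∈ Finset.range b, (N - d * (b0 + i))) :
    (∏ i, a i) ∣ ∏ i ∈ Finset.range b, (n - d * (b0 + i)) := by
  classical
  rw [Nat.dvd_iff_prime_pow_dvd_dvd]
  intro r e hr hre
  have ha0 : ∏ i, a i ≠ 0 := Finset.prod_ne_zero_iff.2 fun i _ => (ha i).1.ne'
  have he : e ≤ ∑ i, (a i).factorization r := by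
    have h1 := (hr.pow_dvd_iff_le_factorization ha0).1 hre
    rw [Nat.factorization_prod (fun i _ => (ha i).1.ne'), Finsupp.coe_finsetSum, Finset.sum_apply] at h1
    exact h1
  rcases Nat.lt_or_ge r k with hrk | hrk
  · by_cases hc : ∀ e, r ^ e ∣ d → r ^ e ∣ n
    · have h1 : e ≤ k * k := by
        refine he.trans ?_
        calc ∑ i, (a i).factorization r ≤ ∑ _i : Fin b, k :=
              Finset.sum_le_sum fun i _ => ((Nat.factorization_lt r (ha i).1.ne').trans (ha i).2).le
          _ = b * k := by rw [Finset.sum_const, Finset.card_univ, Fintype.card_fin, smul_eq_mul]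
          _ ≤ k * k := Nat.mul_le_mul_right k hb.le
      have h2 : r ^ e ∣ N - n := (pow_dvd_pow r h1).trans (hQ r hr hrk hc)
      have h3 : ∀ b' ≤ b, ∏ i ∈ Finset.range b', (n - d * (b0 + i)) ≡
          ∏ i ∈ Finset.range b', (N - d * (b0 + i)) [MOD r ^ e] := by
        intro b' hb'
        induction b' with
        | zero => rfl
        | succ b' ih =>
          rw [Finset.prod_range_succ, Finset.prod_range_succ]
          refine Nat.ModEq.mul (ih (by omega)) ?_
          have h4 := hn b' (by omega)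
          rw [Nat.modEq_iff_dvd' (by omega)]
          have h5 : N - d * (b0 + b') - (n - d * (b0 + b')) = N - n := by omega
          rw [h5]
          exact h2
      exact ((h3 b le_rfl).dvd_iff dvd_rfl).2 (hre.trans h)
    · push Not at hc
      obtain ⟨e', he1, he2⟩ := hc
      have hn0 : n ≠ 0 := by
        rintro rfl
        exact he2 (dvd_zero _)
      obtain ⟨f, hf⟩ : ∃ f, f = n.factorization r := ⟨_, rfl⟩
      have h1 : r ^ f ∣ n := by
        rw [hf]
        exact Nat.ordProj_dvd n r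
      have h2 : ¬ r ^ (f + 1) ∣ n := by
        rw [hf]
        exact Nat.pow_succ_factorization_not_dvd hn0 hr
      have h3 : f < e' := by
        by_contra hcon
        exact he2 ((pow_dvd_pow r (by omega)).trans h1)
      have h4 : r ^ (f + 1) ∣ d := (pow_dvd_pow r (by omega)).trans he1
      have h5 : k ≤ r ^ (f + 1) := hq _ (hr.isPrimePow.pow (by omega)) h4 h2
      have h6 : ∀ i, (a i).factorization r ≤ f := by
        intro i
        have h7 : r ^ (a i).factorization r ≤ a i := Nat.le_of_dvd (ha i).1 (Nat.ordProj_dvd _ _)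
        have h8 : r ^ (a i).factorization r < r ^ (f + 1) := lt_of_le_of_lt h7 (lt_of_lt_of_le (ha i).2 h5)
        have h9 := (Nat.pow_lt_pow_iff_right hr.one_lt).1 h8
        omega
      have h7 : e ≤ f * b := by
        refine he.trans ?_
        calc ∑ i, (a i).factorization r ≤ ∑ _i : Fin b, f := Finset.sum_le_sum fun i _ => h6 i
          _ = f * b := by rw [Finset.sum_const, Finset.card_univ, Fintype.card_fin, smul_eq_mul, mul_comm]
      refine (pow_dvd_pow r h7).trans ?_
      rw [pow_mul]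
      calc (r ^ f) ^ b = ∏ _i ∈ Finset.range b, r ^ f := by rw [Finset.prod_const, Finset.card_range]
        _ ∣ ∏ i ∈ Finset.range b, (n - d * (b0 + i)) := by
          refine Finset.prod_dvd_prod_of_dvd _ _ fun i _ => ?_
          exact Nat.dvd_sub h1 (((pow_dvd_pow r (by omega)).trans h4).mul_right _)
  · have h1 : e = 0 := by
      have h2 : ∑ i, (a i).factorization r = 0 := by
        refine Finset.sum_eq_zero fun i _ => ?_
        refine Nat.factorization_eq_zero_of_lt ?_
        exact lt_of_lt_of_le (ha i).2 hrk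
      omega
    rw [h1, pow_zero]
    exact one_dvd _

end Pool.H93.CG
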