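import Pool.Agent.H93.CG.LiftR

/-!
# The value of a node modulo `l`

`cval l` is the value of a node when the atoms are interpreted in a structure on the universe
`Fin s ⊕ Fin n` itself and a gate `sym A S` is true if the remainder modulo `l` of the number of true
members of `S` is an element of `A`. `BStep`: the rules without symmetric gates.
-/

set_option autoImplicit false

namespace Pool.H93.CG

open Pool.H93.SY (Lit Atom tv supp supp_fix supp_smul supp_min supp_card_lt Fixes fixes_supp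
  exists_even_perm exists_extend pts mem_pts pts_card mem_pts_snoc tv_mem tv_realize snoc_comp qd)
open scoped Pointwise
open FirstOrder.Language

variable {L : FirstOrder.Language.{0, 0}} {s n : ℕ}

/-- The rules without symmetric gates. -/
inductive BStep [L.IsRelational] (ψ : L.Sentence)
    (D : Set (Atom L (Fin s ⊕ Fin n) × Bool)) (C : Circuit L s n) (P : Set (Set (Lit C.N))) :
    Set (Lit C.N) → Prop
  | hyp {Γ : Set (Lit C.N)} {x : Lit C.N} : C.Rep ψ default x → x ∈ Γ → BStep ψ D C P Γ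
  | fact {Γ : Set (Lit C.N)} {a : C.N} {v : Atom L (Fin s ⊕ Fin n)} {b : Bool} :
      C.gate a = .var v → (v, b) ∈ D → ⟨a, b⟩ ∈ Γ → BStep ψ D C P Γ
  | ident {Γ : Set (Lit C.N)} {a b : C.N} : C.gate a = C.gate b → ⟨a, true⟩ ∈ Γ →
      ⟨b, false⟩ ∈ Γ → BStep ψ D C P Γ
  | weak {Γ Δ : Set (Lit C.N)} : Δ ∈ P → Δ ⊆ Γ → BStep ψ D C P Γ
  | cut {Γ : Set (Lit C.N)} {a : C.N} : insert ⟨a, true⟩ Γ ∈ P → insert ⟨a, false⟩ Γ ∈ P →
      BStep ψ D C P Γ
  | andI {Γ S : Set (Lit C.N)} {a : C.N} : C.gate a = .and S → ⟨a, true⟩ ∈ Γ →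
      (∀ x ∈ S, insert x Γ ∈ P) → BStep ψ D C P Γ
  | andE {Γ S : Set (Lit C.N)} {a : C.N} : C.gate a = .and S → ⟨a, false⟩ ∈ Γ →
      Γ ∪ Lit.neg '' S ∈ P → BStep ψ D C P Γ

/-- The value of a node modulo `l` in a structure on the universe. -/
def Circuit.cval (C : Circuit L s n) (l : ℕ) [L.Structure (Fin s ⊕ Fin n)] (a : C.N) : Prop :=
  (∀ v, C.gate a = .var v → Structure.RelMap v.2.1 (fun i => v.2.2 i)) ∧
  (∀ S, ∀ _h : C.gate a = .and S, ∀ x, ∀ _hx : x ∈ S, (C.cval l x.node ↔ x.pos = true)) ∧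
  (∀ A S, ∀ _h : C.gate a = .sym A S,
    {x | ∃ _hx : x ∈ S, (C.cval l x.node ↔ x.pos = true)}.ncard % l ∈ A)
termination_by C.rank a
decreasing_by
  · exact C.rank_lt a x (by rw [_h]; exact _hx)
  · exact C.rank_lt a x (by rw [_h]; exact _hx)

/-- A signed node is true. -/
def Circuit.ctr (C : Circuit L s n) (l : ℕ) [L.Structure (Fin s ⊕ Fin n)] (x : Lit C.N) : Prop :=
  C.cval l x.node ↔ x.pos = true

/-- The number of true members of a set. -/
noncomputable def Circuit.tc (C : Circuit L s n) (l : ℕ) [L.Structure (Fin s ⊕ Fin n)]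
    (S : Set (Lit C.N)) : ℕ := {x | x ∈ S ∧ C.ctr l x}.ncard

section

variable [L.Structure (Fin s ⊕ Fin n)] {C : Circuit L s n} {l : ℕ}

theorem cval_var {a : C.N} {v : Atom L (Fin s ⊕ Fin n)} (h : C.gate a = .var v) :
    C.cval l a ↔ Structure.RelMap v.2.1 (fun i => v.2.2 i) := by
  rw [Circuit.cval]
  constructor
  · intro h1
    exact h1.1 v h
  · intro h1
    refine ⟨?_, ?_, ?_⟩
    · intro w hw
      rw [h] at hw
      cases hw
      exact h1
    · intro S hS
      rw [h] at hS
      cases hS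
    · intro c S hS
      rw [h] at hS
      cases hS

theorem cval_and {a : C.N} {S : Set (Lit C.N)} (h : C.gate a = .and S) :
    C.cval l a ↔ ∀ x ∈ S, C.ctr l x := by
  rw [Circuit.cval]
  constructor
  · intro h1 x hx
    exact h1.2.1 S h x hx
  · intro h1
    refine ⟨?_, ?_, ?_⟩
    · intro w hw
      rw [h] at hw
      cases hw
    · intro T hT x hx
      rw [h] at hT
      cases hT
      exact h1 x hx
    · intro c S hS
      rw [h] at hS
      cases hS

theorem cval_sym {a : C.N} {A : Set ℕ} {S : Set (Lit C.N)} (h : C.gate a = .sym A S) :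
    C.cval l a ↔ C.tc l S % l ∈ A := by
  have hset : ∀ T : Set (Lit C.N),
      {x | ∃ _hx : x ∈ T, (C.cval l x.node ↔ x.pos = true)} = {x | x ∈ T ∧ C.ctr l x} := by
    intro T
    ext x
    constructor
    · rintro ⟨h1, h2⟩
      exact ⟨h1, h2⟩
    · rintro ⟨h1, h2⟩
      exact ⟨h1, h2⟩
  unfold Circuit.tc
  rw [Circuit.cval]
  constructor
  · intro h1
    have h2 := h1.2.2 A S h
    rwa [hset] at h2
  · intro h1
    refine ⟨?_, ?_, ?_⟩
    · intro w hw
      rw [h] at hw
      cases hw
    · intro T hT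
      rw [h] at hT
      cases hT
    · intro d T hT
      rw [h] at hT
      cases hT
      rw [hset]
      exact h1

theorem ctr_neg {x : Lit C.N} : C.ctr l x.neg ↔ ¬ C.ctr l x := by
  unfold Circuit.ctr Lit.neg
  cases x.pos <;> simp

theorem ctr_true {a : C.N} : C.ctr l ⟨a, true⟩ ↔ C.cval l a := by
  simp [Circuit.ctr]

theorem ctr_false {a : C.N} : C.ctr l ⟨a, false⟩ ↔ ¬ C.cval l a := by
  simp [Circuit.ctr]

theorem rep_cval [L.IsRelational] {j : ℕ} (φ : L.BoundedFormula Empty j)
    (v : Fin j → Fin s ⊕ Fin n) (x : Lit C.N) (hx : C.Rep φ v x) :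
    C.ctr l x ↔ φ.Realize (default : Empty → Fin s ⊕ Fin n) v := by
  have htv : ∀ {j : ℕ} (v : Fin j → Fin s ⊕ Fin n) (t : L.Term (Empty ⊕ Fin j)),
      t.realize (Sum.elim default v) = tv v t := fun v t => tv_realize v id t
  induction φ generalizing x with
  | falsum =>
    obtain ⟨h1, h2⟩ := hx
    have hv : C.cval l x.node := (cval_and h2).2 (fun y hy => absurd hy (Set.notMem_empty y))
    unfold Circuit.ctr
    rw [h1]
    constructor
    · intro h
      exact absurd (h.1 hv) (by simp)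
    · intro h
      exact h.elim
  | equal t₁ t₂ =>
    obtain ⟨h1, h2⟩ := hx
    have hv : C.cval l x.node := (cval_and h2).2 (fun y hy => absurd hy (Set.notMem_empty y))
    show _ ↔ t₁.realize (Sum.elim default v) = t₂.realize (Sum.elim default v)
    rw [htv, htv, ← h1]
    unfold Circuit.ctr
    exact ⟨fun h => h.1 hv, fun h => ⟨fun _ => h, fun _ => hv⟩⟩
  | rel R ts =>
    obtain ⟨h1, h2⟩ := hx
    unfold Circuit.ctr
    rw [cval_var h2, h1]
    show _ ↔ Structure.RelMap R (fun i => (ts i).realize (Sum.elim default v))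
    have h3 : (fun i => (ts i).realize (Sum.elim default v)) =
        fun i => (tv v (ts i) : Fin s ⊕ Fin n) := by
      funext i
      rw [htv]
    rw [h3]
    simp
  | @imp j φ θ ih1 ih2 =>
    obtain ⟨h1, y, z, hy, hz, h2⟩ := hx
    have h5 : C.ctr l x ↔ ¬ C.cval l x.node := by
      unfold Circuit.ctr
      rw [h1]
      simp
    rw [h5, cval_and h2]
    show _ ↔ (φ.Realize default v → θ.Realize default v)
    have e1 : C.ctr l y ↔ φ.Realize default v := ih1 v y hy
    have e2 : C.ctr l z ↔ θ.Realize default v := ih2 v z hz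
    rw [← e1, ← e2]
    constructor
    · intro h h6
      by_contra h7
      apply h
      intro w hw
      rcases hw with rfl | rfl
      · exact h6
      · exact ctr_neg.2 h7
    · intro h h6
      exact (ctr_neg.1 (h6 z.neg (Set.mem_insert_of_mem _ rfl))) (h (h6 y (Set.mem_insert _ _)))
  | @all j φ ih =>
    obtain ⟨h1, S, h2, hS1, hS2⟩ := hx
    have h5 : C.ctr l x ↔ C.cval l x.node := by
      unfold Circuit.ctr
      rw [h1]
      simp
    rw [h5, cval_and h2]
    show _ ↔ ∀ y : Fin s ⊕ Fin n, φ.Realize default (Fin.snoc v y : Fin (j + 1) → _)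
    constructor
    · intro h b
      obtain ⟨y, hy, hr⟩ := hS1 b
      exact (ih (Fin.snoc v b) y hr).1 (h y hy)
    · intro h y hy
      obtain ⟨b, hr⟩ := hS2 y hy
      exact (ih (Fin.snoc v b) y hr).2 (h b)

theorem cval_eq_of_gate_eq {a b : C.N} (h : C.gate a = C.gate b) : C.cval l a ↔ C.cval l b := by
  cases hb : C.gate b with
  | var v => rw [cval_var (h.trans hb), cval_var hb]
  | and S => rw [cval_and (h.trans hb), cval_and hb]
  | sym c S => rw [cval_sym (h.trans hb), cval_sym hb]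

theorem bstep_true [L.IsRelational] {ψ : L.Sentence} (hψ : (Fin s ⊕ Fin n) ⊨ ψ)
    {D : Set (Atom L (Fin s ⊕ Fin n) × Bool)}
    (hD : ∀ v b, (v, b) ∈ D → (Structure.RelMap v.2.1 (fun i => v.2.2 i) ↔ b = true))
    {P : Set (Set (Lit C.N))} (hP : ∀ Δ ∈ P, ∃ x ∈ Δ, C.ctr l x) {Γ : Set (Lit C.N)}
    (hs : BStep ψ D C P Γ) : ∃ x ∈ Γ, C.ctr l x := by
  cases hs with
  | @hyp x hx hxΓ =>
    refine ⟨x, hxΓ, (rep_cval ψ default x hx).2 ?_⟩
    exact hψ
  | @fact a v b ha hv hx =>
    refine ⟨_, hx, ?_⟩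
    show C.cval l a ↔ b = true
    rw [cval_var ha]
    exact hD v b hv
  | @ident a b hab ha hb =>
    by_cases h1 : C.cval l a
    · exact ⟨_, ha, ctr_true.2 h1⟩
    · exact ⟨_, hb, ctr_false.2 (fun h2 => h1 ((cval_eq_of_gate_eq hab).2 h2))⟩
  | weak hΔ hs =>
    obtain ⟨x, hx, h1⟩ := hP _ hΔ
    exact ⟨x, hs hx, h1⟩
  | @cut a h1 h2 =>
    by_cases h3 : C.cval l a
    · obtain ⟨x, hx, h4⟩ := hP _ h2
      rcases hx with rfl | hx
      · exact absurd h3 (ctr_false.1 h4)
      · exact ⟨x, hx, h4⟩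
    · obtain ⟨x, hx, h4⟩ := hP _ h1
      rcases hx with rfl | hx
      · exact absurd (ctr_true.1 h4) h3
      · exact ⟨x, hx, h4⟩
  | @andI S a hS ha h1 =>
    by_cases h3 : C.cval l a
    · exact ⟨_, ha, ctr_true.2 h3⟩
    · rw [cval_and hS] at h3
      push Not at h3
      obtain ⟨x, hx, h4⟩ := h3
      obtain ⟨y, hy, h5⟩ := hP _ (h1 x hx)
      rcases hy with rfl | hy
      · exact absurd h5 h4
      · exact ⟨y, hy, h5⟩
  | @andE S a hS ha h1 =>
    by_cases h3 : C.cval l a
    · obtain ⟨y, hy, h5⟩ := hP _ h1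
      rcases hy with hy | ⟨x, hx, rfl⟩
      · exact ⟨y, hy, h5⟩
      · exact absurd ((cval_and hS).1 h3 x hx) (ctr_neg.1 h5)
    · exact ⟨_, ha, ctr_false.2 h3⟩

/-- The value is invariant under the automorphisms of the structure. -/
theorem cval_smul (σ : Equiv.Perm (Fin n)) (hσ : ∀ {r : ℕ} (R : L.Relations r)
      (v : Fin r → Fin s ⊕ Fin n), Structure.RelMap R (fun i => Sum.map id σ (v i)) ↔
        Structure.RelMap R v) (a : C.N) : C.cval l (σ • a) ↔ C.cval l a := by
  have main : ∀ r, ∀ a : C.N, C.rank a = r → (C.cval l (σ • a) ↔ C.cval l a) := by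
    intro r
    induction r using Nat.strong_induction_on with
    | _ r ih =>
      intro a ha
      have ihx : ∀ x ∈ (C.gate a).children, C.ctr l (σ • x) ↔ C.ctr l x := by
        intro x hx
        unfold Circuit.ctr
        rw [smul_node, smul_pos, ih _ (by rw [← ha]; exact C.rank_lt a x hx) x.node rfl]
      have hg := C.gate_smul σ a
      cases hga : C.gate a with
      | var v =>
        rw [hga] at hg
        have hg' : C.gate (σ • a) = .var (v.act σ) := hg
        rw [cval_var hg', cval_var hga]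
        exact hσ v.2.1 v.2.2
      | and S =>
        rw [hga] at hg ihx
        have hg' : C.gate (σ • a) = .and (σ • S) := hg
        rw [cval_and hg', cval_and hga]
        constructor
        · intro h x hx
          exact (ihx x hx).1 (h _ (Set.smul_mem_smul_set hx))
        · intro h y hy
          obtain ⟨x, hx, rfl⟩ := Set.mem_smul_set.1 hy
          exact (ihx x hx).2 (h x hx)
      | sym A S =>
        rw [hga] at hg ihx
        have hg' : C.gate (σ • a) = .sym A (σ • S) := hg
        rw [cval_sym hg', cval_sym hga]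
        have h1 : {x | x ∈ σ • S ∧ C.ctr l x} = (fun x => σ • x) '' {x | x ∈ S ∧ C.ctr l x} := by
          ext y
          constructor
          · rintro ⟨h1, h3⟩
            obtain ⟨x, hx, rfl⟩ := Set.mem_smul_set.1 h1
            exact ⟨x, ⟨hx, (ihx x hx).1 h3⟩, rfl⟩
          · rintro ⟨x, ⟨h1, h3⟩, rfl⟩
            exact ⟨Set.smul_mem_smul_set h1, (ihx x h1).2 h3⟩
        have h2 : C.tc l (σ • S) = C.tc l S := by
          unfold Circuit.tc
          rw [h1, Set.ncard_image_of_injective _ (MulAction.injective σ)]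
        rw [h2]
  exact main _ a rfl

theorem ctr_smul (σ : Equiv.Perm (Fin n)) (hσ : ∀ {r : ℕ} (R : L.Relations r)
      (v : Fin r → Fin s ⊕ Fin n), Structure.RelMap R (fun i => Sum.map id σ (v i)) ↔
        Structure.RelMap R v) (x : Lit C.N) : C.ctr l (σ • x) ↔ C.ctr l x := by
  unfold Circuit.ctr
  rw [smul_node, smul_pos, cval_smul σ hσ]

end

end Pool.H93.CG
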