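import Pool.Agent.H93.CG.Eval

/-!
# [H93 CG FAM] Families of gates with disjoint sets

PROOFS (complete): these are the proofs of `piece_smul`, `piece_supp`, `lift_pieces_disjoint`, `lift_pieces_union` in
`Pool/Agent/H93/SY/LiftS.lean` (proved there for modular gates; copy them), with `B0` in place of `supp n p` and `h.fix` in place of
`piece_fix`; `fixes_sym`, `gate_sym_up`, `pgate0_sym` in place of `fixes_mod`, `gate_mod_up`, `pgate0_mod`.
`liftN_smul`: `σ • pmk C b g = pmk C b (fun i => σ (g i))` and `σ (g i) = σ (f i) = f i` for `i ∈ A`.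
`lift_pos`: by definition (`plit C ⟨b, true⟩ g = ⟨pmk C b g, true⟩`).
`liftN_up`: `lift_up` for the set `(fun b => ⟨b, true⟩) '' T` and `lift_pos`.
-/

set_option autoImplicit false

namespace Pool.H93.CG

open Pool.H93.SY (Lit Atom tv supp supp_fix supp_smul supp_min supp_card_lt Fixes fixes_supp
  exists_even_perm exists_extend qd)
open scoped Pointwise
open FirstOrder.Language

variable {L : FirstOrder.Language.{0, 0}} {s n : ℕ} {C : Circuit L s n} {n' k : ℕ}

/-- All placements of the nodes in `T` which extend the placement `f` of the points of `A`. -/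
def liftN (C : Circuit L s n) {n' : ℕ} (T : Set C.N) (A : Finset (Fin n))
    (f : Fin n → Fin n') : Set (PN C n') :=
  {z | ∃ b ∈ T, ∃ g : Fin n → Fin n', (∀ i ∈ A, g i = f i) ∧
    Set.InjOn g (A ∪ supp n b : Finset (Fin n)) ∧ z = pmk C b g}

/-- A family of symmetric gates with disjoint sets, fixed by the even permutations which fix the
points of `B0`. -/
structure Fam (C : Circuit L s n) (B0 : Finset (Fin n)) (T : Set C.N) (A : C.N → Set ℕ)
    (S : C.N → Set (Lit C.N)) : Prop where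
  fix : Fixes B0 T
  gate : ∀ b ∈ T, C.gate b = .sym (A b) (S b)
  disj : T.PairwiseDisjoint S

theorem fam_smul {B0 : Finset (Fin n)} {T : Set C.N} {A : C.N → Set ℕ}
    {S : C.N → Set (Lit C.N)} (h : Fam C B0 T A S) {σ : Equiv.Perm (Fin n)}
    (hσ : Equiv.Perm.sign σ = 1) (hσ' : ∀ i ∈ B0, σ i = i) {b : C.N} (hb : b ∈ T) :
    σ • b ∈ T ∧ A (σ • b) = A b ∧ S (σ • b) = σ • S b := by
  have h1 := h.fix σ hσ hσ'
  have h2 : σ • b ∈ T := by
    rw [← h1]
    exact Set.smul_mem_smul_set hb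
  have h3 := C.gate_smul σ b
  rw [h.gate b hb, h.gate _ h2] at h3
  have h4 : (Gate.sym (A (σ • b)) (S (σ • b)) : Gate (Atom L (Fin s ⊕ Fin n)) C.N) =
      .sym (A b) (σ • S b) := h3
  injection h4 with h5 h6
  exact ⟨h2, h5, h6⟩

theorem fam_supp (hC : Small C k) {B0 : Finset (Fin n)} (hB0 : B0.card ≤ 4 * k) {T : Set C.N}
    {A : C.N → Set ℕ} {S : C.N → Set (Lit C.N)} (h : Fam C B0 T A S) {b : C.N} (hb : b ∈ T)
    {x : Lit C.N} (hx : x ∈ S b) : supp n b ⊆ B0 ∪ supp n x.node := by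
  have hroom := hC.room
  have h2 := hC.node x.node
  have h3 := Finset.card_union_le B0 (supp n x.node)
  apply supp_min b _ (by omega)
  intro σ hσ hσ'
  obtain ⟨h4, -, h6⟩ := fam_smul h hσ
    (fun i hi => hσ' i (Finset.mem_union_left _ hi)) hb
  have h7 : σ • x = x := Lit.ext (supp_fix (by omega) x.node σ hσ
    (fun i hi => hσ' i (Finset.mem_union_right _ hi))) rfl
  have h8 : x ∈ S (σ • b) := by
    rw [h6, ← h7]
    exact Set.smul_mem_smul_set hx
  exact h.disj.elim h4 hb (Set.not_disjoint_iff.2 ⟨x, h8, hx⟩)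

theorem fam_disjoint (hC : Small C k) {B0 : Finset (Fin n)} (hB0 : B0.card ≤ 4 * k)
    {T : Set C.N} {A : C.N → Set ℕ} {S : C.N → Set (Lit C.N)} (h : Fam C B0 T A S)
    {A' : Finset (Fin n)} (hp : B0 ⊆ A') (hA' : A'.card ≤ 6 * k) (f : Fin n → Fin n') :
    (liftN C T A' f).PairwiseDisjoint (fun z => ((ext hC n').gate z).children) := by
  have hroom := hC.room
  rintro z₁ ⟨b₁, hb₁, g₁, hg₁, hi₁, rfl⟩ z₂ ⟨b₂, hb₂, g₂, hg₂, hi₂, rfl⟩ hne
  show Disjoint ((ext hC n').gate (pmk C b₁ g₁)).children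
    ((ext hC n').gate (pmk C b₂ g₂)).children
  rw [Set.disjoint_left]
  intro w hw1 hw2
  apply hne
  have hup : ∀ b ∈ T, ∀ g : Fin n → Fin n', Set.InjOn g (A' ∪ supp n b : Finset (Fin n)) →
      ((ext hC n').gate (pmk C b g)).children = lift C (S b) (A' ∪ supp n b) g := by
    intro b hb g hg
    have h1 := hC.node b
    have h2 := Finset.card_union_le A' (supp n b)
    rw [gate_sym_up hC (h.gate b hb) (A' := A' ∪ supp n b) Finset.subset_union_right
      (by omega) hg]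
    rfl
  rw [hup b₁ hb₁ g₁ hi₁] at hw1
  rw [hup b₂ hb₂ g₂ hi₂] at hw2
  obtain ⟨x₁, hx₁, h₁, hh₁, hj₁, hw⟩ := hw1
  obtain ⟨x₂, hx₂, h₂, hh₂, hj₂, hw'⟩ := hw2
  have hpl : plit C x₁ h₁ = plit C x₂ h₂ := hw.symm.trans hw'
  have hpos : (plit C x₁ h₁).pos = (plit C x₂ h₂).pos := by rw [hpl]
  have hnode : (plit C x₁ h₁).node = (plit C x₂ h₂).node := by rw [hpl]
  have hf₁ : ∀ i ∈ A', h₁ i = f i := fun i hi =>
    (hh₁ i (Finset.mem_union_left _ hi)).trans (hg₁ i hi)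
  have hf₂ : ∀ i ∈ A', h₂ i = f i := fun i hi =>
    (hh₂ i (Finset.mem_union_left _ hi)).trans (hg₂ i hi)
  have hsub : ∀ (b : C.N) (x : Lit C.N), ((A' ∪ supp n x.node : Finset (Fin n)) : Set (Fin n)) ⊆
      ((A' ∪ supp n b ∪ supp n x.node : Finset (Fin n)) : Set (Fin n)) := by
    intro b x
    rw [Finset.coe_subset]
    exact Finset.union_subset_union_left Finset.subset_union_left
  obtain ⟨σ, hσ, hσA, hσx, hσh⟩ := pmk_fix hC (A := A') (by omega)
    (fun i hi => (hf₁ i hi).trans (hf₂ i hi).symm) (hj₁.mono (hsub b₁ x₁))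
    (hj₂.mono (hsub b₂ x₂)) hnode
  have hx : σ • x₁ = x₂ := Lit.ext hσx hpos
  obtain ⟨h4, -, h6⟩ := fam_smul h hσ (fun i hi => hσA i (hp hi)) hb₁
  have h8 : x₂ ∈ S (σ • b₁) := by
    rw [h6, ← hx]
    exact Set.smul_mem_smul_set hx₁
  have hb : σ • b₁ = b₂ := h.disj.elim h4 hb₂ (Set.not_disjoint_iff.2 ⟨x₂, h8, hx₂⟩)
  refine pmk_eq_iff.2 ⟨σ, hσ, hb, ?_⟩
  intro i hi
  have h9 : σ i ∈ supp n b₂ := by
    rw [← hb, supp_smul]
    exact Finset.mem_image_of_mem _ hi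
  rw [← hh₂ (σ i) (Finset.mem_union_right _ h9), ← hh₁ i (Finset.mem_union_right _ hi)]
  rcases Finset.mem_union.1 (fam_supp hC hB0 h hb₁ hx₁ hi) with h10 | h10
  · rw [hσA i (hp h10), hf₁ i (hp h10), hf₂ i (hp h10)]
  · exact hσh i h10

theorem fam_union (hC : Small C k) {B0 : Finset (Fin n)} (hB0 : B0.card ≤ 4 * k)
    {T : Set C.N} {A : C.N → Set ℕ} {S : C.N → Set (Lit C.N)} (h : Fam C B0 T A S)
    {A' : Finset (Fin n)} (hp : B0 ⊆ A') (hA' : A'.card ≤ 6 * k) (f : Fin n → Fin n') :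
    lift C (⋃ b ∈ T, S b) A' f =
      ⋃ z ∈ liftN C T A' f, ((ext hC n').gate z).children := by
  have hroom := hC.room
  ext w
  constructor
  · rintro ⟨x, hx, g, hg, hi, rfl⟩
    obtain ⟨b, hb, hx⟩ := Set.mem_iUnion₂.1 hx
    have h1 := fam_supp hC hB0 h hb hx
    have h2 : (A' ∪ supp n b : Finset (Fin n)) ⊆ A' ∪ supp n x.node :=
      Finset.union_subset Finset.subset_union_left
        (h1.trans (Finset.union_subset_union_left hp))
    refine Set.mem_iUnion₂.2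
      ⟨pmk C b g, ⟨b, hb, g, hg, hi.mono (Finset.coe_subset.2 h2), rfl⟩, ?_⟩
    have h3 : (ext hC n').gate (pmk C b g) = .sym (A b) (lift C (S b) (supp n b) g) :=
      (ext_gate hC b g).trans (pgate0_sym (h.gate b hb) g)
    rw [h3]
    refine ⟨x, hx, g, fun _ _ => rfl, hi.mono (Finset.coe_subset.2 ?_), rfl⟩
    exact Finset.union_subset (Finset.subset_union_right.trans h2) Finset.subset_union_right
  · intro hw
    obtain ⟨z, ⟨b, hb, g, hg, hi, rfl⟩, hw⟩ := Set.mem_iUnion₂.1 hw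
    have h1 := hC.node b
    have h2 := Finset.card_union_le A' (supp n b)
    rw [gate_sym_up hC (h.gate b hb) (A' := A' ∪ supp n b) Finset.subset_union_right
      (by omega) hi] at hw
    obtain ⟨x, hx, u, hu, hui, rfl⟩ := hw
    refine ⟨x, ?_, u, fun i hi' => (hu i (Finset.mem_union_left _ hi')).trans (hg i hi'), ?_,
      rfl⟩
    · exact Set.mem_iUnion₂.2 ⟨b, hb, hx⟩
    · refine hui.mono (Finset.coe_subset.2 ?_)
      exact Finset.union_subset_union_left Finset.subset_union_left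

theorem liftN_smul {T : Set C.N} {A : Finset (Fin n)} {f : Fin n → Fin n'}
    (τ : Equiv.Perm (Fin n')) (hτ : ∀ p ∈ A.image f, τ p = p) {z : PN C n'}
    (hz : z ∈ liftN C T A f) : τ • z ∈ liftN C T A f := by
  obtain ⟨b, hb, g, hg, hi, rfl⟩ := hz
  refine ⟨b, hb, fun i => τ (g i), ?_, ?_, smul_pmk τ b g⟩
  · intro i hi'
    show τ (g i) = f i
    rw [hg i hi']
    exact hτ _ (Finset.mem_image_of_mem f hi')
  · intro i hi1 j hj1 hij
    exact hi hi1 hj1 (τ.injective hij)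

theorem lift_pos (T : Set C.N) (A : Finset (Fin n)) (f : Fin n → Fin n') :
    lift C ((fun b => (⟨b, true⟩ : Lit C.N)) '' T) A f =
      (fun z => (⟨z, true⟩ : Lit (PN C n'))) '' liftN C T A f := by
  ext w
  constructor
  · rintro ⟨x, ⟨b, hb, rfl⟩, g, hg, hi, rfl⟩
    exact ⟨pmk C b g, ⟨b, hb, g, hg, hi, rfl⟩, rfl⟩
  · rintro ⟨z, ⟨b, hb, g, hg, hi, rfl⟩, rfl⟩
    exact ⟨⟨b, true⟩, ⟨b, hb, rfl⟩, g, hg, hi, rfl⟩

theorem liftN_up (hC : Small C k) {T : Set C.N} {A A' : Finset (Fin n)} (hT : Fixes A T)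
    (hA : A ⊆ A') (hA' : A'.card ≤ 8 * k) {f : Fin n → Fin n'} (hf : Set.InjOn f A') :
    liftN C T A f = liftN C T A' f := by
  have hinj : Function.Injective (fun z : PN C n' => (⟨z, true⟩ : Lit (PN C n'))) := by
    intro z w h
    exact congrArg Lit.node h
  have hfix : Fixes A ((fun b => (⟨b, true⟩ : Lit C.N)) '' T) := by
    intro σ h1 h2
    have h3 := hT σ h1 h2
    have h4 : σ • ((fun b => (⟨b, true⟩ : Lit C.N)) '' T) =
        (fun b => (⟨b, true⟩ : Lit C.N)) '' (σ • T) := by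
      ext y
      constructor
      · rintro ⟨_, ⟨b, hb, rfl⟩, rfl⟩
        exact ⟨σ • b, Set.smul_mem_smul_set hb, rfl⟩
      · rintro ⟨_, ⟨b, hb, rfl⟩, rfl⟩
        exact ⟨⟨b, true⟩, ⟨b, hb, rfl⟩, rfl⟩
    rw [h4, h3]
  have h1 := lift_up hC hfix hA hA' hf
  rw [lift_pos, lift_pos] at h1
  exact hinj.image_injective h1

end Pool.H93.CG
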