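import Pool.Agent.H93.CG.Tup

/-!
# [H93 CG GRP] Free actions of a finite group

`G` is a group structure on `Fin s`, and `ac G a p` is the free action `a (g, c) = (a g, c)` on
`Fin (s * M) ≃ Fin s × Fin M` (`finProdFinEquiv`).

PROOF (complete). `ac_one`, `ac_mul`: from the definition (`one_mul`, `mul_assoc`). `ac_free`: `a g = b g` gives `a = b`
(`mul_right_cancel`; use the instance `G`: all group lemmas need `letI := G` or `@`).
`exists_world`. `cl p = (finProdFinEquiv.symm p).2`; the fibre of `c` is the image of `Fin s` under `g ↦ (g, c)`, so it has `s`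
elements. `Aut = {σ | ∀ a p, σ (ac G a p) = ac G a (σ p)}` (a subgroup). `cl p = cl q` if and only if `q = ac G a p` for some
`a` (`a = g_q g_p⁻¹`). (cls) `σ q = ac G a (σ p)`. (fix) `σ q = ac G a (σ p) = ac G a p = q`.
(trans) Let `z i = (g i, c i)`, `z' i = (g' i, c' i)` with `c`, `c'` injective. There is `π : Perm (Fin M)` with
`π (c i) = c' i` (`Equiv.Perm.isMultiplyPretransitive`, `MulAction.exists_smul_eq`, or extend the injection by
`Function.Embedding`/`Equiv.extendSubtype`/counting), and `w : Fin M → Fin s` with `w (c i) = (g i)⁻¹ * g' i` (`Function.extend`).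
`σ (g, c) = (g * w c, π c)` is a permutation (inverse `(g, c) ↦ (g * (w (π⁻¹ c))⁻¹, π⁻¹ c)`), commutes with the action, and
`σ (z i) = (g i * ((g i)⁻¹ * g' i), c' i) = z' i`.
-/

set_option autoImplicit false

namespace Pool.H93.CG

/-- The free action of the group `G` on `Fin (s * M)`. -/
def ac {s M : ℕ} (G : Group (Fin s)) (a : Fin s) (p : Fin (s * M)) : Fin (s * M) :=
  finProdFinEquiv (G.mul a (finProdFinEquiv.symm p).1, (finProdFinEquiv.symm p).2)

/-- The free action of a group `H` with `s` elements. -/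
def acH {H : Type} [Group H] {s M : ℕ} (e : H ≃ Fin s) (a : H) (p : Fin (s * M)) : Fin (s * M) :=
  finProdFinEquiv (e (a * e.symm (finProdFinEquiv.symm p).1), (finProdFinEquiv.symm p).2)

section H

variable {H : Type} [Group H] {s M : ℕ} (e : H ≃ Fin s)

theorem acH_one (p : Fin (s * M)) : acH e 1 p = p := by
  unfold acH
  rw [one_mul, Equiv.apply_symm_apply]
  exact Equiv.apply_symm_apply _ _

theorem acH_fst (a : H) (p : Fin (s * M)) :
    e.symm (finProdFinEquiv.symm (acH e a p)).1 = a * e.symm (finProdFinEquiv.symm p).1 := by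
  unfold acH
  rw [Equiv.symm_apply_apply]
  exact Equiv.symm_apply_apply _ _

theorem acH_snd (a : H) (p : Fin (s * M)) :
    (finProdFinEquiv.symm (acH e a p)).2 = (finProdFinEquiv.symm p).2 := by
  unfold acH
  rw [Equiv.symm_apply_apply]

theorem ptH_ext {p q : Fin (s * M)}
    (h1 : e.symm (finProdFinEquiv.symm p).1 = e.symm (finProdFinEquiv.symm q).1)
    (h2 : (finProdFinEquiv.symm p).2 = (finProdFinEquiv.symm q).2) : p = q := by
  apply finProdFinEquiv.symm.injective
  exact Prod.ext (e.symm.injective h1) h2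

theorem acH_mul (a b : H) (p : Fin (s * M)) : acH e (a * b) p = acH e a (acH e b p) := by
  refine ptH_ext e ?_ ?_
  · rw [acH_fst, acH_fst, acH_fst, mul_assoc]
  · rw [acH_snd, acH_snd, acH_snd]

theorem acH_free {a b : H} {p : Fin (s * M)} (h : acH e a p = acH e b p) : a = b := by
  have h1 := congrArg (fun q => e.symm (finProdFinEquiv.symm q).1) h
  simp only [acH_fst] at h1
  exact mul_right_cancel h1

theorem acH_exists {p q : Fin (s * M)}
    (h : (finProdFinEquiv.symm p).2 = (finProdFinEquiv.symm q).2) : ∃ a, q = acH e a p := by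
  refine ⟨e.symm (finProdFinEquiv.symm q).1 * (e.symm (finProdFinEquiv.symm p).1)⁻¹, ?_⟩
  refine ptH_ext e ?_ ?_
  · rw [acH_fst, inv_mul_cancel_right]
  · rw [acH_snd, h]

theorem exists_perm {M b : ℕ} (c c' : Fin b → Fin M) (hc : Function.Injective c)
    (hc' : Function.Injective c') : ∃ π : Equiv.Perm (Fin M), ∀ i, π (c i) = c' i := by
  classical
  let u : Set.range c ≃ Set.range c' :=
    (Equiv.ofInjective c hc).symm.trans (Equiv.ofInjective c' hc')
  refine ⟨u.extendSubtype, fun i => ?_⟩
  have h1 := Equiv.extendSubtype_apply_of_mem u (c i) ⟨i, rfl⟩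
  rw [h1]
  have h2 : (⟨c i, ⟨i, rfl⟩⟩ : Set.range c) = (Equiv.ofInjective c hc) i := rfl
  show ((Equiv.ofInjective c' hc') ((Equiv.ofInjective c hc).symm ⟨c i, _⟩)).1 = c' i
  rw [h2, Equiv.symm_apply_apply]
  rfl

theorem exists_worldH : ∃ W : World (s * M) M s, ∀ σ, σ ∈ W.Aut ↔
    ∀ a p, σ (acH e a p) = acH e a (σ p) := by
  refine ⟨{ cl := fun p => (finProdFinEquiv.symm p).2
            fib := ?_
            Aut :=
              { carrier := {σ | ∀ a p, σ (acH e a p) = acH e a (σ p)}
                mul_mem' := ?_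
                one_mem' := ?_
                inv_mem' := ?_ }
            cls := ?_
            fix := ?_
            trans := ?_ }, fun σ => Iff.rfl⟩
  · intro c
    have h1 : (Finset.univ.filter fun p : Fin (s * M) => (finProdFinEquiv.symm p).2 = c) =
        Finset.univ.map ⟨fun g : Fin s => finProdFinEquiv (g, c), fun g g' hg => by
          have h2 := finProdFinEquiv.injective hg
          exact congrArg Prod.fst h2⟩ := by
      ext p
      simp only [Finset.mem_filter, Finset.mem_univ, true_and, Finset.mem_map,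
        Function.Embedding.coeFn_mk]
      constructor
      · intro h
        exact ⟨(finProdFinEquiv.symm p).1, by rw [← h]; exact finProdFinEquiv.apply_symm_apply p⟩
      · rintro ⟨g, rfl⟩
        rw [Equiv.symm_apply_apply]
    rw [h1, Finset.card_map, Finset.card_univ, Fintype.card_fin]
  · intro σ τ hσ hτ a p
    rw [Equiv.Perm.mul_apply, Equiv.Perm.mul_apply, hτ a p, hσ a (τ p)]
  · intro a p
    rfl
  · intro σ hσ a p
    rw [Equiv.Perm.inv_eq_iff_eq, hσ a (σ⁻¹ p)]
    congr 1
    exact (Equiv.apply_symm_apply σ p).symm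
  · intro σ hσ p q hpq
    obtain ⟨a, rfl⟩ := acH_exists e hpq
    rw [hσ a p, acH_snd]
  · intro σ hσ p q hpq hp
    obtain ⟨a, rfl⟩ := acH_exists e hpq
    rw [hσ a p, hp]
  · intro b z z' hz hz'
    classical
    obtain ⟨π, hπ⟩ := exists_perm _ _ hz hz'
    obtain ⟨w, hw⟩ : ∃ w : Fin M → H, ∀ i, w (finProdFinEquiv.symm (z i)).2 =
        (e.symm (finProdFinEquiv.symm (z i)).1)⁻¹ * e.symm (finProdFinEquiv.symm (z' i)).1 := by
      refine ⟨Function.extend (fun i => (finProdFinEquiv.symm (z i)).2)
        (fun i => (e.symm (finProdFinEquiv.symm (z i)).1)⁻¹ *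
          e.symm (finProdFinEquiv.symm (z' i)).1) (fun _ => 1), fun i => ?_⟩
      exact hz.extend_apply _ _ i
    let τ : Equiv.Perm (Fin s × Fin M) :=
      { toFun := fun x => (e (e.symm x.1 * w x.2), π x.2)
        invFun := fun x => (e (e.symm x.1 * (w (π.symm x.2))⁻¹), π.symm x.2)
        left_inv := fun x => by
          refine Prod.ext ?_ (π.symm_apply_apply x.2)
          show e (e.symm (e (e.symm x.1 * w x.2)) * (w (π.symm (π x.2)))⁻¹) = x.1
          rw [Equiv.symm_apply_apply, Equiv.symm_apply_apply, mul_inv_cancel_right,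
            Equiv.apply_symm_apply]
        right_inv := fun x => by
          refine Prod.ext ?_ (π.apply_symm_apply x.2)
          show e (e.symm (e (e.symm x.1 * (w (π.symm x.2))⁻¹)) * w (π.symm x.2)) = x.1
          rw [Equiv.symm_apply_apply, inv_mul_cancel_right, Equiv.apply_symm_apply] }
    have hτ1 : ∀ x : Fin s × Fin M, e.symm (τ x).1 = e.symm x.1 * w x.2 := fun x =>
      e.symm_apply_apply _
    have hτ2 : ∀ x : Fin s × Fin M, (τ x).2 = π x.2 := fun x => rfl
    refine ⟨(finProdFinEquiv.symm.trans τ).trans finProdFinEquiv, ?_, ?_⟩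
    · intro a p
      show finProdFinEquiv (τ (finProdFinEquiv.symm (acH e a p))) =
        acH e a (finProdFinEquiv (τ (finProdFinEquiv.symm p)))
      refine ptH_ext e ?_ ?_
      · rw [acH_fst, Equiv.symm_apply_apply, Equiv.symm_apply_apply, hτ1, hτ1, acH_fst, acH_snd,
          mul_assoc]
      · rw [acH_snd, Equiv.symm_apply_apply, Equiv.symm_apply_apply, hτ2, hτ2, acH_snd]
    · intro i
      show finProdFinEquiv (τ (finProdFinEquiv.symm (z i))) = z' i
      refine ptH_ext e ?_ ?_
      · rw [Equiv.symm_apply_apply, hτ1, hw, mul_inv_cancel_left]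
      · rw [Equiv.symm_apply_apply, hτ2]
        exact hπ i

end H

theorem ac_one {s M : ℕ} (G : Group (Fin s)) (p : Fin (s * M)) : ac G G.one p = p :=
  @acH_one (Fin s) G s M (Equiv.refl _) p

theorem ac_mul {s M : ℕ} (G : Group (Fin s)) (a b : Fin s) (p : Fin (s * M)) :
    ac G (G.mul a b) p = ac G a (ac G b p) :=
  @acH_mul (Fin s) G s M (Equiv.refl _) a b p

theorem ac_free {s M : ℕ} (G : Group (Fin s)) {a b : Fin s} {p : Fin (s * M)}
    (h : ac G a p = ac G b p) : a = b :=
  @acH_free (Fin s) G s M (Equiv.refl _) a b p h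

/-- The automorphisms of the action. -/
theorem exists_world {s M : ℕ} (G : Group (Fin s)) :
    ∃ W : World (s * M) M s, ∀ σ, σ ∈ W.Aut ↔ ∀ a p, σ (ac G a p) = ac G a (σ p) :=
  @exists_worldH (Fin s) G s M (Equiv.refl _)

end Pool.H93.CG
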