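import Pool.Agent.H93.CG.Place

/-!
# Lemmas on placements, part 1

MODULE LA.

`pmk_fix`. Proof. By `pmk_eq_iff` there is an even `σ₀` with `σ₀ • a = b` and `h (σ₀ i) = g i` for
`i ∈ supp n a`; `supp n b = (supp n a).image σ₀` (`supp_smul`).
 - For `i ∈ A ∩ supp n a`: `h (σ₀ i) = g i = h i`, and `σ₀ i ∈ supp n b`, `i ∈ A`, so `σ₀ i = i`
   (`h` is injective on `A ∪ supp n b`).
 - For `i ∈ supp n a`, `i ∉ A`: `σ₀ i ∉ A`, otherwise `g (σ₀ i) = h (σ₀ i) = g i`, so `σ₀ i = i` (`g` is
   injective on `A ∪ supp n a`), `i ∈ A`.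
So the map `τ` equal to `σ₀` on `supp n a` and to the identity on `A` is well defined and injective on
`A ∪ supp n a`; by `exists_even_perm` there is an even `σ` which agrees with `τ` there. `σ⁻¹ * σ₀` is
even and fixes the points of `supp n a`, so it fixes `a` (`supp_fix`), `σ • a = σ₀ • a = b`, and
`h (σ i) = h (σ₀ i) = g i` on `supp n a`.

`mem_lift`. (←) by definition. (→) There are `y ∈ S`, `h = f` on `A`, injective on
`A ∪ supp n y.node`, `plit C x g = plit C y h`; so `x.pos = y.pos` and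
`pmk C x.node g = pmk C y.node h`; by `pmk_fix` (with `g = h` on `A`; use it for `y`, `x`) there is an
even `σ` fixing the points of `A` with `σ • y.node = x.node`, so `σ • y = x` (`Lit.ext`), and
`x ∈ σ • S = S`.

`lift_up`. Proof. (⊆) Let `z = plit C x g` be a member of the left side. Apply `transfer_even` with
`M = Fin n'`, `Q y h := z = plit C y h` (`plit_congr`, `plit_smul`), in the form `transfer_even`.
(⊇) If `x ∈ S`, `g = f` on `A'`, injective on `A' ∪ supp n x.node` then the same pair is a member of the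
left side.
-/

set_option autoImplicit false

namespace Pool.H93.CG

open Pool.H93.SY (Lit Atom tv supp supp_fix supp_smul supp_min supp_card_lt Fixes fixes_supp
  exists_even_perm exists_extend pts mem_pts pts_card mem_pts_snoc tv_mem tv_realize snoc_comp qd)
open scoped Pointwise

variable {L : FirstOrder.Language.{0, 0}} {s n : ℕ} {C : Circuit L s n} {n' k : ℕ}

theorem pmk_fix (hC : Small C k) {a b : C.N} {A : Finset (Fin n)} (hA : A.card ≤ 8 * k)
    {g h : Fin n → Fin n'} (hgh : ∀ i ∈ A, g i = h i)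
    (hg : Set.InjOn g (A ∪ supp n a : Finset (Fin n)))
    (hh : Set.InjOn h (A ∪ supp n b : Finset (Fin n))) (he : pmk C a g = pmk C b h) :
    ∃ σ : Equiv.Perm (Fin n), Equiv.Perm.sign σ = 1 ∧ (∀ i ∈ A, σ i = i) ∧ σ • a = b ∧
      ∀ i ∈ supp n a, h (σ i) = g i := by
  classical
  obtain ⟨σ₀, h1, h2, h3⟩ := pmk_eq_iff.1 he
  have hroom := hC.room
  have hna := hC.node a
  have hb : supp n b = (supp n a).image σ₀ := by rw [← h2, supp_smul]
  have hmem : ∀ i ∈ supp n a, σ₀ i ∈ supp n b := by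
    intro i hi
    rw [hb]
    exact Finset.mem_image_of_mem _ hi
  have hfix : ∀ i ∈ supp n a, i ∈ A → σ₀ i = i := by
    intro i hi hiA
    apply hh (Finset.mem_coe.2 (Finset.mem_union_right _ (hmem i hi)))
      (Finset.mem_coe.2 (Finset.mem_union_left _ hiA))
    rw [h3 i hi, hgh i hiA]
  have hout : ∀ i ∈ supp n a, σ₀ i ∈ A → i ∈ A := by
    intro i hi hiA
    have h4 : σ₀ i = i := by
      apply hg (Finset.mem_coe.2 (Finset.mem_union_left _ hiA))
        (Finset.mem_coe.2 (Finset.mem_union_right _ hi))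
      rw [hgh _ hiA, h3 i hi]
    rwa [h4] at hiA
  obtain ⟨σ, hσ1, hσ2⟩ := exists_even_perm (A ∪ supp n a)
    (fun i => if i ∈ A then i else σ₀ i) (by
      intro i hi j hj hij
      have hi' : i ∈ A ∪ supp n a := hi
      have hj' : j ∈ A ∪ supp n a := hj
      simp only at hij
      by_cases hiA : i ∈ A
      · by_cases hjA : j ∈ A
        · rw [if_pos hiA, if_pos hjA] at hij
          exact hij
        · rw [if_pos hiA, if_neg hjA] at hij
          exact absurd (hout j ((Finset.mem_union.1 hj').resolve_left hjA) (hij ▸ hiA)) hjA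
      · by_cases hjA : j ∈ A
        · rw [if_neg hiA, if_pos hjA] at hij
          exact absurd (hout i ((Finset.mem_union.1 hi').resolve_left hiA) (hij ▸ hjA)) hiA
        · rw [if_neg hiA, if_neg hjA] at hij
          exact σ₀.injective hij) (by
      have := Finset.card_union_le A (supp n a)
      omega)
  have hσA : ∀ i ∈ A, σ i = i := by
    intro i hi
    rw [hσ2 i (Finset.mem_union_left _ hi), if_pos hi]
  have hσa : ∀ i ∈ supp n a, σ i = σ₀ i := by
    intro i hi
    rw [hσ2 i (Finset.mem_union_right _ hi)]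
    by_cases hiA : i ∈ A
    · rw [if_pos hiA, hfix i hi hiA]
    · rw [if_neg hiA]
  refine ⟨σ, hσ1, hσA, ?_, ?_⟩
  · have h4 : (σ⁻¹ * σ₀) • a = a := by
      refine supp_fix (by omega) a _ ?_ ?_
      · rw [map_mul, Equiv.Perm.sign_inv, hσ1, h1, one_mul]
      · intro i hi
        show σ.symm (σ₀ i) = i
        rw [← hσa i hi, σ.symm_apply_apply]
    rw [mul_smul, inv_smul_eq_iff] at h4
    rw [← h4, h2]
  · intro i hi
    rw [hσa i hi, h3 i hi]

theorem mem_lift (hC : Small C k) {S : Set (Lit C.N)} {A : Finset (Fin n)} (hS : Fixes A S)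
    (hA : A.card ≤ 8 * k) {f g : Fin n → Fin n'} (hgf : ∀ i ∈ A, g i = f i) {x : Lit C.N}
    (hg : Set.InjOn g (A ∪ supp n x.node : Finset (Fin n))) :
    plit C x g ∈ lift C S A f ↔ x ∈ S := by
  constructor
  · rintro ⟨y, hy, h, h1, h2, h3⟩
    have hn0 := congrArg Lit.node h3
    have hn : pmk C x.node g = pmk C y.node h := hn0
    have hp0 := congrArg Lit.pos h3
    have hp : x.pos = y.pos := hp0
    obtain ⟨σ, hσ1, hσ2, hσ3, -⟩ := pmk_fix hC hA (g := h) (h := g)
      (fun i hi => (h1 i hi).trans (hgf i hi).symm) h2 hg hn.symm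
    have h4 : σ • y = x := Lit.ext hσ3 hp.symm
    rw [← h4, ← hS σ hσ1 hσ2]
    exact Set.smul_mem_smul_set hy
  · intro hx
    exact ⟨x, hx, g, hgf, hg, rfl⟩

theorem lift_up (hC : Small C k) {S : Set (Lit C.N)} {A A' : Finset (Fin n)} (hS : Fixes A S)
    (hA : A ⊆ A') (hA' : A'.card ≤ 8 * k) {f : Fin n → Fin n'} (hf : Set.InjOn f A') :
    lift C S A f = lift C S A' f := by
  have hroom := hC.room
  ext z
  constructor
  · rintro ⟨x, hx, g, h1, h2, h3⟩
    obtain ⟨y, hy, g', h4, h5, h6⟩ := transfer_even (k := k) (fun a => (hC.node a).le) hS hA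
      (by omega) hf (Q := fun y h => z = plit C y h)
      (fun y f f' hff hz => hz.trans (plit_congr hff))
      (fun σ y f hσ hz => hz.trans (plit_smul hσ y f).symm) ⟨x, hx, g, h1, h2, h3⟩
    exact ⟨y, hy, g', h4, h5, h6⟩
  · rintro ⟨x, hx, g, h1, h2, h3⟩
    refine ⟨x, hx, g, fun i hi => h1 i (hA hi), h2.mono ?_, h3⟩
    rw [Finset.coe_subset]
    exact Finset.union_subset_union_left hA

theorem lift_congr {S : Set (Lit C.N)} {A : Finset (Fin n)} {f g : Fin n → Fin n'}
    (h : ∀ i ∈ A, f i = g i) : lift C S A f = lift C S A g := by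
  ext z
  constructor
  · rintro ⟨x, hx, u, h1, h2, h3⟩
    exact ⟨x, hx, u, fun i hi => (h1 i hi).trans (h i hi), h2, h3⟩
  · rintro ⟨x, hx, u, h1, h2, h3⟩
    exact ⟨x, hx, u, fun i hi => (h1 i hi).trans (h i hi).symm, h2, h3⟩

theorem smul_lift (τ : Equiv.Perm (Fin n')) (S : Set (Lit C.N)) (A : Finset (Fin n))
    (f : Fin n → Fin n') : τ • lift C S A f = lift C S A (fun i => τ (f i)) := by
  ext z
  rw [Set.mem_smul_set_iff_inv_smul_mem]
  constructor
  · rintro ⟨x, hx, u, h1, h2, h3⟩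
    refine ⟨x, hx, fun i => τ (u i), fun i hi => congrArg τ (h1 i hi), ?_, ?_⟩
    · intro i hi j hj hij
      exact h2 hi hj (τ.injective hij)
    · rw [← smul_plit, ← h3, smul_inv_smul]
  · rintro ⟨x, hx, u, h1, h2, h3⟩
    refine ⟨x, hx, fun i => τ⁻¹ (u i), fun i hi => ?_, ?_, ?_⟩
    · show τ⁻¹ (u i) = f i
      rw [h1 i hi]
      exact τ.symm_apply_apply _
    · intro i hi j hj hij
      exact h2 hi hj (τ⁻¹.injective hij)
    · rw [h3, smul_plit]

end Pool.H93.CG
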