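import Pool.Agent.H93.CG.LiftA

/-!
# The lifted circuit

MODULE LC.

`pgate0_congr`. Let `σ` be even, `σ • p.1 = q.1`, `q.2 (σ i) = p.2 i` for `i ∈ supp n p.1`. Write
`a = p.1`, `f = p.2`, `g = q.2`, so `q.1 = σ • a`, `supp n (σ • a) = (supp n a).image σ`, and the label of
`σ • a` is `(C.gate a).act σ` (`C.gate_smul`).
 - variable `v`: the label of `(σ • a, g)` is the atom with arguments
   `Sum.map id g (Sum.map id σ (v.2.2 i))`; by `args_mem` the points `p` of `Fin n` among the arguments
   of `v` are in `supp n a`, and `g (σ p) = f p`. So the two labels are equal (`funext`, cases on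
   `v.2.2 i`).
 - `and S`, `mod c S`: one has to show `lift C (σ • S) ((supp n a).image σ) g = lift C S (supp n a) f`
   (`lift_smul_source`): a member of the right side is `plit C x u`, `x ∈ S`, `u = f` on
   `supp n a`, injective on `supp n a ∪ supp n x.node`; it is equal to
   `plit C (σ • x) (fun i => u (σ⁻¹ i))` (`plit_smul`), and `u (σ⁻¹ (σ i)) = u i = f i = g (σ i)`, and the
   injectivity is clear (`supp_smul`, `smul_node`, `Finset.image_union`). Conversely a member of the left
   side is `plit C (σ • x) w`, `x ∈ S`, `w = g` on the image; put `u i = w (σ i)`; then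
   `plit C (σ • x) w = plit C x u`.

`prank z` is the smallest rank of a node `a` with `z = pmk C a f`. `prank_lt`: choose `a`, `f` with
`z = pmk C a f` and `C.rank a = prank z` (`Nat.sInf_mem`); the label of `z` is `pgate0 C a f`; a member
of its children is `plit C x g` with `x ∈ (C.gate a).children`, so `C.rank x.node < C.rank a`
(`C.rank_lt`), and `prank (pmk C x.node g) ≤ C.rank x.node` (`Nat.sInf_le`).

`pgate_smul`: by `smul_pmk`, `smul_lift`, cases on `C.gate a`; for a variable
`Sum.map id τ (Sum.map id f u) = Sum.map id (fun i => τ (f i)) u`.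
-/

set_option autoImplicit false

namespace Pool.H93.CG

open Pool.H93.SY (Lit Atom tv supp supp_fix supp_smul supp_min supp_card_lt Fixes fixes_supp
  exists_even_perm exists_extend pts mem_pts pts_card mem_pts_snoc tv_mem tv_realize snoc_comp qd)
open scoped Pointwise

variable {L : FirstOrder.Language.{0, 0}} {s n : ℕ} {n' k : ℕ}

theorem pgate0_var {C : Circuit L s n} {a : C.N} {v : Atom L (Fin s ⊕ Fin n)}
    (h : C.gate a = .var v) (f : Fin n → Fin n') :
    pgate0 C a f = .var ⟨v.1, v.2.1, fun i => Sum.map id f (v.2.2 i)⟩ := by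
  unfold pgate0
  rw [h]

theorem pgate0_and {C : Circuit L s n} {a : C.N} {S : Set (Lit C.N)}
    (h : C.gate a = .and S) (f : Fin n → Fin n') :
    pgate0 C a f = .and (lift C S (supp n a) f) := by
  unfold pgate0
  rw [h]

theorem pgate0_sym {C : Circuit L s n} {a : C.N} {c : Set ℕ} {S : Set (Lit C.N)}
    (h : C.gate a = .sym c S) (f : Fin n → Fin n') :
    pgate0 C a f = .sym c (lift C S (supp n a) f) := by
  unfold pgate0
  rw [h]

theorem lift_smul_source (C : Circuit L s n) {σ : Equiv.Perm (Fin n)}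
    (hσ : Equiv.Perm.sign σ = 1) (S : Set (Lit C.N)) (A : Finset (Fin n))
    {f g : Fin n → Fin n'} (hfg : ∀ i ∈ A, g (σ i) = f i) :
    lift C (σ • S) (A.image σ) g = lift C S A f := by
  have hinj : ∀ (B : Finset (Fin n)) (u : Fin n → Fin n'),
      Set.InjOn (fun i => u (σ i)) B → Set.InjOn u (B.image σ : Finset (Fin n)) := by
    intro B u h x hx y hy hxy
    obtain ⟨i, hi, rfl⟩ := Finset.mem_image.1 (Finset.mem_coe.1 hx)
    obtain ⟨j, hj, rfl⟩ := Finset.mem_image.1 (Finset.mem_coe.1 hy)
    rw [h hi hj hxy]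
  have hinj' : ∀ (B : Finset (Fin n)) (u : Fin n → Fin n'),
      Set.InjOn u (B.image σ : Finset (Fin n)) → Set.InjOn (fun i => u (σ i)) B := by
    intro B u h i hi j hj hij
    exact σ.injective (h (Finset.mem_coe.2 (Finset.mem_image_of_mem σ hi))
      (Finset.mem_coe.2 (Finset.mem_image_of_mem σ hj)) hij)
  have hun : ∀ x : Lit C.N, A.image σ ∪ supp n (σ • x).node = (A ∪ supp n x.node).image σ := by
    intro x
    rw [smul_node, supp_smul, Finset.image_union]
  have hback : ∀ u : Fin n → Fin n', (fun i => (fun j => u (σ⁻¹ j)) (σ i)) = u := by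
    intro u
    funext i
    show u (σ.symm (σ i)) = u i
    rw [σ.symm_apply_apply]
  ext z
  constructor
  · rintro ⟨x', hx', w, h1, h2, h3⟩
    obtain ⟨x, hx, rfl⟩ := Set.mem_smul_set.1 hx'
    rw [hun] at h2
    refine ⟨x, hx, fun i => w (σ i), ?_, hinj' _ _ h2, ?_⟩
    · intro i hi
      show w (σ i) = f i
      rw [h1 _ (Finset.mem_image_of_mem σ hi), hfg i hi]
    · rw [h3, ← plit_smul hσ x (fun i => w (σ i))]
      congr 1
      funext i
      show w i = w (σ (σ.symm i))
      rw [σ.apply_symm_apply]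
  · rintro ⟨x, hx, u, h1, h2, h3⟩
    refine ⟨σ • x, Set.smul_mem_smul_set hx, fun i => u (σ⁻¹ i), ?_, ?_, ?_⟩
    · intro i hi
      obtain ⟨j, hj, rfl⟩ := Finset.mem_image.1 hi
      show u (σ.symm (σ j)) = g (σ j)
      rw [σ.symm_apply_apply, hfg j hj, h1 j hj]
    · rw [hun]
      apply hinj
      rw [hback]
      exact h2
    · rw [plit_smul hσ, h3]

theorem pgate0_congr {C : Circuit L s n} (hC : Small C k) (p q : C.N × (Fin n → Fin n'))
    (h : (placeSetoid C n').r p q) : pgate0 C p.1 p.2 = pgate0 C q.1 q.2 := by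
  obtain ⟨a, f⟩ := p
  obtain ⟨b, g⟩ := q
  obtain ⟨σ, hσ, hab, hfg⟩ := h
  simp only at hab hfg
  subst hab
  have hroom := hC.room
  have hna := hC.node a
  have hg := C.gate_smul σ a
  show pgate0 C a f = pgate0 C (σ • a) g
  cases ha : C.gate a with
  | var v =>
    rw [ha] at hg
    have hg' : C.gate (σ • a) = .var (v.act σ) := hg
    rw [pgate0_var ha, pgate0_var hg']
    have h1 : (fun i => Sum.map id f (v.2.2 i) : Fin v.1 → Fin s ⊕ Fin n') =
        fun i => Sum.map id g ((v.act σ).2.2 i) := by
      funext i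
      show Sum.map id f (v.2.2 i) = Sum.map id g (Sum.map id σ (v.2.2 i))
      cases hv : v.2.2 i with
      | inl t => rfl
      | inr p =>
        show (Sum.inr (f p) : Fin s ⊕ Fin n') = Sum.inr (g (σ p))
        rw [hfg p (args_mem (by omega) ha i hv)]
    rw [h1]
    rfl
  | and S =>
    rw [ha] at hg
    have hg' : C.gate (σ • a) = .and (σ • S) := hg
    rw [pgate0_and ha, pgate0_and hg', supp_smul, lift_smul_source C hσ S _ hfg]
  | sym c S =>
    rw [ha] at hg
    have hg' : C.gate (σ • a) = .sym c (σ • S) := hg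
    rw [pgate0_sym ha, pgate0_sym hg', supp_smul, lift_smul_source C hσ S _ hfg]

/-- The label of a placed node. -/
noncomputable def pgate {C : Circuit L s n} (hC : Small C k) (n' : ℕ) :
    PN C n' → Gate (Atom L (Fin s ⊕ Fin n')) (PN C n') :=
  Quotient.lift (fun p => pgate0 C p.1 p.2) (fun p q h => pgate0_congr hC p q h)

theorem pgate_pmk {C : Circuit L s n} (hC : Small C k) (a : C.N) (f : Fin n → Fin n') :
    pgate hC n' (pmk C a f) = pgate0 C a f := rfl

/-- The smallest level of a node which gives the placed node. -/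
noncomputable def prank (C : Circuit L s n) {n' : ℕ} (z : PN C n') : ℕ :=
  sInf {r | ∃ (a : C.N) (f : Fin n → Fin n'), z = pmk C a f ∧ C.rank a = r}

theorem prank_le (C : Circuit L s n) (a : C.N) (f : Fin n → Fin n') :
    prank C (pmk C a f) ≤ C.rank a :=
  Nat.sInf_le ⟨a, f, rfl, rfl⟩

theorem prank_lt {C : Circuit L s n} (hC : Small C k) (z : PN C n') :
    ∀ x ∈ (pgate hC n' z).children, prank C x.node < prank C z := by
  obtain ⟨a, f, hz, hr⟩ : prank C z ∈ {r | ∃ (a : C.N) (f : Fin n → Fin n'),
      z = pmk C a f ∧ C.rank a = r} := by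
    apply Nat.sInf_mem
    obtain ⟨a, f, hz⟩ := exists_pmk z
    exact ⟨_, a, f, hz, rfl⟩
  intro x hx
  rw [← hr]
  rw [hz, pgate_pmk] at hx
  have key : ∀ S : Set (Lit C.N), S = (C.gate a).children → x ∈ lift C S (supp n a) f →
      prank C x.node < C.rank a := by
    rintro S hS ⟨y, hy, g, h1, h2, h3⟩
    rw [h3]
    rw [hS] at hy
    exact lt_of_le_of_lt (prank_le C y.node g) (C.rank_lt a y hy)
  cases ha : C.gate a with
  | var v =>
    rw [pgate0_var ha] at hx
    exact absurd hx (Set.notMem_empty x)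
  | and S =>
    rw [pgate0_and ha] at hx
    exact key S (by rw [ha]; rfl) hx
  | sym c S =>
    rw [pgate0_sym ha] at hx
    exact key S (by rw [ha]; rfl) hx

theorem pgate_smul {C : Circuit L s n} (hC : Small C k) (τ : Equiv.Perm (Fin n'))
    (z : PN C n') : pgate hC n' (τ • z) = (pgate hC n' z).act τ := by
  obtain ⟨a, f, rfl⟩ := exists_pmk z
  rw [smul_pmk, pgate_pmk, pgate_pmk]
  cases ha : C.gate a with
  | var v =>
    rw [pgate0_var ha, pgate0_var ha]
    have h1 : (fun i => Sum.map id (fun i => τ (f i)) (v.2.2 i) : Fin v.1 → Fin s ⊕ Fin n') =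
        fun i => Sum.map id τ (Sum.map id f (v.2.2 i)) := by
      funext i
      cases v.2.2 i with
      | inl t => rfl
      | inr p => rfl
    rw [h1]
    rfl
  | and S =>
    rw [pgate0_and ha, pgate0_and ha]
    show _ = Gate.and (τ • lift C S (supp n a) f)
    rw [smul_lift]
  | sym c S =>
    rw [pgate0_sym ha, pgate0_sym ha]
    show _ = Gate.sym c (τ • lift C S (supp n a) f)
    rw [smul_lift]

/-- The lifted circuit. -/
noncomputable def ext {C : Circuit L s n} (hC : Small C k) (n' : ℕ) : Circuit L s n' where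
  N := PN C n'
  gate := pgate hC n'
  rank := prank C
  rank_lt := prank_lt hC
  gate_smul := pgate_smul hC

end Pool.H93.CG
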