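import Pool.Agent.H93.CG.Eval

/-!
# The rules lift, part 1

MODULE LE.

In every lemma extend `f` from `supp n Γ` to `f'` injective on a larger set `A'` (`exists_extend`,
`8 k + 8 ≤ n'`); `liftL C Γ f = liftL C Γ f'` by `liftL_congr`. All supports have less than `k` points.
`ext_step_hyp`: `A' = supp n Γ ∪ supp n x.node`; `plit C x f' ∈ liftL C Γ f'` (`plit_mem_lift`) and
`rep_lift` with `j = 0`, `v = default` (`pts default = ∅`, `Sum.map id f' ∘ default = default` by
`Subsingleton.elim`), rule `hyp`.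
`ext_step_ident`: `A' = supp n Γ ∪ supp n a ∪ supp n b`; the labels of `pmk C a f'` and `pmk C b f'` are
equal: variable: `ext_gate`, `pgate0_var`; conjunction: `gate_and_up`; `mod`: `gate_sym_up`
(with the same `A'`). Rule `ident`; membership by `plit_mem_lift`.
`ext_step_weak`: `A' = supp n Γ ∪ supp n Δ`; `liftL C Δ f' = lift C Δ A' f' ⊆ lift C Γ A' f' =
liftL C Γ f'` (`liftL_eq`, `lift_mono`). Rule `weak` with `hP' Δ`.
`ext_step_cut`: `A' = supp n Γ ∪ supp n (insert ⟨a, true⟩ Γ) ∪ supp n (insert ⟨a, false⟩ Γ) ∪ supp n a`;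
`liftL_insert` for both; rule `cut` with the node `pmk C a f'`
(`plit C ⟨a, true⟩ f' = ⟨pmk C a f', true⟩` is `rfl`).
`ext_step_andI`: `A' = supp n Γ ∪ supp n a`, the label of `pmk C a f'` is `and (lift C S A' f')`
(`gate_and_up`). Let `z ∈ lift C S A' f'`, `z = plit C x g`, `x ∈ S`, `g = f'` on `A'`, `g` injective on
`A' ∪ supp n x.node`. Extend `g` to `g'` injective on
`A'' = A' ∪ supp n x.node ∪ supp n (insert x Γ)`; `z = plit C x g'` (`plit_congr`), and
`liftL C (insert x Γ) g' = insert z (liftL C Γ g')`, `liftL C Γ g' = liftL C Γ f'`. So the premise is in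
`P'` by `hP'`. Rule `andI`.
`ext_step_andE`: `A' = supp n Γ ∪ supp n a ∪ supp n (Γ ∪ Lit.neg '' S)`; `liftL_union_neg`; the label of
`pmk C a f'` is `and (lift C S (supp n a) f')` (`ext_gate`, `pgate0_and`). Rule `andE`.
-/

set_option autoImplicit false

namespace Pool.H93.CG

open Pool.H93.SY (Lit Atom tv supp supp_fix supp_smul supp_min supp_card_lt Fixes fixes_supp
  exists_even_perm exists_extend pts mem_pts pts_card mem_pts_snoc tv_mem tv_realize snoc_comp qd)
open scoped Pointwise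
open FirstOrder.Language

variable {L : FirstOrder.Language.{0, 0}} [L.IsRelational] {s n : ℕ} {C : Circuit L s n}
  {n' k : ℕ} {D' : Set (Atom L (Fin s ⊕ Fin n') × Bool)}

private theorem grow {Γ : Set (Lit C.N)} {f : Fin n → Fin n'} (hf : Set.InjOn f (supp n Γ))
    (A' : Finset (Fin n)) (hA : supp n Γ ⊆ A') (hA' : A'.card ≤ n') :
    ∃ f' : Fin n → Fin n', (∀ i ∈ supp n Γ, f' i = f i) ∧ Set.InjOn f' A' ∧
      liftL C Γ f = liftL C Γ f' := by
  obtain ⟨f', h1, h2⟩ := exists_extend (supp n Γ) A' hA f hf (Or.inr (by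
    rw [Nat.card_fin]
    exact hA'))
  exact ⟨f', h1, h2, liftL_congr fun i hi => (h1 i hi).symm⟩

theorem ext_step_hyp (hC : Small C k) {ψ : L.Sentence} (hn : 3 * k + qd ψ + 4 ≤ n)
    (hn' : 3 * k + qd ψ + 1 ≤ n') (h8 : 8 * k + 8 ≤ n') (P' : Set (Set (Lit (PN C n'))))
    {Γ : Set (Lit C.N)} (hΓ : (supp n Γ).card < k) {f : Fin n → Fin n'}
    (hf : Set.InjOn f (supp n Γ)) {x : Lit C.N} (hx : C.Rep ψ default x) (hxΓ : x ∈ Γ) :
    BStep ψ D' (ext hC n') P' (liftL C Γ f) := by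
  have hroom := hC.room
  have hnx := hC.node x.node
  have h1 := Finset.card_union_le (supp n Γ) (supp n x.node)
  obtain ⟨f', hf1, hf2, hf3⟩ := grow hf (supp n Γ ∪ supp n x.node) Finset.subset_union_left
    (by omega)
  rw [hf3]
  refine .hyp (x := plit C x f') ?_
    (plit_mem_lift hf2 hxΓ Finset.subset_union_left Finset.subset_union_right)
  have h2 := rep_lift hC (r := qd ψ) (by omega) (by omega) ψ (by omega) default x hx f'
    (hf2.mono (by
      rw [Finset.coe_subset]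
      refine Finset.union_subset Finset.subset_union_right ?_
      intro p hp
      obtain ⟨i, -⟩ := mem_pts.1 hp
      exact i.elim0))
  have h3 : (Sum.map id f' ∘ (default : Fin 0 → Fin s ⊕ Fin n) : Fin 0 → Fin s ⊕ Fin n') =
      default := Subsingleton.elim _ _
  rw [h3] at h2
  exact h2

theorem ext_step_ident (hC : Small C k) {ψ : L.Sentence} (h8 : 8 * k + 8 ≤ n')
    (P' : Set (Set (Lit (PN C n')))) {Γ : Set (Lit C.N)} (hΓ : (supp n Γ).card < k)
    {f : Fin n → Fin n'} (hf : Set.InjOn f (supp n Γ)) {a b : C.N} (hab : C.gate a = C.gate b)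
    (ha : ⟨a, true⟩ ∈ Γ) (hb : ⟨b, false⟩ ∈ Γ) : BStep ψ D' (ext hC n') P' (liftL C Γ f) := by
  have hroom := hC.room
  have hna := hC.node a
  have hnb := hC.node b
  have h1 := Finset.card_union_le (supp n Γ) (supp n a)
  have h2 := Finset.card_union_le (supp n Γ ∪ supp n a) (supp n b)
  have hA1 : supp n Γ ⊆ supp n Γ ∪ supp n a ∪ supp n b :=
    Finset.subset_union_left.trans Finset.subset_union_left
  have hA2 : supp n a ⊆ supp n Γ ∪ supp n a ∪ supp n b :=
    Finset.subset_union_right.trans Finset.subset_union_left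
  have hA3 : supp n b ⊆ supp n Γ ∪ supp n a ∪ supp n b := Finset.subset_union_right
  obtain ⟨f', hf1, hf2, hf3⟩ := grow hf (supp n Γ ∪ supp n a ∪ supp n b) hA1 (by omega)
  rw [hf3]
  refine .ident (a := pmk C a f') (b := pmk C b f') ?_ (plit_mem_lift hf2 ha hA1 hA2)
    (plit_mem_lift hf2 hb hA1 hA3)
  cases hg : C.gate a with
  | var v =>
    rw [ext_gate, ext_gate, pgate0_var hg, pgate0_var (hab ▸ hg)]
  | and S =>
    rw [gate_and_up hC hg hA2 (by omega) hf2, gate_and_up hC (hab ▸ hg) hA3 (by omega) hf2]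
  | sym c S =>
    rw [gate_sym_up hC hg hA2 (by omega) hf2, gate_sym_up hC (hab ▸ hg) hA3 (by omega) hf2]

theorem ext_step_weak (hC : Small C k) {ψ : L.Sentence} (h8 : 8 * k + 8 ≤ n')
    {P : Set (Set (Lit C.N))} {P' : Set (Set (Lit (PN C n')))}
    (hP : ∀ Δ ∈ P, (supp n Δ).card < k)
    (hP' : ∀ Δ ∈ P, ∀ g : Fin n → Fin n', Set.InjOn g (supp n Δ) → liftL C Δ g ∈ P')
    {Γ : Set (Lit C.N)} (hΓ : (supp n Γ).card < k) {f : Fin n → Fin n'}
    (hf : Set.InjOn f (supp n Γ)) {Δ : Set (Lit C.N)} (hΔ : Δ ∈ P) (hs : Δ ⊆ Γ) :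
    BStep ψ D' (ext hC n') P' (liftL C Γ f) := by
  have hroom := hC.room
  have hnΔ := hP Δ hΔ
  have h1 := Finset.card_union_le (supp n Γ) (supp n Δ)
  obtain ⟨f', hf1, hf2, hf3⟩ := grow hf (supp n Γ ∪ supp n Δ) Finset.subset_union_left (by omega)
  rw [hf3]
  refine .weak (hP' Δ hΔ f' (hf2.mono (by
    rw [Finset.coe_subset]
    exact Finset.subset_union_right))) ?_
  rw [liftL_eq hC Finset.subset_union_right (by omega) hf2,
    liftL_eq hC Finset.subset_union_left (by omega) hf2]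
  exact lift_mono hs _ _

theorem ext_step_cut (hC : Small C k) {ψ : L.Sentence} (h8 : 8 * k + 8 ≤ n')
    {P : Set (Set (Lit C.N))} {P' : Set (Set (Lit (PN C n')))}
    (hP : ∀ Δ ∈ P, (supp n Δ).card < k)
    (hP' : ∀ Δ ∈ P, ∀ g : Fin n → Fin n', Set.InjOn g (supp n Δ) → liftL C Δ g ∈ P')
    {Γ : Set (Lit C.N)} (hΓ : (supp n Γ).card < k) {f : Fin n → Fin n'}
    (hf : Set.InjOn f (supp n Γ)) {a : C.N} (h1 : insert ⟨a, true⟩ Γ ∈ P)
    (h2 : insert ⟨a, false⟩ Γ ∈ P) : BStep ψ D' (ext hC n') P' (liftL C Γ f) := by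
  have hroom := hC.room
  have hna := hC.node a
  have hn1 := hP _ h1
  have hn2 := hP _ h2
  set Δ₁ : Set (Lit C.N) := insert ⟨a, true⟩ Γ with hΔ₁
  set Δ₂ : Set (Lit C.N) := insert ⟨a, false⟩ Γ with hΔ₂
  have hc1 := Finset.card_union_le (supp n Γ) (supp n a)
  have hc2 := Finset.card_union_le (supp n Γ ∪ supp n a) (supp n Δ₁)
  have hc3 := Finset.card_union_le (supp n Γ ∪ supp n a ∪ supp n Δ₁) (supp n Δ₂)
  obtain ⟨A', hA'⟩ : ∃ A', A' = supp n Γ ∪ supp n a ∪ supp n Δ₁ ∪ supp n Δ₂ := ⟨_, rfl⟩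
  rw [← hA'] at hc3
  have hA1 : supp n Γ ⊆ A' := by
    rw [hA']
    exact Finset.subset_union_left.trans (Finset.subset_union_left.trans Finset.subset_union_left)
  have hA2 : supp n a ⊆ A' := by
    rw [hA']
    exact Finset.subset_union_right.trans (Finset.subset_union_left.trans Finset.subset_union_left)
  have hA3 : supp n Δ₁ ⊆ A' := by
    rw [hA']
    exact Finset.subset_union_right.trans Finset.subset_union_left
  have hA4 : supp n Δ₂ ⊆ A' := by
    rw [hA']
    exact Finset.subset_union_right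
  obtain ⟨f', hf1, hf2, hf3⟩ := grow hf A' hA1 (by omega)
  rw [hf3]
  have e1 := hP' _ h1 f' (hf2.mono (Finset.coe_subset.2 hA3))
  have e2 := hP' _ h2 f' (hf2.mono (Finset.coe_subset.2 hA4))
  rw [hΔ₁, liftL_insert hC hA1 hA3 hA2 (by omega) hf2] at e1
  rw [hΔ₂, liftL_insert hC hA1 hA4 hA2 (by omega) hf2] at e2
  exact .cut (a := pmk C a f') e1 e2

theorem ext_step_andI (hC : Small C k) {ψ : L.Sentence} (h8 : 8 * k + 8 ≤ n')
    {P : Set (Set (Lit C.N))} {P' : Set (Set (Lit (PN C n')))}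
    (hP : ∀ Δ ∈ P, (supp n Δ).card < k)
    (hP' : ∀ Δ ∈ P, ∀ g : Fin n → Fin n', Set.InjOn g (supp n Δ) → liftL C Δ g ∈ P')
    {Γ : Set (Lit C.N)} (hΓ : (supp n Γ).card < k) {f : Fin n → Fin n'}
    (hf : Set.InjOn f (supp n Γ)) {a : C.N} {S : Set (Lit C.N)} (hS : C.gate a = .and S)
    (ha : ⟨a, true⟩ ∈ Γ) (h1 : ∀ x ∈ S, insert x Γ ∈ P) :
    BStep ψ D' (ext hC n') P' (liftL C Γ f) := by
  have hroom := hC.room
  have hna := hC.node a
  have hc1 := Finset.card_union_le (supp n Γ) (supp n a)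
  obtain ⟨f', hf1, hf2, hf3⟩ := grow hf (supp n Γ ∪ supp n a) Finset.subset_union_left (by omega)
  rw [hf3]
  refine .andI (a := pmk C a f') (gate_and_up hC hS Finset.subset_union_right (by omega) hf2)
    (plit_mem_lift hf2 ha Finset.subset_union_left Finset.subset_union_right) ?_
  rintro z ⟨x, hx, g, hg1, hg2, rfl⟩
  have hnx := hC.node x.node
  have hnl := hP _ (h1 x hx)
  set Δ : Set (Lit C.N) := insert x Γ with hΔ
  have hc2 := Finset.card_union_le (supp n Γ ∪ supp n a) (supp n x.node)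
  have hc3 := Finset.card_union_le (supp n Γ ∪ supp n a ∪ supp n x.node) (supp n Δ)
  obtain ⟨g', hg3, hg4⟩ := exists_extend (supp n Γ ∪ supp n a ∪ supp n x.node)
    (supp n Γ ∪ supp n a ∪ supp n x.node ∪ supp n Δ) Finset.subset_union_left g hg2
    (Or.inr (by rw [Nat.card_fin]; omega))
  have e1 := hP' _ (h1 x hx) g' (hg4.mono (Finset.coe_subset.2 Finset.subset_union_right))
  rw [liftL_insert (A' := supp n Γ ∪ supp n a ∪ supp n x.node ∪ supp n Δ) hC
    (Finset.subset_union_left.trans (Finset.subset_union_left.trans Finset.subset_union_left))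
    Finset.subset_union_right
    (Finset.subset_union_right.trans Finset.subset_union_left) (by omega) hg4] at e1
  have e2 : plit C x g' = plit C x g :=
    plit_congr fun i hi => hg3 i (Finset.mem_union_right _ hi)
  have e3 : liftL C Γ g' = liftL C Γ f' := by
    refine liftL_congr fun i hi => ?_
    have hi' : i ∈ supp n Γ ∪ supp n a := Finset.mem_union_left _ hi
    rw [hg3 i (Finset.mem_union_left _ hi'), hg1 i hi']
  rw [e2, e3] at e1
  exact e1

theorem ext_step_andE (hC : Small C k) {ψ : L.Sentence} (h8 : 8 * k + 8 ≤ n')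
    {P : Set (Set (Lit C.N))} {P' : Set (Set (Lit (PN C n')))}
    (hP : ∀ Δ ∈ P, (supp n Δ).card < k)
    (hP' : ∀ Δ ∈ P, ∀ g : Fin n → Fin n', Set.InjOn g (supp n Δ) → liftL C Δ g ∈ P')
    {Γ : Set (Lit C.N)} (hΓ : (supp n Γ).card < k) {f : Fin n → Fin n'}
    (hf : Set.InjOn f (supp n Γ)) {a : C.N} {S : Set (Lit C.N)} (hS : C.gate a = .and S)
    (ha : ⟨a, false⟩ ∈ Γ) (h1 : Γ ∪ Lit.neg '' S ∈ P) :
    BStep ψ D' (ext hC n') P' (liftL C Γ f) := by
  have hroom := hC.room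
  have hna := hC.node a
  have hn1 := hP _ h1
  set Δ : Set (Lit C.N) := Γ ∪ Lit.neg '' S with hΔ
  have hc1 := Finset.card_union_le (supp n Γ) (supp n a)
  have hc2 := Finset.card_union_le (supp n Γ ∪ supp n a) (supp n Δ)
  have hA1 : supp n Γ ⊆ supp n Γ ∪ supp n a ∪ supp n Δ :=
    Finset.subset_union_left.trans Finset.subset_union_left
  have hA2 : supp n a ⊆ supp n Γ ∪ supp n a ∪ supp n Δ :=
    Finset.subset_union_right.trans Finset.subset_union_left
  have hA3 : supp n Δ ⊆ supp n Γ ∪ supp n a ∪ supp n Δ := Finset.subset_union_right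
  obtain ⟨f', hf1, hf2, hf3⟩ := grow hf (supp n Γ ∪ supp n a ∪ supp n Δ) hA1 (by omega)
  rw [hf3]
  have e1 := hP' _ h1 f' (hf2.mono (Finset.coe_subset.2 hA3))
  rw [hΔ, liftL_union_neg hC hS hA1 hA3 hA2 (by omega) hf2] at e1
  refine .andE (a := pmk C a f') (S := lift C S (supp n a) f') ?_
    (plit_mem_lift hf2 ha hA1 hA2) e1
  rw [ext_gate, pgate0_and hS]
  rfl

end Pool.H93.CG
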