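import Pool.Agent.H93.CG.MuN

/-!
# [H93 CG VC] The virtual number of true members

`Inv W`: the elements of `W.Aut` are automorphisms of the structure.

PROOF of `vcount` (complete). Let `X = A.image f`, `U = {z | z ∈ lift C S A f ∧ (ext hC N).ctr l z}`, so
`U.ncard = (ext hC N).tc l (lift C S A f)` (by definition). `U` is invariant under `W.fixing X`: `smul_mem_lift` and
`ctr_smul` (the action of `Perm (Fin N)` on the nodes of `ext hC N` is the one on `PN C N`). By `mu_nat`
`mu C W X U = t` with `U.ncard = t` in `ZMod l`, and by `mu_mono`, `mu_lift`: `t ≤ S.ncard < l`. So `U.ncard % l = t`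
(`(ZMod.natCast_eq_natCast_iff' _ _ l).1`, `Nat.mod_eq_of_lt`).
`tc_lt`: `tc` is at most the number of elements.
-/

set_option autoImplicit false

namespace Pool.H93.CG

open Pool.H93.SY (Lit Atom tv supp supp_fix supp_smul supp_min supp_card_lt Fixes fixes_supp
  exists_even_perm exists_extend qd)
open scoped Pointwise
open FirstOrder.Language

variable {L : FirstOrder.Language.{0, 0}} {s n : ℕ} {C : Circuit L s n} {N M d k l : ℕ}

/-- The elements of the group are automorphisms of the structure. -/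
def Inv (W : World N M d) (L : FirstOrder.Language.{0, 0}) (s : ℕ)
    [L.Structure (Fin s ⊕ Fin N)] : Prop :=
  ∀ σ ∈ W.Aut, ∀ {r : ℕ} (R : L.Relations r) (v : Fin r → Fin s ⊕ Fin N),
    Structure.RelMap R (fun i => Sum.map id σ (v i)) ↔ Structure.RelMap R v

theorem vcount [L.Structure (Fin s ⊕ Fin N)] (hC : Small C k) (hN : Nice l n N d k)
    (W : World N M d) (hW : Inv W L s) {S : Set (Lit C.N)} {A : Finset (Fin n)}
    (hS : Fixes A S) (hA : A.card ≤ 4 * k) {f : Fin n → Fin N} (hf : Set.InjOn f A)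
    (hl : S.ncard < l) :
    mu C W (A.image f) {z | z ∈ lift C S A f ∧ (ext hC N).ctr l z} =
        (((ext hC N).tc l (lift C S A f) % l : ℕ) : ℚ) ∧
      (ext hC N).tc l (lift C S A f) % l ≤ S.ncard := by
  classical
  obtain ⟨U, hUd⟩ : ∃ U : Set (Lit (PN C N)), U = {z | z ∈ lift C S A f ∧ (ext hC N).ctr l z} := ⟨_, rfl⟩
  have htc : (ext hC N).tc l (lift C S A f) = U.ncard := by
    rw [hUd]
    rfl
  have hXA : (A.image f).card ≤ 4 * k := le_trans Finset.card_image_le hA
  have hinv : ∀ σ ∈ W.fixing (A.image f), ∀ z ∈ U, σ • z ∈ U := by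
    intro σ hσ z hz
    rw [hUd] at hz ⊢
    refine ⟨smul_mem_lift σ hσ.2 hz.1, ?_⟩
    exact (ctr_smul (C := ext hC N) (l := l) σ (fun R v => hW σ hσ.1 R v) z).2 hz.2
  obtain ⟨t, ht1, ht2⟩ := mu_nat hC hN W hXA hinv
  have ht3 : t ≤ S.ncard := by
    have h1 : mu C W (A.image f) U ≤ mu C W (A.image f) (lift C S A f) := by
      refine mu_mono hC hN W hXA ?_
      rw [hUd]
      exact fun z hz => hz.1
    rw [mu_lift hC hN W hS hA hf, ht1] at h1
    exact_mod_cast h1
  have ht4 : U.ncard % l = t := by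
    have h2 := (ZMod.natCast_eq_natCast_iff' U.ncard t l).1 ht2
    rw [h2, Nat.mod_eq_of_lt (by omega)]
  rw [htc, ht4, ← hUd]
  exact ⟨ht1, ht3⟩

end Pool.H93.CG
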