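import Pool.Agent.H93.CG.Grp
import Pool.Agent.H93.CG.Vc

/-!
# [H93 CG MDL] Free actions of a group as a first-order sentence

PROOFS (complete). `frStr G M` is the structure on `Fin s ⊕ Fin (s * M)`: `pt x`: `x` is in the right part; `mul x y z`:
`x = inl a`, `y = inl b`, `z = inl (a b)`; `act x y z`: `x = inl a`, `y = inr p`, `z = inr (ac G a p)`.
`free_realize`: unfold the sentence and simp with the realization lemmas as in `php_realize`
(`Pool/Agent/H88/SY/PhpModel.lean`); the six conjuncts (`ac_one`, `ac_mul`, `ac_free`): (1) for `a`, `x`: `¬ pt a`, `pt x` give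
`a = inl a'`, `x = inr p` (an element which is not in the right part is in the left part), take `y = inr (ac G a' p)`; (2) the value is
determined; (3) `ac_mul`; (4) `ac_free`; (5) `mul e e e`: `e = inl e'`, `e' * e' = e'`, so `e' = 1`, and `ac_one`; (6) clear.
`free_facts`: the facts hold under all placements (`Sum.map id f`): `pt (inr x) ↦ pt (inr (f x))` is true, `pt (inl a)` is false,
`mul (inl a) (inl b) (inl c)` if and only if `c = a b`.
`free_inv`: if `σ` commutes with all `ac G a` then `Sum.map id σ` is an automorphism: `act`: `σ (ac G a p) = ac G a (σ p)`, and `σ` is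
injective.
-/

set_option autoImplicit false

namespace Pool.H93.CG

open FirstOrder FirstOrder.Language
open Pool.H93.SY (Atom)

/-- The relation symbols: `pt x` (`x` is a point), `mul a b c` (`a b = c` in the group), `act a x y`
(`a` moves the point `x` to the point `y`). -/
inductive FRel : ℕ → Type
  | pt : FRel 1
  | mul : FRel 3
  | act : FRel 3

/-- The language of group actions. -/
def frL : FirstOrder.Language.{0, 0} := ⟨fun _ => Empty, FRel⟩

instance : frL.IsRelational := fun _ => inferInstanceAs (IsEmpty Empty)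

/-- `pt t` -/
def ptF {k : ℕ} (t : frL.Term (Empty ⊕ Fin k)) : frL.BoundedFormula Empty k :=
  .rel (FRel.pt : frL.Relations 1) ![t]

/-- `mul t u v` -/
def mulF {k : ℕ} (t u v : frL.Term (Empty ⊕ Fin k)) : frL.BoundedFormula Empty k :=
  .rel (FRel.mul : frL.Relations 3) ![t, u, v]

/-- `act t u v` -/
def actF {k : ℕ} (t u v : frL.Term (Empty ⊕ Fin k)) : frL.BoundedFormula Empty k :=
  .rel (FRel.act : frL.Relations 3) ![t, u, v]

/-- Every element `a` which is not a point moves every point `x` to some point. -/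
def freeTot : frL.Sentence :=
  ∀' ∀' (∼(ptF (&0)) ⟹ ptF (&1) ⟹ ∃' (ptF (&2) ⊓ actF (&0) (&1) (&2)))

/-- `a` moves `x` to only one point. -/
def freeFun : frL.Sentence :=
  ∀' ∀' ∀' ∀' (actF (&0) (&1) (&2) ⟹ actF (&0) (&1) (&3) ⟹ (&2 =' &3))

/-- `(a b) x = a (b x)`. -/
def freeMul : frL.Sentence :=
  ∀' ∀' ∀' ∀' ∀' ∀' (mulF (&0) (&1) (&2) ⟹ actF (&1) (&3) (&4) ⟹ actF (&0) (&4) (&5) ⟹
    actF (&2) (&3) (&5))

/-- `a x = b x` only for `a = b`. -/
def freeInj : frL.Sentence :=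
  ∀' ∀' ∀' ∀' (actF (&0) (&2) (&3) ⟹ actF (&1) (&2) (&3) ⟹ (&0 =' &1))

/-- The unit element (`e e = e`) acts trivially. -/
def freeOne : frL.Sentence :=
  ∀' ∀' (mulF (&0) (&0) (&0) ⟹ ptF (&1) ⟹ actF (&0) (&1) (&1))

/-- Only points are moved, by elements which are not points, to points. -/
def freeDom : frL.Sentence :=
  ∀' ∀' ∀' (actF (&0) (&1) (&2) ⟹ ∼(ptF (&0)) ⊓ (ptF (&1) ⊓ ptF (&2)))

/-- The elements which are not points act freely on the points. -/
def free : frL.Sentence :=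
  freeTot ⊓ (freeFun ⊓ (freeMul ⊓ (freeInj ⊓ (freeOne ⊓ freeDom))))

/-- The facts: the points of `Fin n` are points, the points of `Fin s` are not, and the
multiplication table of the group. -/
def table {s : ℕ} (G : Group (Fin s)) (n : ℕ) : Set (Atom frL (Fin s ⊕ Fin n) × Bool) :=
  {x | (∃ p : Fin s ⊕ Fin n, x = (⟨1, FRel.pt, fun _ => p⟩, p.isRight)) ∨
    ∃ a b c : Fin s, x = (⟨3, FRel.mul, ![Sum.inl a, Sum.inl b, Sum.inl c]⟩,
      decide (G.mul a b = c))}

/-- The free action on `Fin (s * M)` as a structure. -/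
@[instance_reducible]
def frStr {s : ℕ} (G : Group (Fin s)) (M : ℕ) : frL.Structure (Fin s ⊕ Fin (s * M)) where
  funMap := fun {_} f => (f : Empty).elim
  RelMap := fun {_} R x => match R, x with
    | FRel.pt, x => ∃ p : Fin (s * M), x 0 = Sum.inr p
    | FRel.mul, x => ∃ a b : Fin s, x 0 = Sum.inl a ∧ x 1 = Sum.inl b ∧ x 2 = Sum.inl (G.mul a b)
    | FRel.act, x => ∃ (a : Fin s) (p : Fin (s * M)), x 0 = Sum.inl a ∧ x 1 = Sum.inr p ∧
      x 2 = Sum.inr (ac G a p)

private theorem idem_one {α : Type} (G : Group α) {a : α} (h : G.mul a a = a) : a = G.one := by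
  have h1 : a * a = a := h
  have h2 : a = 1 := mul_left_cancel (a := a) (by rw [h1, mul_one])
  exact h2

theorem free_realize {s : ℕ} (G : Group (Fin s)) (M : ℕ) :
    @Sentence.Realize frL (Fin s ⊕ Fin (s * M)) (frStr G M) free := by
  let _ := frStr G M
  have hp : ∀ {k : ℕ} (t : frL.Term (Empty ⊕ Fin k)) (v : Empty → Fin s ⊕ Fin (s * M))
      (x : Fin k → Fin s ⊕ Fin (s * M)), (ptF t).Realize v x ↔
        ∃ p : Fin (s * M), t.realize (Sum.elim v x) = Sum.inr p :=
    fun t v x => Iff.rfl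
  have hm : ∀ {k : ℕ} (t u w : frL.Term (Empty ⊕ Fin k)) (v : Empty → Fin s ⊕ Fin (s * M))
      (x : Fin k → Fin s ⊕ Fin (s * M)), (mulF t u w).Realize v x ↔
        ∃ a b : Fin s, t.realize (Sum.elim v x) = Sum.inl a ∧
          u.realize (Sum.elim v x) = Sum.inl b ∧ w.realize (Sum.elim v x) = Sum.inl (G.mul a b) :=
    fun t u w v x => Iff.rfl
  have ha : ∀ {k : ℕ} (t u w : frL.Term (Empty ⊕ Fin k)) (v : Empty → Fin s ⊕ Fin (s * M))
      (x : Fin k → Fin s ⊕ Fin (s * M)), (actF t u w).Realize v x ↔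
        ∃ (a : Fin s) (p : Fin (s * M)), t.realize (Sum.elim v x) = Sum.inl a ∧
          u.realize (Sum.elim v x) = Sum.inr p ∧ w.realize (Sum.elim v x) = Sum.inr (ac G a p) :=
    fun t u w v x => Iff.rfl
  show BoundedFormula.Realize free _ _
  unfold free freeTot freeFun freeMul freeInj freeOne freeDom
  simp only [BoundedFormula.realize_inf, BoundedFormula.realize_all, BoundedFormula.realize_imp,
    BoundedFormula.realize_ex, BoundedFormula.realize_not, BoundedFormula.realize_bdEqual, hp, hm, ha]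
  refine ⟨?_, ?_, ?_, ?_, ?_, ?_⟩
  · intro a x h1 ⟨p, h2⟩
    have h1' : ¬ ∃ p : Fin (s * M), a = Sum.inr p := h1
    have h2' : x = Sum.inr p := h2
    rcases a with a | a
    · exact ⟨Sum.inr (ac G a p), ⟨_, rfl⟩, a, p, rfl, h2', rfl⟩
    · exact absurd ⟨a, rfl⟩ h1'
  · intro a x y z ⟨a1, p1, h1, h2, h3⟩ ⟨a2, p2, h4, h5, h6⟩
    have e1 : a = Sum.inl a1 := h1
    have e2 : x = Sum.inr p1 := h2
    have e3 : y = Sum.inr (ac G a1 p1) := h3
    have e4 : a = Sum.inl a2 := h4
    have e5 : x = Sum.inr p2 := h5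
    have e6 : z = Sum.inr (ac G a2 p2) := h6
    show y = z
    rw [e1] at e4
    rw [e2] at e5
    injection e4 with e4
    injection e5 with e5
    rw [e3, e6, e4, e5]
  · intro a b c x y z ⟨a1, b1, h1, h2, h3⟩ ⟨b2, p2, h4, h5, h6⟩ ⟨a3, p3, h7, h8, h9⟩
    have e1 : a = Sum.inl a1 := h1
    have e2 : b = Sum.inl b1 := h2
    have e3 : c = Sum.inl (G.mul a1 b1) := h3
    have e4 : b = Sum.inl b2 := h4
    have e5 : x = Sum.inr p2 := h5
    have e6 : y = Sum.inr (ac G b2 p2) := h6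
    have e7 : a = Sum.inl a3 := h7
    have e8 : y = Sum.inr p3 := h8
    have e9 : z = Sum.inr (ac G a3 p3) := h9
    rw [e1] at e7
    rw [e2] at e4
    rw [e6] at e8
    injection e7 with e7
    injection e4 with e4
    injection e8 with e8
    refine ⟨G.mul a1 b1, p2, e3, e5, ?_⟩
    show z = _
    rw [e9, ac_mul, ← e7, ← e8, e4]
  · intro a b x y ⟨a1, p1, h1, h2, h3⟩ ⟨a2, p2, h4, h5, h6⟩
    have e1 : a = Sum.inl a1 := h1
    have e2 : x = Sum.inr p1 := h2
    have e3 : y = Sum.inr (ac G a1 p1) := h3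
    have e4 : b = Sum.inl a2 := h4
    have e5 : x = Sum.inr p2 := h5
    have e6 : y = Sum.inr (ac G a2 p2) := h6
    rw [e2] at e5
    rw [e3] at e6
    injection e5 with e5
    injection e6 with e6
    subst e5
    show a = b
    rw [e1, e4, ac_free G e6]
  · intro a x ⟨a1, a2, h1, h2, h3⟩ ⟨p, h4⟩
    have e1 : a = Sum.inl a1 := h1
    have e2 : a = Sum.inl a2 := h2
    have e3 : a = Sum.inl (G.mul a1 a2) := h3
    have e4 : x = Sum.inr p := h4
    rw [e1] at e2
    rw [e1] at e3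
    injection e2 with e2
    injection e3 with e3
    subst e2
    have e5 : a1 = G.one := idem_one G e3.symm
    refine ⟨a1, p, e1, e4, ?_⟩
    show x = _
    rw [e4, e5, ac_one]
  · intro a x y ⟨a1, p1, h1, h2, h3⟩
    have e1 : a = Sum.inl a1 := h1
    have e2 : x = Sum.inr p1 := h2
    have e3 : y = Sum.inr (ac G a1 p1) := h3
    refine ⟨?_, ⟨p1, e2⟩, ⟨_, e3⟩⟩
    rintro ⟨q, hq⟩
    have hq' : a = Sum.inr q := hq
    rw [e1] at hq'
    cases hq'

theorem free_facts {s n : ℕ} (G : Group (Fin s)) (M : ℕ) :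
    ∀ v b, (v, b) ∈ table G n → ∀ f : Fin n → Fin (s * M),
      Set.InjOn f {p | ∃ i, v.2.2 i = Sum.inr p} →
      (@Structure.RelMap frL _ (frStr G M) v.1 v.2.1 (fun i => Sum.map id f (v.2.2 i)) ↔
        b = true) := by
  rintro v b (⟨p, hv⟩ | ⟨a, c, d, hv⟩) f -
  · rw [Prod.mk.injEq] at hv
    obtain ⟨rfl, rfl⟩ := hv
    show (∃ q : Fin (s * M), Sum.map id f p = Sum.inr q) ↔ p.isRight = true
    rcases p with p | p
    · simp
    · simp
  · rw [Prod.mk.injEq] at hv
    obtain ⟨rfl, rfl⟩ := hv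
    show (∃ x y : Fin s, Sum.map id f (Sum.inl a) = Sum.inl x ∧
      Sum.map id f (Sum.inl c) = Sum.inl y ∧ Sum.map id f (Sum.inl d) = Sum.inl (G.mul x y)) ↔
      decide (G.mul a c = d) = true
    rw [decide_eq_true_iff]
    constructor
    · rintro ⟨x, y, h1, h2, h3⟩
      have e1 : a = x := Sum.inl.inj h1
      have e2 : c = y := Sum.inl.inj h2
      have e3 : d = G.mul x y := Sum.inl.inj h3
      rw [e3, e1, e2]
    · intro h
      exact ⟨a, c, rfl, rfl, by rw [h]; rfl⟩

theorem free_inv {s : ℕ} (G : Group (Fin s)) (M : ℕ) (W : World (s * M) M s)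
    (hW : ∀ σ, σ ∈ W.Aut ↔ ∀ a p, σ (ac G a p) = ac G a (σ p)) :
    @Inv (s * M) M s W frL s (frStr G M) := by
  let _ := frStr G M
  intro σ hσ r R v
  have hc := (hW σ).1 hσ
  have hl : ∀ (z : Fin s ⊕ Fin (s * M)) (a : Fin s), Sum.map id σ z = Sum.inl a ↔ z = Sum.inl a := by
    intro z a
    rcases z with z | z
    · simp
    · simp
  have hr : ∀ (z : Fin s ⊕ Fin (s * M)) (p : Fin (s * M)),
      Sum.map id σ z = Sum.inr (σ p) ↔ z = Sum.inr p := by
    intro z p
    rcases z with z | z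
    · simp
    · simp
  cases R with
  | pt =>
    show (∃ p : Fin (s * M), Sum.map id σ (v 0) = Sum.inr p) ↔ ∃ p : Fin (s * M), v 0 = Sum.inr p
    constructor
    · rintro ⟨p, hp⟩
      refine ⟨σ.symm p, (hr _ _).1 ?_⟩
      rw [hp, Equiv.apply_symm_apply]
    · rintro ⟨p, hp⟩
      exact ⟨σ p, (hr _ _).2 hp⟩
  | mul =>
    show (∃ a b : Fin s, Sum.map id σ (v 0) = Sum.inl a ∧ Sum.map id σ (v 1) = Sum.inl b ∧
      Sum.map id σ (v 2) = Sum.inl (G.mul a b)) ↔
      ∃ a b : Fin s, v 0 = Sum.inl a ∧ v 1 = Sum.inl b ∧ v 2 = Sum.inl (G.mul a b)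
    simp only [hl]
  | act =>
    show (∃ (a : Fin s) (p : Fin (s * M)), Sum.map id σ (v 0) = Sum.inl a ∧
      Sum.map id σ (v 1) = Sum.inr p ∧ Sum.map id σ (v 2) = Sum.inr (ac G a p)) ↔
      ∃ (a : Fin s) (p : Fin (s * M)), v 0 = Sum.inl a ∧ v 1 = Sum.inr p ∧
        v 2 = Sum.inr (ac G a p)
    constructor
    · rintro ⟨a, p, h1, h2, h3⟩
      refine ⟨a, σ.symm p, (hl _ _).1 h1, (hr _ _).1 ?_, (hr _ _).1 ?_⟩
      · rw [h2, Equiv.apply_symm_apply]
      · rw [h3, hc, Equiv.apply_symm_apply]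
    · rintro ⟨a, p, h1, h2, h3⟩
      refine ⟨a, σ p, (hl _ _).2 h1, (hr _ _).2 h2, ?_⟩
      rw [← hc]
      exact (hr _ _).2 h3

end Pool.H93.CG
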