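import Mathlib

/-!
# [H93 CG PRM] The size of the world

PROOF (complete; Mathlib only). Let `l` be a prime greater than `B + d + k` (`Nat.exists_infinite_primes`). Let `R` be the
finite set of the primes `r < k` with `∀ e, r ^ e ∣ d → r ^ e ∣ n` and `Q = l * ∏ r ∈ R, r ^ (k * k)`.
`Nat.gcd d Q ∣ n`: by `Nat.dvd_of_forall_prime_pow_dvd`-style argument (`(Nat.dvd_iff_prime_pow_dvd_dvd n _).2`): let `p` be a
prime and `p ^ e ∣ gcd d Q`; if `e = 0` nothing is to be shown. `p ∣ d`, so `p ≤ d < l`, `p ≠ l` (`d > 0`), and `p ∣ Q`, so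
`p ∣ r ^ (k * k)` for some `r ∈ R` (`Prime.dvd_finsetProd_iff`), so `p = r ∈ R`, and `p ^ e ∣ d` gives `p ^ e ∣ n`.
Bezout: there are integers with `gcd d Q = d * u + Q * v` (`Nat.gcd_eq_gcd_ab`), so `n = d * x + Q * y` for integers `x`, `y`.
Let `t` be a large natural number and `M = x + Q * t` (an integer, large and positive), `N = d * M`. Then
`N - n = d * Q * t - Q * y` is divisible by `Q`, and `N > B`, `N ≥ n` for large `t` (`d, Q ≥ 1`). `Q ∣ N - n` in ℤ gives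
`l ∣ N - n` and `r ^ (k * k) ∣ N - n` in ℕ (`Int.natCast_dvd_natCast`, `Nat.cast_sub`).
-/

set_option autoImplicit false

namespace Pool.H93.CG

theorem exists_size (d n k B : ℕ) (hd : 0 < d) :
    ∃ l M : ℕ, l.Prime ∧ B < l ∧ B < d * M ∧ n ≤ d * M ∧ l ∣ d * M - n ∧
      ∀ r, r.Prime → r < k → (∀ e, r ^ e ∣ d → r ^ e ∣ n) → r ^ (k * k) ∣ d * M - n := by
  classical
  obtain ⟨l, hl, hlp⟩ := Nat.exists_infinite_primes (B + d + k + 1)
  obtain ⟨R, hR⟩ : ∃ R : Finset ℕ, R = (Finset.range k).filter fun r => r.Prime ∧ ∀ e, r ^ e ∣ d → r ^ e ∣ n :=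
    ⟨_, rfl⟩
  have hRm : ∀ r, r ∈ R ↔ r < k ∧ r.Prime ∧ ∀ e, r ^ e ∣ d → r ^ e ∣ n := by
    intro r
    rw [hR, Finset.mem_filter, Finset.mem_range]
  obtain ⟨Q, hQ⟩ : ∃ Q : ℕ, Q = l * ∏ r ∈ R, r ^ (k * k) := ⟨_, rfl⟩
  have hQpos : 0 < Q := by
    rw [hQ]
    exact Nat.mul_pos hlp.pos (Finset.prod_pos fun r hr => pow_pos ((hRm r).1 hr).2.1.pos _)
  have hgcd : Nat.gcd d Q ∣ n := by
    rw [Nat.dvd_iff_prime_pow_dvd_dvd]
    intro p e hp hpe
    rcases Nat.eq_zero_or_pos e with he | he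
    · rw [he, pow_zero]
      exact one_dvd _
    · have h1 : p ∣ Nat.gcd d Q := (dvd_pow_self p (by omega)).trans hpe
      have h2 : p ∣ d := h1.trans (Nat.gcd_dvd_left _ _)
      have h3 : p ∣ Q := h1.trans (Nat.gcd_dvd_right _ _)
      have h4 : p ≤ d := Nat.le_of_dvd hd h2
      rw [hQ] at h3
      rcases (Nat.Prime.dvd_mul hp).1 h3 with h5 | h5
      · have h6 := (Nat.prime_dvd_prime_iff_eq hp hlp).1 h5
        omega
      · obtain ⟨r, hr, h6⟩ := (Prime.dvd_finsetProd_iff hp.prime _).1 h5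
        obtain ⟨-, h7, h8⟩ := (hRm r).1 hr
        have h9 : p = r := (Nat.prime_dvd_prime_iff_eq hp h7).1 (hp.dvd_of_dvd_pow h6)
        rw [h9] at hpe ⊢
        exact h8 e (hpe.trans (Nat.gcd_dvd_left _ _))
  obtain ⟨c, hc⟩ := hgcd
  have hbez := Nat.gcd_eq_gcd_ab d Q
  obtain ⟨x, hx⟩ : ∃ x : ℤ, x = Nat.gcdA d Q * c := ⟨_, rfl⟩
  obtain ⟨y, hy⟩ : ∃ y : ℤ, y = Nat.gcdB d Q * c := ⟨_, rfl⟩
  have hn : (n : ℤ) = d * x + Q * y := by
    have h1 : (n : ℤ) = (Nat.gcd d Q : ℤ) * c := by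
      conv_lhs => rw [hc]
      push_cast
      ring
    rw [h1, hbez, hx, hy]
    ring
  obtain ⟨t, ht⟩ : ∃ t : ℕ, t = x.natAbs + B + n + 1 := ⟨_, rfl⟩
  have hbig : (B : ℤ) + n + 1 ≤ x + Q * t := by
    have h1 : (t : ℤ) ≤ Q * t := by
      have h2 : (1 : ℤ) ≤ Q := by exact_mod_cast hQpos
      nlinarith [Int.natCast_nonneg t]
    have h2 : (t : ℤ) = (x.natAbs : ℤ) + B + n + 1 := by
      rw [ht]
      push_cast
      ring
    have h3 : -x ≤ (x.natAbs : ℤ) := by omega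
    linarith
  obtain ⟨M, hM⟩ : ∃ M : ℕ, (M : ℤ) = x + Q * t := ⟨(x + Q * t).toNat, Int.toNat_of_nonneg (by omega)⟩
  have hM1 : B + n + 1 ≤ M := by
    have h1 : ((B + n + 1 : ℕ) : ℤ) ≤ (M : ℤ) := by
      rw [hM]
      push_cast
      exact hbig
    exact_mod_cast h1
  have hdM : M ≤ d * M := Nat.le_mul_of_pos_left M hd
  have hQd : Q ∣ d * M - n := by
    rw [← Int.natCast_dvd_natCast, Nat.cast_sub (by omega), Nat.cast_mul, hM, hn]
    exact ⟨d * t - y, by ring⟩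
  refine ⟨l, M, hlp, by omega, by omega, by omega, ?_, fun r hr hrk hre => ?_⟩
  · refine Dvd.dvd.trans ?_ hQd
    rw [hQ]
    exact dvd_mul_right _ _
  · refine Dvd.dvd.trans ?_ hQd
    rw [hQ]
    exact (Finset.dvd_prod_of_mem (fun r => r ^ (k * k)) ((hRm r).2 ⟨hrk, hr, hre⟩)).mul_left _

end Pool.H93.CG
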