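import Pool.Agent.H93.CG.Asm
import Pool.Agent.H93.CG.Mdl
import Pool.Agent.H93.CG.Dvd
import Pool.Agent.H93.CG.Prm

/-!
# [H93 CG LOWF] The lower bound

PROOF (complete). If `k = 0` then `n.choose 0 = 1 ≤ R.size` (`R.lines` is a finite set and contains `∅`). Let `0 < k`; `0 < s`
(`Fin s` has the unit element of `G`). `qd free ≤ 6` (`rfl` or `decide`/unfold: the quantifier depth of `free`; compute it, it is
`6`), so `qd free + 16 + 64 * k ≤ 100 * (k * s) ≤ n`. Suppose `R.size < n.choose k`. Let `B = (2 * Nat.card R.C.N + 1) ^ 2 + n + k + s + 100 * k + 100` and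
take `l`, `M` from `exists_size s n k B` (`d = s`). Put `N = s * M`. `Nice l n N s k`: `prime`, `kl` (`k ≤ B < l`), `dpos`,
`room`: `s * (8 * k) ≤ n`, `le`, `mod`; `dvd`: `prod_dvd` with `hq` from the hypothesis, `hQ` from `exists_size`, and
`s * (b0 + i) < n` for `i < b < k`, `b0 ≤ 4 * k` (`b0 + i < 5 k`, `s * (5 * k) < n`). `exists_world G` gives `W`, `free_realize`,
`free_facts`, `free_inv`; `no_refutation` with the structure `frStr G M`.
-/

set_option autoImplicit false

namespace Pool.H93.CG

open FirstOrder FirstOrder.Language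
open Pool.H93.SY (Lit Atom qd)

theorem lower_free (s n k : ℕ) (G : Group (Fin s)) (hn : 100 * (k * s) ≤ n)
    (hq : ∀ q, IsPrimePow q → q ∣ s → ¬ q ∣ n → k ≤ q)
    (R : Refutation free s n (table G n)) : n.choose k ≤ R.size := by
  rcases Nat.eq_zero_or_pos k with rfl | hk
  · rw [Nat.choose_zero_right]
    haveI : Finite (Lit R.C.N) := Finite.of_injective (fun x : Lit R.C.N => (x.node, x.pos)) (by
      intro x y h
      simp only [Prod.mk.injEq] at h
      exact Pool.H93.SY.Lit.ext h.1 h.2)
    have h1 : 0 < R.lines.ncard := (Set.ncard_pos (Set.toFinite _)).2 ⟨∅, R.empty_mem⟩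
    unfold Refutation.size
    omega
  have hs : 0 < s := (Nat.zero_le _).trans_lt (G.one : Fin s).isLt
  have hks : k ≤ k * s := Nat.le_mul_of_pos_right k hs
  have hqd : qd free ≤ 6 := by
    have h : qd free = 6 := rfl
    exact h.le
  have hn1 : qd free + 16 + 64 * k ≤ n := by omega
  by_contra hlt
  rw [not_le] at hlt
  obtain ⟨B, hB⟩ : ∃ B, B = (2 * Nat.card R.C.N + 1) ^ 2 + n + k + s + 100 * k + 100 := ⟨_, rfl⟩
  obtain ⟨l, M, hlp, hBl, hBM, hnM, hmod, hQ⟩ := exists_size s n k B hs
  have hNice : Nice l n (s * M) s k :=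
    { prime := hlp
      kl := by omega
      dpos := hs
      room := by
        have h : s * (8 * k) = 8 * (k * s) := by ring
        omega
      le := hnM
      mod := hmod
      dvd := by
        intro b b0 a hb hb0 ha h
        refine prod_dvd a ha hb (fun i hi => ?_) hnM hq hQ h
        have h1 : s * (b0 + i) < s * (5 * k) := Nat.mul_lt_mul_of_pos_left (by omega) hs
        have h2 : s * (5 * k) = 5 * (k * s) := by ring
        omega }
  obtain ⟨W, hW⟩ := exists_world (M := M) G
  letI := frStr G M
  exact no_refutation R hlt hn1 (by omega) (free_realize G M) (free_facts G M) hNice W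
    (free_inv G M W hW) (by omega)

end Pool.H93.CG
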