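import Mathlib

/-!
# [H93 CG ORB] The length of an orbit

PROOF (complete; Mathlib only). All groups are finite. Let `K = {σ ∈ H | σ • z = z}` and, for `i ≤ b`,
`K_i = {σ ∈ K | σ (t j) = t j for all j < i}` (subgroups of `Perm (Fin N)`), so `K_0 = K`. Let
`a i = |{σ (t i) | σ ∈ K_i}|`, the length of the orbit of the point `t i` under `K_i`. Then `0 < a i`, and
`a i ≤ Z.card` because `t i ∈ Z` and the elements of `K` map `Z` into `Z` (`h2`). Orbit and stabilizer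
(`MulAction.card_orbit_mul_card_stabilizer_eq_card_group`, or `Subgroup.card_mul_index`,
`MulAction.index_stabilizer`): `|K_i| = a i * |K_{i+1}|`, hence `|K| = (∏ i, a i) * |K_b|`.
`K_b = H_t := {σ ∈ H | ∀ i, σ (t i) = t i}`: an element of `H_t` fixes the points of `Z` (`h3`), hence fixes `z`
(`h1`). Finally `|H| = |H z| * |K|` and `|H| = |orbit of the tuple t| * |H_t|`, so
`|orbit of t| * |K_b| = |H z| * (∏ a i) * |K_b|`; cancel `|K_b| > 0`.
Possible formalization: a lemma `card_eq` : for a subgroup `H`, a finite type `Y` with an action of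
`Perm (Fin N)` and `y : Y`,
`Nat.card H = {y' | ∃ σ ∈ H, y' = σ • y}.ncard * Nat.card {σ // σ ∈ H ∧ σ • y = y}`;
apply it to `Y`, to `Fin N` (action `σ • p = σ p`) and to `Fin b → Fin N` (pointwise, or write the tuple version
again by hand), and prove `|K| = (∏ a i) * |K_b|` by induction on `b` for a general subgroup `K` (peel off `t 0` or
the last coordinate: `Fin.prod_univ_castSucc`, `a` given by a function on `Fin b`).
-/

set_option autoImplicit false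

namespace Pool.H93.CG

private theorem card_eq {G : Type} [Group G] [Finite G] (H : Subgroup G) {X : Type} [MulAction G X] (x : X) :
    Nat.card {σ : G // σ ∈ H} =
      {x' : X | ∃ σ ∈ H, x' = σ • x}.ncard * Nat.card {σ : G // σ ∈ H ∧ σ • x = x} := by
  have h1 := Subgroup.card_mul_index (MulAction.stabilizer H x)
  rw [MulAction.index_stabilizer] at h1
  have h2 : (MulAction.orbit H x) = {x' : X | ∃ σ ∈ H, x' = σ • x} := by
    ext y
    constructor
    · rintro ⟨σ, rfl⟩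
      exact ⟨σ.1, σ.2, rfl⟩
    · rintro ⟨σ, hσ, rfl⟩
      exact ⟨⟨σ, hσ⟩, rfl⟩
  have h3 : Nat.card (MulAction.stabilizer H x) = Nat.card {σ : G // σ ∈ H ∧ σ • x = x} :=
    Nat.card_congr
      { toFun := fun σ => ⟨σ.1.1, σ.1.2, σ.2⟩
        invFun := fun σ => ⟨⟨σ.1, σ.2.1⟩, σ.2.2⟩
        left_inv := fun _ => rfl
        right_inv := fun _ => rfl }
  rw [h2, h3] at h1
  rw [mul_comm]
  exact h1.symm

private theorem chain {N : ℕ} (Z : Finset (Fin N)) : ∀ (b : ℕ) (K : Subgroup (Equiv.Perm (Fin N)))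
    (_ : ∀ σ ∈ K, ∀ p ∈ Z, σ p ∈ Z) (t : Fin b → Fin N) (_ : ∀ i, t i ∈ Z),
    ∃ a : Fin b → ℕ, (∀ i, 0 < a i ∧ a i ≤ Z.card) ∧
      Nat.card {σ : Equiv.Perm (Fin N) // σ ∈ K} =
        (∏ i, a i) * Nat.card {σ : Equiv.Perm (Fin N) // σ ∈ K ∧ ∀ i, σ (t i) = t i} := by
  intro b
  induction b with
  | zero =>
    intro K _ t _
    refine ⟨fun i => i.elim0, fun i => i.elim0, ?_⟩
    rw [Fin.prod_univ_zero, one_mul]
    exact Nat.card_congr (Equiv.subtypeEquivRight fun σ => ⟨fun h => ⟨h, fun i => i.elim0⟩, fun h => h.1⟩)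
  | succ b ih =>
    intro K hK t ht
    have e1 := card_eq K (t 0)
    obtain ⟨a, ha, e2⟩ := ih (K ⊓ MulAction.stabilizer (Equiv.Perm (Fin N)) (t 0))
      (fun σ hσ => hK σ hσ.1) (fun i => t i.succ) (fun i => ht i.succ)
    refine ⟨Fin.cons {x' : Fin N | ∃ σ ∈ K, x' = σ • t 0}.ncard a, fun i => ?_, ?_⟩
    · refine Fin.cases ?_ (fun i => ?_) i
      · rw [Fin.cons_zero]
        constructor
        · rw [Set.ncard_pos (Set.toFinite _)]
          exact ⟨t 0, 1, K.one_mem, (one_smul _ _).symm⟩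
        · rw [← Set.ncard_coe_finset]
          refine Set.ncard_le_ncard ?_ (Set.toFinite _)
          rintro _ ⟨σ, hσ, rfl⟩
          exact hK σ hσ _ (ht 0)
      · rw [Fin.cons_succ]
        exact ha i
    · rw [Fin.prod_univ_succ, Fin.cons_zero]
      simp only [Fin.cons_succ]
      rw [e1, mul_assoc]
      congr 1
      refine Eq.trans ?_ (e2.trans ?_)
      · exact Nat.card_congr (Equiv.subtypeEquivRight fun σ => Iff.rfl)
      · congr 1
        refine Nat.card_congr (Equiv.subtypeEquivRight fun σ => ⟨fun h => ⟨h.1.1, fun i => ?_⟩, fun h => ?_⟩)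
        · exact Fin.cases h.1.2 (fun i => h.2 i) i
        · exact ⟨⟨h.1, h.2 0⟩, fun i => h.2 i.succ⟩

theorem orbit_count {N : ℕ} (H : Subgroup (Equiv.Perm (Fin N))) {Y : Type} [Finite Y]
    [MulAction (Equiv.Perm (Fin N)) Y] (z : Y) (Z : Finset (Fin N)) {b : ℕ} (t : Fin b → Fin N)
    (ht : ∀ i, t i ∈ Z)
    (h1 : ∀ σ ∈ H, (∀ p ∈ Z, σ p = p) → σ • z = z)
    (h2 : ∀ σ ∈ H, σ • z = z → ∀ p ∈ Z, σ p ∈ Z)
    (h3 : ∀ σ ∈ H, (∀ i, σ (t i) = t i) → ∀ p ∈ Z, σ p = p) :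
    ∃ a : Fin b → ℕ, (∀ i, 0 < a i ∧ a i ≤ Z.card) ∧
      {u : Fin b → Fin N | ∃ σ ∈ H, ∀ i, u i = σ (t i)}.ncard =
        (∏ i, a i) * {y : Y | ∃ σ ∈ H, y = σ • z}.ncard := by
  obtain ⟨a, ha, e2⟩ := chain Z b (H ⊓ MulAction.stabilizer (Equiv.Perm (Fin N)) z)
    (fun σ hσ => h2 σ hσ.1 hσ.2) t ht
  refine ⟨a, ha, ?_⟩
  have e1 := card_eq H z
  have e3 := card_eq H (X := Fin b → Fin N) t
  have s1 : {x' : Fin b → Fin N | ∃ σ ∈ H, x' = σ • t} = {u | ∃ σ ∈ H, ∀ i, u i = σ (t i)} := by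
    ext u
    constructor
    · rintro ⟨σ, hσ, rfl⟩
      exact ⟨σ, hσ, fun _ => rfl⟩
    · rintro ⟨σ, hσ, h⟩
      exact ⟨σ, hσ, funext h⟩
  have s2 : Nat.card {σ : Equiv.Perm (Fin N) // σ ∈ H ∧ σ • t = t} =
      Nat.card {σ : Equiv.Perm (Fin N) // σ ∈ H ⊓ MulAction.stabilizer (Equiv.Perm (Fin N)) z ∧
        ∀ i, σ (t i) = t i} := by
    refine Nat.card_congr (Equiv.subtypeEquivRight fun σ => ⟨fun h => ?_, fun h => ⟨h.1.1, funext h.2⟩⟩)
    have h4 : ∀ i, σ (t i) = t i := fun i => congrFun h.2 i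
    exact ⟨⟨h.1, h1 σ h.1 (h3 σ h.1 h4)⟩, h4⟩
  have s3 : Nat.card {σ : Equiv.Perm (Fin N) // σ ∈ H ∧ σ • z = z} =
      Nat.card {σ : Equiv.Perm (Fin N) // σ ∈ H ⊓ MulAction.stabilizer (Equiv.Perm (Fin N)) z} :=
    Nat.card_congr (Equiv.subtypeEquivRight fun σ => Iff.rfl)
  have hpos : 0 < Nat.card {σ : Equiv.Perm (Fin N) // σ ∈ H ⊓ MulAction.stabilizer (Equiv.Perm (Fin N)) z ∧
        ∀ i, σ (t i) = t i} := by
    have h4 : Nonempty {σ : Equiv.Perm (Fin N) // σ ∈ H ⊓ MulAction.stabilizer (Equiv.Perm (Fin N)) z ∧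
        ∀ i, σ (t i) = t i} := ⟨⟨1, Subgroup.one_mem _, fun _ => rfl⟩⟩
    exact Nat.card_pos
  rw [s1, s2] at e3
  rw [s3, e2, e3, ← mul_assoc] at e1
  rw [Nat.eq_of_mul_eq_mul_right hpos e1, mul_comm]

end Pool.H93.CG
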