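import Mathlib

/-!
# [H93 CG OSM] Sums over orbits

PROOF of `orbit_sum` (complete; Mathlib only). The classes of `r` which lie in `U` form a partition of `U`. On the
class of `y`: `∑ w = |class| * w y = t_y`. So `∑ᶠ y ∈ U, w y = ∑ t` over the classes in `U`, and
`|U| = ∑ |class|`, which is `∑ t` in `ZMod l`. Formalization: induction on the number of elements of `U`
(strong induction on `U.ncard`, for all `U` with `hU`): if `U = ∅` take `t = 0`. Otherwise choose `y ∈ U`, let `K = {z | r y z}`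
(`K ⊆ U`), `U' = U \ K`; `U'` is closed under `r` (symmetry and transitivity); `t = t' + t_y`:
`∑ᶠ z ∈ U, w z = ∑ᶠ z ∈ K, w z + ∑ᶠ z ∈ U', w z` (`finsum_mem_union` for disjoint finite sets),
`∑ᶠ z ∈ K, w z = K.ncard * w y` (`finsum_mem_congr`, `finsum_mem_const`? or `Finset.sum_const` after `Set.Finite.toFinset`).
-/

set_option autoImplicit false

namespace Pool.H93.CG

theorem orbit_sum {Y : Type} [Finite Y] (r : Setoid Y) (l : ℕ) (w : Y → ℚ) (U : Set Y)
    (hU : ∀ y ∈ U, ∀ z, r y z → z ∈ U) (hw : ∀ y ∈ U, ∀ z, r y z → w z = w y)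
    (h : ∀ y ∈ U, ∃ t : ℕ, ({z | r y z}.ncard : ℚ) * w y = t ∧
      (({z | r y z}.ncard : ℕ) : ZMod l) = t) :
    ∃ t : ℕ, ∑ᶠ y ∈ U, w y = t ∧ ((U.ncard : ℕ) : ZMod l) = t := by
  obtain ⟨n, hn⟩ : ∃ n, U.ncard = n := ⟨_, rfl⟩
  induction n using Nat.strong_induction_on generalizing U with
  | _ n ih =>
  rcases U.eq_empty_or_nonempty with h0 | ⟨y, hy⟩
  · subst h0
    exact ⟨0, by simp, by simp⟩
  have hKU : {z | r y z} ⊆ U := fun z hz => hU y hy z hz
  have hyK : y ∈ {z | r y z} := r.refl y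
  have hlt : (U \ {z | r y z}).ncard < U.ncard := by
    refine Set.ncard_lt_ncard ⟨Set.diff_subset, fun h1 => ?_⟩ (Set.toFinite _)
    exact (h1 hy).2 hyK
  have hU' : ∀ x ∈ U \ {z | r y z}, ∀ z, r x z → z ∈ U \ {z | r y z} := by
    intro x hx z hz
    refine ⟨hU x hx.1 z hz, fun h1 => hx.2 ?_⟩
    exact r.trans h1 (r.symm hz)
  obtain ⟨t', h1, h2⟩ := ih _ (by rw [← hn]; exact hlt) (U \ {z | r y z}) hU' (fun x hx => hw x hx.1)
    (fun x hx => h x hx.1) rfl
  obtain ⟨s, h3, h4⟩ := h y hy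
  have e : {z | r y z} ∪ (U \ {z | r y z}) = U := Set.union_diff_cancel hKU
  have hd : Disjoint {z | r y z} (U \ {z | r y z}) := Set.disjoint_sdiff_right
  have h5 : ∀ z ∈ {z | r y z}, w z = w y := fun z hz => hw y hy z hz
  have hK : ∑ᶠ z ∈ {z | r y z}, w z = s := by
    rw [← h3, finsum_mem_congr rfl h5,
      finsum_mem_eq_finite_toFinset_sum _ (Set.toFinite {z | r y z}), Finset.sum_const, nsmul_eq_mul,
      Set.ncard_eq_toFinset_card _ (Set.toFinite {z | r y z})]
  refine ⟨s + t', ?_, ?_⟩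
  · rw [← e, finsum_mem_union hd (Set.toFinite _) (Set.toFinite _), hK, h1]
    push_cast
    rfl
  · rw [← e, Set.ncard_union_eq hd (Set.toFinite _) (Set.toFinite _)]
    push_cast
    rw [h4, h2]

end Pool.H93.CG
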