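import Mathlib

/-!
# [H93 CG TUP] Classes of equal size and their automorphisms

PROOF of `tuple_card` (complete; Mathlib only). Let `E = X.image W.cl`, `b0 = E.card`.
(1) `{u | ∃ σ ∈ W.fixing X, ∀ i, u i = σ (t i)} = {u | Injective (cl ∘ u) ∧ ∀ i, cl (u i) ∉ E}`.
(⊆) `cl (σ (t i)) = cl (σ (t j))` gives `cl (t i) = cl (t j)` (`W.cls` for `σ⁻¹`), `i = j`. If
`cl (σ (t i)) = cl x`, `x ∈ X`, then `cl (t i) = cl (σ⁻¹ x) = cl x` (`σ x = x`), a contradiction to `htX`.
(⊇) Choose for every class in `E` a point of `X` in it: with an enumeration `e : Fin b0 ≃ E`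
(`Finset.equivFin`) a function `x : Fin b0 → Fin N`, `x i ∈ X`, `cl (x i) = e i`. The two tuples
`Fin.append x t` and `Fin.append x u` (`Fin (b0 + b) → Fin N`) have different classes, so `W.trans` gives
`σ ∈ W.Aut` with `σ (x i) = x i` and `σ (t i) = u i`. For `p ∈ X`: `cl p = cl (x i)` for some `i`, so `σ p = p` by
`W.fix`.
(2) The number of `u : Fin b → Fin N` with different classes outside `E` is
`∏ i ∈ range b, (N - d * (b0 + i))`: induction on `b`; a tuple of length `b + 1` is `Fin.snoc u p` (or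
`Fin.snocEquiv`) with `u` a tuple of length `b` and `cl p ∉ E ∪ {cl (u i)}`, a set of `b0 + b` classes, so `p` is one
of `N - d * (b0 + b)` points (`W.fib`; `N = Fintype.card (Fin N)` is the sum over the classes; the number of the
`p` with `cl p ∈ E'` is `d * E'.card`).
PROOF of `exists_base`: choose a point of `Z` in every class in `Z.image cl \ X.image cl`
(enumerated by `Fin (nb …)`; here `nb` is written out). If `σ ∈ W.fixing X` fixes the `t i` and `p ∈ Z` then
either `cl p ∈ X.image cl`, `cl p = cl x`, `σ x = x`, and `σ p = p` by `W.fix`, or `cl p = cl (t i)` for some `i`, and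
`σ p = p` by `W.fix`.
-/

set_option autoImplicit false

namespace Pool.H93.CG

/-- A partition of `Fin N` into `M` classes of `d` points (the fibres of `cl`), and a group of
permutations which respects the classes; a permutation in the group which fixes a point fixes its class
pointwise, and tuples of points of different classes can be moved to each other. -/
structure World (N M d : ℕ) where
  /-- the class of a point -/
  cl : Fin N → Fin M
  fib : ∀ c, (Finset.univ.filter fun p => cl p = c).card = d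
  /-- the group -/
  Aut : Subgroup (Equiv.Perm (Fin N))
  cls : ∀ σ ∈ Aut, ∀ p q, cl p = cl q → cl (σ p) = cl (σ q)
  fix : ∀ σ ∈ Aut, ∀ p q, cl p = cl q → σ p = p → σ q = q
  trans : ∀ (b : ℕ) (z z' : Fin b → Fin N), Function.Injective (fun i => cl (z i)) →
    Function.Injective (fun i => cl (z' i)) → ∃ σ ∈ Aut, ∀ i, σ (z i) = z' i

/-- The elements of the group which fix the points of `X`. -/
def World.fixing {N M d : ℕ} (W : World N M d) (X : Finset (Fin N)) :
    Subgroup (Equiv.Perm (Fin N)) where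
  carrier := {σ | σ ∈ W.Aut ∧ ∀ p ∈ X, σ p = p}
  mul_mem' {σ τ} hσ hτ := ⟨W.Aut.mul_mem hσ.1 hτ.1, fun p hp => by
    rw [Equiv.Perm.mul_apply, hτ.2 p hp, hσ.2 p hp]⟩
  one_mem' := ⟨W.Aut.one_mem, fun _ _ => rfl⟩
  inv_mem' {σ} hσ := ⟨W.Aut.inv_mem hσ.1, fun p hp => by
    rw [Equiv.Perm.inv_eq_iff_eq, hσ.2 p hp]⟩

private theorem card_cls {N M d : ℕ} (W : World N M d) (E : Finset (Fin M)) :
    (Finset.univ.filter fun p => W.cl p ∈ E).card = d * E.card := by
  have h0 := Finset.card_eq_sum_card_fiberwise (s := Finset.univ.filter fun p => W.cl p ∈ E) (f := W.cl) (t := E)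
    (fun p hp => Finset.mem_coe.2 (Finset.mem_filter.1 (Finset.mem_coe.1 hp)).2)
  rw [h0]
  have h1 : ∀ c ∈ E, ((Finset.univ.filter fun p => W.cl p ∈ E).filter fun p => W.cl p = c).card = d := by
    intro c hc
    refine Eq.trans ?_ (W.fib c)
    congr 1
    ext p
    simp only [Finset.mem_filter, Finset.mem_univ, true_and]
    exact ⟨fun h => h.2, fun h => ⟨by rw [h]; exact hc, h⟩⟩
  rw [Finset.sum_congr rfl h1, Finset.sum_const, smul_eq_mul, mul_comm]

private theorem card_out {N M d : ℕ} (W : World N M d) (E : Finset (Fin M)) :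
    Nat.card {p : Fin N // W.cl p ∉ E} = N - d * E.card := by
  rw [Nat.card_eq_fintype_card, Fintype.card_subtype, ← card_cls W E]
  have h1 : (Finset.univ.filter fun p => W.cl p ∉ E) = (Finset.univ.filter fun p => W.cl p ∈ E)ᶜ := by
    ext p
    simp only [Finset.mem_filter, Finset.mem_compl, Finset.mem_univ, true_and]
  rw [h1, Finset.card_compl, Fintype.card_fin]

private def Good {N M d : ℕ} (W : World N M d) (E : Finset (Fin M)) {b : ℕ} (u : Fin b → Fin N) : Prop :=
  Function.Injective (fun i => W.cl (u i)) ∧ ∀ i, W.cl (u i) ∉ E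

private theorem good_succ {N M d : ℕ} (W : World N M d) (E : Finset (Fin M)) {b : ℕ} (u : Fin (b + 1) → Fin N) :
    Good W E u ↔ Good W E (fun i : Fin b => u i.succ) ∧
      W.cl (u 0) ∉ E ∪ Finset.univ.image fun i : Fin b => W.cl (u i.succ) := by
  rw [Finset.mem_union, not_or]
  constructor
  · rintro ⟨h1, h2⟩
    refine ⟨⟨fun i j h => ?_, fun i => h2 i.succ⟩, h2 0, fun h => ?_⟩
    · exact Fin.succ_injective _ (h1 h)
    · obtain ⟨i, -, hi⟩ := Finset.mem_image.1 h
      exact Fin.succ_ne_zero i (h1 hi)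
  · rintro ⟨⟨h1, h2⟩, h3, h4⟩
    have h5 : ∀ i : Fin b, W.cl (u i.succ) ≠ W.cl (u 0) := fun i hi =>
      h4 (Finset.mem_image.2 ⟨i, Finset.mem_univ _, hi⟩)
    refine ⟨fun i => Fin.cases ?_ (fun i => ?_) i, fun i => Fin.cases h3 h2 i⟩
    · intro j
      refine Fin.cases (fun _ => rfl) (fun j h => ?_) j
      exact absurd h.symm (h5 j)
    · intro j
      refine Fin.cases (fun h => ?_) (fun j h => ?_) j
      · exact absurd h (h5 i)
      · rw [h1 h]

private theorem card_good {N M d : ℕ} (W : World N M d) (E : Finset (Fin M)) (b : ℕ) :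
    Nat.card {u : Fin b → Fin N // Good W E u} = ∏ i ∈ Finset.range b, (N - d * (E.card + i)) := by
  classical
  induction b with
  | zero =>
    have h1 : Unique {u : Fin 0 → Fin N // Good W E u} :=
      ⟨⟨⟨fun i => i.elim0, ⟨fun i => i.elim0, fun i => i.elim0⟩⟩⟩, fun a => Subtype.ext (funext fun i => i.elim0)⟩
    rw [Nat.card_unique, Finset.prod_range_zero]
  | succ b ih =>
    have e : {u : Fin (b + 1) → Fin N // Good W E u} ≃
        Σ u : {u : Fin b → Fin N // Good W E u},
          {p : Fin N // W.cl p ∉ E ∪ Finset.univ.image fun i : Fin b => W.cl (u.1 i)} :=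
      { toFun := fun u => ⟨⟨fun i => u.1 i.succ, ((good_succ W E u.1).1 u.2).1⟩, ⟨u.1 0, ((good_succ W E u.1).1 u.2).2⟩⟩
        invFun := fun x => ⟨Fin.cons x.2.1 x.1.1, (good_succ W E _).2 ⟨x.1.2, x.2.2⟩⟩
        left_inv := fun u => Subtype.ext (Fin.cons_self_tail u.1)
        right_inv := fun x => rfl }
    rw [Nat.card_congr e, Nat.card_sigma, Finset.prod_range_succ, ← ih]
    have h2 : ∀ u : {u : Fin b → Fin N // Good W E u},
        Nat.card {p : Fin N // W.cl p ∉ E ∪ Finset.univ.image fun i : Fin b => W.cl (u.1 i)} =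
          N - d * (E.card + b) := by
      intro u
      rw [card_out, Finset.card_union_of_disjoint, Finset.card_image_of_injective _ u.2.1, Finset.card_univ,
        Fintype.card_fin]
      rw [Finset.disjoint_left]
      intro c hc hc'
      obtain ⟨i, -, rfl⟩ := Finset.mem_image.1 hc'
      exact u.2.2 i hc
    rw [Finset.sum_congr rfl fun u _ => h2 u, Finset.sum_const, Finset.card_univ, smul_eq_mul,
      Nat.card_eq_fintype_card]

/-- a choice of points in given classes -/
private theorem pick {N M d : ℕ} (W : World N M d) (Z : Finset (Fin N)) (D : Finset (Fin M))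
    (hD : D ⊆ Z.image W.cl) : ∃ t : Fin D.card → Fin N, (∀ i, t i ∈ Z) ∧ (∀ i, W.cl (t i) ∈ D) ∧
      Function.Injective (fun i => W.cl (t i)) ∧ ∀ c ∈ D, ∃ i, W.cl (t i) = c := by
  have h1 : ∀ c : D, ∃ p ∈ Z, W.cl p = c.1 := fun c => Finset.mem_image.1 (hD c.2)
  choose g hg1 hg2 using h1
  refine ⟨fun i => g (D.equivFin.symm i), fun i => hg1 _, fun i => ?_, fun i j h => ?_, fun c hc => ?_⟩
  · rw [hg2]
    exact (D.equivFin.symm i).2
  · have h2 : W.cl (g (D.equivFin.symm i)) = W.cl (g (D.equivFin.symm j)) := h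
    rw [hg2, hg2] at h2
    exact D.equivFin.symm.injective (Subtype.ext h2)
  · refine ⟨D.equivFin ⟨c, hc⟩, ?_⟩
    show W.cl (g (D.equivFin.symm (D.equivFin ⟨c, hc⟩))) = c
    rw [hg2, Equiv.symm_apply_apply]

private theorem append_inj {N M d : ℕ} (W : World N M d) {E : Finset (Fin M)} {a b : ℕ} {x : Fin a → Fin N}
    {u : Fin b → Fin N} (hx : Function.Injective (fun i => W.cl (x i))) (hxE : ∀ i, W.cl (x i) ∈ E)
    (hu : Good W E u) : Function.Injective (fun i => W.cl (Fin.append x u i)) := by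
  intro i j
  refine Fin.addCases (fun i => ?_) (fun i => ?_) i
  · refine Fin.addCases (fun j h => ?_) (fun j h => ?_) j
    · have h2 : W.cl (Fin.append x u (Fin.castAdd b i)) = W.cl (Fin.append x u (Fin.castAdd b j)) := h
      rw [Fin.append_left, Fin.append_left] at h2
      rw [hx h2]
    · have h2 : W.cl (Fin.append x u (Fin.castAdd b i)) = W.cl (Fin.append x u (Fin.natAdd a j)) := h
      rw [Fin.append_left, Fin.append_right] at h2
      exact absurd (h2 ▸ hxE i) (hu.2 j)
  · refine Fin.addCases (fun j h => ?_) (fun j h => ?_) j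
    · have h2 : W.cl (Fin.append x u (Fin.natAdd a i)) = W.cl (Fin.append x u (Fin.castAdd b j)) := h
      rw [Fin.append_left, Fin.append_right] at h2
      exact absurd (h2 ▸ hxE j) (hu.2 i)
    · have h2 : W.cl (Fin.append x u (Fin.natAdd a i)) = W.cl (Fin.append x u (Fin.natAdd a j)) := h
      rw [Fin.append_right, Fin.append_right] at h2
      rw [hu.1 h2]

theorem tuple_card {N M d : ℕ} (W : World N M d) (X : Finset (Fin N)) {b : ℕ}
    (t : Fin b → Fin N) (ht : Function.Injective (fun i => W.cl (t i)))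
    (htX : ∀ i, W.cl (t i) ∉ X.image W.cl) :
    {u : Fin b → Fin N | ∃ σ ∈ W.fixing X, ∀ i, u i = σ (t i)}.ncard =
      ∏ i ∈ Finset.range b, (N - d * ((X.image W.cl).card + i)) := by
  have hgt : Good W (X.image W.cl) t := ⟨ht, htX⟩
  have h1 : {u : Fin b → Fin N | ∃ σ ∈ W.fixing X, ∀ i, u i = σ (t i)} = {u | Good W (X.image W.cl) u} := by
    ext u
    constructor
    · rintro ⟨σ, ⟨hσ, hσX⟩, hu⟩
      have hinv : ∀ p, σ⁻¹ (σ p) = p := fun p => σ.symm_apply_apply p
      refine ⟨fun i j h => ?_, fun i h => ?_⟩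
      · have h2 : W.cl (u i) = W.cl (u j) := h
        rw [hu, hu] at h2
        have h3 := W.cls σ⁻¹ (W.Aut.inv_mem hσ) _ _ h2
        rw [hinv, hinv] at h3
        exact ht h3
      · obtain ⟨x, hx, hxi⟩ := Finset.mem_image.1 h
        rw [hu] at hxi
        have h3 := W.cls σ⁻¹ (W.Aut.inv_mem hσ) _ _ hxi
        rw [hinv, Equiv.Perm.inv_eq_iff_eq.2 (hσX x hx).symm] at h3
        exact htX i (Finset.mem_image.2 ⟨x, hx, h3⟩)
    · intro hu
      have hu : Good W (X.image W.cl) u := hu
      obtain ⟨x, hx1, hx2, hx3, hx4⟩ := pick W X (X.image W.cl) (Finset.Subset.refl _)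
      obtain ⟨σ, hσ, h2⟩ := W.trans _ (Fin.append x t) (Fin.append x u) (append_inj W hx3 hx2 hgt)
        (append_inj W hx3 hx2 hu)
      refine ⟨σ, ⟨hσ, fun p hp => ?_⟩, fun i => ?_⟩
      · obtain ⟨i, hi⟩ := hx4 (W.cl p) (Finset.mem_image_of_mem _ hp)
        have h3 := h2 (Fin.castAdd b i)
        rw [Fin.append_left, Fin.append_left] at h3
        exact W.fix σ hσ _ _ hi h3
      · have h3 := h2 (Fin.natAdd _ i)
        rw [Fin.append_right, Fin.append_right] at h3
        exact h3.symm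
  rw [h1]
  exact card_good W (X.image W.cl) b

theorem exists_base {N M d : ℕ} (W : World N M d) (X Z : Finset (Fin N)) :
    ∃ t : Fin (Z.image W.cl \ X.image W.cl).card → Fin N, (∀ i, t i ∈ Z) ∧
      Function.Injective (fun i => W.cl (t i)) ∧ (∀ i, W.cl (t i) ∉ X.image W.cl) ∧
      ∀ σ ∈ W.fixing X, (∀ i, σ (t i) = t i) → ∀ p ∈ Z, σ p = p := by
  obtain ⟨t, ht1, ht2, ht3, ht4⟩ := pick W Z (Z.image W.cl \ X.image W.cl) Finset.sdiff_subset
  refine ⟨t, ht1, ht3, fun i => (Finset.mem_sdiff.1 (ht2 i)).2, fun σ hσ h p hp => ?_⟩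
  by_cases h1 : W.cl p ∈ X.image W.cl
  · obtain ⟨x, hx, hxp⟩ := Finset.mem_image.1 h1
    exact W.fix σ hσ.1 _ _ hxp (hσ.2 x hx)
  · obtain ⟨i, hi⟩ := ht4 (W.cl p) (Finset.mem_sdiff.2 ⟨Finset.mem_image_of_mem _ hp, h1⟩)
    exact W.fix σ hσ.1 _ _ hi (h i)

end Pool.H93.CG
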