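import Mathlib

/-!
# [H93 CG WT] The weights

`Fin N` is divided into classes of `d` points, the fibres of `cl : Fin N → Fin M`; `X` is a set of points.
`nb cl X Z` is the number of classes which meet `Z` and do not meet `X`, and `wt n N d b0 b` is
`∏_{i < b} (n - d (b0 + i)) / (N - d (b0 + i))`, where `b0` is the number of classes which meet `X`.

PROOF of `sum_wt` (complete; Mathlib only). Put `b0 = (X.image cl).card`, `a = n - X.card`,
`w D = wt n N d b0 (nb cl X D)`, `F j = ∑ D ∈ (Xᶜ).powersetCard j, w D`. Induction on `j`. `F 0 = w ∅ = 1`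
(`nb cl X ∅ = 0`, empty product). Step: it is enough to show
  `(j + 1) * F (j + 1) = (n - X.card - j) * F j`   (in ℚ, real subtraction),
because `a.choose (j + 1) * (j + 1) = a.choose j * (a - j)` (`Nat.choose_succ_right_eq`); if `a < j` then
`F j = a.choose j = 0` (and `a.choose (j + 1) = 0`), if `j ≤ a` then `((a - j : ℕ) : ℚ) = n - X.card - j`.
 Double counting: `(j + 1) * F (j + 1) = ∑ D' ∈ powersetCard (j + 1), ∑ p ∈ D', w D'
  = ∑ D ∈ powersetCard j, ∑ p ∈ (X ∪ D)ᶜ, w (insert p D)` (the bijection `(D', p) ↦ (D'.erase p, p)`;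
`Finset.sum_sigma'`, `Finset.sum_bij'`; the hypothesis `hN` for `j + 1` implies the one for `j`).
 For fixed `D` (`|D| = j`, disjoint from `X`) let `E = X.image cl ∪ D.image cl`, `b = nb cl X D`, so
`E.card = b0 + b`. For `p ∉ X ∪ D`: if `cl p ∈ E` then `nb cl X (insert p D) = b` or ... precisely: `cl p ∈ E`
gives `(insert p D).image cl \ X.image cl = D.image cl \ X.image cl`, hence `w (insert p D) = w D`; the number of
these `p` is `d * (b0 + b) - X.card - j` (the points with `cl p ∈ E` are `d * E.card` points,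
`Finset.card_eq_sum_card_fiberwise` or `card_biUnion`, and `X ∪ D` is a set of `X.card + j` of them). If `cl p ∉ E` then
`nb cl X (insert p D) = b + 1` and `w (insert p D) = w D * (n - d (b0 + b)) / (N - d (b0 + b))`
(`Finset.prod_range_succ`); the number of these `p` is `N - d (b0 + b)`, which is positive in ℚ
(`b ≤ j`: `Finset.card_sdiff` / `card_image_le`, `hN`). The sum is
`w D * ((d (b0 + b) - X.card - j) + (n - d (b0 + b))) = w D * (n - X.card - j)`.
`wt_nonneg`: every factor is nonnegative.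
`wt_mul`: `∏ (N - d (b0 + i))` is a product of nonzero numbers; natural subtraction is the real one by the hypothesis.
-/

set_option autoImplicit false

namespace Pool.H93.CG

/-- The weight of a set of points which meets `b` new classes. -/
def wt (n N d b0 b : ℕ) : ℚ :=
  ∏ i ∈ Finset.range b, ((n : ℚ) - d * (b0 + i)) / ((N : ℚ) - d * (b0 + i))

/-- The number of the classes which meet `Z` and do not meet `X`. -/
def nb {N M : ℕ} (cl : Fin N → Fin M) (X Z : Finset (Fin N)) : ℕ :=
  (Z.image cl \ X.image cl).card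

theorem wt_nonneg {n N d b0 b : ℕ} (h : d * (b0 + b) ≤ n) (hN : n ≤ N) : 0 ≤ wt n N d b0 b := by
  unfold wt
  refine Finset.prod_nonneg fun i hi => ?_
  rw [Finset.mem_range] at hi
  have h1 : d * (b0 + i) ≤ n := (Nat.mul_le_mul_left d (by omega)).trans h
  have h2 : d * (b0 + i) ≤ N := h1.trans hN
  have h3 : ((d * (b0 + i) : ℕ) : ℚ) ≤ n := by exact_mod_cast h1
  have h4 : ((d * (b0 + i) : ℕ) : ℚ) ≤ N := by exact_mod_cast h2
  push_cast at h3 h4
  exact div_nonneg (sub_nonneg.2 h3) (sub_nonneg.2 h4)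

/-- The weight as a quotient of two natural numbers. -/
theorem wt_mul {n N d b0 b : ℕ} (h : d * (b0 + b) ≤ n) (hN : n ≤ N) (hd : 0 < d) :
    wt n N d b0 b * ((∏ i ∈ Finset.range b, (N - d * (b0 + i)) : ℕ) : ℚ) =
      ((∏ i ∈ Finset.range b, (n - d * (b0 + i)) : ℕ) : ℚ) := by
  unfold wt
  rw [Nat.cast_prod, Nat.cast_prod, ← Finset.prod_mul_distrib]
  refine Finset.prod_congr rfl fun i hi => ?_
  rw [Finset.mem_range] at hi
  have h1 : d * (b0 + i) < n := lt_of_lt_of_le (Nat.mul_lt_mul_of_pos_left (by omega) hd) h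
  have h2 : d * (b0 + i) < N := lt_of_lt_of_le h1 hN
  have h4 : ((d * (b0 + i) : ℕ) : ℚ) < N := by exact_mod_cast h2
  rw [Nat.cast_sub h1.le, Nat.cast_sub h2.le]
  push_cast at h4 ⊢
  exact div_mul_cancel₀ _ (sub_ne_zero.2 h4.ne')

private theorem card_cls {N M d : ℕ} (cl : Fin N → Fin M)
    (hfib : ∀ c, (Finset.univ.filter fun p => cl p = c).card = d) (E : Finset (Fin M)) :
    (Finset.univ.filter fun p => cl p ∈ E).card = d * E.card := by
  have h0 := Finset.card_eq_sum_card_fiberwise (s := Finset.univ.filter fun p => cl p ∈ E) (f := cl) (t := E)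
    (fun p hp => Finset.mem_coe.2 (Finset.mem_filter.1 (Finset.mem_coe.1 hp)).2)
  rw [h0]
  have h1 : ∀ c ∈ E, ((Finset.univ.filter fun p => cl p ∈ E).filter fun p => cl p = c).card = d := by
    intro c hc
    rw [← hfib c]
    congr 1
    ext p
    simp only [Finset.mem_filter, Finset.mem_univ, true_and]
    exact ⟨fun h => h.2, fun h => ⟨by rw [h]; exact hc, h⟩⟩
  rw [Finset.sum_congr rfl h1, Finset.sum_const, smul_eq_mul, mul_comm]

private theorem nb_in {N M : ℕ} (cl : Fin N → Fin M) (X D : Finset (Fin N)) {p : Fin N}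
    (hp : cl p ∈ X.image cl ∪ D.image cl) : nb cl X (insert p D) = nb cl X D := by
  unfold nb
  rw [Finset.image_insert]
  rcases Finset.mem_union.1 hp with h | h
  · rw [Finset.insert_sdiff_of_mem _ h]
  · rw [Finset.insert_eq_of_mem h]

private theorem nb_out {N M : ℕ} (cl : Fin N → Fin M) (X D : Finset (Fin N)) {p : Fin N}
    (hp : cl p ∉ X.image cl ∪ D.image cl) : nb cl X (insert p D) = nb cl X D + 1 := by
  unfold nb
  rw [Finset.mem_union, not_or] at hp
  rw [Finset.image_insert, Finset.insert_sdiff_of_notMem _ hp.1, Finset.card_insert_of_notMem]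
  intro h
  exact hp.2 (Finset.mem_sdiff.1 h).1

private theorem inner {N M d n : ℕ} (cl : Fin N → Fin M)
    (hfib : ∀ c, (Finset.univ.filter fun p => cl p = c).card = d) (X D : Finset (Fin N)) (j : ℕ)
    (hD : D ⊆ Xᶜ) (hj : D.card = j) (hN : d * ((X.image cl).card + j) < N) :
    ∑ p ∈ (X ∪ D)ᶜ, wt n N d (X.image cl).card (nb cl X (insert p D)) =
      wt n N d (X.image cl).card (nb cl X D) * ((n : ℚ) - X.card - j) := by
  classical
  obtain ⟨E, hE⟩ : ∃ E : Finset (Fin M), E = X.image cl ∪ D.image cl := ⟨_, rfl⟩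
  obtain ⟨b0, hb0⟩ : ∃ b0 : ℕ, b0 = (X.image cl).card := ⟨_, rfl⟩
  obtain ⟨b, hb⟩ : ∃ b : ℕ, b = nb cl X D := ⟨_, rfl⟩
  have hEc : E.card = b0 + b := by
    rw [hE, hb0, hb, Finset.union_comm, ← Finset.card_sdiff_add_card]
    unfold nb
    exact add_comm _ _
  have hbj : b ≤ j := by
    rw [hb, ← hj]
    unfold nb
    exact (Finset.card_le_card Finset.sdiff_subset).trans Finset.card_image_le
  have hEN : d * (b0 + b) < N := by
    refine lt_of_le_of_lt (Nat.mul_le_mul_left d ?_) hN
    rw [← hb0]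
    omega
  have hXD : (X ∪ D).card = X.card + j := by
    rw [Finset.card_union_of_disjoint, hj]
    rw [Finset.disjoint_left]
    intro p hp hp'
    exact Finset.mem_compl.1 (hD hp') hp
  have hsub : X ∪ D ⊆ Finset.univ.filter fun p => cl p ∈ E := by
    intro p hp
    rw [Finset.mem_filter, hE, Finset.mem_union]
    refine ⟨Finset.mem_univ _, ?_⟩
    rcases Finset.mem_union.1 hp with h | h
    · exact Or.inl (Finset.mem_image_of_mem cl h)
    · exact Or.inr (Finset.mem_image_of_mem cl h)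
  have hA1 : (((X ∪ D)ᶜ.filter fun p => cl p ∈ E).card : ℚ) = d * (b0 + b) - X.card - j := by
    have h1 : (X ∪ D)ᶜ.filter (fun p => cl p ∈ E) = (Finset.univ.filter fun p => cl p ∈ E) \ (X ∪ D) := by
      ext p
      simp only [Finset.mem_filter, Finset.mem_compl, Finset.mem_sdiff, Finset.mem_univ, true_and]
      exact and_comm
    rw [h1, Finset.cast_card_sdiff hsub, card_cls cl hfib, hXD, hEc]
    push_cast
    ring
  have hA2 : (((X ∪ D)ᶜ.filter fun p => cl p ∉ E).card : ℚ) = N - d * (b0 + b) := by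
    have h1 : (X ∪ D)ᶜ.filter (fun p => cl p ∉ E) = (Finset.univ.filter fun p => cl p ∈ E)ᶜ := by
      ext p
      simp only [Finset.mem_filter, Finset.mem_compl, Finset.mem_univ, true_and]
      refine ⟨fun h => h.2, fun h => ⟨fun h2 => h ?_, h⟩⟩
      exact (Finset.mem_filter.1 (hsub h2)).2
    rw [h1, Finset.card_compl, Fintype.card_fin, card_cls cl hfib, hEc, Nat.cast_sub hEN.le]
    push_cast
    ring
  have hEN' : (N : ℚ) - d * (b0 + b) ≠ 0 := by
    have h1 : ((d * (b0 + b) : ℕ) : ℚ) < N := by exact_mod_cast hEN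
    push_cast at h1
    exact sub_ne_zero.2 h1.ne'
  rw [← Finset.sum_filter_add_sum_filter_not _ (fun p => cl p ∈ E)]
  have s1 : ∑ p ∈ (X ∪ D)ᶜ.filter (fun p => cl p ∈ E), wt n N d (X.image cl).card (nb cl X (insert p D)) =
      (d * (b0 + b) - X.card - j) * wt n N d b0 b := by
    rw [Finset.sum_congr rfl (g := fun _ => wt n N d b0 b) (fun p hp => by
      rw [nb_in cl X D (by rw [← hE]; exact (Finset.mem_filter.1 hp).2), hb0, hb]),
      Finset.sum_const, nsmul_eq_mul, hA1]
  have s2 : ∑ p ∈ (X ∪ D)ᶜ.filter (fun p => ¬ cl p ∈ E), wt n N d (X.image cl).card (nb cl X (insert p D)) =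
      wt n N d b0 b * (n - d * (b0 + b)) := by
    rw [Finset.sum_congr rfl (g := fun _ => wt n N d b0 (b + 1)) (fun p hp => by
      rw [nb_out cl X D (by rw [← hE]; exact (Finset.mem_filter.1 hp).2), hb0, hb]),
      Finset.sum_const, nsmul_eq_mul, hA2]
    have h1 : wt n N d b0 (b + 1) = wt n N d b0 b * (((n : ℚ) - d * (b0 + b)) / ((N : ℚ) - d * (b0 + b))) := by
      unfold wt
      rw [Finset.prod_range_succ]
    rw [h1]
    field_simp
  rw [s1, s2, ← hb0, ← hb]
  ring

private theorem double {N M d n : ℕ} (cl : Fin N → Fin M) (X : Finset (Fin N)) (j : ℕ) :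
    ((j : ℚ) + 1) * ∑ D ∈ (Xᶜ : Finset (Fin N)).powersetCard (j + 1), wt n N d (X.image cl).card (nb cl X D) =
      ∑ D ∈ (Xᶜ : Finset (Fin N)).powersetCard j,
        ∑ p ∈ (X ∪ D)ᶜ, wt n N d (X.image cl).card (nb cl X (insert p D)) := by
  classical
  have h1 : ((j : ℚ) + 1) * ∑ D ∈ (Xᶜ : Finset (Fin N)).powersetCard (j + 1),
      wt n N d (X.image cl).card (nb cl X D) =
      ∑ D ∈ (Xᶜ : Finset (Fin N)).powersetCard (j + 1), ∑ _p ∈ D, wt n N d (X.image cl).card (nb cl X D) := by
    rw [Finset.mul_sum]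
    refine Finset.sum_congr rfl fun D hD => ?_
    rw [Finset.sum_const, nsmul_eq_mul, (Finset.mem_powersetCard.1 hD).2]
    push_cast
    rfl
  rw [h1, Finset.sum_sigma', Finset.sum_sigma']
  refine Finset.sum_bij' (fun x _ => ⟨x.1.erase x.2, x.2⟩) (fun x _ => ⟨insert x.2 x.1, x.2⟩) ?_ ?_ ?_ ?_ ?_
  · rintro ⟨D, p⟩ hx
    rw [Finset.mem_sigma, Finset.mem_powersetCard] at hx
    obtain ⟨⟨h2, h3⟩, h4⟩ := hx
    rw [Finset.mem_sigma, Finset.mem_powersetCard]
    refine ⟨⟨(Finset.erase_subset _ _).trans h2, ?_⟩, ?_⟩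
    · rw [Finset.card_erase_of_mem h4, h3]
      rfl
    · rw [Finset.mem_compl, Finset.mem_union]
      rintro (h5 | h5)
      · exact Finset.mem_compl.1 (h2 h4) h5
      · exact Finset.notMem_erase _ _ h5
  · rintro ⟨D, p⟩ hx
    rw [Finset.mem_sigma, Finset.mem_powersetCard] at hx
    obtain ⟨⟨h2, h3⟩, h4⟩ := hx
    rw [Finset.mem_compl, Finset.mem_union, not_or] at h4
    rw [Finset.mem_sigma, Finset.mem_powersetCard]
    refine ⟨⟨?_, ?_⟩, Finset.mem_insert_self _ _⟩
    · refine Finset.insert_subset (Finset.mem_compl.2 h4.1) h2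
    · rw [Finset.card_insert_of_notMem h4.2, h3]
  · rintro ⟨D, p⟩ hx
    rw [Finset.mem_sigma] at hx
    show (⟨insert p (D.erase p), p⟩ : Σ _ : Finset (Fin N), Fin N) = ⟨D, p⟩
    rw [Finset.insert_erase hx.2]
  · rintro ⟨D, p⟩ hx
    rw [Finset.mem_sigma] at hx
    have h4 := hx.2
    rw [Finset.mem_compl, Finset.mem_union, not_or] at h4
    show (⟨(insert p D).erase p, p⟩ : Σ _ : Finset (Fin N), Fin N) = ⟨D, p⟩
    rw [Finset.erase_insert h4.2]
  · rintro ⟨D, p⟩ hx
    rw [Finset.mem_sigma] at hx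
    show wt n N d (X.image cl).card (nb cl X D) = wt n N d (X.image cl).card (nb cl X (insert p (D.erase p)))
    rw [Finset.insert_erase hx.2]

theorem sum_wt {N M d n : ℕ} (cl : Fin N → Fin M)
    (hfib : ∀ c, (Finset.univ.filter fun p => cl p = c).card = d) (X : Finset (Fin N))
    (hX : X.card ≤ n) (j : ℕ) (hN : d * ((X.image cl).card + j) < N) :
    ∑ D ∈ (Xᶜ : Finset (Fin N)).powersetCard j, wt n N d (X.image cl).card (nb cl X D) =
      (((n - X.card).choose j : ℕ) : ℚ) := by
  induction j with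
  | zero =>
    rw [Finset.powersetCard_zero, Finset.sum_singleton, Nat.choose_zero_right]
    unfold wt nb
    rw [Finset.image_empty, Finset.empty_sdiff, Finset.card_empty, Finset.prod_range_zero, Nat.cast_one]
  | succ j ih =>
    have hN' : d * ((X.image cl).card + j) < N :=
      lt_of_le_of_lt (Nat.mul_le_mul_left d (by omega)) hN
    have h1 := double (n := n) (d := d) cl X j
    rw [Finset.sum_congr rfl fun D hD => inner (n := n) cl hfib X D j (Finset.mem_powersetCard.1 hD).1
      (Finset.mem_powersetCard.1 hD).2 hN', ← Finset.sum_mul, ih hN'] at h1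
    have h2 : ((n - X.card).choose (j + 1) : ℚ) * ((j : ℚ) + 1) =
        ((n - X.card).choose j : ℚ) * ((n : ℚ) - X.card - j) := by
      have h3 := Nat.choose_succ_right_eq (n - X.card) j
      rcases Nat.lt_or_ge (n - X.card) j with h4 | h4
      · rw [Nat.choose_eq_zero_of_lt h4, Nat.choose_eq_zero_of_lt (by omega)]
        push_cast
        ring
      · have h5 : ((n - X.card - j : ℕ) : ℚ) = (n : ℚ) - X.card - j := by
          rw [Nat.cast_sub h4, Nat.cast_sub hX]
        rw [← h5]
        exact_mod_cast h3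
    have h3 : ((j : ℚ) + 1) ≠ 0 := by positivity
    apply mul_left_cancel₀ h3
    rw [h1, ← h2]
    ring

end Pool.H93.CG
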