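import Pool.Agent.H93.CG.Psu
import Pool.Agent.H93.CG.Cnt
import Pool.Agent.H93.CG.Wt
import Pool.Agent.H93.CG.Orb
import Pool.Agent.H93.CG.Tup
import Pool.Agent.H93.CG.Osm

/-!
# [H93 CG MU] The measure

`Nice l n N d k`: the arithmetic conditions. `mu C W n X U`: the sum of the weights of the members of `U`.

PROOFS (complete).
`mu_nonneg`, `mu_mono`, `mu_union`: `wt_nonneg` (`(X.image cl).card ≤ X.card ≤ 4 k`,
`nb ≤ (psupp).card < k` by `psupp_card`, so `d * (b0 + b) ≤ d * (8 * k) ≤ n`), `finsum_mem_union`, `finsum_mem_le_finsum_mem`-like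
facts (all sets are finite; it may be easier to pass to `Finset` sums by `finsum_mem_eq_finite_toFinset_sum`).
`mu_lift`: Let `X = A.image f` (`X.card = A.card`), `b0 = (X.image W.cl).card`, `G` from `pcount`. For `z ∈ lift C S A f` the weight
depends only on `D' = psupp C z.node \ X`: `nb cl X (psupp ..) = nb cl X D'` (images of `Z` and `Z \ X` under `cl` differ only by
classes in `X.image cl`). So, fibrewise over `D'` (`Finset.sum_fiberwise_of_maps_to`),
`mu (lift) = ∑ D' ⊆ Xᶜ, G D'.card * wt n N d b0 (nb cl X D') = ∑ j, G j * ∑ D' ∈ (Xᶜ).powersetCard j, wt …` (only `j < k` count)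
` = ∑ j < k, G j * (n - X.card).choose j = S.ncard` by `sum_wt` (`d * (b0 + j) < N`: `b0 + j < 5 k`, `d * (8 * k) ≤ n ≤ N`, `0 < d`).
`mu_nat`: `orbit_sum` for the relation `r z z' ↔ ∃ σ ∈ W.fixing X, z' = σ • z` on `Y = Lit (PN C N)` (an equivalence relation, as
`W.fixing X` is a group). `w` is constant on the classes: `psupp C (σ • z).node = (psupp C z.node).image σ` (`psupp_smul`) and
`σ` permutes the classes and fixes the ones meeting `X` (`W.cls` for `σ` and `σ⁻¹`, `σ x = x`), so
`nb cl X (Z.image σ) = nb cl X Z`. For `z ∈ U`: let `Z = psupp C z.node`, `b = nb W.cl X Z`, `b0 = (X.image W.cl).card`, `t` from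
`exists_base W X Z`; `orbit_count (W.fixing X) z Z t` with `h1`: `psupp_fix`; `h2`: `σ • z = z` gives `Z.image σ = Z`
(`psupp_smul`); `h3` from `exists_base`; and `tuple_card`. So `P N := ∏ i ∈ range b, (N - d * (b0 + i)) = (∏ a i) * |O|`, `O` = the orbit,
`0 < a i ≤ Z.card < k`. `hN.dvd` (`b ≤ Z.card < k`, `b0 ≤ 4 k`) gives `P n = (∏ a i) * t` for a natural number `t`. `wt_mul`:
`wt * P N = P n`, so `|O| * wt = t` (divide by `∏ a i > 0`; `P N ≠ 0`). In `ZMod l`: `P N = P n` (factor by factor,
`l ∣ N - n`), so `(∏ a i) * |O| = (∏ a i) * t` and `∏ a i` is invertible (`a i < k ≤ l`, `l` prime; `ZMod l` is a field with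
`Fact hN.prime`), so `|O| = t` in `ZMod l`.
-/

set_option autoImplicit false

namespace Pool.H93.CG

open Pool.H93.SY (Lit Atom tv supp supp_fix supp_smul supp_min supp_card_lt Fixes fixes_supp
  exists_even_perm exists_extend qd)
open scoped Pointwise
open FirstOrder.Language

variable {L : FirstOrder.Language.{0, 0}} {s n : ℕ} {C : Circuit L s n} {N M d k l : ℕ}

/-- The arithmetic conditions on the world. -/
structure Nice (l n N d k : ℕ) : Prop where
  prime : l.Prime
  kl : k ≤ l
  dpos : 0 < d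
  room : d * (8 * k) ≤ n
  le : n ≤ N
  mod : l ∣ N - n
  dvd : ∀ (b b0 : ℕ) (a : Fin b → ℕ), b < k → b0 ≤ 4 * k → (∀ i, 0 < a i ∧ a i < k) →
    (∏ i, a i) ∣ ∏ i ∈ Finset.range b, (N - d * (b0 + i)) →
    (∏ i, a i) ∣ ∏ i ∈ Finset.range b, (n - d * (b0 + i))

/-- The sum of the weights of the members of `U`. -/
noncomputable def mu (C : Circuit L s n) (W : World N M d) (X : Finset (Fin N))
    (U : Set (Lit (PN C N))) : ℚ :=
  ∑ᶠ z ∈ U, wt n N d (X.image W.cl).card (nb W.cl X (psupp C z.node))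

private theorem fin_set (U : Set (Lit (PN C N))) : U.Finite := by
  have h1 : Finite (PN C N × Bool) := inferInstance
  have h2 : Finite (Lit (PN C N)) :=
    Finite.of_injective (fun z : Lit (PN C N) => (z.node, z.pos)) (by
      rintro ⟨a, b⟩ ⟨a', b'⟩ h
      simp only [Prod.mk.injEq] at h
      obtain ⟨rfl, rfl⟩ := h
      rfl)
  exact Set.toFinite U

private theorem w_nonneg (hC : Small C k) (hN : Nice l n N d k) (W : World N M d)
    {X : Finset (Fin N)} (hX : X.card ≤ 4 * k) (z : Lit (PN C N)) :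
    0 ≤ wt n N d (X.image W.cl).card (nb W.cl X (psupp C z.node)) := by
  apply wt_nonneg _ hN.le
  refine le_trans (Nat.mul_le_mul_left d ?_) hN.room
  have h1 : (X.image W.cl).card ≤ 4 * k := Finset.card_image_le.trans hX
  have h2 : nb W.cl X (psupp C z.node) ≤ (psupp C z.node).card :=
    (Finset.card_le_card Finset.sdiff_subset).trans Finset.card_image_le
  have h3 := psupp_card hC z.node
  omega

theorem mu_nonneg (hC : Small C k) (hN : Nice l n N d k) (W : World N M d)
    {X : Finset (Fin N)} (hX : X.card ≤ 4 * k) (U : Set (Lit (PN C N))) : 0 ≤ mu C W X U := by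
  unfold mu
  rw [finsum_mem_eq_finite_toFinset_sum _ (fin_set U)]
  exact Finset.sum_nonneg fun z _ => w_nonneg hC hN W hX z

theorem mu_union (W : World N M d) (X : Finset (Fin N)) {U V : Set (Lit (PN C N))}
    (h : Disjoint U V) : mu C W X (U ∪ V) = mu C W X U + mu C W X V :=
  finsum_mem_union h (fin_set U) (fin_set V)

theorem mu_mono (hC : Small C k) (hN : Nice l n N d k) (W : World N M d)
    {X : Finset (Fin N)} (hX : X.card ≤ 4 * k) {U V : Set (Lit (PN C N))} (h : U ⊆ V) :
    mu C W X U ≤ mu C W X V := by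
  have h1 : V = U ∪ V \ U := (Set.union_sdiff_cancel h).symm
  rw [h1, mu_union W X Set.disjoint_sdiff_right]
  exact le_add_of_nonneg_right (mu_nonneg hC hN W hX _)

private theorem nb_sdiff (cl : Fin N → Fin M) (X Z : Finset (Fin N)) :
    nb cl X Z = nb cl X (Z \ X) := by
  unfold nb
  congr 1
  ext c
  simp only [Finset.mem_sdiff, Finset.mem_image, not_exists, not_and]
  constructor
  · rintro ⟨⟨p, hp, rfl⟩, h⟩
    exact ⟨⟨p, ⟨hp, fun hpX => h p hpX rfl⟩, rfl⟩, h⟩
  · rintro ⟨⟨p, hp, rfl⟩, h⟩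
    exact ⟨⟨p, hp.1, rfl⟩, h⟩

private theorem sum_trunc {α : Type*} [DecidableEq α] (U : Finset α) (k : ℕ)
    (F : Finset α → ℚ) (hF : ∀ D : Finset α, k ≤ D.card → F D = 0) :
    ∑ D ∈ U.powerset, F D = ∑ j ∈ Finset.range k, ∑ D ∈ U.powersetCard j, F D := by
  rw [Finset.sum_powerset]
  have h1 : ∑ j ∈ Finset.range (U.card + 1), ∑ D ∈ U.powersetCard j, F D =
      ∑ j ∈ Finset.range (U.card + 1 + k), ∑ D ∈ U.powersetCard j, F D := by
    refine Finset.sum_subset_zero_on_sdiff
      (Finset.range_subset_range.2 (Nat.le_add_right _ _)) ?_ (fun _ _ => rfl)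
    intro j hj
    rw [Finset.mem_sdiff, Finset.mem_range, Finset.mem_range, not_lt] at hj
    rw [Finset.powersetCard_eq_empty.2 (by omega), Finset.sum_empty]
  have h2 : ∑ j ∈ Finset.range k, ∑ D ∈ U.powersetCard j, F D =
      ∑ j ∈ Finset.range (U.card + 1 + k), ∑ D ∈ U.powersetCard j, F D := by
    refine Finset.sum_subset_zero_on_sdiff
      (Finset.range_subset_range.2 (Nat.le_add_left _ _)) ?_ (fun _ _ => rfl)
    intro j hj
    rw [Finset.mem_sdiff, Finset.mem_range, Finset.mem_range, not_lt] at hj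
    refine Finset.sum_eq_zero fun D hD => hF D ?_
    rw [(Finset.mem_powersetCard.1 hD).2]
    exact hj.2
  rw [h1, h2]

theorem mu_lift (hC : Small C k) (hN : Nice l n N d k) (W : World N M d) {S : Set (Lit C.N)}
    {A : Finset (Fin n)} (hS : Fixes A S) (hA : A.card ≤ 4 * k) {f : Fin n → Fin N}
    (hf : Set.InjOn f A) : mu C W (A.image f) (lift C S A f) = (S.ncard : ℚ) := by
  classical
  have hk := hC.kpos
  obtain ⟨G, hG0, hGS, hGD⟩ := pcount hC hS (by omega : A.card ≤ 8 * k) hf (n' := N)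
  set X : Finset (Fin N) := A.image f with hX
  have hXc : X.card = A.card := Finset.card_image_of_injOn hf
  set U : Set (Lit (PN C N)) := lift C S A f with hU
  let w : Finset (Fin N) → ℚ := fun D => wt n N d (X.image W.cl).card (nb W.cl X D)
  have h1 : mu C W X U = ∑ z ∈ (fin_set U).toFinset, w (psupp C z.node \ X) := by
    unfold mu
    rw [finsum_mem_eq_finite_toFinset_sum _ (fin_set U)]
    refine Finset.sum_congr rfl fun z _ => ?_
    show wt n N d _ (nb W.cl X (psupp C z.node)) = wt n N d _ (nb W.cl X (psupp C z.node \ X))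
    rw [nb_sdiff W.cl X (psupp C z.node)]
  have h2 : ∑ z ∈ (fin_set U).toFinset, w (psupp C z.node \ X) =
      ∑ D ∈ (Xᶜ : Finset (Fin N)).powerset, (G D.card : ℚ) * w D := by
    rw [← Finset.sum_fiberwise_of_maps_to (s := (fin_set U).toFinset)
      (t := (Xᶜ : Finset (Fin N)).powerset) (g := fun z => psupp C z.node \ X)]
    · refine Finset.sum_congr rfl fun D hD => ?_
      have h3 : ∑ z ∈ (fin_set U).toFinset with psupp C z.node \ X = D,
          w (psupp C z.node \ X) =
          ∑ z ∈ (fin_set U).toFinset with psupp C z.node \ X = D, w D :=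
        Finset.sum_congr rfl fun z hz => by rw [(Finset.mem_filter.1 hz).2]
      rw [h3, Finset.sum_const, nsmul_eq_mul]
      congr 2
      have hdis : Disjoint D X := by
        rw [Finset.mem_powerset] at hD
        exact Finset.disjoint_left.2 fun p hp hpX => (Finset.mem_compl.1 (hD hp)) hpX
      rw [← hGD D hdis, ← Set.ncard_coe_finset]
      congr 1
      ext z
      simp
    · intro z _
      rw [Finset.mem_powerset]
      intro p hp
      exact Finset.mem_compl.2 (Finset.mem_sdiff.1 hp).2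
  rw [h1, h2, sum_trunc _ k _ (fun D hD => by rw [hG0 _ hD, Nat.cast_zero, zero_mul]), hGS,
    Nat.cast_sum]
  refine Finset.sum_congr rfl fun j hj => ?_
  rw [Finset.mem_range] at hj
  have h4 : ∑ D ∈ (Xᶜ : Finset (Fin N)).powersetCard j, (G D.card : ℚ) * w D =
      (G j : ℚ) * ∑ D ∈ (Xᶜ : Finset (Fin N)).powersetCard j, w D := by
    rw [Finset.mul_sum]
    refine Finset.sum_congr rfl fun D hD => ?_
    rw [(Finset.mem_powersetCard.1 hD).2]
  have hb : (X.image W.cl).card ≤ 4 * k := Finset.card_image_le.trans (hXc.trans_le hA)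
  have h5 : X.card ≤ n := by
    rw [hXc]
    exact (Finset.card_le_univ A).trans (by rw [Fintype.card_fin])
  have h6 : d * ((X.image W.cl).card + j) < N := by
    have h7 : d * ((X.image W.cl).card + j) < d * (8 * k) :=
      Nat.mul_lt_mul_of_pos_left (by omega) hN.dpos
    exact h7.trans_le (hN.room.trans hN.le)
  rw [h4, sum_wt W.cl W.fib X h5 j h6, hXc, Nat.cast_mul]
  exact mul_comm _ _

end Pool.H93.CG
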