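import Pool.Agent.H93.CG.Mu

/-!
# [H93 CG MUN] The measure of an invariant set is an integer

PROOF of `mu_nat`: see the header of `Mu.lean` (last paragraph).
-/

set_option autoImplicit false

namespace Pool.H93.CG

open Pool.H93.SY (Lit Atom tv supp supp_fix supp_smul supp_min supp_card_lt Fixes fixes_supp
  exists_even_perm exists_extend qd)
open scoped Pointwise
open FirstOrder.Language

variable {L : FirstOrder.Language.{0, 0}} {s n : ℕ} {C : Circuit L s n} {N M d k l : ℕ}

private theorem lit_finite {V : Type} [Finite V] : Finite (Lit V) :=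
  Finite.of_injective (fun x : Lit V => (x.node, x.pos)) (by
    intro x y h
    exact Lit.ext (congrArg Prod.fst h) (congrArg Prod.snd h))

private theorem nb_image_le (W : World N M d) {X : Finset (Fin N)} {σ : Equiv.Perm (Fin N)}
    (hσ : σ ∈ W.fixing X) (Z : Finset (Fin N)) : nb W.cl X (Z.image σ) ≤ nb W.cl X Z := by
  classical
  let φ : Fin M → Fin M := fun c => if h : ∃ p ∈ Z, W.cl p = c then W.cl (σ h.choose) else c
  have hsub : (Z.image σ).image W.cl \ X.image W.cl ⊆ (Z.image W.cl \ X.image W.cl).image φ := by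
    intro c hc
    obtain ⟨hc1, hc2⟩ := Finset.mem_sdiff.1 hc
    rw [Finset.image_image] at hc1
    obtain ⟨p, hp, rfl⟩ := Finset.mem_image.1 hc1
    refine Finset.mem_image.2 ⟨W.cl p, Finset.mem_sdiff.2 ⟨Finset.mem_image_of_mem _ hp, ?_⟩, ?_⟩
    · intro h
      obtain ⟨x, hx, hxp⟩ := Finset.mem_image.1 h
      apply hc2
      refine Finset.mem_image.2 ⟨x, hx, ?_⟩
      have h1 := W.cls σ hσ.1 x p hxp
      rw [hσ.2 x hx] at h1
      exact h1
    · have hex : ∃ q ∈ Z, W.cl q = W.cl p := ⟨p, hp, rfl⟩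
      show (if h : ∃ q ∈ Z, W.cl q = W.cl p then W.cl (σ h.choose) else W.cl p) = _
      rw [dif_pos hex]
      exact W.cls σ hσ.1 _ _ hex.choose_spec.2
  unfold nb
  exact (Finset.card_le_card hsub).trans Finset.card_image_le

private theorem nb_image (W : World N M d) {X : Finset (Fin N)} {σ : Equiv.Perm (Fin N)}
    (hσ : σ ∈ W.fixing X) (Z : Finset (Fin N)) : nb W.cl X (Z.image σ) = nb W.cl X Z := by
  refine le_antisymm (nb_image_le W hσ Z) ?_
  have h := nb_image_le W ((W.fixing X).inv_mem hσ) (Z.image σ)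
  rw [Finset.image_image] at h
  have h1 : (Z.image ((σ⁻¹ : Equiv.Perm (Fin N)) ∘ σ)) = Z := by
    have : ((σ⁻¹ : Equiv.Perm (Fin N)) ∘ σ : Fin N → Fin N) = id := by
      funext i
      exact σ.symm_apply_apply i
    rw [this, Finset.image_id]
  rwa [h1] at h

private theorem prod_mod {n N d l b0 b : ℕ} (h : d * (b0 + b) ≤ n) (hN : n ≤ N) (hl : l ∣ N - n) :
    ((∏ i ∈ Finset.range b, (N - d * (b0 + i)) : ℕ) : ZMod l) =
      ((∏ i ∈ Finset.range b, (n - d * (b0 + i)) : ℕ) : ZMod l) := by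
  rw [Nat.cast_prod, Nat.cast_prod]
  refine Finset.prod_congr rfl fun i hi => ?_
  have hi' : i < b := Finset.mem_range.1 hi
  have h1 : d * (b0 + i) ≤ n := le_trans (Nat.mul_le_mul_left d (by omega)) h
  rw [Nat.cast_sub (h1.trans hN), Nat.cast_sub h1]
  have h2 : ((N - n : ℕ) : ZMod l) = 0 := (ZMod.natCast_eq_zero_iff _ _).2 hl
  rw [Nat.cast_sub hN] at h2
  rw [sub_eq_zero.1 h2]

theorem mu_nat (hC : Small C k) (hN : Nice l n N d k) (W : World N M d) {X : Finset (Fin N)}
    (hX : X.card ≤ 4 * k) {U : Set (Lit (PN C N))}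
    (hU : ∀ σ ∈ W.fixing X, ∀ z ∈ U, σ • z ∈ U) :
    ∃ t : ℕ, mu C W X U = t ∧ ((U.ncard : ℕ) : ZMod l) = t := by
  classical
  haveI : Finite (Lit (PN C N)) := lit_finite
  let r : Setoid (Lit (PN C N)) :=
    { r := fun z z' => ∃ σ ∈ W.fixing X, z' = σ • z
      iseqv := by
        refine ⟨fun z => ⟨1, (W.fixing X).one_mem, (one_smul _ z).symm⟩, ?_, ?_⟩
        · rintro z _ ⟨σ, hσ, rfl⟩
          exact ⟨σ⁻¹, (W.fixing X).inv_mem hσ, (inv_smul_smul σ z).symm⟩
        · rintro z _ _ ⟨σ, hσ, rfl⟩ ⟨τ, hτ, rfl⟩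
          exact ⟨τ * σ, (W.fixing X).mul_mem hτ hσ, (mul_smul τ σ z).symm⟩ }
  refine orbit_sum r l (fun z => wt n N d (X.image W.cl).card (nb W.cl X (psupp C z.node))) U
    ?_ ?_ ?_
  · rintro y hy z ⟨σ, hσ, rfl⟩
    exact hU σ hσ y hy
  · rintro y - z ⟨σ, hσ, rfl⟩
    show wt n N d _ (nb W.cl X (psupp C (σ • y.node))) = _
    rw [psupp_smul, nb_image W hσ]
  · intro y _
    obtain ⟨t, ht, hinj, htX, hfix⟩ := exists_base W X (psupp C y.node)
    have hZ : (psupp C y.node).card < k := psupp_card hC y.node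
    have hbk : ((psupp C y.node).image W.cl \ X.image W.cl).card < k :=
      lt_of_le_of_lt ((Finset.card_le_card Finset.sdiff_subset).trans Finset.card_image_le) hZ
    have hb0 : (X.image W.cl).card ≤ 4 * k := Finset.card_image_le.trans hX
    obtain ⟨a, ha, hcount⟩ := orbit_count (W.fixing X) y (psupp C y.node) t ht
      (fun σ _ h => Lit.ext (psupp_fix σ y.node h) rfl)
      (fun σ _ h p hp => by
        have h1 : psupp C (σ • y.node) = (psupp C y.node).image σ := psupp_smul σ y.node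
        have h2 : σ • y.node = y.node := congrArg Lit.node h
        rw [h2] at h1
        rw [h1]
        exact Finset.mem_image_of_mem _ hp) hfix
    rw [tuple_card W X t hinj htX] at hcount
    have hroom : d * ((X.image W.cl).card +
        ((psupp C y.node).image W.cl \ X.image W.cl).card) ≤ n :=
      le_trans (Nat.mul_le_mul_left d (by omega)) hN.room
    obtain ⟨t', ht'⟩ := hN.dvd _ _ a hbk hb0 (fun i => ⟨(ha i).1, lt_of_le_of_lt (ha i).2 hZ⟩)
      (Dvd.intro _ hcount.symm)
    have hset : {z | r y z} = {z : Lit (PN C N) | ∃ σ ∈ W.fixing X, z = σ • y} := rfl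
    refine ⟨t', ?_, ?_⟩
    · have hw := wt_mul hroom hN.le hN.dpos
      rw [hcount, ht', Nat.cast_mul, Nat.cast_mul] at hw
      have hpos : ((∏ i, a i : ℕ) : ℚ) ≠ 0 := by
        rw [Nat.cast_ne_zero]
        exact Finset.prod_ne_zero_iff.2 fun i _ => (ha i).1.ne'
      rw [hset]
      apply mul_left_cancel₀ hpos
      rw [← hw]
      show _ * (_ * wt n N d _ (nb W.cl X (psupp C y.node))) = _
      unfold nb
      ring
    · have hm := prod_mod hroom hN.le hN.mod
      rw [hcount, ht', Nat.cast_mul, Nat.cast_mul] at hm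
      haveI : Fact l.Prime := ⟨hN.prime⟩
      have hne : ((∏ i, a i : ℕ) : ZMod l) ≠ 0 := by
        rw [Nat.cast_prod]
        refine Finset.prod_ne_zero_iff.2 fun i _ h0 => ?_
        have h1 := (ZMod.natCast_eq_zero_iff _ _).1 h0
        have h2 := Nat.le_of_dvd (ha i).1 h1
        have h3 := (ha i).2
        have h4 := hN.kl
        omega
      rw [hset]
      exact mul_left_cancel₀ hne hm

end Pool.H93.CG
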