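import Pool.Agent.H93.CG.Vc
import Pool.Agent.H93.CG.Fam

/-!
# [H93 CG PCA] The measures of the pieces

`kap l z`: the remainder modulo `l` of the number of true members of the set of the placed node `z`; `lab z`: the set of
numbers in the label of `z`.

PROOFS (complete).
`tc_smul`: `{x | x ∈ σ • S ∧ ctr x} = (σ • ·) '' {x | x ∈ S ∧ ctr x}` (`ctr_smul`), `Set.ncard_image_of_injective`
(see the end of the proof of `cval_smul` in `Eval.lean`).
`kap_smul`, `lab_smul`: `(ext hC N).gate (σ • z) = ((ext hC N).gate z).act σ` (`Circuit.gate_smul`), by cases on the label of `z`;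
the children of `σ • z` are `σ •` the children (`∅` for a variable); `tc_smul`.
`lab_pmk`: `ext_gate`, `pgate0_sym`. `kap_le`: `z = pmk C b g`, `g` injective on `supp n b`; children `lift C (S b) (supp n b) g`;
`vcount` with `A = supp n b`, `fixes_sym`.
`piece_mu`. Let `X = A'.image f`, `U a v = {x | x.pos = true ∧ x.node ∈ liftN C T A' f ∧ lab hC x.node = a ∧ kap hC l x.node = v}`.
`U a v` is invariant under `W.fixing X` (`liftN_smul`, `lab_smul`, `kap_smul`), so `mu_nat` gives `μ a v` with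
`mu C W X (U a v) = μ a v` and `(U a v).ncard = μ a v` in `ZMod l`. If `U a v = ∅` then `mu = 0` (`finsum_mem_empty`), so
`μ a v = 0`. For fixed `a` the sets `U a v`, `v < l`, are disjoint with union `V = {x | x.pos = true ∧ x.node ∈ liftN C T A' f ∧
lab hC x.node = a}` (`kap < l`, as `l` is positive), and `V = (fun z => ⟨z, true⟩) '' liftN C T_a A' f`, `T_a = {b | b ∈ T ∧ A b = a}`
(`lab_pmk`: the label of `pmk C b g` is `A b`), `= lift C T_a⁺ A' f` with `T_a⁺ = (fun b => ⟨b, true⟩) '' T_a` (`lift_pos`).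
`Fixes A' T_a⁺` by `fam_smul` (for an even `σ` fixing the points of `A' ⊇ B0`: `σ • b ∈ T`, `A (σ • b) = A b`; the same for
`σ⁻¹`). So `∑ v < l, μ a v = mu V = T_a⁺.ncard = T_a.ncard` (`mu_union`/finite additivity: induction on the range or
`finsum_mem` over a disjoint union; `mu_lift`; `Set.ncard_image_of_injective`), an equality in ℚ, hence in ℕ.
-/

set_option autoImplicit false

namespace Pool.H93.CG

open Pool.H93.SY (Lit Atom tv supp supp_fix supp_smul supp_min supp_card_lt Fixes fixes_supp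
  exists_even_perm exists_extend qd)
open scoped Pointwise
open FirstOrder.Language

variable {L : FirstOrder.Language.{0, 0}} {s n : ℕ} {C : Circuit L s n} {N M d k l : ℕ}

theorem tc_smul {n' : ℕ} {E : Circuit L s n'} [L.Structure (Fin s ⊕ Fin n')]
    (σ : Equiv.Perm (Fin n')) (hσ : ∀ {r : ℕ} (R : L.Relations r)
      (v : Fin r → Fin s ⊕ Fin n'), Structure.RelMap R (fun i => Sum.map id σ (v i)) ↔
        Structure.RelMap R v) (S : Set (Lit E.N)) : E.tc l (σ • S) = E.tc l S := by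
  have h1 : {x | x ∈ σ • S ∧ E.ctr l x} = (fun x => σ • x) '' {x | x ∈ S ∧ E.ctr l x} := by
    ext y
    constructor
    · rintro ⟨h1, h3⟩
      obtain ⟨x, hx, rfl⟩ := Set.mem_smul_set.1 h1
      exact ⟨x, ⟨hx, (ctr_smul σ hσ x).1 h3⟩, rfl⟩
    · rintro ⟨x, ⟨h1, h3⟩, rfl⟩
      exact ⟨Set.smul_mem_smul_set h1, (ctr_smul σ hσ x).2 h3⟩
  unfold Circuit.tc
  rw [h1, Set.ncard_image_of_injective _ (MulAction.injective σ)]

/-- The virtual number of true members of the set of a placed node. -/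
noncomputable def kap [L.Structure (Fin s ⊕ Fin N)] (hC : Small C k) (l : ℕ)
    (z : PN C N) : ℕ :=
  (ext hC N).tc l ((ext hC N).gate z).children % l

open Classical in
/-- The set of numbers in the label of a placed node. -/
noncomputable def lab (hC : Small C k) (z : PN C N) : Set ℕ :=
  {c | ∃ A S, (ext hC N).gate z = .sym A S ∧ c ∈ A}

theorem lab_pmk (hC : Small C k) {b : C.N} {A : Set ℕ} {S : Set (Lit C.N)}
    (h : C.gate b = .sym A S) (g : Fin n → Fin N) : lab hC (pmk C b g) = A := by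
  have h1 : (ext hC N).gate (pmk C b g) = .sym A (lift C S (supp n b) g) :=
    (ext_gate hC b g).trans (pgate0_sym h g)
  ext c
  constructor
  · rintro ⟨A', S', h2, h3⟩
    rw [h1] at h2
    injection h2 with h4 h5
    rw [h4]
    exact h3
  · intro h2
    exact ⟨A, _, h1, h2⟩

theorem lab_smul (hC : Small C k) (σ : Equiv.Perm (Fin N)) (z : PN C N) :
    lab hC (σ • z) = lab hC z := by
  have h1 : (ext hC N).gate (σ • z) = ((ext hC N).gate z).act σ := (ext hC N).gate_smul σ z
  unfold lab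
  rw [h1]
  ext c
  cases hg : (ext hC N).gate z with
  | var v =>
    constructor
    · rintro ⟨A, S, h2, h3⟩
      cases h2
    · rintro ⟨A, S, h2, h3⟩
      cases h2
  | and S =>
    constructor
    · rintro ⟨A, S, h2, h3⟩
      cases h2
    · rintro ⟨A, S, h2, h3⟩
      cases h2
  | sym A S =>
    constructor
    · rintro ⟨A', S', h2, h3⟩
      have h4 : (Gate.sym A (σ • S) : Gate (Atom L (Fin s ⊕ Fin N)) (ext hC N).N) =
        .sym A' S' := h2
      injection h4 with h5 h6
      exact ⟨A, S, rfl, by rw [h5]; exact h3⟩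
    · rintro ⟨A', S', h2, h3⟩
      injection h2 with h5 h6
      exact ⟨A, σ • S, rfl, by rw [h5]; exact h3⟩

theorem kap_smul [L.Structure (Fin s ⊕ Fin N)] (hC : Small C k) (W : World N M d)
    (hW : Inv W L s) {σ : Equiv.Perm (Fin N)} (hσ : σ ∈ W.Aut) (z : PN C N) :
    kap hC l (σ • z) = kap hC l z := by
  have h1 : (ext hC N).gate (σ • z) = ((ext hC N).gate z).act σ := (ext hC N).gate_smul σ z
  unfold kap
  rw [h1]
  cases hg : (ext hC N).gate z with
  | var v => rfl
  | and S =>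
    show (ext hC N).tc l (σ • S) % l = (ext hC N).tc l S % l
    rw [tc_smul σ (hW σ hσ)]
  | sym A S =>
    show (ext hC N).tc l (σ • S) % l = (ext hC N).tc l S % l
    rw [tc_smul σ (hW σ hσ)]

theorem kap_le [L.Structure (Fin s ⊕ Fin N)] (hC : Small C k) (hN : Nice l n N d k)
    (W : World N M d) (hW : Inv W L s) {b : C.N} {A : Set ℕ} {S : Set (Lit C.N)}
    (h : C.gate b = .sym A S) (hl : S.ncard < l) {g : Fin n → Fin N}
    (hg : Set.InjOn g (supp n b)) : kap hC l (pmk C b g) ≤ S.ncard := by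
  have h1 : (ext hC N).gate (pmk C b g) = .sym A (lift C S (supp n b) g) :=
    (ext_gate hC b g).trans (pgate0_sym h g)
  have h2 := hC.node b
  have h3 := hC.room
  unfold kap
  rw [h1]
  exact (vcount hC hN W hW (fixes_sym (by omega) h) (by omega) hg hl).2

private theorem litp_finite {V : Type} [Finite V] : Finite (Lit V) :=
  Finite.of_injective (fun x : Lit V => (x.node, x.pos)) (by
    intro x y h
    exact Lit.ext (congrArg Prod.fst h) (congrArg Prod.snd h))

private theorem litp_inj {V : Type} : Function.Injective (fun z : V => (⟨z, true⟩ : Lit V)) :=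
  fun _ _ h => congrArg Lit.node h

private theorem fam_fixes {B0 : Finset (Fin n)} {T : Set C.N} {A : C.N → Set ℕ}
    {S : C.N → Set (Lit C.N)} (h : Fam C B0 T A S) {A' : Finset (Fin n)} (hB : B0 ⊆ A')
    (a : Set ℕ) :
    Fixes A' ((fun b => (⟨b, true⟩ : Lit C.N)) '' {b | b ∈ T ∧ A b = a}) := by
  have key : ∀ σ : Equiv.Perm (Fin n), Equiv.Perm.sign σ = 1 → (∀ i ∈ A', σ i = i) →
      ∀ b, b ∈ T ∧ A b = a → σ • b ∈ T ∧ A (σ • b) = a := by
    intro σ h1 h2 b hb
    obtain ⟨h3, h4, -⟩ := fam_smul h h1 (fun i hi => h2 i (hB hi)) hb.1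
    exact ⟨h3, h4.trans hb.2⟩
  intro σ h1 h2
  ext y
  constructor
  · intro hy
    obtain ⟨x, ⟨b, hb, rfl⟩, rfl⟩ := Set.mem_smul_set.1 hy
    exact ⟨σ • b, key σ h1 h2 b hb, rfl⟩
  · rintro ⟨b, hb, rfl⟩
    have h3 : ∀ i ∈ A', σ⁻¹ i = i := by
      intro i hi
      rw [Equiv.Perm.inv_eq_iff_eq, h2 i hi]
    have h4 := key σ⁻¹ (by rw [Equiv.Perm.sign_inv, h1]) h3 b hb
    refine Set.mem_smul_set.2 ⟨⟨σ⁻¹ • b, true⟩, ⟨σ⁻¹ • b, h4, rfl⟩, ?_⟩
    exact Lit.ext (smul_inv_smul σ b) rfl

theorem piece_mu [L.Structure (Fin s ⊕ Fin N)] (hC : Small C k) (hN : Nice l n N d k)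
    (W : World N M d) (hW : Inv W L s) {B0 : Finset (Fin n)} {T : Set C.N} {A : C.N → Set ℕ}
    {S : C.N → Set (Lit C.N)} (h : Fam C B0 T A S) {A' : Finset (Fin n)} (hB : B0 ⊆ A')
    (hA' : A'.card ≤ 4 * k) {f : Fin n → Fin N} (hf : Set.InjOn f A') :
    ∃ μ : Set ℕ → ℕ → ℕ,
      (∀ a v, (({z | z ∈ liftN C T A' f ∧ lab hC z = a ∧ kap hC l z = v}.ncard : ℕ) :
        ZMod l) = μ a v) ∧
      (∀ a v, {z | z ∈ liftN C T A' f ∧ lab hC z = a ∧ kap hC l z = v} = ∅ → μ a v = 0) ∧
      ∀ a, ∑ v ∈ Finset.range l, μ a v = {b | b ∈ T ∧ A b = a}.ncard := by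
  classical
  have hfin : Finite (Lit (PN C N)) := litp_finite
  have hX : (A'.image f).card ≤ 4 * k := Finset.card_image_le.trans hA'
  have hU : ∀ (a : Set ℕ) (v : ℕ), ∀ σ ∈ W.fixing (A'.image f),
      ∀ z ∈ {x : Lit (PN C N) | x.pos = true ∧ x.node ∈ liftN C T A' f ∧ lab hC x.node = a ∧
        kap hC l x.node = v}, σ • z ∈ {x : Lit (PN C N) | x.pos = true ∧
          x.node ∈ liftN C T A' f ∧ lab hC x.node = a ∧ kap hC l x.node = v} := by
    rintro a v σ hσ z ⟨h1, h2, h3, h4⟩
    exact ⟨h1, liftN_smul σ hσ.2 h2, (lab_smul hC σ z.node).trans h3,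
      (kap_smul hC W hW hσ.1 z.node).trans h4⟩
  choose μ hμ1 hμ2 using fun a v => mu_nat hC hN W hX (hU a v)
  have hUim : ∀ (a : Set ℕ) (v : ℕ), {x : Lit (PN C N) | x.pos = true ∧
      x.node ∈ liftN C T A' f ∧ lab hC x.node = a ∧ kap hC l x.node = v} =
      (fun z => (⟨z, true⟩ : Lit (PN C N))) ''
        {z | z ∈ liftN C T A' f ∧ lab hC z = a ∧ kap hC l z = v} := by
    intro a v
    ext x
    constructor
    · rintro ⟨h1, h2⟩
      exact ⟨x.node, h2, Lit.ext rfl h1.symm⟩
    · rintro ⟨z, hz, rfl⟩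
      exact ⟨rfl, hz⟩
  refine ⟨μ, fun a v => ?_, fun a v he => ?_, fun a => ?_⟩
  · rw [← hμ2 a v, hUim, Set.ncard_image_of_injective _ litp_inj]
  · have h1 := hμ1 a v
    rw [hUim, he, Set.image_empty] at h1
    unfold mu at h1
    rw [finsum_mem_empty] at h1
    exact_mod_cast h1.symm
  · have hsum : ∀ m, mu C W (A'.image f) {x : Lit (PN C N) | x.pos = true ∧
        x.node ∈ liftN C T A' f ∧ lab hC x.node = a ∧ kap hC l x.node < m} =
        ∑ v ∈ Finset.range m, (μ a v : ℚ) := by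
      intro m
      induction m with
      | zero =>
        have h1 : {x : Lit (PN C N) | x.pos = true ∧ x.node ∈ liftN C T A' f ∧
            lab hC x.node = a ∧ kap hC l x.node < 0} = ∅ := by
          ext x
          constructor
          · rintro ⟨-, -, -, h2⟩
            exact absurd h2 (Nat.not_lt_zero _)
          · intro h2
            exact absurd h2 (Set.notMem_empty x)
        rw [h1, Finset.range_zero, Finset.sum_empty]
        unfold mu
        rw [finsum_mem_empty]
      | succ m ih =>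
        rw [Finset.sum_range_succ, ← ih, ← hμ1 a m, ← mu_union W (A'.image f)]
        · congr 1
          ext x
          constructor
          · rintro ⟨h1, h2, h3, h4⟩
            rcases Nat.lt_succ_iff_lt_or_eq.1 h4 with h5 | h5
            · exact Or.inl ⟨h1, h2, h3, h5⟩
            · exact Or.inr ⟨h1, h2, h3, h5⟩
          · rintro (⟨h1, h2, h3, h4⟩ | ⟨h1, h2, h3, h4⟩)
            · exact ⟨h1, h2, h3, by omega⟩
            · exact ⟨h1, h2, h3, by omega⟩
        · rw [Set.disjoint_left]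
          rintro x ⟨-, -, -, h4⟩ ⟨-, -, -, h5⟩
          omega
    have hV : {x : Lit (PN C N) | x.pos = true ∧ x.node ∈ liftN C T A' f ∧
        lab hC x.node = a ∧ kap hC l x.node < l} =
        lift C ((fun b => (⟨b, true⟩ : Lit C.N)) '' {b | b ∈ T ∧ A b = a}) A' f := by
      rw [lift_pos]
      ext x
      constructor
      · rintro ⟨h1, ⟨b, hb, g, hg1, hg2, hx⟩, h3, -⟩
        refine ⟨x.node, ⟨b, ⟨hb, ?_⟩, g, hg1, hg2, hx⟩, Lit.ext rfl h1.symm⟩
        rw [hx, lab_pmk hC (h.gate b hb)] at h3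
        exact h3
      · rintro ⟨z, ⟨b, ⟨hb, hba⟩, g, hg1, hg2, rfl⟩, rfl⟩
        refine ⟨rfl, ⟨b, hb, g, hg1, hg2, rfl⟩, ?_, Nat.mod_lt _ hN.prime.pos⟩
        show lab hC (pmk C b g) = a
        rw [lab_pmk hC (h.gate b hb), hba]
    have h1 := mu_lift hC hN W (fam_fixes h hB a) hA' hf
    rw [Set.ncard_image_of_injective _ litp_inj, ← hV, hsum l] at h1
    exact_mod_cast h1

end Pool.H93.CG
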