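import Pool.Agent.H93.CG.PcsA
import Pool.Agent.H93.CG.Asg

/-!
# [H93 CG PCB] The virtual number of true members of a union

PROOF of `tc_union` (complete). `{x | x ∈ ⋃ z ∈ Q, K z ∧ ctr x}` is the disjoint union of the `{x | x ∈ K z ∧ ctr x}`;
`Set.Finite.ncard_biUnion` as in `step_classical` (case `sum`) in `Pool/Agent/H93/SY/Classic.lean`.

PROOF of `pieces` (complete). Let `μ` be as in `piece_mu`, `Tf` the finset of `T` (`Set.Finite.toFinset`, classical).
`exists_assign Tf A l μ` (the condition is the last clause of `piece_mu`) gives `c` with `c b < l` on `T` and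
`#{b ∈ T | A b = a ∧ c b = v} = μ a v` for `a ∈ A '' T`, `v < l`.
(i) Let `b ∈ T`, `a = A b`, `v = c b`. Then `μ a v ≥ 1`, so the set `{z | z ∈ liftN C T A' f ∧ lab z = a ∧ kap z = v}` is not empty;
a member is `z = pmk C b' g` with `b' ∈ T`, `g = f` on `A'`, `g` injective on `A' ∪ supp n b'`, `A b' = lab z = A b` (`lab_pmk`) and
`kap z = c b`.
(ii) For `v < l`: `#{b ∈ T | c b = v} = ∑ a ∈ A '' T, μ a v` (`sum_assign`), and `{z ∈ liftN | kap z = v}` is the disjoint union of
the sets `{z ∈ liftN | lab z = a ∧ kap z = v}`, `a ∈ A '' T`, so its number of elements is `∑ a, μ a v` in `ZMod l`. For `l ≤ v`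
both sets are empty.
(iii) By `fam_union`, `fam_disjoint`, `tc_union`: `tc (lift C (⋃ b ∈ T, S b) A' f) = ∑ᶠ z ∈ liftN C T A' f, tc (children z)`, in
`ZMod l` this is `∑ z, kap z = ∑ v < l, v * #{z ∈ liftN | kap z = v} = ∑ v < l, v * #{b ∈ T | c b = v} = ∑ b ∈ T, c b`
(`sum_assign` and (ii)). Moreover `∑ b ∈ T, c b ≤ |T| * (2 * Nat.card C.N) < l` because `c b = kap (pmk C b' g) ≤ (S b').ncard`
(`kap_le`) `≤ 2 * Nat.card C.N` (`card_lit`). So `tc … % l = ∑ b ∈ T, c b`.
`card_lit`: `Lit N ≃ N × Bool`.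
-/

set_option autoImplicit false

namespace Pool.H93.CG

open Pool.H93.SY (Lit Atom tv supp supp_fix supp_smul supp_min supp_card_lt Fixes fixes_supp
  exists_even_perm exists_extend qd)
open scoped Pointwise
open FirstOrder.Language

variable {L : FirstOrder.Language.{0, 0}} {s n : ℕ} {C : Circuit L s n} {N M d k l : ℕ}

theorem card_lit {V : Type} [Finite V] (S : Set (Lit V)) : S.ncard ≤ 2 * Nat.card V := by
  let e : Lit V ≃ V × Bool :=
    { toFun := fun x => (x.node, x.pos)
      invFun := fun p => ⟨p.1, p.2⟩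
      left_inv := fun _ => rfl
      right_inv := fun _ => rfl }
  have hfin : Finite (Lit V) := Finite.of_equiv _ e.symm
  have h1 : Nat.card (Lit V) = Nat.card V * 2 := by
    rw [Nat.card_congr e, Nat.card_prod, Nat.card_eq_fintype_card (α := Bool), Fintype.card_bool]
  calc S.ncard ≤ (Set.univ : Set (Lit V)).ncard := Set.ncard_le_ncard (Set.subset_univ S)
    _ = 2 * Nat.card V := by rw [Set.ncard_univ, h1, mul_comm]

private theorem litq_finite {V : Type} [Finite V] : Finite (Lit V) :=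
  Finite.of_injective (fun x : Lit V => (x.node, x.pos)) (by
    intro x y h
    exact Lit.ext (congrArg Prod.fst h) (congrArg Prod.snd h))

theorem tc_union {n' : ℕ} {E : Circuit L s n'} [L.Structure (Fin s ⊕ Fin n')] (Q : Set E.N)
    (K : E.N → Set (Lit E.N)) (h : Q.PairwiseDisjoint K) :
    E.tc l (⋃ z ∈ Q, K z) = ∑ᶠ z ∈ Q, E.tc l (K z) := by
  have hfin : Finite (Lit E.N) := litq_finite
  have h1 : {x | x ∈ ⋃ z ∈ Q, K z ∧ E.ctr l x} = ⋃ z ∈ Q, {x | x ∈ K z ∧ E.ctr l x} := by
    ext x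
    simp only [Set.mem_ofPred_eq, Set.mem_iUnion]
    constructor
    · rintro ⟨⟨z, hz, hx⟩, h2⟩
      exact ⟨z, hz, hx, h2⟩
    · rintro ⟨z, hz, hx, h2⟩
      exact ⟨⟨z, hz, hx⟩, h2⟩
  unfold Circuit.tc
  rw [h1, Set.Finite.ncard_biUnion (Set.toFinite Q) (fun _ _ => Set.toFinite _)]
  intro z hz z' hz' hne
  have h2 := h hz hz' hne
  exact h2.mono (fun x hx => hx.1) (fun x hx => hx.1)

private theorem ncard_filter {α : Type} [Finite α] (T : Set α) (p : α → Prop) [DecidablePred p] :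
    {b | b ∈ T ∧ p b}.ncard = ((Set.toFinite T).toFinset.filter p).card := by
  rw [← Set.ncard_coe_finset]
  congr 1
  ext b
  simp

private theorem sum_values {α : Type} (Q : Finset α) (g : α → ℕ) (l : ℕ) (hg : ∀ z ∈ Q, g z < l)
    [DecidableEq α] :
    ∑ z ∈ Q, g z = ∑ v ∈ Finset.range l, v * (Q.filter fun z => g z = v).card := by
  rw [← Finset.sum_fiberwise_of_maps_to (s := Q) (t := Finset.range l) (g := g)
    (fun z hz => Finset.mem_range.2 (hg z hz))]
  refine Finset.sum_congr rfl fun v _ => ?_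
  rw [Finset.sum_congr rfl (g := fun _ => v) (fun z hz => (Finset.mem_filter.1 hz).2),
    Finset.sum_const, smul_eq_mul, mul_comm]

theorem pieces [L.Structure (Fin s ⊕ Fin N)] (hC : Small C k) (hN : Nice l n N d k)
    (W : World N M d) (hW : Inv W L s) {B0 : Finset (Fin n)} (hB0 : B0.card ≤ 4 * k)
    {T : Set C.N} {A : C.N → Set ℕ} {S : C.N → Set (Lit C.N)} (h : Fam C B0 T A S)
    {A' : Finset (Fin n)} (hB : B0 ⊆ A') (hA' : A'.card ≤ 4 * k) {f : Fin n → Fin N}
    (hf : Set.InjOn f A') (hl : (2 * Nat.card C.N + 1) ^ 2 < l) :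
    ∃ c : C.N → ℕ,
      (∀ b ∈ T, ∃ b' ∈ T, A b' = A b ∧ ∃ g : Fin n → Fin N, (∀ i ∈ A', g i = f i) ∧
        Set.InjOn g (A' ∪ supp n b' : Finset (Fin n)) ∧ c b = kap hC l (pmk C b' g)) ∧
      (∀ v, (({b | b ∈ T ∧ c b = v}.ncard : ℕ) : ZMod l) =
        (({z | z ∈ liftN C T A' f ∧ kap hC l z = v}.ncard : ℕ) : ZMod l)) ∧
      ∑ᶠ b ∈ T, c b = (ext hC N).tc l (lift C (⋃ b ∈ T, S b) A' f) % l := by
  classical
  obtain ⟨μ, hμ1, hμ2, hμ3⟩ := piece_mu hC hN W hW h hB hA' hf
  have hlpos : 0 < l := hN.prime.pos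
  have hmem : ∀ b, b ∈ (Set.toFinite T).toFinset ↔ b ∈ T := fun b => Set.Finite.mem_toFinset _
  have hass : ∀ a ∈ (Set.toFinite T).toFinset.image A, ∑ v ∈ Finset.range l, μ a v =
      ((Set.toFinite T).toFinset.filter fun b => A b = a).card := by
    intro a _
    rw [hμ3 a, ncard_filter]
  obtain ⟨c, hc1, hc2⟩ := exists_assign (Set.toFinite T).toFinset A l μ hass
  obtain ⟨hs1, -⟩ := sum_assign (Set.toFinite T).toFinset A l μ c hc1 hc2
  -- (i)
  have hi : ∀ b ∈ T, ∃ b' ∈ T, A b' = A b ∧ ∃ g : Fin n → Fin N, (∀ i ∈ A', g i = f i) ∧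
        Set.InjOn g (A' ∪ supp n b' : Finset (Fin n)) ∧ c b = kap hC l (pmk C b' g) := by
    intro b hb
    have hb' := (hmem b).2 hb
    have h1 := hc2 (A b) (Finset.mem_image_of_mem A hb') (c b) (hc1 b hb')
    have h2 : 0 < ((Set.toFinite T).toFinset.filter fun b' => A b' = A b ∧ c b' = c b).card :=
      Finset.card_pos.2 ⟨b, Finset.mem_filter.2 ⟨hb', rfl, rfl⟩⟩
    have h3 : {z | z ∈ liftN C T A' f ∧ lab hC z = A b ∧ kap hC l z = c b} ≠ ∅ := by
      intro h4
      have h5 := hμ2 _ _ h4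
      omega
    obtain ⟨z, ⟨b', hb1, g, hg1, hg2, rfl⟩, hz2, hz3⟩ := Set.nonempty_iff_ne_empty.2 h3
    rw [lab_pmk hC (h.gate b' hb1)] at hz2
    exact ⟨b', hb1, hz2, g, hg1, hg2, hz3.symm⟩
  -- (ii)
  have hkap : ∀ z : PN C N, kap hC l z < l := fun z => Nat.mod_lt _ hlpos
  have hii : ∀ v, (({b | b ∈ T ∧ c b = v}.ncard : ℕ) : ZMod l) =
      (({z | z ∈ liftN C T A' f ∧ kap hC l z = v}.ncard : ℕ) : ZMod l) := by
    intro v
    by_cases hv : v < l
    · have h2 : {z | z ∈ liftN C T A' f ∧ kap hC l z = v}.ncard =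
          ∑ a ∈ (Set.toFinite T).toFinset.image A,
            {z | z ∈ liftN C T A' f ∧ lab hC z = a ∧ kap hC l z = v}.ncard := by
        rw [ncard_filter, Finset.card_eq_sum_card_fiberwise (f := lab hC)
          (t := (Set.toFinite T).toFinset.image A)]
        · refine Finset.sum_congr rfl fun a _ => ?_
          rw [← Set.ncard_coe_finset]
          congr 1
          ext z
          simp only [Finset.coe_filter, Finset.mem_filter, Set.Finite.mem_toFinset,
            Set.mem_ofPred_eq]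
          tauto
        · intro z hz
          obtain ⟨hz1, -⟩ := Finset.mem_filter.1 hz
          obtain ⟨b, hb, g, -, -, rfl⟩ := (Set.Finite.mem_toFinset _).1 hz1
          rw [lab_pmk hC (h.gate b hb)]
          exact Finset.mem_image_of_mem A ((hmem b).2 hb)
      rw [h2, ncard_filter, hs1 v hv, Nat.cast_sum, Nat.cast_sum]
      exact Finset.sum_congr rfl fun a _ => (hμ1 a v).symm
    · have h1 : {b | b ∈ T ∧ c b = v} = ∅ := by
        rw [Set.eq_empty_iff_forall_notMem]
        rintro b ⟨hb, hbv⟩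
        have := hc1 b ((hmem b).2 hb)
        omega
      have h2 : {z | z ∈ liftN C T A' f ∧ kap hC l z = v} = ∅ := by
        rw [Set.eq_empty_iff_forall_notMem]
        rintro z ⟨-, hzv⟩
        have := hkap z
        omega
      rw [h1, h2, Set.ncard_empty, Set.ncard_empty]
  refine ⟨c, hi, hii, ?_⟩
  -- (iii)
  have hsq : (2 * Nat.card C.N + 1) ^ 2 = 4 * (Nat.card C.N * Nat.card C.N) +
    4 * Nat.card C.N + 1 := by ring
  have hcb : ∀ b ∈ T, c b ≤ 2 * Nat.card C.N := by
    intro b hb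
    obtain ⟨b', hb', -, g, -, hg2, hcb⟩ := hi b hb
    rw [hcb]
    have h3 := card_lit (S b')
    refine le_trans (kap_le hC hN W hW (h.gate b' hb') (by omega) ?_) h3
    exact hg2.mono (by
      rw [Finset.coe_union]
      exact Set.subset_union_right)
  have hTc : (Set.toFinite T).toFinset.card ≤ Nat.card C.N := by
    rw [← Set.ncard_eq_toFinset_card T, ← Set.ncard_univ]
    exact Set.ncard_le_ncard (Set.subset_univ T)
  have hsum : ∑ᶠ b ∈ T, c b = ∑ b ∈ (Set.toFinite T).toFinset, c b :=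
    finsum_mem_eq_finite_toFinset_sum c (Set.toFinite T)
  have hlt : ∑ b ∈ (Set.toFinite T).toFinset, c b < l := by
    have h1 : ∑ b ∈ (Set.toFinite T).toFinset, c b ≤
        (Set.toFinite T).toFinset.card * (2 * Nat.card C.N) := by
      rw [← smul_eq_mul]
      exact Finset.sum_le_card_nsmul _ _ _ fun b hb => hcb b ((hmem b).1 hb)
    have h2 : (Set.toFinite T).toFinset.card * (2 * Nat.card C.N) ≤
        Nat.card C.N * (2 * Nat.card C.N) := Nat.mul_le_mul_right _ hTc
    have h3 : Nat.card C.N * (2 * Nat.card C.N) = 2 * (Nat.card C.N * Nat.card C.N) := by ring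
    omega
  have hun := fam_union hC hB0 h hB (le_trans hA' (by omega)) f
  have hdis := fam_disjoint hC hB0 h hB (le_trans hA' (by omega)) f
  have htc := tc_union (E := ext hC N) (l := l) (liftN C T A' f)
    (fun z => ((ext hC N).gate z).children) hdis
  have key : ((∑ b ∈ (Set.toFinite T).toFinset, c b : ℕ) : ZMod l) =
      (((ext hC N).tc l (lift C (⋃ b ∈ T, S b) A' f) : ℕ) : ZMod l) := by
    rw [hun]
    have hQ : ((ext hC N).tc l (⋃ z ∈ liftN C T A' f, ((ext hC N).gate z).children)) =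
        ∑ z ∈ (Set.toFinite (liftN C T A' f)).toFinset,
          (ext hC N).tc l ((ext hC N).gate z).children := by
      rw [← finsum_mem_eq_finite_toFinset_sum _ (Set.toFinite (liftN C T A' f))]
      exact htc
    have e1 : ((∑ z ∈ (Set.toFinite (liftN C T A' f)).toFinset,
        (ext hC N).tc l ((ext hC N).gate z).children : ℕ) : ZMod l) =
        ((∑ z ∈ (Set.toFinite (liftN C T A' f)).toFinset, kap hC l z : ℕ) : ZMod l) := by
      rw [Nat.cast_sum, Nat.cast_sum]
      refine Finset.sum_congr rfl fun z _ => ?_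
      exact (ZMod.natCast_mod _ _).symm
    rw [hQ, e1, sum_values _ _ l (fun z _ => hkap z), sum_values _ c l hc1,
      Nat.cast_sum, Nat.cast_sum]
    refine Finset.sum_congr rfl fun v _ => ?_
    rw [Nat.cast_mul, Nat.cast_mul]
    congr 1
    have h2 := hii v
    rw [ncard_filter, ncard_filter] at h2
    exact h2
  rw [hsum]
  have h1 := (ZMod.natCast_eq_natCast_iff' _ _ l).1 key
  rw [Nat.mod_eq_of_lt hlt] at h1
  exact h1

end Pool.H93.CG
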