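import Pool.Agent.H93.CG.Base

/-!
# Placed nodes

Given a symmetric circuit over `Fin s ⊕ Fin n` and a number `n'`, a placed node is a pair `(a, f)` of a
node `a` and a map `f` from `Fin n` to `Fin n'` (which matters only on the support of `a`); the pairs
`(a, f)` and `(σ a, f ∘ σ⁻¹)` are identified for all even permutations `σ` of `Fin n`.
-/

set_option autoImplicit false

namespace Pool.H93.CG

open Pool.H93.SY (Lit Atom tv supp supp_fix supp_smul supp_min supp_card_lt Fixes fixes_supp
  exists_even_perm exists_extend pts mem_pts pts_card mem_pts_snoc tv_mem tv_realize snoc_comp qd)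
open scoped Pointwise

variable {L : FirstOrder.Language.{0, 0}} {s n : ℕ}

/-- The standing hypotheses on the circuit: supports have less than `k` points. -/
structure Small (C : Circuit L s n) (k : ℕ) : Prop where
  kpos : 0 < k
  room : 32 * k + 16 ≤ n
  node : ∀ a : C.N, (supp n a).card < k

/-- Identification of pairs. -/
def placeSetoid (C : Circuit L s n) (n' : ℕ) : Setoid (C.N × (Fin n → Fin n')) where
  r p q := ∃ σ : Equiv.Perm (Fin n), Equiv.Perm.sign σ = 1 ∧ σ • p.1 = q.1 ∧
    ∀ i ∈ supp n p.1, q.2 (σ i) = p.2 i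
  iseqv := by
    constructor
    · intro p
      exact ⟨1, map_one _, one_smul _ _, fun i _ => rfl⟩
    · rintro p q ⟨σ, h1, h2, h3⟩
      refine ⟨σ⁻¹, ?_, ?_, ?_⟩
      · rw [Equiv.Perm.sign_inv, h1]
      · rw [← h2, inv_smul_smul]
      · intro j hj
        rw [← h2, supp_smul] at hj
        obtain ⟨i, hi, rfl⟩ := Finset.mem_image.1 hj
        rw [h3 i hi]
        show p.2 (σ.symm (σ i)) = p.2 i
        rw [σ.symm_apply_apply]
    · rintro p q r ⟨σ, h1, h2, h3⟩ ⟨τ, h4, h5, h6⟩
      refine ⟨τ * σ, ?_, ?_, ?_⟩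
      · rw [map_mul, h1, h4, one_mul]
      · rw [mul_smul, h2, h5]
      · intro i hi
        show r.2 (τ (σ i)) = p.2 i
        rw [h6 (σ i) ?_, h3 i hi]
        rw [← h2, supp_smul]
        exact Finset.mem_image_of_mem _ hi

/-- Placed nodes. -/
def PN (C : Circuit L s n) (n' : ℕ) : Type := Quotient (placeSetoid C n')

/-- The node `a` placed by `f`. -/
def pmk (C : Circuit L s n) {n' : ℕ} (a : C.N) (f : Fin n → Fin n') : PN C n' :=
  Quotient.mk (placeSetoid C n') (a, f)

/-- A signed node placed by `f`. -/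
def plit (C : Circuit L s n) {n' : ℕ} (x : Lit C.N) (f : Fin n → Fin n') : Lit (PN C n') :=
  ⟨pmk C x.node f, x.pos⟩

instance (C : Circuit L s n) (n' : ℕ) : Finite (PN C n') :=
  inferInstanceAs (Finite (Quotient (placeSetoid C n')))

instance (C : Circuit L s n) (n' : ℕ) : MulAction (Equiv.Perm (Fin n')) (PN C n') where
  smul τ := Quotient.map (fun p => (p.1, fun i => τ (p.2 i))) (by
    rintro p q ⟨σ, h1, h2, h3⟩
    exact ⟨σ, h1, h2, fun i hi => congrArg τ (h3 i hi)⟩)
  one_smul z := by
    induction z using Quotient.inductionOn with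
    | h p => rfl
  mul_smul τ ρ z := by
    induction z using Quotient.inductionOn with
    | h p => rfl

variable {C : Circuit L s n} {n' : ℕ}

theorem smul_pmk (τ : Equiv.Perm (Fin n')) (a : C.N) (f : Fin n → Fin n') :
    τ • pmk C a f = pmk C a (fun i => τ (f i)) := rfl

theorem smul_plit (τ : Equiv.Perm (Fin n')) (x : Lit C.N) (f : Fin n → Fin n') :
    τ • plit C x f = plit C x (fun i => τ (f i)) := rfl

theorem exists_pmk (z : PN C n') : ∃ (a : C.N) (f : Fin n → Fin n'), z = pmk C a f := by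
  induction z using Quotient.inductionOn with
  | h p => exact ⟨p.1, p.2, rfl⟩

theorem pmk_eq_iff {a b : C.N} {f g : Fin n → Fin n'} :
    pmk C a f = pmk C b g ↔ ∃ σ : Equiv.Perm (Fin n), Equiv.Perm.sign σ = 1 ∧ σ • a = b ∧
      ∀ i ∈ supp n a, g (σ i) = f i :=
  ⟨fun h => Quotient.exact (s := placeSetoid C n') h,
    fun h => Quotient.sound (s := placeSetoid C n') h⟩

theorem pmk_congr {a : C.N} {f g : Fin n → Fin n'} (h : ∀ i ∈ supp n a, f i = g i) :
    pmk C a f = pmk C a g :=
  pmk_eq_iff.2 ⟨1, map_one _, one_smul _ _, fun i hi => (h i hi).symm⟩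

theorem plit_congr {x : Lit C.N} {f g : Fin n → Fin n'} (h : ∀ i ∈ supp n x.node, f i = g i) :
    plit C x f = plit C x g := by
  unfold plit
  rw [pmk_congr h]

theorem pmk_smul {σ : Equiv.Perm (Fin n)} (hσ : Equiv.Perm.sign σ = 1) (a : C.N)
    (f : Fin n → Fin n') : pmk C (σ • a) (fun i => f (σ⁻¹ i)) = pmk C a f := by
  symm
  refine pmk_eq_iff.2 ⟨σ, hσ, rfl, fun i _ => ?_⟩
  show f (σ.symm (σ i)) = f i
  rw [σ.symm_apply_apply]

theorem plit_smul {σ : Equiv.Perm (Fin n)} (hσ : Equiv.Perm.sign σ = 1) (x : Lit C.N)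
    (f : Fin n → Fin n') : plit C (σ • x) (fun i => f (σ⁻¹ i)) = plit C x f := by
  unfold plit
  rw [smul_node, smul_pos, pmk_smul hσ]

theorem plit_neg (x : Lit C.N) (f : Fin n → Fin n') : plit C x.neg f = (plit C x f).neg := rfl

/-- All placements of the members of `S` which extend the placement `f` of the points of `A`. -/
def lift (C : Circuit L s n) {n' : ℕ} (S : Set (Lit C.N)) (A : Finset (Fin n))
    (f : Fin n → Fin n') : Set (Lit (PN C n')) :=
  {z | ∃ x ∈ S, ∃ g : Fin n → Fin n', (∀ i ∈ A, g i = f i) ∧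
    Set.InjOn g (A ∪ supp n x.node : Finset (Fin n)) ∧ z = plit C x g}

/-- The placed line. -/
noncomputable def liftL (C : Circuit L s n) {n' : ℕ} (Γ : Set (Lit C.N)) (f : Fin n → Fin n') :
    Set (Lit (PN C n')) := lift C Γ (supp n Γ) f

/-- The label of a placed node. -/
noncomputable def pgate0 (C : Circuit L s n) {n' : ℕ} (a : C.N) (f : Fin n → Fin n') :
    Gate (Atom L (Fin s ⊕ Fin n')) (PN C n') :=
  match C.gate a with
  | .var v => .var ⟨v.1, v.2.1, fun i => Sum.map id f (v.2.2 i)⟩
  | .and S => .and (lift C S (supp n a) f)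
  | .sym c S => .sym c (lift C S (supp n a) f)

end Pool.H93.CG
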