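import Pool.Agent.H93.CG.LiftE

/-!
# The support of a placed node
-/

set_option autoImplicit false

namespace Pool.H93.CG

open Pool.H93.SY (Lit Atom tv supp supp_fix supp_smul supp_min supp_card_lt Fixes fixes_supp
  exists_even_perm exists_extend qd)
open scoped Pointwise
open FirstOrder.Language

variable {L : FirstOrder.Language.{0, 0}} {s n : ℕ} {C : Circuit L s n} {n' k : ℕ}

/-- The support of a placed node. -/
noncomputable def psupp (C : Circuit L s n) {n' : ℕ} : PN C n' → Finset (Fin n') :=
  Quotient.lift (fun p => (supp n p.1).image p.2) (by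
    rintro ⟨a, f⟩ ⟨b, g⟩ ⟨σ, hσ, hab, hfg⟩
    simp only at hab hfg
    subst hab
    show (supp n a).image f = (supp n (σ • a)).image g
    rw [supp_smul, Finset.image_image]
    refine Finset.image_congr ?_
    intro i hi
    exact (hfg i hi).symm)

theorem psupp_pmk (a : C.N) (f : Fin n → Fin n') : psupp C (pmk C a f) = (supp n a).image f := rfl

theorem psupp_smul (τ : Equiv.Perm (Fin n')) (z : PN C n') :
    psupp C (τ • z) = (psupp C z).image τ := by
  obtain ⟨a, f, rfl⟩ := exists_pmk z
  rw [smul_pmk, psupp_pmk, psupp_pmk, Finset.image_image]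
  rfl

theorem psupp_fix (τ : Equiv.Perm (Fin n')) (z : PN C n') (h : ∀ p ∈ psupp C z, τ p = p) :
    τ • z = z := by
  obtain ⟨a, f, rfl⟩ := exists_pmk z
  rw [smul_pmk]
  refine pmk_congr fun i hi => ?_
  exact h _ (Finset.mem_image_of_mem f hi)

theorem psupp_card (hC : Small C k) (z : PN C n') : (psupp C z).card < k := by
  obtain ⟨a, f, rfl⟩ := exists_pmk z
  rw [psupp_pmk]
  exact lt_of_le_of_lt Finset.card_image_le (hC.node a)

/-- A permutation which fixes the placed points of `A` permutes the lift. -/
theorem smul_mem_lift {S : Set (Lit C.N)} {A : Finset (Fin n)} {f : Fin n → Fin n'}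
    (τ : Equiv.Perm (Fin n')) (hτ : ∀ p ∈ A.image f, τ p = p) {z : Lit (PN C n')}
    (hz : z ∈ lift C S A f) : τ • z ∈ lift C S A f := by
  have h1 : τ • lift C S A f = lift C S A f := by
    rw [smul_lift]
    exact lift_congr fun i hi => hτ _ (Finset.mem_image_of_mem f hi)
  rw [← h1]
  exact Set.smul_mem_smul_set hz

end Pool.H93.CG
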