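import Pool.Agent.H93.CG.PcsB

/-!
# [H93 CG SR] The rule sum

PROOF (complete). Let `A₁ = supp n Γ ∪ supp n a ∪ supp n p` (at most `3 k` points), extend `f` to `f'` injective on `A₁`
(`exists_extend`), `liftL C Γ f = liftL C Γ f'`. If `pmk C p f'` is false then `plit C ⟨p, false⟩ f'` is a true member of
`liftL C Γ f'` (`plit_mem_lift`). So let it be true. The label of `pmk C p f'` is `and (lift C T⁺ A₁ f')`,
`T⁺ = (fun b => ⟨b, true⟩) '' T` (`gate_and_up`), `= and ((fun z => ⟨z, true⟩) '' liftN C T A₁ f')` (`lift_pos`), so every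
`z ∈ liftN C T A₁ f'` is true (`cval_and`, `ctr_true`).
`Fam C (supp n p) T A S` (`fam_of_conj`): `fixes_and` for `p`, and `σ • T⁺ = T⁺` gives `σ • T = T` (see `piece_fix` in
`Pool/Agent/H93/SY/LiftS.lean`). `pieces` with `B0 = supp n p`, `A' = A₁` gives `c`. For `b ∈ T` there are `b' ∈ T`, `g` with
`A b' = A b`, `c b = kap (pmk C b' g)`, and `pmk C b' g ∈ liftN C T A₁ f'` is true: its label is `sym (A b') _`
(`ext_gate`, `pgate0_sym`), so `kap (pmk C b' g) ∈ A b'` (`cval_sym`; `kap` is `tc` of the children modulo `l`). So `c b ∈ A b` for all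
`b ∈ T`, and `hsum c` gives `∑ᶠ b ∈ T, c b ∈ A'`. The label of `pmk C a f'` is `sym A' (lift C (⋃ b ∈ T, S b) A₁ f')` (`gate_sym_up`),
and by `pieces` `tc … % l = ∑ᶠ b ∈ T, c b ∈ A'`, so `plit C ⟨a, true⟩ f'` is true.
-/

set_option autoImplicit false

namespace Pool.H93.CG

open Pool.H93.SY (Lit Atom tv supp supp_fix supp_smul supp_min supp_card_lt Fixes fixes_supp
  exists_even_perm exists_extend qd)
open scoped Pointwise
open FirstOrder.Language

variable {L : FirstOrder.Language.{0, 0}} {s n : ℕ} {C : Circuit L s n} {N M d k l : ℕ}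

theorem fam_of_conj (hn : 2 ≤ n) {p : C.N} {T : Set C.N} {A : C.N → Set ℕ}
    {S : C.N → Set (Lit C.N)} (hT : ∀ b ∈ T, C.gate b = .sym (A b) (S b))
    (hd : T.PairwiseDisjoint S) (hp : C.gate p = .and ((fun b => ⟨b, true⟩) '' T)) :
    Fam C (supp n p) T A S := by
  refine ⟨?_, hT, hd⟩
  intro σ h1 h2
  have h3 := fixes_and hn hp σ h1 h2
  ext b
  rw [Set.mem_smul_set_iff_inv_smul_mem]
  have h4 : (⟨b, true⟩ : Lit C.N) ∈ σ • ((fun b => (⟨b, true⟩ : Lit C.N)) '' T) ↔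
      (⟨b, true⟩ : Lit C.N) ∈ (fun b => (⟨b, true⟩ : Lit C.N)) '' T := by
    rw [h3]
  rw [Set.mem_smul_set_iff_inv_smul_mem] at h4
  constructor
  · intro hb
    obtain ⟨b', hb', hbb⟩ := h4.1 ⟨σ⁻¹ • b, hb, rfl⟩
    have h5 : b' = b := congrArg Lit.node hbb
    rwa [← h5]
  · intro hb
    obtain ⟨b', hb', hbb⟩ := h4.2 ⟨b, hb, rfl⟩
    have h5 : b' = σ⁻¹ • b := congrArg Lit.node hbb
    rwa [← h5]

theorem sum_true [L.Structure (Fin s ⊕ Fin N)] (hC : Small C k) (hN : Nice l n N d k)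
    (W : World N M d) (hW : Inv W L s) (h8 : 8 * k + 8 ≤ N)
    (hl : (2 * Nat.card C.N + 1) ^ 2 < l) {Γ : Set (Lit C.N)}
    (hΓ : (supp n Γ).card < k) {f : Fin n → Fin N} (hf : Set.InjOn f (supp n Γ)) {a p : C.N}
    {T : Set C.N} {A : C.N → Set ℕ} {A' : Set ℕ} {S : C.N → Set (Lit C.N)}
    (hT : ∀ b ∈ T, C.gate b = .sym (A b) (S b)) (hd : T.PairwiseDisjoint S)
    (hp : C.gate p = .and ((fun b => ⟨b, true⟩) '' T))
    (ha : C.gate a = .sym A' (⋃ b ∈ T, S b))
    (hsum : ∀ c : C.N → ℕ, (∀ b ∈ T, c b ∈ A b) → ∑ᶠ b ∈ T, c b ∈ A')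
    (hpΓ : ⟨p, false⟩ ∈ Γ) (haΓ : ⟨a, true⟩ ∈ Γ) :
    ∃ x ∈ liftL C Γ f, (ext hC N).ctr l x := by
  classical
  have hroom := hC.room
  have hk := hC.kpos
  have hna := hC.node a
  have hnp := hC.node p
  have hc1 := Finset.card_union_le (supp n Γ) (supp n a)
  have hc2 := Finset.card_union_le (supp n Γ ∪ supp n a) (supp n p)
  set A₁ : Finset (Fin n) := supp n Γ ∪ supp n a ∪ supp n p with hA₁
  have hΓA : supp n Γ ⊆ A₁ := Finset.subset_union_left.trans Finset.subset_union_left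
  have haA : supp n a ⊆ A₁ := Finset.subset_union_right.trans Finset.subset_union_left
  have hpA : supp n p ⊆ A₁ := Finset.subset_union_right
  obtain ⟨f', hff, hfi⟩ := exists_extend (supp n Γ) A₁ hΓA f hf (Or.inr (by
    rw [Nat.card_fin]
    omega))
  rw [liftL_congr (g := f') (fun i hi => (hff i hi).symm)]
  by_cases hpv : (ext hC N).cval l (pmk C p f')
  · have hgp : (ext hC N).gate (pmk C p f') =
        .and ((fun z => (⟨z, true⟩ : Lit (PN C N))) '' liftN C T A₁ f') := by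
      rw [gate_and_up hC hp hpA (by omega) hfi, lift_pos]
      rfl
    have hz : ∀ z ∈ liftN C T A₁ f', (ext hC N).cval l z := by
      intro z hz
      have h1 := (cval_and hgp).1 hpv ⟨z, true⟩ ⟨z, hz, rfl⟩
      exact ctr_true.1 h1
    have hfam : Fam C (supp n p) T A S := fam_of_conj (by omega) hT hd hp
    obtain ⟨c, hc1', -, hc3⟩ := pieces hC hN W hW (by omega) hfam hpA (by omega) hfi hl
    have hcA : ∀ b ∈ T, c b ∈ A b := by
      intro b hb
      obtain ⟨b', hb', hAb, g, hg, hgi, hcb⟩ := hc1' b hb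
      have h1 := hz (pmk C b' g) ⟨b', hb', g, hg, hgi, rfl⟩
      have h2 : (ext hC N).gate (pmk C b' g) = .sym (A b') (lift C (S b') (supp n b') g) :=
        (ext_gate hC b' g).trans (pgate0_sym (hT b' hb') g)
      have h3 := (cval_sym h2).1 h1
      rw [hcb, ← hAb]
      unfold kap
      rw [h2]
      exact h3
    have hsA := hsum c hcA
    rw [hc3] at hsA
    refine ⟨plit C ⟨a, true⟩ f', plit_mem_lift hfi haΓ hΓA haA, ?_⟩
    have hga : (ext hC N).gate (pmk C a f') = .sym A' (lift C (⋃ b ∈ T, S b) A₁ f') :=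
      gate_sym_up hC ha haA (by omega) hfi
    show (ext hC N).cval l (pmk C a f') ↔ true = true
    rw [cval_sym hga]
    exact ⟨fun _ => rfl, fun _ => hsA⟩
  · exact ⟨plit C ⟨p, false⟩ f', plit_mem_lift hfi hpΓ hΓA hpA, ctr_false.2 hpv⟩

end Pool.H93.CG
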