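import Pool.Agent.H93.CG.UDef
import Pool.Agent.H31.SY.Upper

/-!
# [H93 CG UB] The basic lines from the sentence

PROOF (complete; the model is `bas_gen` in `Pool/Agent/H31/PH/Bas.lean`, copy its private lemmas `f_not_true`, `f_inf_left`, `f_imp`,
`f_all`, `f_ex`, … for `frL`). `Pool.H31.PH.kle` for `ψ = free`, `m = 0`, `D = table G n` (invariant under the permutations: the
facts `pt` are permuted, the facts `mul` are fixed), `X` = the sum type of the indices of the five kinds of lines (or five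
applications and `Pool.Agent.H88.PG.goodD_union`), and `G x` the set of the signed atoms of the line, for example
`{(actA h i j, true) | j}` for `LV h i` and `{(actA b i j, false), (actA a j x, false), (actA (a b) i x, true)}` for `mul`, where
`actA h i j = ⟨3, FRel.act, ![inl h, inr i, inr j]⟩`. Forced (the sentence is forced to be false if all signed atoms of the line are
false and the facts are true):
 * `LV h i`: first conjunct at `x0 = inl h`, `x1 = inr i`: `¬ pt x0`, `pt x1` are forced to be true; for `x2 = inl a`: `pt x2` is false;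
   for `x2 = inr j`: `act x0 x1 x2` is false.
 * `fn`: second conjunct at `inl h, inr i, inr j, inr j'`: both atoms true, the equality false.
 * `fr`: fourth conjunct at `inl h, inl h', inr i, inr j`. 
 * `mul`: third conjunct at `inl a, inl b, inl (a b), inr i, inr j, inr x`; `mul (inl a) (inl b) (inl (a b))` is a fact.
 * `one`: fifth conjunct at `inl 1, inr i`: `mul 1 1 1` is a fact (`G.mul_one`), `pt (inr i)` is a fact.
Then `goodC_conv` with `ι = Un.base` (`C₀ = circ free 0 s n`, injective, the labels by `rfl`); the lines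
`mapL Un.base '' gl free (G x)` are the lines of `Basic` (as `bas_LC`, `bas_LV`).
Size: `Ls.ncard ≤ 1 + 8 * Nat.card X * (Nat.card (Nd free s n) + 1) ^ 2` (and `Set.ncard_image_le`), `Nat.card (Nd free s n)` by `card_nd`
(the arities of `free` are bounded), `Nat.card X ≤ 5 * (s + n) ^ 5`; `s + n ≤ big s n q`, `4 ≤ big s n q`, so a constant is at most
`big ^ c`.
-/

set_option autoImplicit false

namespace Pool.H93.CG

open FirstOrder FirstOrder.Language
open Pool.H93.SY (Lit Atom)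
open Pool.H31.SY (Nd gateN rk dep subf Rels)
open Pool.H31.PH (Sl mapL)
open scoped Pointwise

open Pool.H93.SY (tv)
open Pool.H31.PH (gl Forced kle)
open Pool.H31.SY (ar Sh circ)

private inductive Kd : Type
  | a | b | c | d | e

private def Kd.code : Kd → Fin 5
  | .a => 0
  | .b => 1
  | .c => 2
  | .d => 3
  | .e => 4

private theorem Kd.inj : Function.Injective Kd.code := by
  intro x y h
  cases x <;> cases y <;> first | rfl | (exact absurd h (by decide))

private instance : Finite Kd := Finite.of_injective Kd.code Kd.inj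

private theorem card_kd : Nat.card Kd ≤ 5 := by
  have h := Nat.card_le_card_of_injective Kd.code Kd.inj
  rwa [Nat.card_fin] at h

private abbrev Tu (s n : ℕ) : Type := Fin s × Fin n × Fin n × Bool

private abbrev Ix (s n : ℕ) : Type := Kd × Fin s × Fin s × Fin n × Fin n × Fin n

private def aA {s n : ℕ} (h : Fin s) (i j : Fin n) : Atom frL (Fin s ⊕ Fin n) :=
  ⟨3, FRel.act, ![Sum.inl h, Sum.inr i, Sum.inr j]⟩

private def aS {s n : ℕ} (t : Tu s n) : Atom frL (Fin s ⊕ Fin n) × Bool :=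
  (aA t.1 t.2.1 t.2.2.1, t.2.2.2)

private def dS {s n q : ℕ} (t : Tu s n) : Lit (Un s n q) :=
  ⟨(Dn t.1 t.2.1 t.2.2.1).node, t.2.2.2⟩

private def TT {s n : ℕ} (G : Group (Fin s)) : Ix s n → Set (Tu s n)
  | (.a, h, _, i, _, _) => {t | ∃ j, t = (h, i, j, true)}
  | (.b, h, _, i, j, x) => {(h, i, j, false), (h, i, x, false)}
  | (.c, h, k, i, j, _) => {(h, i, j, false), (k, i, j, false)}
  | (.d, h, k, i, j, x) => {(k, i, j, false), (h, j, x, false), (G.mul h k, i, x, true)}
  | (.e, _, _, i, _, _) => {(G.one, i, i, true)}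

private def VV {s n : ℕ} : Set (Ix s n) :=
  {x | match x with
    | (.b, _, _, _, j, x) => j ≠ x
    | (.c, h, k, _, _, _) => h ≠ k
    | _ => True}

private theorem bas_atm {s n : ℕ} (σ : Equiv.Perm (Fin n)) (h : Fin s) (i j : Fin n) :
    aA h (σ i) (σ j) = (aA h i j).act σ := by
  have key : (![Sum.inl h, Sum.inr (σ i), Sum.inr (σ j)] : Fin 3 → Fin s ⊕ Fin n) =
      fun a => Sum.map id σ ((![Sum.inl h, Sum.inr i, Sum.inr j] : Fin 3 → Fin s ⊕ Fin n) a) := by
    funext a
    match a with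
    | 0 => rfl
    | 1 => rfl
    | 2 => rfl
  change (⟨3, FRel.act, ![Sum.inl h, Sum.inr (σ i), Sum.inr (σ j)]⟩ : Atom frL (Fin s ⊕ Fin n)) =
    ⟨3, FRel.act, fun a => Sum.map id σ
      ((![Sum.inl h, Sum.inr i, Sum.inr j] : Fin 3 → Fin s ⊕ Fin n) a)⟩
  rw [key]

private def tA {s n : ℕ} (σ : Equiv.Perm (Fin n)) (t : Tu s n) : Tu s n :=
  (t.1, σ t.2.1, σ t.2.2.1, t.2.2.2)

private theorem aS_tA {s n : ℕ} (σ : Equiv.Perm (Fin n)) (t : Tu s n) :
    aS (tA σ t) = ((aS t).1.act σ, (aS t).2) := by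
  change (aA t.1 (σ t.2.1) (σ t.2.2.1), t.2.2.2) = _
  rw [bas_atm]
  rfl

private theorem aS_image {s n : ℕ} (σ : Equiv.Perm (Fin n)) (T : Set (Tu s n)) :
    aS '' (tA σ '' T) =
      (fun w : Atom frL (Fin s ⊕ Fin n) × Bool => (w.1.act σ, w.2)) '' (aS '' T) := by
  rw [Set.image_image, Set.image_image]
  exact Set.image_congr fun t _ => aS_tA σ t

private theorem TT_act {s n : ℕ} (G : Group (Fin s)) (σ : Equiv.Perm (Fin n)) (x : Ix s n) :
    TT G (x.1, x.2.1, x.2.2.1, σ x.2.2.2.1, σ x.2.2.2.2.1, σ x.2.2.2.2.2) = tA σ '' TT G x := by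
  obtain ⟨k, h, h', i, j, l⟩ := x
  cases k with
  | a =>
    change {t | ∃ j, t = (h, σ i, j, true)} = tA σ '' {t | ∃ j, t = (h, i, j, true)}
    ext t
    constructor
    · rintro ⟨j, rfl⟩
      refine ⟨(h, i, σ⁻¹ j, true), ⟨_, rfl⟩, ?_⟩
      change (h, σ i, σ (σ⁻¹ j), true) = _
      rw [show σ (σ⁻¹ j) = j from σ.apply_symm_apply j]
    · rintro ⟨_, ⟨j, rfl⟩, rfl⟩
      exact ⟨σ j, rfl⟩
  | b =>
    change ({(h, σ i, σ j, false), (h, σ i, σ l, false)} : Set (Tu s n)) =
      tA σ '' {(h, i, j, false), (h, i, l, false)}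
    rw [Set.image_pair]
    rfl
  | c =>
    change ({(h, σ i, σ j, false), (h', σ i, σ j, false)} : Set (Tu s n)) =
      tA σ '' {(h, i, j, false), (h', i, j, false)}
    rw [Set.image_pair]
    rfl
  | d =>
    change ({(h', σ i, σ j, false), (h, σ j, σ l, false), (G.mul h h', σ i, σ l, true)} :
      Set (Tu s n)) = tA σ '' {(h', i, j, false), (h, j, l, false), (G.mul h h', i, l, true)}
    rw [Set.image_insert_eq, Set.image_pair]
    rfl
  | e =>
    change ({(G.one, σ i, σ i, true)} : Set (Tu s n)) = tA σ '' {(G.one, i, i, true)}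
    rw [Set.image_singleton]
    rfl

private theorem bas_nod {s n : ℕ} {h : Fin s} {i j : Fin n} {R : Rels free}
    {w : Fin R.1.1 → Fin s ⊕ Fin n}
    (hh : (⟨R.1.1, R.1.2, w⟩ : Atom frL (Fin s ⊕ Fin n)) = aA h i j) :
    (⟨some (.inl R), w⟩ : Nd free s n) =
      ⟨some (.inl ⟨⟨3, FRel.act⟩, act_mem⟩), ![Sum.inl h, Sum.inr i, Sum.inr j]⟩ := by
  obtain ⟨⟨k, r⟩, hr⟩ := R
  have h' : (⟨k, r, w⟩ : Atom frL (Fin s ⊕ Fin n)) =
    ⟨3, FRel.act, ![Sum.inl h, Sum.inr i, Sum.inr j]⟩ := hh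
  cases h'
  rfl

private theorem bas_line {s n q : ℕ} (T : Set (Tu s n)) :
    mapL Un.base '' (gl free (aS '' T)) = (dS '' T : Set (Lit (Un s n q))) := by
  ext x
  constructor
  · rintro ⟨_, ⟨R, w, b, ⟨t, ht, hG⟩, rfl⟩, rfl⟩
    have h1 : aA t.1 t.2.1 t.2.2.1 = _ := congrArg Prod.fst hG
    have h2 : t.2.2.2 = b := congrArg Prod.snd hG
    subst h2
    refine ⟨t, ht, ?_⟩
    change _ = (⟨.base ⟨some (.inl R), w⟩, t.2.2.2⟩ : Lit (Un s n q))
    rw [bas_nod h1.symm]
    rfl
  · rintro ⟨t, ht, rfl⟩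
    exact ⟨_, ⟨⟨⟨3, FRel.act⟩, act_mem⟩, ![Sum.inl t.1, Sum.inr t.2.1, Sum.inr t.2.2.1], t.2.2.2,
      ⟨t, ht, rfl⟩, rfl⟩, rfl⟩

private theorem bas_D {s n : ℕ} (G : Group (Fin s)) (σ : Equiv.Perm (Fin n))
    (v : Atom frL (Fin s ⊕ Fin n)) (b : Bool)
    (h : (v, b) ∈ table G n) : (v.act σ, b) ∈ table G n := by
  rcases h with ⟨p, hp⟩ | ⟨x, y, z, hp⟩
  · rw [Prod.mk.injEq] at hp
    obtain ⟨rfl, rfl⟩ := hp
    refine Or.inl ⟨Sum.map id σ p, ?_⟩
    rcases p with p | p <;> rfl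
  · rw [Prod.mk.injEq] at hp
    obtain ⟨rfl, rfl⟩ := hp
    refine Or.inr ⟨x, y, z, ?_⟩
    have key : (fun a => Sum.map id σ
        ((![Sum.inl x, Sum.inl y, Sum.inl z] : Fin 3 → Fin s ⊕ Fin n) a)) =
        ![Sum.inl x, Sum.inl y, Sum.inl z] := by
      funext a
      match a with
      | 0 => rfl
      | 1 => rfl
      | 2 => rfl
    change ((⟨3, FRel.mul, fun a => Sum.map id σ
        ((![Sum.inl x, Sum.inl y, Sum.inl z] : Fin 3 → Fin s ⊕ Fin n) a)⟩ :
        Atom frL (Fin s ⊕ Fin n)), decide (G.mul x y = z)) = _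
    rw [key]

section Forced

variable {s n : ℕ} {D G : Set (Atom frL (Fin s ⊕ Fin n) × Bool)} {k : ℕ}
  {φ θ : frL.BoundedFormula Empty k} {v : Fin k → Fin s ⊕ Fin n}

private theorem f_not_true (h : Forced D G φ v false) : Forced D G (∼φ) v true := Or.inl h

private theorem f_inf_left (h : Forced D G φ v false) : Forced D G (φ ⊓ θ) v false :=
  ⟨Or.inl h, rfl⟩

private theorem f_inf_right (h : Forced D G θ v false) : Forced D G (φ ⊓ θ) v false :=
  ⟨Or.inr (f_not_true h), rfl⟩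

private theorem f_imp (h1 : Forced D G φ v true) (h2 : Forced D G θ v false) :
    Forced D G (φ ⟹ θ) v false := ⟨h1, h2⟩

private theorem f_all {χ : frL.BoundedFormula Empty (k + 1)} (p : Fin s ⊕ Fin n)
    (h : Forced D G χ (Fin.snoc v p) false) : Forced D G (∀' χ) v false := ⟨p, h⟩

private theorem f_ex {χ : frL.BoundedFormula Empty (k + 1)}
    (h : ∀ p, Forced D G χ (Fin.snoc v p) false) : Forced D G (∃' χ) v false :=
  ⟨fun p => f_not_true (h p), rfl⟩

private theorem f_eq {t u : frL.Term (Empty ⊕ Fin k)} (h : tv v t ≠ tv v u) :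
    Forced D G (t =' u) v false :=
  ⟨fun h1 => absurd h1 Bool.false_ne_true, fun h1 => absurd h1 h⟩

private theorem f_pt {Gr : Group (Fin s)} {t : frL.Term (Empty ⊕ Fin k)} {b : Bool}
    (p : Fin s ⊕ Fin n) (h : tv v t = p) (hb : p.isRight = b) :
    Forced (table Gr n) G (ptF t) v b := by
  left
  refine Or.inl ⟨p, ?_⟩
  have h1 : (fun i => tv v ((![t] : Fin 1 → frL.Term (Empty ⊕ Fin k)) i)) = fun _ => p := by
    funext i
    rw [Matrix.cons_val_fin_one]
    exact h
  change ((⟨1, FRel.pt, fun i => tv v ((![t] : Fin 1 → frL.Term (Empty ⊕ Fin k)) i)⟩ :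
    Atom frL (Fin s ⊕ Fin n)), b) = _
  rw [h1, hb]

private theorem f_mul {Gr : Group (Fin s)} {t u w : frL.Term (Empty ⊕ Fin k)} (x y z : Fin s)
    (h1 : tv v t = Sum.inl x) (h2 : tv v u = Sum.inl y) (h3 : tv v w = Sum.inl z)
    (h : Gr.mul x y = z) : Forced (table Gr n) G (mulF t u w) v true := by
  left
  refine Or.inr ⟨x, y, z, ?_⟩
  have h4 : (fun i => tv v ((![t, u, w] : Fin 3 → frL.Term (Empty ⊕ Fin k)) i)) =
      ![Sum.inl x, Sum.inl y, Sum.inl z] := by
    funext i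
    match i with
    | 0 => exact h1
    | 1 => exact h2
    | 2 => exact h3
  change ((⟨3, FRel.mul, fun i => tv v ((![t, u, w] : Fin 3 → frL.Term (Empty ⊕ Fin k)) i)⟩ :
    Atom frL (Fin s ⊕ Fin n)), true) = _
  rw [h4, decide_eq_true h]

private theorem f_act {t u w : frL.Term (Empty ⊕ Fin k)} {b : Bool} (x : Fin s) (i j : Fin n)
    (h1 : tv v t = Sum.inl x) (h2 : tv v u = Sum.inr i) (h3 : tv v w = Sum.inr j)
    (h : (aA x i j, !b) ∈ G) : Forced D G (actF t u w) v b := by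
  right
  have h4 : (fun i => tv v ((![t, u, w] : Fin 3 → frL.Term (Empty ⊕ Fin k)) i)) =
      ![Sum.inl x, Sum.inr i, Sum.inr j] := by
    funext i
    match i with
    | 0 => exact h1
    | 1 => exact h2
    | 2 => exact h3
  change ((⟨3, FRel.act, fun i => tv v ((![t, u, w] : Fin 3 → frL.Term (Empty ⊕ Fin k)) i)⟩ :
    Atom frL (Fin s ⊕ Fin n)), !b) ∈ G
  rw [h4]
  exact h

end Forced

private theorem one_one {α : Type} (G : Group α) : G.mul G.one G.one = G.one :=
  mul_one (1 : α)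

private theorem bas_forced {s n : ℕ} (G : Group (Fin s)) (x : Ix s n) (hx : x ∈ VV) :
    Forced (table G n) (aS '' TT G x) free default false := by
  obtain ⟨k, h, h', i, j, l⟩ := x
  cases k with
  | a =>
    refine f_inf_left (f_all (Sum.inl h) (f_all (Sum.inr i) (f_imp
      (f_not_true (f_pt (Sum.inl h) rfl rfl)) (f_imp (f_pt (Sum.inr i) rfl rfl)
      (f_ex fun p => ?_)))))
    rcases p with a | j
    · exact f_inf_left (f_pt (Sum.inl a) rfl rfl)
    · exact f_inf_right (f_act h i j rfl rfl rfl ⟨(h, i, j, true), ⟨j, rfl⟩, rfl⟩)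
  | b =>
    refine f_inf_right (f_inf_left (f_all (Sum.inl h) (f_all (Sum.inr i) (f_all (Sum.inr j)
      (f_all (Sum.inr l) (f_imp (f_act h i j rfl rfl rfl ⟨(h, i, j, false), Or.inl rfl, rfl⟩)
      (f_imp (f_act h i l rfl rfl rfl ⟨(h, i, l, false), Or.inr rfl, rfl⟩) (f_eq ?_))))))))
    intro he
    have hx' : j ≠ l := hx
    exact hx' (Sum.inr_injective he)
  | c =>
    refine f_inf_right (f_inf_right (f_inf_right (f_inf_left (f_all (Sum.inl h)
      (f_all (Sum.inl h') (f_all (Sum.inr i) (f_all (Sum.inr j)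
      (f_imp (f_act h i j rfl rfl rfl ⟨(h, i, j, false), Or.inl rfl, rfl⟩)
      (f_imp (f_act h' i j rfl rfl rfl ⟨(h', i, j, false), Or.inr rfl, rfl⟩) (f_eq ?_))))))))))
    intro he
    have hx' : h ≠ h' := hx
    exact hx' (Sum.inl_injective he)
  | d =>
    exact f_inf_right (f_inf_right (f_inf_left (f_all (Sum.inl h) (f_all (Sum.inl h')
      (f_all (Sum.inl (G.mul h h')) (f_all (Sum.inr i) (f_all (Sum.inr j) (f_all (Sum.inr l)
      (f_imp (f_mul h h' (G.mul h h') rfl rfl rfl rfl)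
      (f_imp (f_act h' i j rfl rfl rfl ⟨(h', i, j, false), Or.inl rfl, rfl⟩)
      (f_imp (f_act h j l rfl rfl rfl ⟨(h, j, l, false), Or.inr (Or.inl rfl), rfl⟩)
      (f_act (G.mul h h') i l rfl rfl rfl
        ⟨(G.mul h h', i, l, true), Or.inr (Or.inr rfl), rfl⟩))))))))))))
  | e =>
    exact f_inf_right (f_inf_right (f_inf_right (f_inf_right (f_inf_left (f_all (Sum.inl G.one)
      (f_all (Sum.inr i) (f_imp (f_mul G.one G.one G.one rfl rfl rfl (one_one G))
      (f_imp (f_pt (Sum.inr i) rfl rfl)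
      (f_act G.one i i rfl rfl rfl ⟨(G.one, i, i, true), rfl, rfl⟩)))))))))

private theorem card_ix (s n : ℕ) : Nat.card (Ix s n) ≤ 5 * (s + n) ^ 5 := by
  have h1 : Nat.card (Ix s n) = Nat.card Kd * (s * (s * (n * (n * n)))) := by
    simp only [Nat.card_prod, Nat.card_fin]
  rw [h1]
  refine Nat.mul_le_mul card_kd ?_
  have hs : s ≤ s + n := Nat.le_add_right s n
  have hn : n ≤ s + n := Nat.le_add_left n s
  calc s * (s * (n * (n * n))) ≤
      (s + n) * ((s + n) * ((s + n) * ((s + n) * (s + n)))) :=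
        Nat.mul_le_mul hs (Nat.mul_le_mul hs (Nat.mul_le_mul hn (Nat.mul_le_mul hn hn)))
    _ = (s + n) ^ 5 := by ring

theorem basic_lines : ∃ c : ℕ, ∀ (s n q : ℕ) (G : Group (Fin s)) (H : Finset (Fin s)),
    ∃ Ls : Set (Set (Lit (Un s n q))), GoodC free (table G n) (uc s n q H) Ls ∧
      Basic G Ls ∧ Ls.ncard ≤ big s n q ^ c := by
  obtain ⟨K, hK⟩ := Finite.bddAbove_range (ar free)
  have hK' : ∀ t : Sh free, ar free t ≤ K := fun t => hK ⟨t, rfl⟩
  obtain ⟨A, hA⟩ : ∃ A, A = Nat.card (Sh free) := ⟨_, rfl⟩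
  refine ⟨41 * (A + 1) ^ 2 + (5 + 2 * K), fun s n q G H => ?_⟩
  have hs0 : 0 < s := Fin.pos G.one
  obtain ⟨Ls, hg, hm, hc⟩ := kle free (m := 0) (D := table G n) (bas_D G)
    (fun x : Ix s n => aS '' TT G x) VV (by
      rintro σ ⟨k, h, h', i, j, l⟩ hx
      refine ⟨(k, h, h', σ i, σ j, σ l), ?_, ?_⟩
      · cases k with
        | a => exact trivial
        | b =>
          have hx' : j ≠ l := hx
          change σ j ≠ σ l
          exact fun he => hx' (σ.injective he)
        | c => exact hx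
        | d => exact trivial
        | e => exact trivial
      · rw [← aS_image, ← TT_act G σ (k, h, h', i, j, l)]) (bas_forced G)
  have hm' : ∀ x ∈ (VV : Set (Ix s n)), (dS '' TT G x : Set (Lit (Un s n q))) ∈
      (fun Γ => mapL Un.base '' Γ) '' Ls := by
    intro x hx
    rw [← bas_line]
    exact ⟨_, hm x hx, rfl⟩
  refine ⟨(fun Γ => mapL Un.base '' Γ) '' Ls, ?_, ⟨?_, ?_, ?_, ?_, ?_⟩, ?_⟩
  · exact goodC_conv (C₀ := circ free 0 s n) (C := uc s n q H) Un.base
      (fun a b h => by injection h) (fun _ => rfl) (fun _ _ => rfl) hg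
  · intro h i
    have h1 := hm' (.a, h, h, i, i, i) trivial
    have h2 : (dS '' TT G (.a, h, h, i, i, i) : Set (Lit (Un s n q))) = LV h i := by
      change dS '' {t | ∃ j, t = (h, i, j, true)} = {x | ∃ j, x = Dn h i j}
      ext x
      constructor
      · rintro ⟨_, ⟨j, rfl⟩, rfl⟩
        exact ⟨j, rfl⟩
      · rintro ⟨j, rfl⟩
        exact ⟨_, ⟨j, rfl⟩, rfl⟩
    rwa [h2] at h1
  · intro h i j j' hj
    have h1 := hm' (.b, h, h, i, j, j') hj
    have h2 : (dS '' TT G (.b, h, h, i, j, j') : Set (Lit (Un s n q))) = LF h h i j j' := by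
      change dS '' {(h, i, j, false), (h, i, j', false)} = _
      rw [Set.image_pair]
      rfl
    rwa [h2] at h1
  · intro h h' i j hh
    have h1 := hm' (.c, h, h', i, j, j) hh
    have h2 : (dS '' TT G (.c, h, h', i, j, j) : Set (Lit (Un s n q))) = LF h h' i j j := by
      change dS '' {(h, i, j, false), (h', i, j, false)} = _
      rw [Set.image_pair]
      rfl
    rwa [h2] at h1
  · intro a b i j x
    have h1 := hm' (.d, a, b, i, j, x) trivial
    have h2 : (dS '' TT G (.d, a, b, i, j, x) : Set (Lit (Un s n q))) =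
        {(Dn b i j).neg, (Dn a j x).neg, Dn (G.mul a b) i x} := by
      change dS '' {(b, i, j, false), (a, j, x, false), (G.mul a b, i, x, true)} = _
      rw [Set.image_insert_eq, Set.image_pair]
      rfl
    rwa [h2] at h1
  · intro i
    have h1 := hm' (.e, G.one, G.one, i, i, i) trivial
    have h2 : (dS '' TT G (.e, G.one, G.one, i, i, i) : Set (Lit (Un s n q))) =
        {Dn G.one i i} := by
      change dS '' {(G.one, i, i, true)} = _
      rw [Set.image_singleton]
      rfl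
    rwa [h2] at h1
  · have hfin : Finite (Nd free s n) := inferInstance
    refine (Set.ncard_image_le (Set.toFinite _)).trans (hc.trans ?_)
    have h3 := Pool.H31.SY.card_nd hK' (show 0 < s + n by omega)
    obtain ⟨B, hB⟩ : ∃ B, B = big s n q := ⟨_, rfl⟩
    have hB4 : 4 ≤ B := by
      rw [hB]
      unfold big
      omega
    have hBs : s + n ≤ B := by
      rw [hB]
      unfold big
      omega
    rw [← hB]
    rw [← hA] at h3
    obtain ⟨N, hN⟩ : ∃ N, N = Nat.card (Nd free s n) := ⟨_, rfl⟩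
    rw [← hN] at h3 ⊢
    have h4 : Nat.card (Ix s n) ≤ 5 * B ^ 5 :=
      (card_ix s n).trans (Nat.mul_le_mul_left 5 (Nat.pow_le_pow_left hBs 5))
    have h5 : N ≤ A * B ^ K := h3.trans (Nat.mul_le_mul_left A (Nat.pow_le_pow_left hBs K))
    have h6 : 1 ≤ B ^ K := Nat.one_le_pow _ _ (by omega)
    have h7 : N + 1 ≤ (A + 1) * B ^ K := by nlinarith
    have h8 : 1 ≤ B ^ (5 + 2 * K) := Nat.one_le_pow _ _ (by omega)
    have h9 : 1 + 8 * Nat.card (Ix s n) * (N + 1) ^ 2 ≤
        1 + 8 * (5 * B ^ 5) * ((A + 1) * B ^ K) ^ 2 :=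
      Nat.add_le_add_left (Nat.mul_le_mul (Nat.mul_le_mul_left 8 h4)
        (Nat.pow_le_pow_left h7 2)) 1
    have h10 : 1 + 8 * (5 * B ^ 5) * ((A + 1) * B ^ K) ^ 2 =
        1 + 40 * (A + 1) ^ 2 * B ^ (5 + 2 * K) := by
      rw [pow_add, pow_mul']
      ring
    have h11 : 1 + 40 * (A + 1) ^ 2 * B ^ (5 + 2 * K) ≤ 41 * (A + 1) ^ 2 * B ^ (5 + 2 * K) := by
      have : 1 ≤ (A + 1) ^ 2 := Nat.one_le_pow _ _ (by omega)
      nlinarith
    have h12 : 41 * (A + 1) ^ 2 ≤ B ^ (41 * (A + 1) ^ 2) :=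
      (Nat.lt_pow_self (by omega)).le
    refine h9.trans ((h10.trans_le h11).trans ?_)
    rw [pow_add B (41 * (A + 1) ^ 2)]
    exact Nat.mul_le_mul_right _ h12

end Pool.H93.CG
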