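import Pool.Agent.H93.CG.UDef

/-!
# [H93 CG UR] Branching over the images of a point

`Γ y`, `y ∈ V`, is a family of lines, `pt y` a point. If the lines `NB hh (pt y) j q ∪ Γ y` are derived for all `j : Fin q → Fin n`
then the lines `Γ y` can be derived.

PROOF (complete). `w h i` is the node `and {x | ∃ j, x = (Dn h i j).neg}`.
(1) `{⟨w h i, false⟩} ∪ LV h i` (weakening of `LV h i ∈ Ls`), and `{⟨w h i, false⟩}` by `andE` (the negations of the members of
the set of `w h i` are the `Dn h i j`, `Lit.neg_neg`-like: `x.neg.neg = x` by cases on the sign).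
(2) The family `A(r, j, y) = NB hh (pt y) j r ∪ Γ y` (`r ≤ q`, `j : Fin q → Fin n`, `y ∈ V`) by downwards induction on `r`, as ONE
application of `goodC_family` with index type `Fin 4 × Fin (q + 1) × (Fin q → Fin n) × Fin n × Y` (rank: `4 * (q - r) + k`):
 `k = 0`, `r < q`: `C(r, j, x, y) = {(Dn (hh r) (pt y) x).neg, ⟨w (hh r) (pt y), true⟩} ∪ A(r, j, y)`, by `weak` from
   `A(r + 1, Function.update j r x, y)` (a member of the family of smaller rank, or of `Ls` for `r + 1 = q`; note that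
   `NB hh i (Function.update j r x) (r + 1) = insert (Dn (hh r) i x).neg (NB hh i j r)`);
 `k = 1`: `insert ⟨w (hh r) (pt y), true⟩ A(r, j, y)`, by `andI` from the `C(r, j, x, y)`, `x : Fin n`;
 `k = 2`: `insert ⟨w (hh r) (pt y), false⟩ A(r, j, y)`, by `weak` from (1);
 `k = 3`: `A(r, j, y)` by `cut` on `w (hh r) (pt y)`.
For `r = 0`: `NB hh i j 0 = ∅`, so `A(0, j, y) = Γ y` (choose any `j`; if `n = 0` and `q > 0` there is no `j`, but then there is no point
`pt y`, so `V` is empty or `Y` is empty: `pt y : Fin n` gives `0 < n`; take `j` constant). If `q = 0` the hypothesis is the claim.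
Closed under permutations: `σ • Dn h i j = Dn h (σ i) (σ j)` (`Dn_smul`), `j ↦ σ ∘ j`, `y ↦ τ σ y` with the maps of the hypothesis `hV`.
Size: two families for (1) (`2 s n` lines) and `4 * (q + 1) * n ^ q * n * Nat.card Y` lines: at most `Nat.card Y * big ^ 6` in total
(if `Y` is empty nothing is to be done: take `Ls' = Ls`).
-/

set_option autoImplicit false

namespace Pool.H93.CG

open FirstOrder FirstOrder.Language
open Pool.H93.SY (Lit Atom)
open Pool.H31.SY (Nd gateN rk dep subf Rels)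
open Pool.H31.PH (Sl mapL)
open scoped Pointwise

variable {s n q : ℕ}

private theorem neg_smul' (σ : Equiv.Perm (Fin n)) (h : Fin s) (i j : Fin n) :
    (Dn h (σ i) (σ j) : Lit (Un s n q)).neg = σ • (Dn h i j).neg := by
  rw [Dn_smul]
  rfl

private theorem w_smul' (σ : Equiv.Perm (Fin n)) (h : Fin s) (i : Fin n) (b : Bool) :
    (⟨.w h (σ i), b⟩ : Lit (Un s n q)) = σ • ⟨.w h i, b⟩ := rfl

private theorem lv_smul' (σ : Equiv.Perm (Fin n)) (h : Fin s) (i : Fin n) :
    Lit.neg '' {z : Lit (Un s n q) | ∃ j, z = (Dn h (σ i) j).neg} =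
      σ • (Lit.neg '' {z : Lit (Un s n q) | ∃ j, z = (Dn h i j).neg}) := by
  apply Pool.H31.PH.smul_set_of
  intro x
  constructor
  · rintro ⟨_, ⟨j, rfl⟩, rfl⟩
    refine ⟨_, ⟨σ j, rfl⟩, ?_⟩
    rw [neg_smul']
    rfl
  · rintro ⟨_, ⟨j, rfl⟩, h1⟩
    refine ⟨_, ⟨σ⁻¹ j, rfl⟩, ?_⟩
    apply MulAction.injective σ
    show σ • (Dn h i (σ⁻¹ j)).neg.neg = σ • x
    rw [← h1]
    have h2 : σ (σ⁻¹ j) = j := σ.apply_symm_apply j
    have h3 := neg_smul' (q := q) σ h i (σ⁻¹ j)
    rw [h2] at h3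
    rw [h3]
    rfl

private theorem nb_smul' (hh : Fin q → Fin s) (σ : Equiv.Perm (Fin n)) (i : Fin n)
    (j : Fin q → Fin n) (r : ℕ) :
    (NB hh (σ i) (fun a => σ (j a)) r : Set (Lit (Un s n q))) = σ • NB hh i j r := by
  apply Pool.H31.PH.smul_set_of
  intro x
  constructor
  · rintro ⟨a, ha, rfl⟩
    exact ⟨a, ha, (neg_smul' σ _ _ _).symm⟩
  · rintro ⟨a, ha, h1⟩
    refine ⟨a, ha, ?_⟩
    apply MulAction.injective σ
    show σ • x = σ • (Dn (hh a) i (j a)).neg
    rw [h1, neg_smul']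

/-- The lines `w h i` is false. -/
private theorem w_lines {G : Group (Fin s)} {H : Finset (Fin s)}
    {Ls : Set (Set (Lit (Un s n q)))} (hg : GoodC free (table G n) (uc s n q H) Ls)
    (hb : Basic G Ls) :
    ∃ Ls' : Set (Set (Lit (Un s n q))), GoodC free (table G n) (uc s n q H) Ls' ∧ Ls ⊆ Ls' ∧
      (∀ h i, {⟨.w h i, false⟩} ∈ Ls') ∧ Ls'.ncard ≤ Ls.ncard + 2 * (s * n) := by
  have h1 : GoodC free (table G n) (uc s n q H) (Ls ∪ (fun u : Fin s × Fin n =>
      ({⟨.w u.1 u.2, false⟩} ∪ Lit.neg '' {z | ∃ j, z = (Dn u.1 u.2 j).neg} :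
        Set (Lit (Un s n q)))) '' Set.univ) := by
    refine goodC_add (C := uc s n q H) _ _ hg ?_ ?_
    · rintro σ ⟨h, i⟩ -
      refine ⟨(h, σ i), Set.mem_univ _, ?_⟩
      show ({⟨.w h (σ i), false⟩} ∪ Lit.neg '' {z | ∃ j, z = (Dn h (σ i) j).neg} :
          Set (Lit (Un s n q))) =
        σ • ({⟨.w h i, false⟩} ∪ Lit.neg '' {z | ∃ j, z = (Dn h i j).neg})
      rw [Set.smul_set_union, Set.smul_set_singleton, lv_smul', w_smul']
    · rintro ⟨h, i⟩ -
      refine .weak (Δ := LV h i) (hb.tot h i) ?_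
      rintro z ⟨j, rfl⟩
      exact Or.inr ⟨(Dn h i j).neg, ⟨j, rfl⟩, rfl⟩
  have h2 : GoodC free (table G n) (uc s n q H) ((Ls ∪ (fun u : Fin s × Fin n =>
      ({⟨.w u.1 u.2, false⟩} ∪ Lit.neg '' {z | ∃ j, z = (Dn u.1 u.2 j).neg} :
        Set (Lit (Un s n q)))) '' Set.univ) ∪ (fun u : Fin s × Fin n =>
      ({⟨.w u.1 u.2, false⟩} : Set (Lit (Un s n q)))) '' Set.univ) := by
    refine goodC_add (C := uc s n q H) _ _ h1 ?_ ?_
    · rintro σ ⟨h, i⟩ -
      refine ⟨(h, σ i), Set.mem_univ _, ?_⟩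
      show ({⟨.w h (σ i), false⟩} : Set (Lit (Un s n q))) = σ • {⟨.w h i, false⟩}
      rw [Set.smul_set_singleton, w_smul']
    · rintro ⟨h, i⟩ -
      exact .andE (a := (.w h i : Un s n q)) (S := {z | ∃ j, z = (Dn h i j).neg}) rfl rfl
        (Or.inr ⟨(h, i), Set.mem_univ _, rfl⟩)
  refine ⟨_, h2, Set.subset_union_left.trans Set.subset_union_left, ?_, ?_⟩
  · intro h i
    exact Or.inr ⟨(h, i), Set.mem_univ _, rfl⟩
  · have c : Nat.card (Fin s × Fin n) = s * n := by
      rw [Nat.card_prod, Nat.card_fin, Nat.card_fin]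
    have c1 := ncard_family (C := uc s n q H) (fun u : Fin s × Fin n =>
      ({⟨.w u.1 u.2, false⟩} ∪ Lit.neg '' {z | ∃ j, z = (Dn u.1 u.2 j).neg} :
        Set (Lit (Un s n q)))) Set.univ
    have c2 := ncard_family (C := uc s n q H) (fun u : Fin s × Fin n =>
      ({⟨.w u.1 u.2, false⟩} : Set (Lit (Un s n q)))) Set.univ
    rw [c] at c1 c2
    refine (Set.ncard_union_le _ _).trans ?_
    refine (Nat.add_le_add_right (Set.ncard_union_le _ _) _).trans ?_
    refine (Nat.add_le_add (Nat.add_le_add_left c1 _) c2).trans ?_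
    omega

/-- The lines of the branching. -/
private def FB (hh : Fin q → Fin s) {Y : Type} (pt : Y → Fin n)
    (Γ : Y → Set (Lit (Un s n q))) :
    Fin 4 × Fin q × (Fin q → Fin n) × Fin n × Y → Set (Lit (Un s n q))
  | (0, r, j, x, y) => insert (Dn (hh r) (pt y) x).neg
      (insert ⟨.w (hh r) (pt y), true⟩ (NB hh (pt y) j r ∪ Γ y))
  | (1, r, j, _, y) => insert ⟨.w (hh r) (pt y), true⟩ (NB hh (pt y) j r ∪ Γ y)
  | (2, r, j, _, y) => insert ⟨.w (hh r) (pt y), false⟩ (NB hh (pt y) j r ∪ Γ y)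
  | (3, r, j, _, y) => NB hh (pt y) j r ∪ Γ y

private theorem fb_smul (hh : Fin q → Fin s) {Y : Type} (pt : Y → Fin n)
    (Γ : Y → Set (Lit (Un s n q))) (σ : Equiv.Perm (Fin n)) (k : Fin 4) (r : Fin q)
    (j : Fin q → Fin n) (x : Fin n) {y y' : Y} (hp : pt y' = σ (pt y)) (hΓ : Γ y' = σ • Γ y) :
    FB hh pt Γ (k, r, (fun a => σ (j a)), σ x, y') = σ • FB hh pt Γ (k, r, j, x, y) := by
  have h1 : NB hh (pt y') (fun a => σ (j a)) r ∪ Γ y' = σ • (NB hh (pt y) j r ∪ Γ y) := by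
    rw [hp, hΓ, nb_smul', Set.smul_set_union]
  match k with
  | 0 =>
    show insert (Dn (hh r) (pt y') (σ x)).neg (insert (⟨.w (hh r) (pt y'), true⟩ : Lit (Un s n q))
        (NB hh (pt y') (fun a => σ (j a)) r ∪ Γ y')) =
      σ • insert (Dn (hh r) (pt y) x).neg (insert (⟨.w (hh r) (pt y), true⟩ : Lit (Un s n q))
        (NB hh (pt y) j r ∪ Γ y))
    rw [h1, Set.smul_set_insert, Set.smul_set_insert, hp, neg_smul', w_smul']
  | 1 =>
    show insert (⟨.w (hh r) (pt y'), true⟩ : Lit (Un s n q))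
        (NB hh (pt y') (fun a => σ (j a)) r ∪ Γ y') =
      σ • insert (⟨.w (hh r) (pt y), true⟩ : Lit (Un s n q)) (NB hh (pt y) j r ∪ Γ y)
    rw [h1, Set.smul_set_insert, hp, w_smul']
  | 2 =>
    show insert (⟨.w (hh r) (pt y'), false⟩ : Lit (Un s n q))
        (NB hh (pt y') (fun a => σ (j a)) r ∪ Γ y') =
      σ • insert (⟨.w (hh r) (pt y), false⟩ : Lit (Un s n q)) (NB hh (pt y) j r ∪ Γ y)
    rw [h1, Set.smul_set_insert, hp, w_smul']
  | 3 => exact h1

private theorem nb_zero (hh : Fin q → Fin s) (i : Fin n) (j : Fin q → Fin n)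
    (Γ : Set (Lit (Un s n q))) : NB hh i j 0 ∪ Γ = Γ := by
  ext x
  constructor
  · rintro (⟨a, ha, -⟩ | h)
    · exact absurd ha (Nat.not_lt_zero _)
    · exact h
  · exact Or.inr

private theorem big_four (s n q : ℕ) : 4 ≤ big s n q ∧ n ≤ big s n q ∧ q ≤ big s n q ∧
    s ≤ big s n q ∧ n ^ q ≤ big s n q := by
  unfold big
  omega

theorem branch {G : Group (Fin s)} {H : Finset (Fin s)} (hh : Fin q → Fin s)
    {Ls : Set (Set (Lit (Un s n q)))} (hg : GoodC free (table G n) (uc s n q H) Ls)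
    (hb : Basic G Ls) {Y : Type} [Finite Y] (V : Set Y) (pt : Y → Fin n)
    (Γ : Y → Set (Lit (Un s n q)))
    (hV : ∀ σ : Equiv.Perm (Fin n), ∀ y ∈ V, ∃ y' ∈ V, pt y' = σ (pt y) ∧ Γ y' = σ • Γ y)
    (hs : ∀ y ∈ V, ∀ j : Fin q → Fin n, NB hh (pt y) j q ∪ Γ y ∈ Ls) :
    ∃ Ls' : Set (Set (Lit (Un s n q))), GoodC free (table G n) (uc s n q H) Ls' ∧ Ls ⊆ Ls' ∧
      (∀ y ∈ V, Γ y ∈ Ls') ∧ Ls'.ncard ≤ Ls.ncard + (Nat.card Y + 1) * big s n q ^ 7 := by
  classical
  obtain ⟨hb4, hbn, hbq, hbs, hbnq⟩ := big_four s n q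
  by_cases hq : q = 0
  · subst hq
    refine ⟨Ls, hg, subset_rfl, ?_, Nat.le_add_right _ _⟩
    intro y hy
    have h1 := hs y hy (fun a => a.elim0)
    rwa [nb_zero] at h1
  obtain ⟨Ls₁, hg₁, hsub₁, hw₁, hc₁⟩ := w_lines hg hb
  have hgood : GoodC free (table G n) (uc s n q H) (Ls₁ ∪ FB hh pt Γ '' {u | u.2.2.2.2 ∈ V}) := by
    refine goodC_family (C := uc s n q H) (FB hh pt Γ) {u | u.2.2.2.2 ∈ V}
      (fun u => 4 * (q - u.2.1.val) + u.1.val) hg₁ ?_ ?_
    · rintro σ ⟨k, r, j, x, y⟩ hy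
      obtain ⟨y', hy', hp, hΓ⟩ := hV σ y hy
      exact ⟨(k, r, (fun a => σ (j a)), σ x, y'), hy', fb_smul hh pt Γ σ k r j x hp hΓ⟩
    · rintro ⟨k, r, j, x, y⟩ hy
      have hy' : y ∈ V := hy
      have hin : ∀ (k' : Fin 4) (x' : Fin n), k'.val < k.val →
          FB hh pt Γ (k', r, j, x', y) ∈ Ls₁ ∪ {Λ | ∃ u ∈ {u : Fin 4 × Fin q × (Fin q → Fin n) ×
            Fin n × Y | u.2.2.2.2 ∈ V}, 4 * (q - u.2.1.val) + u.1.val < 4 * (q - r.val) + k.val ∧
            Λ = FB hh pt Γ u} := by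
        intro k' x' h2
        exact Or.inr ⟨(k', r, j, x', y), hy', Nat.add_lt_add_left h2 _, rfl⟩
      match k, hin with
      | 0, hin =>
        have hnb : NB hh (pt y) (Function.update j r x) (r.val + 1) ∪ Γ y ⊆
            insert (Dn (hh r) (pt y) x).neg
              (insert ⟨.w (hh r) (pt y), true⟩ (NB hh (pt y) j r ∪ Γ y)) := by
          rintro z (⟨a, ha, rfl⟩ | hz)
          · by_cases har : a = r
            · subst har
              rw [Function.update_self]
              exact Or.inl rfl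
            · rw [Function.update_of_ne har]
              refine Or.inr (Or.inr (Or.inl ⟨a, ?_, rfl⟩))
              have h3 : a.val ≠ r.val := fun h => har (Fin.ext h)
              omega
          · exact Or.inr (Or.inr (Or.inr hz))
        refine .weak (Δ := NB hh (pt y) (Function.update j r x) (r.val + 1) ∪ Γ y) ?_ hnb
        by_cases hr : r.val + 1 = q
        · rw [hr]
          exact Or.inl (hsub₁ (hs y hy' _))
        · have hr' : r.val + 1 < q := by
            have := r.isLt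
            omega
          refine Or.inr ⟨(3, ⟨r.val + 1, hr'⟩, Function.update j r x, x, y), hy', ?_, rfl⟩
          show 4 * (q - (r.val + 1)) + 3 < 4 * (q - r.val) + 0
          omega
      | 1, hin =>
        refine .andI (a := (.w (hh r) (pt y) : Un s n q))
          (S := {z | ∃ j, z = (Dn (hh r) (pt y) j).neg}) rfl (Or.inl rfl) ?_
        rintro z ⟨x', rfl⟩
        exact hin 0 x' (by decide)
      | 2, hin =>
        refine .weak (Δ := {⟨.w (hh r) (pt y), false⟩}) (Or.inl (hw₁ _ _)) ?_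
        rintro z rfl
        exact Or.inl rfl
      | 3, hin =>
        exact .cut (a := (.w (hh r) (pt y) : Un s n q)) (hin 1 x (by decide))
          (hin 2 x (by decide))
  refine ⟨_, hgood, hsub₁.trans Set.subset_union_left, ?_, ?_⟩
  · intro y hy
    have hq' : 0 < q := Nat.pos_of_ne_zero hq
    have h1 : FB hh pt Γ (3, ⟨0, hq'⟩, (fun _ => pt y), pt y, y) ∈
        Ls₁ ∪ FB hh pt Γ '' {u | u.2.2.2.2 ∈ V} := Or.inr ⟨_, hy, rfl⟩
    have h2 : FB hh pt Γ (3, ⟨0, hq'⟩, (fun _ => pt y), pt y, y) = Γ y :=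
      nb_zero hh (pt y) (fun _ => pt y) (Γ y)
    rwa [h2] at h1
  · have c := ncard_family (C := uc s n q H) (FB hh pt Γ) {u | u.2.2.2.2 ∈ V}
    have c2 : Nat.card (Fin 4 × Fin q × (Fin q → Fin n) × Fin n × Y) =
        4 * (q * (n ^ q * (n * Nat.card Y))) := by
      rw [Nat.card_prod, Nat.card_prod, Nat.card_prod, Nat.card_prod, Nat.card_fin, Nat.card_fin,
        Nat.card_fin, Nat.card_fun, Nat.card_fin, Nat.card_fin]
    rw [c2] at c
    have e1 : 4 * (q * (n ^ q * (n * Nat.card Y))) ≤ Nat.card Y * big s n q ^ 7 := by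
      have e2 : 4 * (q * (n ^ q * n)) ≤ big s n q * (big s n q * (big s n q * big s n q)) := by
        gcongr
      have e3 : big s n q * (big s n q * (big s n q * big s n q)) ≤ big s n q ^ 7 := by
        have e4 : big s n q * (big s n q * (big s n q * big s n q)) = big s n q ^ 4 := by ring
        rw [e4]
        exact Nat.pow_le_pow_right (by omega) (by omega)
      calc 4 * (q * (n ^ q * (n * Nat.card Y))) = Nat.card Y * (4 * (q * (n ^ q * n))) := by ring
        _ ≤ Nat.card Y * big s n q ^ 7 := Nat.mul_le_mul_left _ (e2.trans e3)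
    have e5 : 2 * (s * n) ≤ big s n q ^ 7 := by
      have e6 : 2 * (s * n) ≤ big s n q * (big s n q * big s n q) := by
        have : 2 ≤ big s n q := by omega
        gcongr
      have e7 : big s n q * (big s n q * big s n q) = big s n q ^ 3 := by ring
      rw [e7] at e6
      exact e6.trans (Nat.pow_le_pow_right (by omega) (by omega))
    refine (Set.ncard_union_le _ _).trans ?_
    have e8 : (Nat.card Y + 1) * big s n q ^ 7 = Nat.card Y * big s n q ^ 7 + big s n q ^ 7 := by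
      ring
    rw [e8]
    refine (Nat.add_le_add hc₁ (c.trans e1)).trans ?_
    omega

end Pool.H93.CG
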