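import Pool.Agent.H93.CG.UDef

/-!
# [H93 CG UA] Exactly one of the sets containing a point is closed

PROOF (complete). Every family is added by `goodC_add` (all indices `(i, B)` with `Ok i B`, or `(i, B, B')`).
(1) `{⟨O i B, false⟩, ⟨z true i B, true⟩}` and `{⟨O i B, true⟩, ⟨z false i B, true⟩}` by `unit` (`z b i B` is
`sym {if b then 1 else 0} {⟨O i B, true⟩}`).
(2) For `B' ≠ B`, `Ok i B'`: `{⟨O i B, false⟩, ⟨z false i B', true⟩}` by `cut` on `O i B'` from weakenings of (1) for `B'` and of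
`Uq i B B'`.
(3) `{⟨O i B, false⟩, ⟨p i B, true⟩}` by `andI` (members of the set of `p i B`: `⟨z true i B, true⟩`, `⟨z false i B', true⟩`) from
weakenings of (1), (2).
(4) `{⟨p i B, false⟩, ⟨e i, true⟩}` by `sum`: `T = {x | x = z true i B ∨ ∃ B', Ok i B' ∧ B' ≠ B ∧ x = z false i B'}`,
`A (z b i B') = {if b then 1 else 0}`, `S (z b i B') = {⟨O i B', true⟩}` (the label of the node; use
`A x = {c | ∃ b i B, x = z b i B ∧ c = if b then 1 else 0}`, `S x = (gu H x).children`), the sets are disjoint, their union over `T` is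
`{⟨O i B', true⟩ | Ok i B'}` (as `Ok i B`), and if `c x ∈ A x` on `T` then `∑ᶠ x ∈ T, c x = 1` (`c (z true i B) = 1`, the others `0`).
(5) `{⟨O i B, false⟩, ⟨e i, true⟩}` by `cut` on `p i B`.
(6) `{⟨g i, true⟩, ⟨e i, true⟩}` by `andI` (members of the set of `g i`: `⟨O i B, false⟩`, `Ok i B`) from weakenings of (5).
(7) `{⟨g i, false⟩, ⟨e i, true⟩}`: `{⟨g i, false⟩, ⟨e i, true⟩} ∪ {⟨O i B, true⟩ | Ok i B}` by `weak` from `Ex i`, then `andE`.
(8) `{⟨e i, true⟩}` by `cut` on `g i`.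
Sizes: about 14 families with at most `n * Nat.card (Sl (Fin n) q) ^ 2` lines.
-/

set_option autoImplicit false

namespace Pool.H93.CG

open FirstOrder FirstOrder.Language
open Pool.H93.SY (Lit Atom)
open Pool.H31.SY (Nd gateN rk dep subf Rels)
open Pool.H31.PH (Sl mapL)
open scoped Pointwise

variable {s n q : ℕ}

section general

variable {L : FirstOrder.Language.{0, 0}} [L.IsRelational] {ψ : L.Sentence}
  {D : Set (Atom L (Fin s ⊕ Fin n) × Bool)} {C : Circuit L s n} {Ls : Set (Set (Lit C.N))}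

private theorem add_one {I : Type} [Finite I] (act : Equiv.Perm (Fin n) → I → I)
    (F : I → Set (Lit C.N)) (J : Set I) (hg : GoodC ψ D C Ls)
    (hJ : ∀ σ, ∀ i ∈ J, act σ i ∈ J) (hF : ∀ σ i, F (act σ i) = σ • F i)
    (hs : ∀ i ∈ J, Step ψ D C Ls (F i)) :
    ∃ Ls' : Set (Set (Lit C.N)), GoodC ψ D C Ls' ∧ Ls ⊆ Ls' ∧ (∀ i ∈ J, F i ∈ Ls') ∧
      Ls'.ncard ≤ Ls.ncard + Nat.card I :=
  ⟨Ls ∪ F '' J, goodC_add F J hg (fun σ i hi => ⟨act σ i, hJ σ i hi, hF σ i⟩) hs,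
    Set.subset_union_left, fun i hi => Or.inr ⟨i, hi, rfl⟩,
    (Set.ncard_union_le _ _).trans (Nat.add_le_add_left (ncard_family F J) _)⟩

private theorem add_cut {I : Type} [Finite I] (act : Equiv.Perm (Fin n) → I → I)
    (F : I → Set (Lit C.N)) (a : I → C.N) (J : Set I) (hg : GoodC ψ D C Ls)
    (hJ : ∀ σ, ∀ i ∈ J, act σ i ∈ J) (hF : ∀ σ i, F (act σ i) = σ • F i)
    (ha : ∀ σ i, a (act σ i) = σ • a i)
    (h1 : ∀ i ∈ J, ∃ Δ ∈ Ls, Δ ⊆ insert ⟨a i, true⟩ (F i))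
    (h2 : ∀ i ∈ J, ∃ Δ ∈ Ls, Δ ⊆ insert ⟨a i, false⟩ (F i)) :
    ∃ Ls' : Set (Set (Lit C.N)), GoodC ψ D C Ls' ∧ Ls ⊆ Ls' ∧ (∀ i ∈ J, F i ∈ Ls') ∧
      Ls'.ncard ≤ Ls.ncard + 3 * Nat.card I := by
  have hb : ∀ (b : Bool) σ i, (insert ⟨a (act σ i), b⟩ (F (act σ i)) : Set (Lit C.N)) =
      σ • (insert ⟨a i, b⟩ (F i)) := by
    intro b σ i
    rw [Set.smul_set_insert, hF, ha]
    rfl
  obtain ⟨L1, g1, s1, m1, c1⟩ := add_one act (fun i => insert ⟨a i, true⟩ (F i)) J hg hJ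
    (hb true) (fun i hi => by
      obtain ⟨Δ, hΔ, hs⟩ := h1 i hi
      exact .weak hΔ hs)
  obtain ⟨L2, g2, s2, m2, c2⟩ := add_one act (fun i => insert ⟨a i, false⟩ (F i)) J g1 hJ
    (hb false) (fun i hi => by
      obtain ⟨Δ, hΔ, hs⟩ := h2 i hi
      exact .weak (s1 hΔ) hs)
  obtain ⟨L3, g3, s3, m3, c3⟩ := add_one act F J g2 hJ hF
    (fun i hi => .cut (s2 (m1 i hi)) (m2 i hi))
  exact ⟨L3, g3, (s1.trans s2).trans s3, m3, by omega⟩

omit [L.IsRelational] in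
private theorem sm_pair (C : Circuit L s n) (σ : Equiv.Perm (Fin n)) (x y x' y' : Lit C.N)
    (hx : x' = σ • x) (hy : y' = σ • y) : ({x', y'} : Set (Lit C.N)) = σ • {x, y} := by
  rw [Set.smul_set_insert, Set.smul_set_singleton, hx, hy]

omit [L.IsRelational] in
private theorem sm_single (C : Circuit L s n) (σ : Equiv.Perm (Fin n)) (x x' : Lit C.N)
    (hx : x' = σ • x) : ({x'} : Set (Lit C.N)) = σ • {x} := by
  rw [Set.smul_set_singleton, hx]

omit [L.IsRelational] in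
private theorem gate_and_smul {a : C.N} {S S' : Set (Lit C.N)} {σ : Equiv.Perm (Fin n)}
    (h : C.gate a = .and S) (h' : C.gate (σ • a) = .and S') : S' = σ • S := by
  rw [C.gate_smul, h] at h'
  injection h' with h1
  exact h1.symm

private theorem add_andI {I X : Type} [Finite I] [Finite X] (act : Equiv.Perm (Fin n) → I → I)
    (F : I → Set (Lit C.N)) (a : I → C.N) (S : I → Set (Lit C.N)) (J : Set I)
    (ch : I → X → Lit C.N) (hg : GoodC ψ D C Ls)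
    (hJ : ∀ σ, ∀ i ∈ J, act σ i ∈ J) (hF : ∀ σ i, F (act σ i) = σ • F i)
    (ha : ∀ σ i, a (act σ i) = σ • a i) (hS : ∀ i, C.gate (a i) = .and (S i))
    (hm : ∀ i ∈ J, ⟨a i, true⟩ ∈ F i) (hch : ∀ i ∈ J, ∀ x ∈ S i, ∃ k, ch i k = x)
    (h1 : ∀ i ∈ J, ∀ x ∈ S i, ∃ Δ ∈ Ls, Δ ⊆ insert x (F i)) :
    ∃ Ls' : Set (Set (Lit C.N)), GoodC ψ D C Ls' ∧ Ls ⊆ Ls' ∧ (∀ i ∈ J, F i ∈ Ls') ∧
      Ls'.ncard ≤ Ls.ncard + (Nat.card I * Nat.card X + Nat.card I) := by
  have hSs : ∀ σ i, S (act σ i) = σ • S i := by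
    intro σ i
    refine gate_and_smul (hS i) ?_
    rw [← ha]
    exact hS _
  have g1 : GoodC ψ D C (Ls ∪ (fun k : I × X => insert (ch k.1 k.2) (F k.1)) ''
      {k | k.1 ∈ J ∧ ch k.1 k.2 ∈ S k.1}) := by
    refine goodC_add _ _ hg ?_ ?_
    · rintro σ ⟨i, k⟩ ⟨hi, hk⟩
      have h2 : σ • ch i k ∈ S (act σ i) := by
        rw [hSs]
        exact Set.smul_mem_smul_set hk
      obtain ⟨k', hk'⟩ := hch _ (hJ σ i hi) _ h2
      refine ⟨(act σ i, k'), ⟨hJ σ i hi, ?_⟩, ?_⟩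
      · show ch (act σ i) k' ∈ S (act σ i)
        rw [hk']
        exact h2
      · show insert (ch (act σ i) k') (F (act σ i)) = σ • insert (ch i k) (F i)
        rw [hk', hF, Set.smul_set_insert]
    · rintro ⟨i, k⟩ ⟨hi, hk⟩
      obtain ⟨Δ, hΔ, hs⟩ := h1 i hi _ hk
      exact .weak hΔ hs
  obtain ⟨L3, g3, s3, m3, c3⟩ := add_one act F J g1 hJ hF
    (fun i hi => .andI (hS i) (hm i hi) (fun x hx => by
      obtain ⟨k, hk⟩ := hch i hi x hx
      refine Or.inr ⟨(i, k), ⟨hi, ?_⟩, ?_⟩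
      · show ch i k ∈ S i
        rw [hk]
        exact hx
      · show insert (ch i k) (F i) = insert x (F i)
        rw [hk]))
  refine ⟨L3, g3, Set.subset_union_left.trans s3, m3, c3.trans ?_⟩
  have c1 := Set.ncard_union_le Ls ((fun k : I × X => insert (ch k.1 k.2) (F k.1)) ''
      {k | k.1 ∈ J ∧ ch k.1 k.2 ∈ S k.1})
  have c2 := ncard_family (C := C) (fun k : I × X => insert (ch k.1 k.2) (F k.1))
      {k | k.1 ∈ J ∧ ch k.1 k.2 ∈ S k.1}
  rw [Nat.card_prod] at c2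
  omega

private theorem add_andE {I : Type} [Finite I] (act : Equiv.Perm (Fin n) → I → I)
    (F : I → Set (Lit C.N)) (a : I → C.N) (S : I → Set (Lit C.N)) (J : Set I)
    (hg : GoodC ψ D C Ls)
    (hJ : ∀ σ, ∀ i ∈ J, act σ i ∈ J) (hF : ∀ σ i, F (act σ i) = σ • F i)
    (ha : ∀ σ i, a (act σ i) = σ • a i) (hS : ∀ i, C.gate (a i) = .and (S i))
    (hm : ∀ i ∈ J, ⟨a i, false⟩ ∈ F i)
    (h1 : ∀ i ∈ J, ∃ Δ ∈ Ls, Δ ⊆ F i ∪ Lit.neg '' S i) :
    ∃ Ls' : Set (Set (Lit C.N)), GoodC ψ D C Ls' ∧ Ls ⊆ Ls' ∧ (∀ i ∈ J, F i ∈ Ls') ∧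
      Ls'.ncard ≤ Ls.ncard + 2 * Nat.card I := by
  have hSs : ∀ σ i, S (act σ i) = σ • S i := by
    intro σ i
    refine gate_and_smul (hS i) ?_
    rw [← ha]
    exact hS _
  obtain ⟨L1, g1, s1, m1, c1⟩ := add_one act (fun i => F i ∪ Lit.neg '' S i) J hg hJ
    (fun σ i => by
      rw [Set.smul_set_union, hF, hSs]
      congr 1
      ext x
      simp only [Set.mem_image, Set.mem_smul_set]
      constructor
      · rintro ⟨_, ⟨y, hy, rfl⟩, rfl⟩
        exact ⟨_, ⟨y, hy, rfl⟩, rfl⟩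
      · rintro ⟨_, ⟨y, hy, rfl⟩, rfl⟩
        exact ⟨_, ⟨y, hy, rfl⟩, rfl⟩) (fun i hi => by
      obtain ⟨Δ, hΔ, hs⟩ := h1 i hi
      exact .weak hΔ hs)
  obtain ⟨L3, g3, s3, m3, c3⟩ := add_one act F J g1 hJ hF
    (fun i hi => .andE (hS i) (hm i hi) (m1 i hi))
  exact ⟨L3, g3, s1.trans s3, m3, by omega⟩

end general

private theorem bound_aux (n S b : ℕ) (h1 : n ≤ b) (h2 : S ≤ b) (h3 : 4 ≤ b) :
    8 * (n * S) + 5 * (n * (S * S)) + 6 * n ≤ b ^ 6 := by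
  have e1 : n * S ≤ b ^ 3 := by
    calc n * S ≤ b * b := Nat.mul_le_mul h1 h2
      _ ≤ b * b * b := Nat.le_mul_of_pos_right _ (by omega)
      _ = b ^ 3 := by ring
  have e2 : n * (S * S) ≤ b ^ 3 := by
    calc n * (S * S) ≤ b * (b * b) := Nat.mul_le_mul h1 (Nat.mul_le_mul h2 h2)
      _ = b ^ 3 := by ring
  have e3 : n ≤ b ^ 3 := h1.trans (Nat.le_self_pow (by norm_num) b)
  have e4 : 64 ≤ b ^ 3 := by
    calc 64 = 4 ^ 3 := by norm_num
      _ ≤ b ^ 3 := Nat.pow_le_pow_left h3 3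
  have e5 : 64 * b ^ 3 ≤ b ^ 6 := by
    calc 64 * b ^ 3 ≤ b ^ 3 * b ^ 3 := Nat.mul_le_mul_right _ e4
      _ = b ^ 6 := by ring
  omega

private theorem union_aux (H : Finset (Fin s)) {i : Fin n} {B : Sl (Fin n) q} (hk : Ok i B) :
    ({x | ∃ B', Ok i B' ∧ x = ⟨Un.O i B', true⟩} : Set (Lit (Un s n q))) =
      ⋃ b ∈ ({x | x = Un.z true i B ∨ ∃ B', Ok i B' ∧ B' ≠ B ∧ x = Un.z false i B'} :
        Set (Un s n q)), (gu H b).children := by
  ext x
  rw [Set.mem_iUnion₂]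
  constructor
  · rintro ⟨B', hB', rfl⟩
    by_cases h : B' = B
    · exact ⟨.z true i B, Or.inl rfl, by rw [h]; rfl⟩
    · exact ⟨.z false i B', Or.inr ⟨B', hB', h, rfl⟩, rfl⟩
  · rintro ⟨y, rfl | ⟨B', hB', hne, rfl⟩, hy⟩
    · exact ⟨B, hk, hy⟩
    · exact ⟨B', hB', hy⟩

private theorem sum_aux (i : Fin n) (B : Sl (Fin n) q) (c : Un s n q → ℕ)
    (hc : ∀ b ∈ ({x | x = Un.z true i B ∨ ∃ B', Ok i B' ∧ B' ≠ B ∧ x = Un.z false i B'} :
        Set (Un s n q)), c b ∈ ({c | ∃ b' i' B', b = Un.z b' i' B' ∧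
          c = if b' = true then 1 else 0} : Set ℕ)) :
    ∑ᶠ b ∈ ({x | x = Un.z true i B ∨ ∃ B', Ok i B' ∧ B' ≠ B ∧ x = Un.z false i B'} :
        Set (Un s n q)), c b = 1 := by
  classical
  have h0 : ∀ x, x ≠ Un.z true i B → (∑ᶠ (_ : x ∈ ({x | x = Un.z true i B ∨
      ∃ B', Ok i B' ∧ B' ≠ B ∧ x = Un.z false i B'} : Set (Un s n q))), c x) = 0 := by
    intro x hne
    by_cases hxT : x ∈ ({x | x = Un.z true i B ∨
      ∃ B', Ok i B' ∧ B' ≠ B ∧ x = Un.z false i B'} : Set (Un s n q))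
    · rw [finsum_eq_if, if_pos hxT]
      obtain ⟨b, i', B', he, hcx⟩ := hc x hxT
      rcases hxT with h | ⟨B', hB', hne', h⟩
      · exact absurd h hne
      · rw [h] at he
        injection he with e1 e2 e3
        rw [hcx, ← e1]
        rfl
    · rw [finsum_eq_if, if_neg hxT]
  have hm : Un.z true i B ∈ ({x | x = Un.z true i B ∨
      ∃ B', Ok i B' ∧ B' ≠ B ∧ x = Un.z false i B'} : Set (Un s n q)) := Or.inl rfl
  rw [finsum_eq_single _ (Un.z true i B) h0, finsum_eq_if, if_pos hm]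
  obtain ⟨b, i', B', he, hcx⟩ := hc (Un.z true i B) (Or.inl rfl)
  injection he with e1 e2 e3
  rw [hcx, ← e1]
  rfl

theorem one_lines {G : Group (Fin s)} {H : Finset (Fin s)}
    {Ls : Set (Set (Lit (Un s n q)))} (hg : GoodC free (table G n) (uc s n q H) Ls)
    (hx : ∀ i, Ex i ∈ Ls) (hu : ∀ i B B', Ok i B → Ok i B' → B ≠ B' → Uq i B B' ∈ Ls) :
    ∃ Ls' : Set (Set (Lit (Un s n q))), GoodC free (table G n) (uc s n q H) Ls' ∧ Ls ⊆ Ls' ∧
      (∀ i, {⟨.e i, true⟩} ∈ Ls') ∧ Ls'.ncard ≤ Ls.ncard + big s n q ^ 6 := by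
  -- (1)
  obtain ⟨L1, g1, s1, m1, c1⟩ := add_one (C := uc s n q H) (I := Fin n × Sl (Fin n) q)
    (fun σ k => (σ k.1, σ • k.2))
    (fun k => {⟨Un.O k.1 k.2, false⟩, ⟨Un.z true k.1 k.2, true⟩}) Set.univ hg
    (fun _ _ _ => trivial) (fun σ k => sm_pair (uc s n q H) σ _ _ _ _ rfl rfl)
    (fun k _ => Step.unit (C := uc s n q H) (a := Un.z true k.1 k.2) (A := {1})
      (x := ⟨Un.O k.1 k.2, true⟩) rfl (by simp) (Or.inl ⟨rfl, by simp [Lit.neg]⟩))
  obtain ⟨L2, g2, s2, m2, c2⟩ := add_one (C := uc s n q H) (I := Fin n × Sl (Fin n) q)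
    (fun σ k => (σ k.1, σ • k.2))
    (fun k => {⟨Un.O k.1 k.2, true⟩, ⟨Un.z false k.1 k.2, true⟩}) Set.univ g1
    (fun _ _ _ => trivial) (fun σ k => sm_pair (uc s n q H) σ _ _ _ _ rfl rfl)
    (fun k _ => Step.unit (C := uc s n q H) (a := Un.z false k.1 k.2) (A := {0})
      (x := ⟨Un.O k.1 k.2, true⟩) rfl (by simp) (Or.inr ⟨rfl, by simp⟩))
  -- (2)
  obtain ⟨L3, g3, s3, m3, c3⟩ := add_cut (C := uc s n q H)
    (I := Fin n × Sl (Fin n) q × Sl (Fin n) q)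
    (fun σ k => (σ k.1, σ • k.2.1, σ • k.2.2))
    (fun k => {⟨Un.O k.1 k.2.1, false⟩, ⟨Un.z false k.1 k.2.2, true⟩})
    (fun k => Un.O k.1 k.2.2) {k | Ok k.1 k.2.1 ∧ Ok k.1 k.2.2 ∧ k.2.1 ≠ k.2.2} g2
    (fun σ k hk => ⟨(ok_smul σ).2 hk.1, (ok_smul σ).2 hk.2.1,
      fun h => hk.2.2 (MulAction.injective σ h)⟩) (fun σ k => sm_pair (uc s n q H) σ _ _ _ _ rfl rfl)
    (fun σ k => rfl)
    (fun k hk => ⟨_, m2 (k.1, k.2.2) trivial, by
      rintro x (rfl | rfl)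
      · exact Or.inl rfl
      · exact Or.inr (Or.inr rfl)⟩)
    (fun k hk => ⟨_, s2 (s1 (hu k.1 k.2.1 k.2.2 hk.1 hk.2.1 hk.2.2)), by
      rintro x (rfl | rfl)
      · exact Or.inr (Or.inl rfl)
      · exact Or.inl rfl⟩)
  -- (3)
  obtain ⟨L4, g4, s4, m4, c4⟩ := add_andI (C := uc s n q H) (I := Fin n × Sl (Fin n) q)
    (X := Bool × Sl (Fin n) q) (fun σ k => (σ k.1, σ • k.2))
    (fun k => {⟨Un.O k.1 k.2, false⟩, ⟨Un.p k.1 k.2, true⟩})
    (fun k => Un.p k.1 k.2)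
    (fun k => ps {x | x = .z true k.1 k.2 ∨ ∃ B', Ok k.1 B' ∧ B' ≠ k.2 ∧ x = .z false k.1 B'})
    {k | Ok k.1 k.2} (fun k y => ⟨Un.z y.1 k.1 y.2, true⟩) g3
    (fun σ k hk => (ok_smul σ).2 hk) (fun σ k => sm_pair (uc s n q H) σ _ _ _ _ rfl rfl)
    (fun σ k => rfl) (fun k => rfl) (fun k _ => Or.inr rfl)
    (by
      rintro k hk _ ⟨x, rfl | ⟨B', hB', hne, rfl⟩, rfl⟩
      · exact ⟨(true, k.2), rfl⟩
      · exact ⟨(false, B'), rfl⟩)
    (by
      rintro k hk _ ⟨x, rfl | ⟨B', hB', hne, rfl⟩, rfl⟩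
      · refine ⟨_, s3 (s2 (m1 (k.1, k.2) trivial)), ?_⟩
        rintro x (rfl | rfl)
        · exact Or.inr (Or.inl rfl)
        · exact Or.inl rfl
      · refine ⟨_, m3 (k.1, k.2, B') ⟨hk, hB', Ne.symm hne⟩, ?_⟩
        rintro x (rfl | rfl)
        · exact Or.inr (Or.inl rfl)
        · exact Or.inl rfl)
  -- (4)
  obtain ⟨L5, g5, s5, m5, c5⟩ := add_one (C := uc s n q H) (I := Fin n × Sl (Fin n) q)
    (fun σ k => (σ k.1, σ • k.2))
    (fun k => {⟨Un.p k.1 k.2, false⟩, ⟨Un.e k.1, true⟩}) {k | Ok k.1 k.2} g4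
    (fun σ k hk => (ok_smul σ).2 hk) (fun σ k => sm_pair (uc s n q H) σ _ _ _ _ rfl rfl)
    (by
      intro k hk
      have hk' : Ok k.1 k.2 := hk
      refine Step.sum (C := uc s n q H) (a := Un.e k.1) (p := Un.p k.1 k.2)
        (T := {x | x = .z true k.1 k.2 ∨ ∃ B', Ok k.1 B' ∧ B' ≠ k.2 ∧ x = .z false k.1 B'})
        (A := fun x => {c | ∃ b i B, x = Un.z b i B ∧ c = if b then 1 else 0}) (A' := {1})
        (S := fun x => (gu H x).children) ?_ ?_ rfl ?_ ?_ (Or.inl rfl) (Or.inr rfl)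
      · rintro x (rfl | ⟨B', hB', hne, rfl⟩)
        · show Gate.sym _ _ = Gate.sym _ _
          congr 1
          ext c
          constructor
          · intro hc
            exact ⟨true, _, _, rfl, hc⟩
          · rintro ⟨b, i, B, he, hc⟩
            injection he with e1 e2 e3
            subst e1
            exact hc
        · show Gate.sym _ _ = Gate.sym _ _
          congr 1
          ext c
          constructor
          · intro hc
            exact ⟨false, _, _, rfl, hc⟩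
          · rintro ⟨b, i, B, he, hc⟩
            injection he with e1 e2 e3
            subst e1
            exact hc
      · have key : ∀ B B' : Sl (Fin n) q, B ≠ B' → ∀ b b' : Bool,
            Disjoint (gu H (Un.z b k.1 B)).children (gu H (Un.z b' k.1 B')).children := by
          intro B B' hne b b'
          show Disjoint ({⟨Un.O k.1 B, true⟩} : Set (Lit (Un s n q))) {⟨Un.O k.1 B', true⟩}
          rw [Set.disjoint_singleton]
          intro h
          injection h with h1 h2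
          injection h1 with h3 h4
          exact hne h4
        rintro x (rfl | ⟨B1, hB1, hne1, rfl⟩) y (rfl | ⟨B2, hB2, hne2, rfl⟩) hxy
        · exact absurd rfl hxy
        · exact key _ _ (Ne.symm hne2) _ _
        · exact key _ _ hne1 _ _
        · refine key _ _ (fun h => hxy ?_) _ _
          rw [h]
      · show Gate.sym _ _ = Gate.sym _ _
        exact congrArg (Gate.sym _) (union_aux H hk')
      · intro c hc
        exact sum_aux k.1 k.2 c hc)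
  -- (5)
  obtain ⟨L6, g6, s6, m6, c6⟩ := add_cut (C := uc s n q H) (I := Fin n × Sl (Fin n) q)
    (fun σ k => (σ k.1, σ • k.2))
    (fun k => {⟨Un.O k.1 k.2, false⟩, ⟨Un.e k.1, true⟩})
    (fun k => Un.p k.1 k.2) {k | Ok k.1 k.2} g5
    (fun σ k hk => (ok_smul σ).2 hk) (fun σ k => sm_pair (uc s n q H) σ _ _ _ _ rfl rfl)
    (fun σ k => rfl)
    (fun k hk => ⟨_, s5 (m4 k hk), by
      rintro x (rfl | rfl)
      · exact Or.inr (Or.inl rfl)
      · exact Or.inl rfl⟩)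
    (fun k hk => ⟨_, m5 k hk, by
      rintro x (rfl | rfl)
      · exact Or.inl rfl
      · exact Or.inr (Or.inr rfl)⟩)
  -- (6)
  obtain ⟨L7, g7, s7, m7, c7⟩ := add_andI (C := uc s n q H) (I := Fin n)
    (X := Sl (Fin n) q) (fun σ i => σ i)
    (fun i => {⟨Un.g i, true⟩, ⟨Un.e i, true⟩}) (fun i => Un.g i)
    (fun i => {x | ∃ B, Ok i B ∧ x = ⟨.O i B, false⟩})
    Set.univ (fun i B => ⟨Un.O i B, false⟩) g6
    (fun _ _ _ => trivial) (fun σ k => sm_pair (uc s n q H) σ _ _ _ _ rfl rfl)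
    (fun σ k => rfl) (fun k => rfl) (fun k _ => Or.inl rfl)
    (by
      rintro i _ _ ⟨B, hB, rfl⟩
      exact ⟨B, rfl⟩)
    (by
      rintro i _ _ ⟨B, hB, rfl⟩
      refine ⟨_, m6 (i, B) hB, ?_⟩
      rintro x (rfl | rfl)
      · exact Or.inl rfl
      · exact Or.inr (Or.inr rfl))
  -- (7)
  obtain ⟨L8, g8, s8, m8, c8⟩ := add_andE (C := uc s n q H) (I := Fin n) (fun σ i => σ i)
    (fun i => {⟨Un.g i, false⟩, ⟨Un.e i, true⟩}) (fun i => Un.g i)
    (fun i => {x | ∃ B, Ok i B ∧ x = ⟨.O i B, false⟩})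
    Set.univ g7 (fun _ _ _ => trivial) (fun σ k => sm_pair (uc s n q H) σ _ _ _ _ rfl rfl)
    (fun σ k => rfl) (fun k => rfl) (fun k _ => Or.inl rfl)
    (fun i _ => ⟨_, s7 (s6 (s5 (s4 (s3 (s2 (s1 (hx i))))))), by
      rintro x ⟨B, hB, rfl⟩
      exact Or.inr ⟨⟨Un.O i B, false⟩, ⟨B, hB, rfl⟩, rfl⟩⟩)
  -- (8)
  obtain ⟨L9, g9, s9, m9, c9⟩ := add_cut (C := uc s n q H) (I := Fin n) (fun σ i => σ i)
    (fun i => {⟨Un.e i, true⟩}) (fun i => Un.g i) Set.univ g8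
    (fun _ _ _ => trivial) (fun σ i => sm_single (uc s n q H) σ _ _ rfl)
    (fun σ k => rfl)
    (fun i _ => ⟨_, s8 (m7 i trivial), by
      rintro x (rfl | rfl)
      · exact Or.inl rfl
      · exact Or.inr rfl⟩)
    (fun i _ => ⟨_, m8 i trivial, by
      rintro x (rfl | rfl)
      · exact Or.inl rfl
      · exact Or.inr rfl⟩)
  refine ⟨L9, g9, ?_, fun i => m9 i trivial, ?_⟩
  · exact ((((((((s1.trans s2).trans s3).trans s4).trans s5).trans s6).trans s7).trans s8).trans s9)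
  · have hb := bound_aux n (Nat.card (Sl (Fin n) q)) (big s n q)
      (by unfold big; omega) (by unfold big; omega) (by unfold big; omega)
    simp only [Nat.card_prod, Nat.card_eq_fintype_card (α := Fin n), Fintype.card_fin,
      Nat.card_eq_fintype_card (α := Bool), Fintype.card_bool] at c1 c2 c3 c4 c5 c6 c7 c8 c9
    generalize Nat.card (Sl (Fin n) q) = S at *
    have e1 : n * S * (2 * S) = 2 * (n * (S * S)) := by ring
    rw [e1] at c4
    generalize n * (S * S) = Y at *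
    generalize n * S = Z at *
    have key : Set.ncard (α := Set (Lit (uc s n q H).N)) L9 ≤
        Set.ncard (α := Set (Lit (uc s n q H).N)) Ls + big s n q ^ 6 := by
      omega
    exact key

end Pool.H93.CG
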