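import Pool.Agent.H93.CG.UDef

/-!
# [H93 CG UD2] The contradiction

PROOF (complete). Every family is added by `goodC_add`. Let `S = {⟨O i B, true⟩ | Ok i B}`.
(1) `{⟨E, true⟩, ⟨e i, true⟩}`-weakenings and `{⟨E, true⟩}` by `andI` from `{⟨e i, true⟩}` (the premise is `insert ⟨e i, true⟩ {⟨E, true⟩}`).
(2) `{⟨E, false⟩, ⟨tot true, true⟩}` by `sum`: `T = {e i}`, `A = {1}`, `S (e i) = {⟨O i B, true⟩ | Ok i B}` disjoint with union `S`,
`∑ᶠ = n`. (3) `{⟨tot true, true⟩}` by `cut` (after weakenings).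
(4) For `B.set.card = q` (`0 < q`), `i₀, i ∈ B`: `{⟨O i₀ B, false⟩, ⟨z true i B, true⟩}` by `cut` on `O i B` from `unit`
(`{⟨O i B, false⟩, ⟨z true i B, true⟩}`) and `ident` (`O i B` and `O i₀ B` have the same label:
`{⟨O i B, true⟩, ⟨O i₀ B, false⟩}`); `{⟨O i₀ B, false⟩, ⟨y true B, true⟩}` by `andI`; in the same way
`{⟨O i₀ B, true⟩, ⟨z false i B, true⟩}` and `{⟨O i₀ B, true⟩, ⟨y false B, true⟩}`.
(5) `{⟨y b B, false⟩, ⟨c B, true⟩}` by `sum`: `T = {z b i B | i ∈ B}`, `A = {if b then 1 else 0}`, the sets `{⟨O i B, true⟩}` are disjoint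
with union the set of `c B`, and `∑ᶠ = q` (`b = true`) or `0`, in `{0, q}`.
(6) `{⟨O i₀ B, false⟩, ⟨c B, true⟩}`, `{⟨O i₀ B, true⟩, ⟨c B, true⟩}` by `cut` on `y b B`; `{⟨c B, true⟩}` by `cut` on `O i₀ B` (`B` is not
empty).
(7) `{⟨Q, true⟩}` by `andI`; `{⟨Q, false⟩, ⟨tot false, true⟩}` by `sum`: `T = {c B | B.set.card = q}`, `A = {0, q}`, the sets
`{⟨O i B, true⟩ | i ∈ B}` are disjoint (different `B`) with union `S`; a sum of numbers in `{0, q}` is divisible by `q`
(`Finset.dvd_sum`, `finsum_mem_eq_finite_toFinset_sum`). `{⟨tot false, true⟩}` by `cut`.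
(8) `{⟨tot true, false⟩, ⟨tot false, false⟩}` by `cover` for the set `S`: for a number `c`: if `c = n` then `¬ q ∣ c` and `tot false` works,
otherwise `tot true` works. (9) `{⟨tot true, false⟩}` and `∅` by `cut` (and weakenings).
Sizes: about 25 families with at most `n ^ 2 * Nat.card (Sl (Fin n) q)` lines.
-/

set_option autoImplicit false

namespace Pool.H93.CG

open FirstOrder FirstOrder.Language
open Pool.H93.SY (Lit Atom)
open Pool.H31.SY (Nd gateN rk dep subf Rels)
open Pool.H31.PH (Sl mapL)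
open scoped Pointwise

variable {s n q : ℕ}

/-- positive, negative signed nodes -/
private abbrev tr (x : Un s n q) : Lit (Un s n q) := ⟨x, true⟩

private abbrev fa (x : Un s n q) : Lit (Un s n q) := ⟨x, false⟩

private theorem sum_const {V : Type} [Finite V] {T : Set V} {c : V → ℕ} {a : ℕ}
    (h : ∀ b ∈ T, c b = a) : ∑ᶠ b ∈ T, c b = T.ncard * a := by
  have hf : T.Finite := Set.toFinite T
  rw [finsum_mem_eq_finite_toFinset_sum _ hf,
    Finset.sum_congr rfl (fun x hx => h x (hf.mem_toFinset.1 hx)), Finset.sum_const, smul_eq_mul,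
    Set.ncard_eq_toFinset_card T hf]

private theorem sum_dvd {V : Type} [Finite V] {T : Set V} {c : V → ℕ} {a : ℕ}
    (h : ∀ b ∈ T, a ∣ c b) : a ∣ ∑ᶠ b ∈ T, c b := by
  have hf : T.Finite := Set.toFinite T
  rw [finsum_mem_eq_finite_toFinset_sum _ hf]
  exact Finset.dvd_sum fun x hx => h x (hf.mem_toFinset.1 hx)

/-! ### Stage A -/

private theorem rlt {a b : ℕ} (h : Nat.blt a b = true) : a < b := by
  rw [Nat.blt_eq] at h
  exact h

private def FA (k : Fin 5) (i : Fin n) : Set (Lit (Un s n q)) :=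
  match k with
  | 0 => insert (tr (.e i)) {tr .E}
  | 1 => {tr .E}
  | 2 => insert (fa .E) {tr (.tot true)}
  | 3 => insert (tr .E) {tr (.tot true)}
  | 4 => {tr (.tot true)}

private abbrev TE : Set (Un s n q) := {x | ∃ i, x = .e i}

private theorem TE_ncard : (TE : Set (Un s n q)).ncard = n := by
  have h4 : (TE : Set (Un s n q)) = (fun i : Fin n => (Un.e i : Un s n q)) '' Set.univ := by
    ext x
    constructor
    · rintro ⟨i, rfl⟩
      exact ⟨i, trivial, rfl⟩
    · rintro ⟨i, -, rfl⟩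
      exact ⟨i, rfl⟩
  rw [h4, Set.ncard_image_of_injective _ (fun a b hab => by injection hab), Set.ncard_univ,
    Nat.card_eq_fintype_card, Fintype.card_fin]

private theorem stepE {G : Group (Fin s)} {H : Finset (Fin s)} {P : Set (Set (Lit (Un s n q)))}
    {Γ : Set (Lit (Un s n q))} (h1 : fa .E ∈ Γ) (h2 : tr (.tot true) ∈ Γ) :
    Step free (table G n) (uc s n q H) P Γ := by
  have hU : ({x | ∃ i B, Ok i B ∧ x = ⟨.O i B, true⟩} : Set (Lit (Un s n q))) =
      ⋃ b ∈ (TE : Set (Un s n q)), (gu H b).children := by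
    ext x
    simp only [Set.mem_iUnion]
    constructor
    · rintro ⟨i, B, hB, rfl⟩
      exact ⟨.e i, ⟨i, rfl⟩, B, hB, rfl⟩
    · rintro ⟨b, ⟨i, rfl⟩, hx⟩
      obtain ⟨B, hB, rfl⟩ := hx
      exact ⟨i, B, hB, rfl⟩
  refine Step.sum (C := uc s n q H) (a := (.tot true : Un s n q)) (p := (.E : Un s n q))
    (T := (TE : Set (Un s n q))) (A := fun _ => {1}) (A' := {c | if true then c = n else q ∣ c})
    (S := fun b : Un s n q => (gu H b).children) ?_ ?_ rfl ?_ ?_ h1 h2
  · rintro b ⟨i, rfl⟩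
    rfl
  · rintro b ⟨i, rfl⟩ b' ⟨i', rfl⟩ hne
    show Disjoint (gu H (.e i)).children (gu H (.e i')).children
    rw [Set.disjoint_left]
    rintro x ⟨B, -, rfl⟩ ⟨B', -, hx⟩
    have h3 : (Un.O i B : Un s n q) = .O i' B' := congrArg Lit.node hx
    injection h3 with h4 h5
    exact hne (by rw [h4])
  · exact congrArg (Gate.sym _) hU
  · intro c hc
    have h3 : ∑ᶠ b ∈ (TE : Set (Un s n q)), c b = (TE : Set (Un s n q)).ncard * 1 :=
      sum_const fun b hb => hc b hb
    rw [TE_ncard, mul_one] at h3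
    exact h3

private theorem stageA {G : Group (Fin s)} {H : Finset (Fin s)} (hn : 0 < n)
    {Ls : Set (Set (Lit (Un s n q)))} (hg : GoodC free (table G n) (uc s n q H) Ls)
    (he : ∀ i, {tr (.e i)} ∈ Ls) :
    ∃ Ls' : Set (Set (Lit (Un s n q))), GoodC free (table G n) (uc s n q H) Ls' ∧ Ls ⊆ Ls' ∧
      {tr (.tot true)} ∈ Ls' ∧ Ls'.ncard ≤ Ls.ncard + 5 * n := by
  have key : GoodC free (table G n) (uc s n q H)
      (Ls ∪ (fun x : Fin 5 × Fin n => FA x.1 x.2) '' Set.univ) := by
    refine goodC_family (C := uc s n q H) (fun x : Fin 5 × Fin n => FA x.1 x.2) Set.univ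
      (fun x => x.1.val) hg ?_ ?_
    · rintro σ ⟨k, i⟩ -
      refine ⟨(k, σ i), trivial, ?_⟩
      match k with
      | 0 =>
        show _ = σ • (insert (tr (.e i)) {tr .E} : Set (Lit (Un s n q)))
        rw [Set.smul_set_insert, Set.smul_set_singleton]
        rfl
      | 1 =>
        show _ = σ • ({tr .E} : Set (Lit (Un s n q)))
        rw [Set.smul_set_singleton]
        rfl
      | 2 =>
        show _ = σ • (insert (fa .E) {tr (.tot true)} : Set (Lit (Un s n q)))
        rw [Set.smul_set_insert, Set.smul_set_singleton]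
        rfl
      | 3 =>
        show _ = σ • (insert (tr .E) {tr (.tot true)} : Set (Lit (Un s n q)))
        rw [Set.smul_set_insert, Set.smul_set_singleton]
        rfl
      | 4 =>
        show _ = σ • ({tr (.tot true)} : Set (Lit (Un s n q)))
        rw [Set.smul_set_singleton]
        rfl
    · rintro ⟨k, i⟩ -
      match k with
      | 0 =>
        refine .weak (Or.inl (he i)) ?_
        intro x hx
        exact Or.inl hx
      | 1 =>
        refine .andI (a := (.E : Un s n q)) (S := ps TE) rfl rfl ?_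
        rintro x ⟨y, ⟨j, rfl⟩, rfl⟩
        exact Or.inr ⟨(0, j), trivial, rlt rfl, rfl⟩
      | 2 => exact stepE (Or.inl rfl) (Or.inr rfl)
      | 3 =>
        refine .weak (Or.inr ⟨(1, i), trivial, rlt rfl, rfl⟩) ?_
        intro x hx
        exact Or.inl hx
      | 4 =>
        exact .cut (a := (.E : Un s n q)) (Or.inr ⟨(3, i), trivial, rlt rfl, rfl⟩)
          (Or.inr ⟨(2, i), trivial, rlt rfl, rfl⟩)
  refine ⟨_, key, Set.subset_union_left, Or.inr ⟨(4, ⟨0, hn⟩), trivial, rfl⟩, ?_⟩
  refine (Set.ncard_union_le _ _).trans (Nat.add_le_add_left ?_ _)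
  refine (ncard_family (C := uc s n q H) (fun x : Fin 5 × Fin n => FA x.1 x.2) Set.univ).trans ?_
  rw [Nat.card_prod, Nat.card_eq_fintype_card, Nat.card_eq_fintype_card, Fintype.card_fin,
    Fintype.card_fin]

/-! ### Stage B -/

private def FB (k : Fin 6) (b : Bool) (i0 i : Fin n) (B : Sl (Fin n) q) :
    Set (Lit (Un s n q)) :=
  match k with
  | 0 => insert ⟨.O i B, !b⟩ {tr (.z b i B)}
  | 1 => insert ⟨.O i B, !b⟩ (insert ⟨.O i0 B, !b⟩ {tr (.z b i B)})
  | 2 => insert ⟨.O i B, b⟩ (insert ⟨.O i0 B, !b⟩ {tr (.z b i B)})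
  | 3 => insert ⟨.O i0 B, !b⟩ {tr (.z b i B)}
  | 4 => insert (tr (.z b i B)) (insert ⟨.O i0 B, !b⟩ {tr (.y b B)})
  | 5 => insert ⟨.O i0 B, !b⟩ {tr (.y b B)}

private theorem stageB {G : Group (Fin s)} {H : Finset (Fin s)} (hn : 0 < n)
    {Ls : Set (Set (Lit (Un s n q)))} (hg : GoodC free (table G n) (uc s n q H) Ls) :
    ∃ Ls' : Set (Set (Lit (Un s n q))), GoodC free (table G n) (uc s n q H) Ls' ∧ Ls ⊆ Ls' ∧
      (∀ b i0 B, (insert ⟨.O i0 B, !b⟩ {tr (.y b B)} : Set (Lit (Un s n q))) ∈ Ls') ∧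
      Ls'.ncard ≤ Ls.ncard + 6 * (2 * (n * (n * Nat.card (Sl (Fin n) q)))) := by
  let F : Fin 6 × Bool × Fin n × Fin n × Sl (Fin n) q → Set (Lit (Un s n q)) :=
    fun x => FB x.1 x.2.1 x.2.2.1 x.2.2.2.1 x.2.2.2.2
  have key : GoodC free (table G n) (uc s n q H) (Ls ∪ F '' Set.univ) := by
    refine goodC_family (C := uc s n q H) F Set.univ (fun x => x.1.val) hg ?_ ?_
    · rintro σ ⟨k, b, i0, i, B⟩ -
      refine ⟨(k, b, σ i0, σ i, σ • B), trivial, ?_⟩
      match k with
      | 0 =>
        show _ = σ • (insert ⟨.O i B, !b⟩ {tr (.z b i B)} : Set (Lit (Un s n q)))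
        rw [Set.smul_set_insert, Set.smul_set_singleton]
        rfl
      | 1 =>
        show _ = σ • (insert ⟨.O i B, !b⟩ (insert ⟨.O i0 B, !b⟩ {tr (.z b i B)}) :
          Set (Lit (Un s n q)))
        rw [Set.smul_set_insert, Set.smul_set_insert, Set.smul_set_singleton]
        rfl
      | 2 =>
        show _ = σ • (insert ⟨.O i B, b⟩ (insert ⟨.O i0 B, !b⟩ {tr (.z b i B)}) :
          Set (Lit (Un s n q)))
        rw [Set.smul_set_insert, Set.smul_set_insert, Set.smul_set_singleton]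
        rfl
      | 3 =>
        show _ = σ • (insert ⟨.O i0 B, !b⟩ {tr (.z b i B)} : Set (Lit (Un s n q)))
        rw [Set.smul_set_insert, Set.smul_set_singleton]
        rfl
      | 4 =>
        show _ = σ • (insert (tr (.z b i B)) (insert ⟨.O i0 B, !b⟩ {tr (.y b B)}) :
          Set (Lit (Un s n q)))
        rw [Set.smul_set_insert, Set.smul_set_insert, Set.smul_set_singleton]
        rfl
      | 5 =>
        show _ = σ • (insert ⟨.O i0 B, !b⟩ {tr (.y b B)} : Set (Lit (Un s n q)))
        rw [Set.smul_set_insert, Set.smul_set_singleton]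
        rfl
    · rintro ⟨k, b, i0, i, B⟩ -
      match k with
      | 0 =>
        refine .unit (a := (.z b i B : Un s n q)) (A := {if b then 1 else 0})
          (x := ⟨.O i B, true⟩) rfl (Or.inr rfl) ?_
        cases b with
        | true => exact Or.inl ⟨rfl, Or.inl rfl⟩
        | false => exact Or.inr ⟨rfl, Or.inl rfl⟩
      | 1 =>
        refine .weak (Or.inr ⟨(0, b, i0, i, B), trivial, rlt rfl, rfl⟩) ?_
        rintro x (rfl | rfl)
        · exact Or.inl rfl
        · exact Or.inr (Or.inr rfl)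
      | 2 =>
        cases b with
        | true =>
          exact .ident (a := (.O i B : Un s n q)) (b := (.O i0 B : Un s n q)) rfl (Or.inl rfl)
            (Or.inr (Or.inl rfl))
        | false =>
          exact .ident (a := (.O i0 B : Un s n q)) (b := (.O i B : Un s n q)) rfl
            (Or.inr (Or.inl rfl)) (Or.inl rfl)
      | 3 =>
        cases b with
        | true =>
          exact .cut (a := (.O i B : Un s n q))
            (Or.inr ⟨(2, true, i0, i, B), trivial, rlt rfl, rfl⟩)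
            (Or.inr ⟨(1, true, i0, i, B), trivial, rlt rfl, rfl⟩)
        | false =>
          exact .cut (a := (.O i B : Un s n q))
            (Or.inr ⟨(1, false, i0, i, B), trivial, rlt rfl, rfl⟩)
            (Or.inr ⟨(2, false, i0, i, B), trivial, rlt rfl, rfl⟩)
      | 4 =>
        refine .weak (Or.inr ⟨(3, b, i0, i, B), trivial, rlt rfl, rfl⟩) ?_
        rintro x (rfl | rfl)
        · exact Or.inr (Or.inl rfl)
        · exact Or.inl rfl
      | 5 =>
        refine .andI (a := (.y b B : Un s n q))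
          (S := ps {x | ∃ i ∈ B.set, x = .z b i B}) rfl (Or.inr rfl) ?_
        rintro x ⟨y, ⟨j, hj, rfl⟩, rfl⟩
        exact Or.inr ⟨(4, b, i0, j, B), trivial, rlt rfl, rfl⟩
  refine ⟨_, key, Set.subset_union_left, fun b i0 B =>
    Or.inr ⟨(5, b, i0, ⟨0, hn⟩, B), trivial, rfl⟩, ?_⟩
  refine (Set.ncard_union_le _ _).trans (Nat.add_le_add_left ?_ _)
  refine (ncard_family (C := uc s n q H) F Set.univ).trans ?_
  rw [Nat.card_prod, Nat.card_prod, Nat.card_prod, Nat.card_prod,
    Nat.card_eq_fintype_card (α := Fin 6), Nat.card_eq_fintype_card (α := Bool),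
    Nat.card_eq_fintype_card (α := Fin n), Fintype.card_fin, Fintype.card_fin, Fintype.card_bool]

/-! ### Stage C -/

private def FC (k : Fin 6) (b : Bool) (i0 : Fin n) (B : Sl (Fin n) q) :
    Set (Lit (Un s n q)) :=
  match k with
  | 0 => insert (fa (.y b B)) {tr (.c B)}
  | 1 => insert (tr (.y b B)) (insert ⟨.O i0 B, !b⟩ {tr (.c B)})
  | 2 => insert (fa (.y b B)) (insert ⟨.O i0 B, !b⟩ {tr (.c B)})
  | 3 => insert ⟨.O i0 B, !b⟩ {tr (.c B)}
  | 4 => {tr (.c B)}
  | 5 => insert (tr (.c B)) {tr .Q}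

private abbrev TY (b : Bool) (B : Sl (Fin n) q) : Set (Un s n q) := {x | ∃ i ∈ B.set, x = .z b i B}

private theorem TY_ncard (b : Bool) (B : Sl (Fin n) q) :
    (TY b B : Set (Un s n q)).ncard = B.set.card := by
  have h4 : (TY b B : Set (Un s n q)) =
      (fun i : Fin n => (Un.z b i B : Un s n q)) '' (B.set : Set (Fin n)) := by
    ext x
    constructor
    · rintro ⟨i, hi, rfl⟩
      exact ⟨i, hi, rfl⟩
    · rintro ⟨i, hi, rfl⟩
      exact ⟨i, hi, rfl⟩
  rw [h4, Set.ncard_image_of_injective _ (fun a b hab => by injection hab),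
    Set.ncard_coe_finset]

private theorem stepY {G : Group (Fin s)} {H : Finset (Fin s)} {P : Set (Set (Lit (Un s n q)))}
    {Γ : Set (Lit (Un s n q))} {b : Bool} {B : Sl (Fin n) q} (hB : B.set.card = q)
    (h1 : fa (.y b B) ∈ Γ) (h2 : tr (.c B) ∈ Γ) :
    Step free (table G n) (uc s n q H) P Γ := by
  have hU : ({x | ∃ i ∈ B.set, x = ⟨.O i B, true⟩} : Set (Lit (Un s n q))) =
      ⋃ a ∈ (TY b B : Set (Un s n q)), (gu H a).children := by
    ext x
    simp only [Set.mem_iUnion]
    constructor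
    · rintro ⟨i, hi, rfl⟩
      exact ⟨.z b i B, ⟨i, hi, rfl⟩, rfl⟩
    · rintro ⟨a, ⟨i, hi, rfl⟩, hx⟩
      exact ⟨i, hi, hx⟩
  refine Step.sum (C := uc s n q H) (a := (.c B : Un s n q)) (p := (.y b B : Un s n q))
    (T := (TY b B : Set (Un s n q))) (A := fun _ => {if b then 1 else 0}) (A' := {0, q})
    (S := fun b : Un s n q => (gu H b).children) ?_ ?_ rfl ?_ ?_ h1 h2
  · rintro a ⟨i, hi, rfl⟩
    rfl
  · rintro a ⟨i, hi, rfl⟩ a' ⟨i', hi', rfl⟩ hne
    show Disjoint (gu H (.z b i B)).children (gu H (.z b i' B)).children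
    rw [Set.disjoint_left]
    intro x hx hx'
    have h3 : x = ⟨.O i B, true⟩ := hx
    have h4 : x = ⟨.O i' B, true⟩ := hx'
    rw [h3] at h4
    have h5 : (Un.O i B : Un s n q) = .O i' B := congrArg Lit.node h4
    injection h5 with h6 h7
    exact hne (by rw [h6])
  · exact congrArg (Gate.sym _) hU
  · intro c hc
    have h3 : ∑ᶠ a ∈ (TY b B : Set (Un s n q)), c a =
        (TY b B : Set (Un s n q)).ncard * (if b then 1 else 0) := sum_const fun a ha => hc a ha
    rw [TY_ncard, hB] at h3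
    cases b with
    | true =>
      rw [if_pos rfl, mul_one] at h3
      exact Or.inr h3
    | false =>
      rw [if_neg Bool.false_ne_true, mul_zero] at h3
      exact Or.inl h3

private theorem stageC {G : Group (Fin s)} {H : Finset (Fin s)} (hn : 0 < n)
    {Ls : Set (Set (Lit (Un s n q)))} (hg : GoodC free (table G n) (uc s n q H) Ls)
    (hy : ∀ b i0 B, (insert ⟨.O i0 B, !b⟩ {tr (.y b B)} : Set (Lit (Un s n q))) ∈ Ls) :
    ∃ Ls' : Set (Set (Lit (Un s n q))), GoodC free (table G n) (uc s n q H) Ls' ∧ Ls ⊆ Ls' ∧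
      (∀ B : Sl (Fin n) q, B.set.card = q →
        (insert (tr (.c B)) {tr .Q} : Set (Lit (Un s n q))) ∈ Ls') ∧
      Ls'.ncard ≤ Ls.ncard + 6 * (2 * (n * Nat.card (Sl (Fin n) q))) := by
  let F : Fin 6 × Bool × Fin n × Sl (Fin n) q → Set (Lit (Un s n q)) :=
    fun x => FC x.1 x.2.1 x.2.2.1 x.2.2.2
  let J : Set (Fin 6 × Bool × Fin n × Sl (Fin n) q) := {x | x.2.2.2.set.card = q}
  have key : GoodC free (table G n) (uc s n q H) (Ls ∪ F '' J) := by
    refine goodC_family (C := uc s n q H) F J (fun x => x.1.val) hg ?_ ?_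
    · rintro σ ⟨k, b, i0, B⟩ hB
      refine ⟨(k, b, σ i0, σ • B), (Pool.H31.PH.card_smul_sl σ B).trans hB, ?_⟩
      match k with
      | 0 =>
        show _ = σ • (insert (fa (.y b B)) {tr (.c B)} : Set (Lit (Un s n q)))
        rw [Set.smul_set_insert, Set.smul_set_singleton]
        rfl
      | 1 =>
        show _ = σ • (insert (tr (.y b B)) (insert ⟨.O i0 B, !b⟩ {tr (.c B)}) :
          Set (Lit (Un s n q)))
        rw [Set.smul_set_insert, Set.smul_set_insert, Set.smul_set_singleton]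
        rfl
      | 2 =>
        show _ = σ • (insert (fa (.y b B)) (insert ⟨.O i0 B, !b⟩ {tr (.c B)}) :
          Set (Lit (Un s n q)))
        rw [Set.smul_set_insert, Set.smul_set_insert, Set.smul_set_singleton]
        rfl
      | 3 =>
        show _ = σ • (insert ⟨.O i0 B, !b⟩ {tr (.c B)} : Set (Lit (Un s n q)))
        rw [Set.smul_set_insert, Set.smul_set_singleton]
        rfl
      | 4 =>
        show _ = σ • ({tr (.c B)} : Set (Lit (Un s n q)))
        rw [Set.smul_set_singleton]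
        rfl
      | 5 =>
        show _ = σ • (insert (tr (.c B)) {tr .Q} : Set (Lit (Un s n q)))
        rw [Set.smul_set_insert, Set.smul_set_singleton]
        rfl
    · rintro ⟨k, b, i0, B⟩ hB
      match k with
      | 0 => exact stepY (b := b) (B := B) hB (Or.inl rfl) (Or.inr rfl)
      | 1 =>
        refine .weak (Or.inl (hy b i0 B)) ?_
        rintro x (rfl | rfl)
        · exact Or.inr (Or.inl rfl)
        · exact Or.inl rfl
      | 2 =>
        refine .weak (Or.inr ⟨(0, b, i0, B), hB, rlt rfl, rfl⟩) ?_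
        rintro x (rfl | rfl)
        · exact Or.inl rfl
        · exact Or.inr (Or.inr rfl)
      | 3 =>
        exact .cut (a := (.y b B : Un s n q))
          (Or.inr ⟨(1, b, i0, B), hB, rlt rfl, rfl⟩)
          (Or.inr ⟨(2, b, i0, B), hB, rlt rfl, rfl⟩)
      | 4 =>
        exact .cut (a := (.O i0 B : Un s n q))
          (Or.inr ⟨(3, false, i0, B), hB, rlt rfl, rfl⟩)
          (Or.inr ⟨(3, true, i0, B), hB, rlt rfl, rfl⟩)
      | 5 =>
        refine .weak (Or.inr ⟨(4, b, i0, B), hB, rlt rfl, rfl⟩) ?_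
        intro x hx
        exact Or.inl hx
  refine ⟨_, key, Set.subset_union_left, fun B hB =>
    Or.inr ⟨(5, true, ⟨0, hn⟩, B), hB, rfl⟩, ?_⟩
  refine (Set.ncard_union_le _ _).trans (Nat.add_le_add_left ?_ _)
  refine (ncard_family (C := uc s n q H) F J).trans ?_
  rw [Nat.card_prod, Nat.card_prod, Nat.card_prod,
    Nat.card_eq_fintype_card (α := Fin 6), Nat.card_eq_fintype_card (α := Bool),
    Nat.card_eq_fintype_card (α := Fin n), Fintype.card_fin, Fintype.card_fin, Fintype.card_bool]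

/-! ### Stage D -/

private def FD (k : Fin 8) : Set (Lit (Un s n q)) :=
  match k with
  | 0 => {tr .Q}
  | 1 => insert (fa .Q) {tr (.tot false)}
  | 2 => insert (tr .Q) {tr (.tot false)}
  | 3 => {tr (.tot false)}
  | 4 => insert (fa (.tot false)) {fa (.tot true)}
  | 5 => insert (tr (.tot false)) {fa (.tot true)}
  | 6 => {fa (.tot true)}
  | 7 => ∅

private abbrev TQ : Set (Un s n q) := {x | ∃ B : Sl (Fin n) q, B.set.card = q ∧ x = .c B}

private theorem stepQ {G : Group (Fin s)} {H : Finset (Fin s)} {P : Set (Set (Lit (Un s n q)))}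
    {Γ : Set (Lit (Un s n q))} (h1 : fa .Q ∈ Γ) (h2 : tr (.tot false) ∈ Γ) :
    Step free (table G n) (uc s n q H) P Γ := by
  have hU : ({x | ∃ i B, Ok i B ∧ x = ⟨.O i B, true⟩} : Set (Lit (Un s n q))) =
      ⋃ b ∈ (TQ : Set (Un s n q)), (gu H b).children := by
    ext x
    simp only [Set.mem_iUnion]
    constructor
    · rintro ⟨i, B, hB, rfl⟩
      exact ⟨.c B, ⟨B, hB.1, rfl⟩, i, hB.2, rfl⟩
    · rintro ⟨b, ⟨B, hB, rfl⟩, hx⟩
      obtain ⟨i, hi, rfl⟩ := hx
      exact ⟨i, B, ⟨hB, hi⟩, rfl⟩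
  refine Step.sum (C := uc s n q H) (a := (.tot false : Un s n q)) (p := (.Q : Un s n q))
    (T := (TQ : Set (Un s n q))) (A := fun _ => {0, q})
    (A' := {c | if false then c = n else q ∣ c})
    (S := fun b : Un s n q => (gu H b).children) ?_ ?_ rfl ?_ ?_ h1 h2
  · rintro b ⟨B, hB, rfl⟩
    rfl
  · rintro b ⟨B, hB, rfl⟩ b' ⟨B', hB', rfl⟩ hne
    show Disjoint (gu H (.c B)).children (gu H (.c B')).children
    rw [Set.disjoint_left]
    rintro x ⟨i, -, rfl⟩ ⟨i', -, hx⟩
    have h3 : (Un.O i B : Un s n q) = .O i' B' := congrArg Lit.node hx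
    injection h3 with h4 h5
    exact hne (by rw [h5])
  · exact congrArg (Gate.sym _) hU
  · intro c hc
    have h3 : q ∣ ∑ᶠ b ∈ (TQ : Set (Un s n q)), c b := by
      refine sum_dvd fun b hb => ?_
      rcases hc b hb with h4 | h4
      · rw [h4]
        exact dvd_zero _
      · rw [h4]
    exact h3

private theorem stageD {G : Group (Fin s)} {H : Finset (Fin s)} (hn : ¬ q ∣ n)
    {Ls : Set (Set (Lit (Un s n q)))} (hg : GoodC free (table G n) (uc s n q H) Ls)
    (ht : {tr (.tot true)} ∈ Ls)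
    (hc : ∀ B : Sl (Fin n) q, B.set.card = q →
      (insert (tr (.c B)) {tr .Q} : Set (Lit (Un s n q))) ∈ Ls) :
    ∃ Ls' : Set (Set (Lit (Un s n q))), GoodC free (table G n) (uc s n q H) Ls' ∧ Ls ⊆ Ls' ∧
      ∅ ∈ Ls' ∧ Ls'.ncard ≤ Ls.ncard + 8 := by
  have key : GoodC free (table G n) (uc s n q H)
      (Ls ∪ (fun x : Fin 8 => FD x) '' Set.univ) := by
    refine goodC_family (C := uc s n q H) (fun x : Fin 8 => FD x) Set.univ
      (fun x => x.val) hg ?_ ?_
    · rintro σ k -
      refine ⟨k, trivial, ?_⟩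
      match k with
      | 0 =>
        show _ = σ • ({tr .Q} : Set (Lit (Un s n q)))
        rw [Set.smul_set_singleton]
        rfl
      | 1 =>
        show _ = σ • (insert (fa .Q) {tr (.tot false)} : Set (Lit (Un s n q)))
        rw [Set.smul_set_insert, Set.smul_set_singleton]
        rfl
      | 2 =>
        show _ = σ • (insert (tr .Q) {tr (.tot false)} : Set (Lit (Un s n q)))
        rw [Set.smul_set_insert, Set.smul_set_singleton]
        rfl
      | 3 =>
        show _ = σ • ({tr (.tot false)} : Set (Lit (Un s n q)))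
        rw [Set.smul_set_singleton]
        rfl
      | 4 =>
        show _ = σ • (insert (fa (.tot false)) {fa (.tot true)} : Set (Lit (Un s n q)))
        rw [Set.smul_set_insert, Set.smul_set_singleton]
        rfl
      | 5 =>
        show _ = σ • (insert (tr (.tot false)) {fa (.tot true)} : Set (Lit (Un s n q)))
        rw [Set.smul_set_insert, Set.smul_set_singleton]
        rfl
      | 6 =>
        show _ = σ • ({fa (.tot true)} : Set (Lit (Un s n q)))
        rw [Set.smul_set_singleton]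
        rfl
      | 7 =>
        show _ = σ • (∅ : Set (Lit (Un s n q)))
        rw [Set.smul_set_empty]
        rfl
    · rintro k -
      match k with
      | 0 =>
        refine .andI (a := (.Q : Un s n q)) (S := ps TQ) rfl rfl ?_
        rintro x ⟨y, ⟨B, hB, rfl⟩, rfl⟩
        exact Or.inl (hc B hB)
      | 1 => exact stepQ (Or.inl rfl) (Or.inr rfl)
      | 2 =>
        refine .weak (Or.inr ⟨0, trivial, rlt rfl, rfl⟩) ?_
        intro x hx
        exact Or.inl hx
      | 3 =>
        exact .cut (a := (.Q : Un s n q)) (Or.inr ⟨2, trivial, rlt rfl, rfl⟩)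
          (Or.inr ⟨1, trivial, rlt rfl, rfl⟩)
      | 4 =>
        refine .cover (S := {x | ∃ i B, Ok i B ∧ x = ⟨.O i B, true⟩}) ?_
        intro c _
        by_cases hcn : c = n
        · refine ⟨.tot false, {c | if false then c = n else q ∣ c}, false, rfl, ?_, Or.inl rfl⟩
          constructor
          · intro h
            have h' : q ∣ c := h
            rw [hcn] at h'
            exact absurd h' hn
          · intro h
            exact absurd h Bool.false_ne_true
        · refine ⟨.tot true, {c | if true then c = n else q ∣ c}, false, rfl, ?_, Or.inr rfl⟩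
          constructor
          · intro h
            exact absurd h hcn
          · intro h
            exact absurd h Bool.false_ne_true
      | 5 =>
        refine .weak (Or.inr ⟨3, trivial, rlt rfl, rfl⟩) ?_
        intro x hx
        exact Or.inl hx
      | 6 =>
        exact .cut (a := (.tot false : Un s n q)) (Or.inr ⟨5, trivial, rlt rfl, rfl⟩)
          (Or.inr ⟨4, trivial, rlt rfl, rfl⟩)
      | 7 =>
        refine .cut (a := (.tot true : Un s n q)) (Or.inl ?_)
          (Or.inr ⟨6, trivial, rlt rfl, ?_⟩)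
        · show insert (tr (.tot true)) (∅ : Set (Lit (Un s n q))) ∈ Ls
          rw [insert_empty_eq]
          exact ht
        · show insert (fa (.tot true)) (∅ : Set (Lit (Un s n q))) = {fa (.tot true)}
          exact insert_empty_eq _
  refine ⟨_, key, Set.subset_union_left, Or.inr ⟨7, trivial, rfl⟩, ?_⟩
  refine (Set.ncard_union_le _ _).trans (Nat.add_le_add_left ?_ _)
  refine (ncard_family (C := uc s n q H) (fun x : Fin 8 => FD x) Set.univ).trans ?_
  rw [Nat.card_eq_fintype_card, Fintype.card_fin]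

theorem final_lines {G : Group (Fin s)} {H : Finset (Fin s)} (hq : 0 < q) (hn : ¬ q ∣ n)
    {Ls : Set (Set (Lit (Un s n q)))} (hg : GoodC free (table G n) (uc s n q H) Ls)
    (he : ∀ i, {⟨.e i, true⟩} ∈ Ls) :
    ∃ Ls' : Set (Set (Lit (Un s n q))), GoodC free (table G n) (uc s n q H) Ls' ∧ Ls ⊆ Ls' ∧
      ∅ ∈ Ls' ∧ Ls'.ncard ≤ Ls.ncard + big s n q ^ 6 := by
  have hn0 : 0 < n := by
    rcases Nat.eq_zero_or_pos n with h | h
    · rw [h] at hn
      exact absurd (dvd_zero q) hn
    · exact h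
  obtain ⟨L1, hg1, hs1, ht1, hc1⟩ := stageA hn0 hg he
  obtain ⟨L2, hg2, hs2, hy2, hc2⟩ := stageB hn0 hg1
  obtain ⟨L3, hg3, hs3, hc3', hc3⟩ := stageC hn0 hg2 hy2
  obtain ⟨L4, hg4, hs4, he4, hc4⟩ := stageD hn hg3 (hs3 (hs2 ht1)) hc3'
  refine ⟨L4, hg4, ((hs1.trans hs2).trans hs3).trans hs4, he4, ?_⟩
  have hb : big s n q = s + n + q + 4 + Nat.card (Sl (Fin n) q) + n ^ q := rfl
  generalize hS : Nat.card (Sl (Fin n) q) = S at *
  have h1 : n ≤ big s n q := by omega
  have h2 : S ≤ big s n q := by omega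
  have h3 : 6 ≤ big s n q := by omega
  generalize big s n q = m at *
  have h4 : n * (n * S) ≤ m ^ 3 := by
    calc n * (n * S) ≤ m * (m * m) :=
          Nat.mul_le_mul h1 (Nat.mul_le_mul h1 h2)
      _ = m ^ 3 := by ring
  have h5 : n * S ≤ m ^ 3 := by
    calc n * S ≤ m * m := Nat.mul_le_mul h1 h2
      _ = m * m * 1 := by ring
      _ ≤ m * m * m := Nat.mul_le_mul_left _ (by omega)
      _ = m ^ 3 := by ring
  have h6 : n ≤ m ^ 3 := by
    calc n ≤ m := h1
      _ = m * 1 := by ring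
      _ ≤ m * (m * m) := Nat.mul_le_mul_left _ (Nat.mul_pos (by omega) (by omega))
      _ = m ^ 3 := by ring
  have h7 : 216 ≤ m ^ 3 := by
    calc 216 = 6 ^ 3 := by norm_num
      _ ≤ m ^ 3 := Nat.pow_le_pow_left h3 3
  have h8 : m ^ 6 = m ^ 3 * m ^ 3 := by ring
  have h9 : 216 * m ^ 3 ≤ m ^ 6 := by
    rw [h8]
    exact Nat.mul_le_mul_right _ h7
  omega

end Pool.H93.CG
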