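import Pool.Agent.H93.CG.UDef

/-!
# [H93 CG UC] The images are closed

The line `K a b c i x y = {(Dn (h a) i x).neg, (Dn (h c) i y).neg, Dn (h b) x y}` for `h c = h b * h a`: if `h a i = x`, `h c i = y` then
`h b x = y`.

PROOF (complete). Fix `a`, `b`, `c` with `h c = G.mul (h b) (h a)` and points `i`, `x`, `y`.
(1) For `y' ≠ y`: `{(Dn (h a) i x).neg, (Dn (h b) x y').neg, (Dn (h c) i y).neg}` by `cut` on `Dn (h c) i y'` from weakenings of
`hb.mul (h b) (h a) i x y' : {(Dn (h a) i x).neg, (Dn (h b) x y').neg, Dn (h c) i y'}` and of `hb.fn (h c) i y' y`.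
(2) `{⟨w (h b) x, true⟩} ∪ K`: by `andI` from `insert (Dn (h b) x y').neg (…)`, all `y'`: for `y' = y` it contains `Dn (h b) x y` and its
negation (`ident`, `Dn` is a positive signed node), for `y' ≠ y` weakening of (1).
(3) `{⟨w (h b) x, false⟩} ∪ K`: `{⟨w (h b) x, false⟩} ∪ LV (h b) x` by `weak` from `hb.tot`, `{⟨w (h b) x, false⟩}` by `andE`, weakening.
(4) `K` by `cut`.
Every one of these families is closed under the permutations (`Dn_smul`); use `goodC_add` for every family (about 9 families with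
index types like `Fin q × Fin q × Fin q × Fin n × Fin n × Fin n × Fin n`), each has at most `big ^ 7` lines.
-/

set_option autoImplicit false

namespace Pool.H93.CG

open FirstOrder FirstOrder.Language
open Pool.H93.SY (Lit Atom)
open Pool.H31.SY (Nd gateN rk dep subf Rels)
open Pool.H31.PH (Sl mapL)
open scoped Pointwise

variable {s n q : ℕ}

private abbrev Ix (q n : ℕ) : Type := Fin q × Fin q × Fin q × Fin n × Fin n × Fin n × Fin n

/-- The final line. -/
private def KK (hh : Fin q → Fin s) : Ix q n → Set (Lit (Un s n q))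
  | (a, b, c, i, x, y, _) => {(Dn (hh a) i x).neg, (Dn (hh c) i y).neg, Dn (hh b) x y}

/-- The side line. -/
private def KS (hh : Fin q → Fin s) : Ix q n → Set (Lit (Un s n q))
  | (a, b, c, i, x, y, y') =>
    {(Dn (hh a) i x).neg, (Dn (hh b) x y').neg, (Dn (hh c) i y).neg}

/-- The lines. -/
private def FK (hh : Fin q → Fin s) : Fin 9 × Ix q n → Set (Lit (Un s n q))
  | (0, a, b, c, i, x, y, y') => insert (Dn (hh c) i y') (KS hh (a, b, c, i, x, y, y'))
  | (1, a, b, c, i, x, y, y') => insert (Dn (hh c) i y').neg (KS hh (a, b, c, i, x, y, y'))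
  | (2, t) => KS hh t
  | (3, a, b, c, i, x, y, y') =>
    insert (Dn (hh b) x y').neg (insert ⟨.w (hh b) x, true⟩ (KK hh (a, b, c, i, x, y, y')))
  | (4, a, b, c, i, x, y, y') => insert ⟨.w (hh b) x, true⟩ (KK hh (a, b, c, i, x, y, y'))
  | (5, _, b, _, _, x, _, _) =>
    {⟨.w (hh b) x, false⟩} ∪ Lit.neg '' {z | ∃ j, z = (Dn (hh b) x j).neg}
  | (6, _, b, _, _, x, _, _) => {⟨.w (hh b) x, false⟩}
  | (7, a, b, c, i, x, y, y') => insert ⟨.w (hh b) x, false⟩ (KK hh (a, b, c, i, x, y, y'))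
  | (8, t) => KK hh t

/-- The index set. -/
private def JK (G : Group (Fin s)) (hh : Fin q → Fin s) (u : Fin 9 × Ix q n) : Prop :=
  hh u.2.2.2.1 = G.mul (hh u.2.2.1) (hh u.2.1) ∧
    (u.1 < 3 → u.2.2.2.2.2.2.2 ≠ u.2.2.2.2.2.2.1)

/-- The action on the indices. -/
private def aI (σ : Equiv.Perm (Fin n)) : Ix q n → Ix q n
  | (a, b, c, i, x, y, y') => (a, b, c, σ i, σ x, σ y, σ y')

private theorem neg_smul' (σ : Equiv.Perm (Fin n)) (h : Fin s) (i j : Fin n) :
    (Dn h (σ i) (σ j) : Lit (Un s n q)).neg = σ • (Dn h i j).neg := by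
  rw [Dn_smul]
  rfl

private theorem w_smul' (σ : Equiv.Perm (Fin n)) (h : Fin s) (i : Fin n) (b : Bool) :
    (⟨.w h (σ i), b⟩ : Lit (Un s n q)) = σ • ⟨.w h i, b⟩ := rfl

private theorem lv_smul' (σ : Equiv.Perm (Fin n)) (h : Fin s) (i : Fin n) :
    Lit.neg '' {z : Lit (Un s n q) | ∃ j, z = (Dn h (σ i) j).neg} =
      σ • (Lit.neg '' {z : Lit (Un s n q) | ∃ j, z = (Dn h i j).neg}) := by
  apply Pool.H31.PH.smul_set_of
  intro x
  constructor
  · rintro ⟨_, ⟨j, rfl⟩, rfl⟩
    refine ⟨_, ⟨σ j, rfl⟩, ?_⟩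
    rw [neg_smul']
    rfl
  · rintro ⟨_, ⟨j, rfl⟩, h1⟩
    refine ⟨_, ⟨σ⁻¹ j, rfl⟩, ?_⟩
    apply MulAction.injective σ
    show σ • (Dn h i (σ⁻¹ j)).neg.neg = σ • x
    rw [← h1]
    have h2 : σ (σ⁻¹ j) = j := σ.apply_symm_apply j
    have h3 := neg_smul' (q := q) σ h i (σ⁻¹ j)
    rw [h2] at h3
    rw [h3]
    rfl

private theorem kk_smul (hh : Fin q → Fin s) (σ : Equiv.Perm (Fin n)) (t : Ix q n) :
    KK hh (aI σ t) = σ • KK hh t := by
  obtain ⟨a, b, c, i, x, y, y'⟩ := t
  show ({(Dn (hh a) (σ i) (σ x)).neg, (Dn (hh c) (σ i) (σ y)).neg, Dn (hh b) (σ x) (σ y)} :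
      Set (Lit (Un s n q))) =
    σ • ({(Dn (hh a) i x).neg, (Dn (hh c) i y).neg, Dn (hh b) x y} : Set (Lit (Un s n q)))
  rw [Set.smul_set_insert, Set.smul_set_insert, Set.smul_set_singleton, neg_smul', neg_smul',
    Dn_smul]

private theorem ks_smul (hh : Fin q → Fin s) (σ : Equiv.Perm (Fin n)) (t : Ix q n) :
    KS hh (aI σ t) = σ • KS hh t := by
  obtain ⟨a, b, c, i, x, y, y'⟩ := t
  show ({(Dn (hh a) (σ i) (σ x)).neg, (Dn (hh b) (σ x) (σ y')).neg, (Dn (hh c) (σ i) (σ y)).neg} :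
      Set (Lit (Un s n q))) =
    σ • ({(Dn (hh a) i x).neg, (Dn (hh b) x y').neg, (Dn (hh c) i y).neg} :
      Set (Lit (Un s n q)))
  rw [Set.smul_set_insert, Set.smul_set_insert, Set.smul_set_singleton, neg_smul', neg_smul',
    neg_smul']

private theorem fk_smul (hh : Fin q → Fin s) (σ : Equiv.Perm (Fin n)) (k : Fin 9) (t : Ix q n) :
    FK hh (k, aI σ t) = σ • FK hh (k, t) := by
  have h1 := kk_smul hh σ t
  have h2 := ks_smul hh σ t
  obtain ⟨a, b, c, i, x, y, y'⟩ := t
  match k with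
  | 0 =>
    show insert (Dn (hh c) (σ i) (σ y')) (KS hh (aI σ (a, b, c, i, x, y, y'))) =
      σ • insert (Dn (hh c) i y') (KS hh (a, b, c, i, x, y, y'))
    rw [Set.smul_set_insert, h2, Dn_smul]
  | 1 =>
    show insert (Dn (hh c) (σ i) (σ y')).neg (KS hh (aI σ (a, b, c, i, x, y, y'))) =
      σ • insert (Dn (hh c) i y').neg (KS hh (a, b, c, i, x, y, y'))
    rw [Set.smul_set_insert, h2, neg_smul']
  | 2 => exact h2
  | 3 =>
    show insert (Dn (hh b) (σ x) (σ y')).neg (insert (⟨.w (hh b) (σ x), true⟩ : Lit (Un s n q))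
        (KK hh (aI σ (a, b, c, i, x, y, y')))) =
      σ • insert (Dn (hh b) x y').neg (insert (⟨.w (hh b) x, true⟩ : Lit (Un s n q))
        (KK hh (a, b, c, i, x, y, y')))
    rw [Set.smul_set_insert, Set.smul_set_insert, h1, neg_smul', w_smul']
  | 4 =>
    show insert (⟨.w (hh b) (σ x), true⟩ : Lit (Un s n q)) (KK hh (aI σ (a, b, c, i, x, y, y'))) =
      σ • insert (⟨.w (hh b) x, true⟩ : Lit (Un s n q)) (KK hh (a, b, c, i, x, y, y'))
    rw [Set.smul_set_insert, h1, w_smul']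
  | 5 =>
    show ({⟨.w (hh b) (σ x), false⟩} ∪ Lit.neg '' {z | ∃ j, z = (Dn (hh b) (σ x) j).neg} :
        Set (Lit (Un s n q))) =
      σ • ({⟨.w (hh b) x, false⟩} ∪ Lit.neg '' {z | ∃ j, z = (Dn (hh b) x j).neg})
    rw [Set.smul_set_union, Set.smul_set_singleton, lv_smul', w_smul']
  | 6 =>
    show ({⟨.w (hh b) (σ x), false⟩} : Set (Lit (Un s n q))) = σ • {⟨.w (hh b) x, false⟩}
    rw [Set.smul_set_singleton, w_smul']
  | 7 =>
    show insert (⟨.w (hh b) (σ x), false⟩ : Lit (Un s n q)) (KK hh (aI σ (a, b, c, i, x, y, y'))) =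
      σ • insert (⟨.w (hh b) x, false⟩ : Lit (Un s n q)) (KK hh (a, b, c, i, x, y, y'))
    rw [Set.smul_set_insert, h1, w_smul']
  | 8 => exact h1

private theorem jk_smul (G : Group (Fin s)) (hh : Fin q → Fin s) (σ : Equiv.Perm (Fin n))
    (k : Fin 9) (t : Ix q n) (h : JK G hh (k, t)) : JK G hh (k, aI σ t) := by
  obtain ⟨a, b, c, i, x, y, y'⟩ := t
  exact ⟨h.1, fun h1 h2 => h.2 h1 (σ.injective h2)⟩

private theorem big_four (s n q : ℕ) : 4 ≤ big s n q ∧ n ≤ big s n q ∧ q ≤ big s n q := by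
  unfold big
  omega

theorem closed_lines {G : Group (Fin s)} {H : Finset (Fin s)} (hh : Fin q → Fin s)
    {Ls : Set (Set (Lit (Un s n q)))} (hg : GoodC free (table G n) (uc s n q H) Ls)
    (hb : Basic G Ls) :
    ∃ Ls' : Set (Set (Lit (Un s n q))), GoodC free (table G n) (uc s n q H) Ls' ∧ Ls ⊆ Ls' ∧
      (∀ a b c i x y, hh c = G.mul (hh b) (hh a) →
        {(Dn (hh a) i x).neg, (Dn (hh c) i y).neg, Dn (hh b) x y} ∈ Ls') ∧
      Ls'.ncard ≤ Ls.ncard + big s n q ^ 9 := by
  obtain ⟨hb4, hbn, hbq⟩ := big_four s n q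
  have h1 : GoodC free (table G n) (uc s n q H) (Ls ∪ FK hh '' {u | JK G hh u}) := by
    refine goodC_family (C := uc s n q H) (FK hh) {u | JK G hh u} (fun u => u.1.val) hg ?_ ?_
    · rintro σ ⟨k, t⟩ hu
      exact ⟨(k, aI σ t), jk_smul G hh σ k t hu, fk_smul hh σ k t⟩
    · rintro ⟨k, a, b, c, i, x, y, y'⟩ hu
      obtain ⟨hc, hy⟩ := hu
      have hc' : hh c = G.mul (hh b) (hh a) := hc
      have hin : ∀ (k' : Fin 9) (z : Fin n), k'.val < k.val →
          (k' < 3 → z ≠ y) → FK hh (k', a, b, c, i, x, y, z) ∈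
            Ls ∪ {Λ | ∃ j ∈ {u | JK G hh u}, j.1.val < k.val ∧ Λ = FK hh j} := by
        intro k' z h2 h3
        exact Or.inr ⟨(k', a, b, c, i, x, y, z), ⟨hc, h3⟩, h2, rfl⟩
      match k, hy, hin with
      | 0, hy, hin =>
        refine .weak (Δ := {(Dn (hh a) i x).neg, (Dn (hh b) x y').neg,
          Dn (G.mul (hh b) (hh a)) i y'}) (Or.inl (hb.mul (hh b) (hh a) i x y')) ?_
        rw [← hc']
        rintro z (rfl | rfl | rfl)
        · exact Or.inr (Or.inl rfl)
        · exact Or.inr (Or.inr (Or.inl rfl))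
        · exact Or.inl rfl
      | 1, hy, hin =>
        have h01 : (1 : Fin 9) < 3 := by decide
        refine .weak (Δ := LF (hh c) (hh c) i y' y) (Or.inl (hb.fn (hh c) i y' y
          (hy h01))) ?_
        rintro z (rfl | rfl)
        · exact Or.inl rfl
        · exact Or.inr (Or.inr (Or.inr rfl))
      | 2, hy, hin =>
        have h02 : (2 : Fin 9) < 3 := by decide
        have hy' : y' ≠ y := hy h02
        exact .cut (hin 0 y' (by decide) (fun _ => hy')) (hin 1 y' (by decide) (fun _ => hy'))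
      | 3, hy, hin =>
        by_cases hyy : y' = y
        · subst hyy
          refine .ident (a := (Dn (hh b) x y').node) (b := (Dn (hh b) x y').node) rfl ?_ ?_
          · exact Or.inr (Or.inr (Or.inr (Or.inr rfl)))
          · exact Or.inl rfl
        · refine .weak (Δ := KS hh (a, b, c, i, x, y, y')) (hin 2 y' (by decide)
            (fun _ => hyy)) ?_
          rintro z (rfl | rfl | rfl)
          · exact Or.inr (Or.inr (Or.inl rfl))
          · exact Or.inl rfl
          · exact Or.inr (Or.inr (Or.inr (Or.inl rfl)))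
      | 4, hy, hin =>
        refine .andI (a := (.w (hh b) x : Un s n q)) (S := {z | ∃ j, z = (Dn (hh b) x j).neg})
          rfl (Or.inl rfl) ?_
        rintro z ⟨j, rfl⟩
        exact hin 3 j (by decide) (fun h => absurd h (by decide))
      | 5, hy, hin =>
        refine .weak (Δ := LV (hh b) x) (Or.inl (hb.tot (hh b) x)) ?_
        rintro z ⟨j, rfl⟩
        exact Or.inr ⟨(Dn (hh b) x j).neg, ⟨j, rfl⟩, rfl⟩
      | 6, hy, hin =>
        refine .andE (a := (.w (hh b) x : Un s n q)) (S := {z | ∃ j, z = (Dn (hh b) x j).neg})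
          rfl rfl ?_
        exact hin 5 y (by decide) (fun h => absurd h (by decide))
      | 7, hy, hin =>
        refine .weak (Δ := {⟨.w (hh b) x, false⟩}) (hin 6 y (by decide)
          (fun h => absurd h (by decide))) ?_
        rintro z rfl
        exact Or.inl rfl
      | 8, hy, hin =>
        exact .cut (a := (.w (hh b) x : Un s n q)) (hin 4 y (by decide)
          (fun h => absurd h (by decide))) (hin 7 y (by decide) (fun h => absurd h (by decide)))
  refine ⟨_, h1, Set.subset_union_left, ?_, ?_⟩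
  · intro a b c i x y hc
    have h83 : ¬ (8 : Fin 9) < 3 := by decide
    exact Or.inr ⟨(8, a, b, c, i, x, y, y), ⟨hc, fun h => absurd h h83⟩, rfl⟩
  · refine (Set.ncard_union_le _ _).trans ?_
    have h2 := ncard_family (C := uc s n q H) (FK hh) {u : Fin 9 × Ix q n | JK G hh u}
    have h3 : Nat.card (Fin 9 × Ix q n) = 9 * (q * (q * (q * (n * (n * (n * n)))))) := by
      simp only [Nat.card_prod, Nat.card_fin]
    rw [h3] at h2
    have h4 : 9 * (q * (q * (q * (n * (n * (n * n)))))) ≤ big s n q ^ 9 := by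
      have e1 : 9 ≤ big s n q ^ 2 := by nlinarith
      have e2 : q * (q * (q * (n * (n * (n * n))))) ≤ big s n q * (big s n q * (big s n q *
          (big s n q * (big s n q * (big s n q * big s n q))))) := by
        gcongr
      calc 9 * (q * (q * (q * (n * (n * (n * n)))))) ≤ big s n q ^ 2 *
          (big s n q * (big s n q * (big s n q *
          (big s n q * (big s n q * (big s n q * big s n q)))))) := Nat.mul_le_mul e1 e2
        _ = big s n q ^ 9 := by ring
    exact Nat.add_le_add_left (h2.trans h4) _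

end Pool.H93.CG
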