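import Pool.Agent.H93.CG.UEmb
import Pool.Agent.H93.CG.Mdl
import Pool.Agent.H31.PH.Kle

/-!
# [H93 CG UD] The circuit of the short refutations

`H` is a set of group elements with `q` elements. For a set `B` of at most `q` points the node `O i B` says that `B` is closed
under the elements of `H` (one copy for every point `i`). If `H` is a subgroup then every point `i` is in exactly one such
`B` with `q` elements, its orbit.

PROOFS (complete).
`act_mem`: as `hasSits_php` in `Pool/Agent/H31/PH/Bas.lean` (`subf_inf_left`, `subf_inf_right`, `subf_all`, … there are stated for `phpL`;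
make private copies); for example the atom in the second conjunct `actF (&0) (&1) (&2)` with `j = 4`. (If `rfl`-like membership
is simpler: `free` unfolds to nested `imp`, `subf` is defined in `Pool/Agent/H31/SY/Search.lean`.)
`Dn_smul`: as `nod_smul` in `Pool/Agent/H31/PH/Defs.lean`. `ok_smul`: `card_smul_sl`, `mem_smul_sl`.
`ru_lt`: by cases; `base`: `rk_lt` (as in `rx_lt` of `Pool/Agent/H31/PH/Defs.lean`), `rk_le : rk ψ a ≤ dep ψ`.
`gu_act`: by cases; `base`: `gateN_act`, with `convG` commuting with the action (as `mapG_act`); the other nodes: the set on the right is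
`σ •` the set on the left by `smul_set_of` (`Pool/Agent/H31/PH/Defs.lean`): an equivariant description of the members.
-/

set_option autoImplicit false

namespace Pool.H93.CG

open FirstOrder FirstOrder.Language
open Pool.H93.SY (Lit Atom)
open Pool.H31.SY (Nd gateN rk dep subf Rels)
open Pool.H31.PH (Sl mapL)
open scoped Pointwise

/-- The nodes. -/
inductive Un (s n q : ℕ) : Type
  | base (a : Nd free s n)
  | w (h : Fin s) (i : Fin n)
  | I (h : Fin s) (i : Fin n) (B : Sl (Fin n) q)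
  | O (i : Fin n) (B : Sl (Fin n) q)
  | g (i : Fin n)
  | z (b : Bool) (i : Fin n) (B : Sl (Fin n) q)
  | p (i : Fin n) (B : Sl (Fin n) q)
  | e (i : Fin n)
  | E
  | tot (b : Bool)
  | y (b : Bool) (B : Sl (Fin n) q)
  | c (B : Sl (Fin n) q)
  | Q

/-- The nodes as a sum type. -/
def Un.code {s n q : ℕ} : Un s n q → Nd free s n ⊕ (Fin s × Fin n) ⊕
    (Fin s × Fin n × Sl (Fin n) q) ⊕ (Fin n × Sl (Fin n) q) ⊕ Fin n ⊕
    (Bool × Fin n × Sl (Fin n) q) ⊕ (Fin n × Sl (Fin n) q) ⊕ Fin n ⊕ Unit ⊕ Bool ⊕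
    (Bool × Sl (Fin n) q) ⊕ Sl (Fin n) q ⊕ Unit
  | .base a => .inl a
  | .w h i => .inr (.inl (h, i))
  | .I h i B => .inr (.inr (.inl (h, i, B)))
  | .O i B => .inr (.inr (.inr (.inl (i, B))))
  | .g i => .inr (.inr (.inr (.inr (.inl i))))
  | .z b i B => .inr (.inr (.inr (.inr (.inr (.inl (b, i, B))))))
  | .p i B => .inr (.inr (.inr (.inr (.inr (.inr (.inl (i, B)))))))
  | .e i => .inr (.inr (.inr (.inr (.inr (.inr (.inr (.inl i)))))))
  | .E => .inr (.inr (.inr (.inr (.inr (.inr (.inr (.inr (.inl ()))))))))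
  | .tot b => .inr (.inr (.inr (.inr (.inr (.inr (.inr (.inr (.inr (.inl b)))))))))
  | .y b B => .inr (.inr (.inr (.inr (.inr (.inr (.inr (.inr (.inr (.inr (.inl (b, B)))))))))))
  | .c B => .inr (.inr (.inr (.inr (.inr (.inr (.inr (.inr (.inr (.inr (.inr (.inl B)))))))))))
  | .Q => .inr (.inr (.inr (.inr (.inr (.inr (.inr (.inr (.inr (.inr (.inr (.inr ()))))))))))) 

theorem Un.code_injective {s n q : ℕ} : Function.Injective (Un.code : Un s n q → _) := by
  intro x y h
  cases x <;> cases y <;> simp_all [Un.code]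

instance (s n q : ℕ) : Finite (Un s n q) := Finite.of_injective Un.code Un.code_injective

instance (s n q : ℕ) : MulAction (Equiv.Perm (Fin n)) (Un s n q) where
  smul σ x := match x with
    | .base a => .base (σ • a)
    | .w h i => .w h (σ i)
    | .I h i B => .I h (σ i) (σ • B)
    | .O i B => .O (σ i) (σ • B)
    | .g i => .g (σ i)
    | .z b i B => .z b (σ i) (σ • B)
    | .p i B => .p (σ i) (σ • B)
    | .e i => .e (σ i)
    | .E => .E
    | .tot b => .tot b
    | .y b B => .y b (σ • B)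
    | .c B => .c (σ • B)
    | .Q => .Q
  one_smul x := by
    cases x with
    | base a => exact congrArg Un.base (one_smul _ a)
    | w h i => rfl
    | I h i B => exact congrArg (Un.I h i) (one_smul _ B)
    | O i B => exact congrArg (Un.O i) (one_smul _ B)
    | g i => rfl
    | z b i B => exact congrArg (Un.z b i) (one_smul _ B)
    | p i B => exact congrArg (Un.p i) (one_smul _ B)
    | e i => rfl
    | E => rfl
    | tot b => rfl
    | y b B => exact congrArg (Un.y b) (one_smul _ B)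
    | c B => exact congrArg Un.c (one_smul _ B)
    | Q => rfl
  mul_smul σ τ x := by
    cases x with
    | base a => exact congrArg Un.base (mul_smul σ τ a)
    | w h i => rfl
    | I h i B => exact congrArg (Un.I h (σ (τ i))) (mul_smul σ τ B)
    | O i B => exact congrArg (Un.O (σ (τ i))) (mul_smul σ τ B)
    | g i => rfl
    | z b i B => exact congrArg (Un.z b (σ (τ i))) (mul_smul σ τ B)
    | p i B => exact congrArg (Un.p (σ (τ i))) (mul_smul σ τ B)
    | e i => rfl
    | E => rfl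
    | tot b => rfl
    | y b B => exact congrArg (Un.y b) (mul_smul σ τ B)
    | c B => exact congrArg Un.c (mul_smul σ τ B)
    | Q => rfl

variable {s n q : ℕ}

private theorem subf_inf_left' {k : ℕ} {φ θ : frL.BoundedFormula Empty k}
    {x : Σ k : ℕ, frL.BoundedFormula Empty k} (h : x ∈ subf φ) : x ∈ subf (φ ⊓ θ) :=
  Or.inr (Or.inl (Or.inr (Or.inl h)))

private theorem subf_inf_right' {k : ℕ} {φ θ : frL.BoundedFormula Empty k}
    {x : Σ k : ℕ, frL.BoundedFormula Empty k} (h : x ∈ subf θ) : x ∈ subf (φ ⊓ θ) :=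
  Or.inr (Or.inl (Or.inr (Or.inr (Or.inr (Or.inl h)))))

private theorem subf_all' {k : ℕ} {φ : frL.BoundedFormula Empty (k + 1)}
    {x : Σ k : ℕ, frL.BoundedFormula Empty k} (h : x ∈ subf φ) : x ∈ subf (∀' φ) :=
  Or.inr h

private theorem subf_imp_left' {k : ℕ} {φ θ : frL.BoundedFormula Empty k}
    {x : Σ k : ℕ, frL.BoundedFormula Empty k} (h : x ∈ subf φ) : x ∈ subf (φ ⟹ θ) :=
  Or.inr (Or.inl h)

private theorem self_mem_subf' {k : ℕ} (φ : frL.BoundedFormula Empty k) :
    (⟨k, φ⟩ : Σ k : ℕ, frL.BoundedFormula Empty k) ∈ subf φ :=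
  Pool.H31.SY.self_mem_subf φ

/-- The relation `act` occurs in the sentence. -/
theorem act_mem : ∃ (j : ℕ) (ts : Fin 3 → frL.Term (Empty ⊕ Fin j)),
    (⟨j, .rel (FRel.act : frL.Relations 3) ts⟩ : Σ k : ℕ, frL.BoundedFormula Empty k) ∈
      subf free :=
  ⟨4, ![&0, &1, &2], subf_inf_right' (subf_inf_left' (subf_all' (subf_all' (subf_all' (subf_all'
    (subf_imp_left' (self_mem_subf' _)))))))⟩

/-- The signed node of the atom `h i = j`. -/
def Dn (h : Fin s) (i j : Fin n) : Lit (Un s n q) :=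
  ⟨.base ⟨some (.inl ⟨⟨3, FRel.act⟩, act_mem⟩), ![Sum.inl h, Sum.inr i, Sum.inr j]⟩, true⟩

private def An (h : Fin s) (i j : Fin n) : Nd free s n :=
  ⟨some (.inl ⟨⟨3, FRel.act⟩, act_mem⟩), ![Sum.inl h, Sum.inr i, Sum.inr j]⟩

theorem Dn_smul (σ : Equiv.Perm (Fin n)) (h : Fin s) (i j : Fin n) :
    (Dn h (σ i) (σ j) : Lit (Un s n q)) = σ • Dn h i j := by
  have key : ∀ k : Fin 3, (![Sum.inl h, Sum.inr (σ i), Sum.inr (σ j)] : Fin 3 → Fin s ⊕ Fin n) k =
      Pool.H31.SY.pm σ ((![Sum.inl h, Sum.inr i, Sum.inr j] : Fin 3 → Fin s ⊕ Fin n) k) := by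
    intro k
    match k with
    | 0 => rfl
    | 1 => rfl
    | 2 => rfl
  have h1 : (An h (σ i) (σ j) : Nd free s n) = σ • An h i j := Pool.H31.SY.nd_ext key
  exact congrArg (fun a : Nd free s n => (⟨.base a, true⟩ : Lit (Un s n q))) h1

/-- `B` has `q` elements and `i` is one of them. -/
def Ok (i : Fin n) (B : Sl (Fin n) q) : Prop := B.set.card = q ∧ i ∈ B.set

theorem ok_smul (σ : Equiv.Perm (Fin n)) {i : Fin n} {B : Sl (Fin n) q} :
    Ok (σ i) (σ • B) ↔ Ok i B := by
  unfold Ok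
  rw [Pool.H31.PH.card_smul_sl, Pool.H31.PH.mem_smul_sl]
  refine and_congr_right fun _ => ?_
  constructor
  · rintro ⟨y, hy, h⟩
    have h1 : y = i := σ.injective h
    rwa [← h1]
  · intro h
    exact ⟨i, h, rfl⟩

/-- The positive signed nodes. -/
abbrev ps {V : Type} (T : Set V) : Set (Lit V) := (fun x => ⟨x, true⟩) '' T

/-- The label of a node. -/
noncomputable def gu (H : Finset (Fin s)) :
    Un s n q → Gate (Atom frL (Fin s ⊕ Fin n)) (Un s n q)
  | .base a => convG Un.base (gateN free 0 a)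
  | .w h i => .and {x | ∃ j, x = (Dn h i j).neg}
  | .I h i B => .and {x | ∃ j ∈ B.set, x = (Dn h i j).neg}
  | .O _ B => .and {x | ∃ h ∈ H, ∃ i ∈ B.set, x = ⟨.I h i B, false⟩}
  | .g i => .and {x | ∃ B, Ok i B ∧ x = ⟨.O i B, false⟩}
  | .z b i B => .sym {if b then 1 else 0} {⟨.O i B, true⟩}
  | .p i B => .and (ps {x | x = .z true i B ∨ ∃ B', Ok i B' ∧ B' ≠ B ∧ x = .z false i B'})
  | .e i => .sym {1} {x | ∃ B, Ok i B ∧ x = ⟨.O i B, true⟩}
  | .E => .and (ps {x | ∃ i, x = .e i})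
  | .tot b => .sym {c | if b then c = n else q ∣ c} {x | ∃ i B, Ok i B ∧ x = ⟨.O i B, true⟩}
  | .y b B => .and (ps {x | ∃ i ∈ B.set, x = .z b i B})
  | .c B => .sym {0, q} {x | ∃ i ∈ B.set, x = ⟨.O i B, true⟩}
  | .Q => .and (ps {x | ∃ B : Sl (Fin n) q, B.set.card = q ∧ x = .c B})

/-- The level of a node. -/
def ru : Un s n q → ℕ
  | .base a => rk free a
  | .w _ _ => dep free + 1
  | .I _ _ _ => dep free + 1
  | .O _ _ => dep free + 2
  | .g _ => dep free + 3
  | .z _ _ _ => dep free + 3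
  | .p _ _ => dep free + 4
  | .e _ => dep free + 3
  | .E => dep free + 4
  | .tot _ => dep free + 3
  | .y _ _ => dep free + 4
  | .c _ => dep free + 3
  | .Q => dep free + 4

theorem ru_lt (H : Finset (Fin s)) (a : Un s n q) :
    ∀ x ∈ (gu H a).children, ru x.node < ru a := by
  have hb : ∀ a : Nd free s n, rk free a ≤ dep free := Pool.H31.SY.rk_le
  have hD : ∀ h i j, ru (Dn h i j : Lit (Un s n q)).neg.node < dep free + 1 :=
    fun h i j => Nat.lt_succ_of_le
      (hb ⟨some (.inl ⟨⟨3, FRel.act⟩, act_mem⟩), ![Sum.inl h, Sum.inr i, Sum.inr j]⟩)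
  cases a with
  | base a =>
    intro x hx
    have h1 := Pool.H31.SY.rk_lt free 0 a
    cases hg : gateN free 0 a with
    | var v =>
      have h2 : x ∈ (convG Un.base (gateN free 0 a)).children := hx
      rw [hg] at h2
      exact absurd h2 (Set.notMem_empty _)
    | and S =>
      have h2 : x ∈ (convG Un.base (gateN free 0 a)).children := hx
      rw [hg] at h2 h1
      obtain ⟨y, hy, rfl⟩ := h2
      exact h1 y hy
    | mod c S =>
      have h2 : x ∈ (convG Un.base (gateN free 0 a)).children := hx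
      rw [hg] at h2 h1
      obtain ⟨y, hy, rfl⟩ := h2
      exact h1 y hy
  | w h i =>
    rintro x ⟨j, rfl⟩
    exact hD h i j
  | I h i B =>
    rintro x ⟨j, -, rfl⟩
    exact hD h i j
  | O i B =>
    rintro x ⟨h, -, j, -, rfl⟩
    exact Nat.lt_succ_self _
  | g i =>
    rintro x ⟨B, -, rfl⟩
    exact Nat.lt_succ_self _
  | z b i B =>
    intro x hx
    obtain rfl : x = _ := hx
    exact Nat.lt_succ_self _
  | p i B =>
    rintro x ⟨y, (rfl | ⟨B', -, -, rfl⟩), rfl⟩
    · exact Nat.lt_succ_self _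
    · exact Nat.lt_succ_self _
  | e i =>
    rintro x ⟨B, -, rfl⟩
    exact Nat.lt_succ_self _
  | E =>
    rintro x ⟨y, ⟨i, rfl⟩, rfl⟩
    exact Nat.lt_succ_self _
  | tot b =>
    rintro x ⟨i, B, -, rfl⟩
    exact Nat.lt_succ_self _
  | y b B =>
    rintro x ⟨z, ⟨i, -, rfl⟩, rfl⟩
    exact Nat.lt_succ_self _
  | c B =>
    rintro x ⟨i, -, rfl⟩
    exact Nat.lt_succ_self _
  | Q =>
    rintro x ⟨z, ⟨B, -, rfl⟩, rfl⟩
    exact Nat.lt_succ_self _

private theorem convG_act {L : FirstOrder.Language.{0, 0}} {N N' : Type}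
    [MulAction (Equiv.Perm (Fin n)) N] [MulAction (Equiv.Perm (Fin n)) N'] (f : N → N')
    (hf : ∀ (σ : Equiv.Perm (Fin n)) (x : N), f (σ • x) = σ • f x) (σ : Equiv.Perm (Fin n))
    (g : Pool.H93.SY.Gate (Atom L (Fin s ⊕ Fin n)) N 0) :
    convG f (g.act σ) = (convG f g).act σ := by
  have key : ∀ S : Set (Lit N), mapL f '' (σ • S) = σ • (mapL f '' S) := by
    intro S
    apply Pool.H31.PH.smul_set_of
    intro x
    constructor
    · rintro ⟨y, hy, rfl⟩
      refine ⟨σ • y, Set.smul_mem_smul_set hy, ?_⟩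
      show (⟨f (σ • y.node), y.pos⟩ : Lit N') = ⟨σ • f y.node, y.pos⟩
      rw [hf]
    · rintro ⟨y, hy, hyx⟩
      obtain ⟨w, hw, rfl⟩ := Set.mem_smul_set.1 hy
      refine ⟨w, hw, ?_⟩
      apply MulAction.injective σ
      show σ • mapL f w = σ • x
      rw [← hyx]
      show (⟨σ • f w.node, w.pos⟩ : Lit N') = ⟨f (σ • w.node), w.pos⟩
      rw [hf]
  cases g with
  | var v => rfl
  | and S => exact congrArg Gate.and (key S)
  | mod c S => exact congrArg (Gate.sym _) (key S)

private theorem gu_base_act (H : Finset (Fin s)) (σ : Equiv.Perm (Fin n)) (a : Nd free s n) :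
    gu H (σ • (Un.base a : Un s n q)) = (gu H (Un.base a : Un s n q)).act σ := by
  show convG Un.base (gateN free 0 (σ • a)) = (convG Un.base (gateN free 0 a)).act σ
  rw [Pool.H31.SY.gateN_act]
  exact convG_act Un.base (fun _ _ => rfl) σ _

private theorem children_act {V : Type} [MulAction (Equiv.Perm (Fin n)) V]
    (σ : Equiv.Perm (Fin n)) (g : Gate (Atom frL (Fin s ⊕ Fin n)) V) :
    (g.act σ).children = σ • g.children := by
  cases g with
  | var v =>
    show (∅ : Set (Lit V)) = σ • (∅ : Set (Lit V))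
    rw [Set.smul_set_empty]
  | and S => rfl
  | sym A S => rfl

private theorem gu_mem (H : Finset (Fin s)) (σ : Equiv.Perm (Fin n)) (a : Un s n q)
    {x : Lit (Un s n q)} (hx : x ∈ (gu H a).children) : σ • x ∈ (gu H (σ • a)).children := by
  cases a with
  | base a =>
    rw [gu_base_act, children_act]
    exact Set.smul_mem_smul_set hx
  | w h i =>
    obtain ⟨j, rfl⟩ := hx
    refine ⟨σ j, ?_⟩
    rw [Dn_smul]
    rfl
  | I h i B =>
    obtain ⟨j, hj, rfl⟩ := hx
    refine ⟨σ j, Pool.H31.PH.mem_smul_sl.2 ⟨j, hj, rfl⟩, ?_⟩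
    rw [Dn_smul]
    rfl
  | O i B =>
    obtain ⟨h, hh, j, hj, rfl⟩ := hx
    exact ⟨h, hh, σ j, Pool.H31.PH.mem_smul_sl.2 ⟨j, hj, rfl⟩, rfl⟩
  | g i =>
    obtain ⟨B, hB, rfl⟩ := hx
    exact ⟨σ • B, (ok_smul σ).2 hB, rfl⟩
  | z b i B =>
    obtain rfl : x = _ := hx
    exact rfl
  | p i B =>
    obtain ⟨y, (rfl | ⟨B', h1, h2, rfl⟩), rfl⟩ := hx
    · exact ⟨_, Or.inl rfl, rfl⟩
    · exact ⟨_, Or.inr ⟨σ • B', (ok_smul σ).2 h1, fun e => h2 (MulAction.injective σ e), rfl⟩, rfl⟩
  | e i =>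
    obtain ⟨B, hB, rfl⟩ := hx
    exact ⟨σ • B, (ok_smul σ).2 hB, rfl⟩
  | E =>
    obtain ⟨y, ⟨i, rfl⟩, rfl⟩ := hx
    exact ⟨_, ⟨σ i, rfl⟩, rfl⟩
  | tot b =>
    obtain ⟨i, B, hB, rfl⟩ := hx
    exact ⟨σ i, σ • B, (ok_smul σ).2 hB, rfl⟩
  | y b B =>
    obtain ⟨y, ⟨i, hi, rfl⟩, rfl⟩ := hx
    exact ⟨_, ⟨σ i, Pool.H31.PH.mem_smul_sl.2 ⟨i, hi, rfl⟩, rfl⟩, rfl⟩
  | c B =>
    obtain ⟨i, hi, rfl⟩ := hx
    exact ⟨σ i, Pool.H31.PH.mem_smul_sl.2 ⟨i, hi, rfl⟩, rfl⟩
  | Q =>
    obtain ⟨y, ⟨B, hB, rfl⟩, rfl⟩ := hx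
    exact ⟨_, ⟨σ • B, (Pool.H31.PH.card_smul_sl σ B).trans hB, rfl⟩, rfl⟩

private theorem gu_children (H : Finset (Fin s)) (σ : Equiv.Perm (Fin n)) (a : Un s n q) :
    (gu H (σ • a)).children = σ • (gu H a).children := by
  apply Pool.H31.PH.smul_set_of
  intro x
  constructor
  · exact gu_mem H σ a
  · intro h
    have h1 := gu_mem H σ⁻¹ (σ • a) h
    rwa [inv_smul_smul, inv_smul_smul] at h1

theorem gu_act (H : Finset (Fin s)) (σ : Equiv.Perm (Fin n)) (a : Un s n q) :
    gu H (σ • a) = (gu H a).act σ := by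
  cases a with
  | base a => exact gu_base_act H σ a
  | w h i => exact congrArg Gate.and (gu_children H σ (.w h i))
  | I h i B => exact congrArg Gate.and (gu_children H σ (.I h i B))
  | O i B => exact congrArg Gate.and (gu_children H σ (.O i B))
  | g i => exact congrArg Gate.and (gu_children H σ (.g i))
  | z b i B => exact congrArg (Gate.sym _) (gu_children H σ (.z b i B))
  | p i B => exact congrArg Gate.and (gu_children H σ (.p i B))
  | e i => exact congrArg (Gate.sym _) (gu_children H σ (.e i))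
  | E => exact congrArg Gate.and (gu_children H σ .E)
  | tot b => exact congrArg (Gate.sym _) (gu_children H σ (.tot b))
  | y b B => exact congrArg Gate.and (gu_children H σ (.y b B))
  | c B => exact congrArg (Gate.sym _) (gu_children H σ (.c B))
  | Q => exact congrArg Gate.and (gu_children H σ .Q)

/-- The circuit. -/
noncomputable def uc (s n q : ℕ) (H : Finset (Fin s)) : Circuit frL s n where
  N := Un s n q
  gate := gu H
  rank := ru
  rank_lt := ru_lt H
  gate_smul := gu_act H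

/-- A large number. -/
noncomputable def big (s n q : ℕ) : ℕ := s + n + q + 4 + Nat.card (Sl (Fin n) q) + n ^ q

/-- Some `D h i j` is true. -/
def LV (h : Fin s) (i : Fin n) : Set (Lit (Un s n q)) := {x | ∃ j, x = Dn h i j}

/-- The line `¬ D h i j, ¬ D h' i j'`. -/
def LF (h h' : Fin s) (i j j' : Fin n) : Set (Lit (Un s n q)) :=
  {(Dn h i j).neg, (Dn h' i j').neg}

/-- The basic lines of the argument. -/
structure Basic (G : Group (Fin s)) (Ls : Set (Set (Lit (Un s n q)))) : Prop where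
  tot : ∀ h i, LV h i ∈ Ls
  fn : ∀ h i j j', j ≠ j' → LF h h i j j' ∈ Ls
  fr : ∀ h h' i j, h ≠ h' → LF h h' i j j ∈ Ls
  mul : ∀ a b i j x, {(Dn b i j).neg, (Dn a j x).neg, Dn (G.mul a b) i x} ∈ Ls
  one : ∀ i, {Dn G.one i i} ∈ Ls

/-- The line: one of the sets containing `i` is closed. -/
def Ex (i : Fin n) : Set (Lit (Un s n q)) := {x | ∃ B, Ok i B ∧ x = ⟨.O i B, true⟩}

/-- The line: two sets containing `i` are not both closed. -/
def Uq (i : Fin n) (B B' : Sl (Fin n) q) : Set (Lit (Un s n q)) :=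
  {⟨.O i B, false⟩, ⟨.O i B', false⟩}

/-- The elements of `H`, the first one is the unit element. -/
structure Enum (G : Group (Fin s)) (q : ℕ) (H : Finset (Fin s)) where
  /-- the enumeration -/
  h : Fin q → Fin s
  inj : Function.Injective h
  mem : ∀ x, x ∈ H ↔ ∃ a, h a = x
  pos : 0 < q
  zero : h ⟨0, pos⟩ = G.one
  mul : ∀ a b, ∃ c, h c = G.mul (h a) (h b)

/-- The negated atoms `h a i = j a`, `a < r`. -/
def NB (hh : Fin q → Fin s) (i : Fin n) (j : Fin q → Fin n) (r : ℕ) : Set (Lit (Un s n q)) :=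
  {x | ∃ a : Fin q, a.val < r ∧ x = (Dn (hh a) i (j a)).neg}

end Pool.H93.CG
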