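import Pool.Agent.H93.CG.UFam
import Pool.Agent.H31.PH.Emb

/-!
# [H93 CG UE] Derivations with exact counting gates

A circuit `C₀` of `Pool.H93.SY` with exact counting gates (`m = 0`, `ZMod 0 = ℤ`) inside a circuit `C` with symmetric
gates: `.mod c S ↦ .sym {j | (j : ℤ) = c} S`.

PROOF of `step_conv` (complete): by cases on the rule; the proof of `step_map` in `Pool/Agent/H31/PH/Emb.lean` is the model
(`rep_map`, `mapL_injective`, `Set.image_insert_eq`, …; `rep_conv` first, the copy of `rep_map`).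
 * `total`: impossible: it would give an injective map from `ZMod 0 = ℤ` to the finite type `C₀.N` (`c` is determined by the label
   of the node; `Infinite`, `not_injective_infinite_finite`).
 * `excl` (`C₀.gate a = .mod c S`, `C₀.gate b = .mod d S`, `c ≠ d`, `⟨a, false⟩ ∈ Γ`, `⟨b, false⟩ ∈ Γ`): rule `cover` for the set
   `mapL ι '' S`: for a number `j`: if `(j : ℤ) = c` then `(j : ℤ) ≠ d` and `b` works (`j ∉ A`, sign `false`), otherwise `a` works.
 * `one`, `zero`: rule `unit` (`((1 : ℕ) : ℤ) = 1`, `((0 : ℕ) : ℤ) = 0`).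
 * `sum`: rule `sum` with `T' = ι '' T`, `A (ι b) = {j | (j : ℤ) = c b}`, `S' (ι b) = mapL ι '' S b` (`Function.extend`, see `step_map`);
   if `c' x ∈ A x` for all `x ∈ ι '' T` then `∑ᶠ x ∈ ι '' T, c' x = ∑ᶠ b ∈ T, c' (ι b)` (`finsum_mem_image`), and its cast is
   `∑ᶠ b ∈ T, c b` (`Nat.cast` and `finsum_mem`: `AddMonoidHom.map_finsum_mem`, as in `step_classical`).
 * the other rules are unchanged.
`goodC_conv`: as `goodD_map` in `Pool/Agent/H31/PH/Emb.lean`.
-/

set_option autoImplicit false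

namespace Pool.H93.CG

open FirstOrder FirstOrder.Language
open Pool.H93.SY (Lit Atom)
open Pool.H31.PH (mapL GoodD)
open scoped Pointwise

variable {L : FirstOrder.Language.{0, 0}} [L.IsRelational]

/-- Labels with exact counting gates as labels with symmetric gates. -/
def convG {V N N' : Type} (f : N → N') : Pool.H93.SY.Gate V N 0 → Gate V N'
  | .var v => .var v
  | .and S => .and (mapL f '' S)
  | .mod c S => .sym {j : ℕ | ((j : ℕ) : ZMod 0) = c} (mapL f '' S)

variable {ψ : L.Sentence} {s n : ℕ} {D : Set (Atom L (Fin s ⊕ Fin n) × Bool)}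
  {C₀ : Pool.H93.SY.Circuit L 0 s n} {C : Circuit L s n}

private theorem rep_conv (ι : C₀.N → C.N) (hι : ∀ a, C.gate (ι a) = convG ι (C₀.gate a)) {k : ℕ}
    (φ : L.BoundedFormula Empty k) (v : Fin k → Fin s ⊕ Fin n) (x : Lit C₀.N)
    (h : C₀.Rep φ v x) : C.Rep φ v (mapL ι x) := by
  induction φ generalizing x with
  | falsum =>
    refine ⟨h.1, ?_⟩
    show C.gate (ι x.node) = _
    rw [hι, h.2]
    exact congrArg Gate.and (Set.image_empty _)
  | equal t₁ t₂ =>
    refine ⟨h.1, ?_⟩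
    show C.gate (ι x.node) = _
    rw [hι, h.2]
    exact congrArg Gate.and (Set.image_empty _)
  | rel R ts =>
    refine ⟨h.1, ?_⟩
    show C.gate (ι x.node) = _
    rw [hι, h.2]
    rfl
  | imp φ χ ih1 ih2 =>
    obtain ⟨h1, y, z, h2, h3, h4⟩ := h
    refine ⟨h1, mapL ι y, mapL ι z, ih1 v y h2, ih2 v z h3, ?_⟩
    show C.gate (ι x.node) = _
    rw [hι, h4]
    exact congrArg Gate.and (Set.image_pair _ _ _)
  | all φ ih =>
    obtain ⟨h1, S, h2, h3, h4⟩ := h
    refine ⟨h1, mapL ι '' S, ?_, ?_, ?_⟩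
    · show C.gate (ι x.node) = _
      rw [hι, h2]
      rfl
    · intro b
      obtain ⟨y, hy, hy2⟩ := h3 b
      exact ⟨mapL ι y, ⟨y, hy, rfl⟩, ih _ y hy2⟩
    · rintro _ ⟨y, hy, rfl⟩
      obtain ⟨b, hb⟩ := h4 y hy
      exact ⟨b, ih _ y hb⟩

theorem step_conv (ι : C₀.N → C.N) (hinj : Function.Injective ι)
    (hι : ∀ a, C.gate (ι a) = convG ι (C₀.gate a)) {P : Set (Set (Lit C₀.N))}
    {Γ : Set (Lit C₀.N)} (h : Pool.H93.SY.Step ψ D C₀ P Γ) :
    Step ψ D C ((fun Γ => mapL ι '' Γ) '' P) (mapL ι '' Γ) := by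
  have hand : ∀ (a : C₀.N) (S : Set (Lit C₀.N)), C₀.gate a = .and S →
      C.gate (ι a) = .and (mapL ι '' S) := by
    intro a S h
    rw [hι, h]
    rfl
  have hmod : ∀ (a : C₀.N) (c : ZMod 0) (S : Set (Lit C₀.N)), C₀.gate a = .mod c S →
      C.gate (ι a) = .sym {j : ℕ | ((j : ℕ) : ZMod 0) = c} (mapL ι '' S) := by
    intro a c S h
    rw [hι, h]
    rfl
  cases h with
  | @hyp x h1 h2 => exact .hyp (rep_conv ι hι ψ default x h1) ⟨x, h2, rfl⟩
  | @fact a v b h1 h2 h3 =>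
    refine .fact (a := ι a) (v := v) (b := b) ?_ h2 ⟨_, h3, rfl⟩
    rw [hι, h1]
    rfl
  | @ident a b h1 h2 h3 =>
    refine .ident (a := ι a) (b := ι b) ?_ ⟨_, h2, rfl⟩ ⟨_, h3, rfl⟩
    rw [hι, hι, h1]
  | @weak Δ h1 h2 => exact .weak ⟨Δ, h1, rfl⟩ (Set.image_mono h2)
  | @cut a h1 h2 =>
    refine .cut (a := ι a) ⟨_, h1, ?_⟩ ⟨_, h2, ?_⟩
    · exact Set.image_insert_eq
    · exact Set.image_insert_eq
  | @andI S a h1 h2 h3 =>
    refine .andI (a := ι a) (hand a S h1) ⟨_, h2, rfl⟩ ?_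
    rintro _ ⟨x, hx, rfl⟩
    exact ⟨_, h3 x hx, Set.image_insert_eq⟩
  | @andE S a h1 h2 h3 =>
    refine .andE (a := ι a) (hand a S h1) ⟨_, h2, rfl⟩ ⟨_, h3, ?_⟩
    show mapL ι '' (Γ ∪ Lit.neg '' S) = mapL ι '' Γ ∪ Lit.neg '' (mapL ι '' S)
    rw [Set.image_union, Set.image_image, Set.image_image]
    rfl
  | @total S h1 =>
    exfalso
    choose f hf using h1
    have hf2 : Function.Injective f := by
      intro c d hcd
      have h2 := (hf c).1
      rw [hcd, (hf d).1] at h2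
      injection h2 with h3 h4
      exact h3.symm
    have : Infinite (ZMod 0) := inferInstanceAs (Infinite ℤ)
    exact not_injective_infinite_finite f hf2
  | @excl S a b c d h1 h2 h3 h4 h5 =>
    refine .cover (S := mapL ι '' S) ?_
    intro j _
    by_cases hj : ((j : ℕ) : ZMod 0) = c
    · refine ⟨ι b, _, false, hmod b d S h2, ?_, ⟨_, h5, rfl⟩⟩
      simp only [Set.mem_ofPred_eq, Bool.false_eq_true, iff_false]
      rw [hj]
      exact h3
    · refine ⟨ι a, _, false, hmod a c S h1, ?_, ⟨_, h4, rfl⟩⟩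
      simp only [Set.mem_ofPred_eq, Bool.false_eq_true, iff_false]
      exact hj
  | @one a x h1 h2 h3 =>
    refine .unit (a := ι a) (A := {j : ℕ | ((j : ℕ) : ZMod 0) = 1}) (x := mapL ι x) ?_
      ⟨_, h3, rfl⟩ (Or.inl ⟨?_, ⟨_, h2, rfl⟩⟩)
    · rw [hmod a 1 {x} h1, Set.image_singleton]
    · show ((1 : ℕ) : ZMod 0) = 1
      exact Nat.cast_one
  | @zero a x h1 h2 h3 =>
    refine .unit (a := ι a) (A := {j : ℕ | ((j : ℕ) : ZMod 0) = 0}) (x := mapL ι x) ?_
      ⟨_, h3, rfl⟩ (Or.inr ⟨?_, ⟨_, h2, rfl⟩⟩)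
    · rw [hmod a 0 {x} h1, Set.image_singleton]
    · show ((0 : ℕ) : ZMod 0) = 0
      exact Nat.cast_zero
  | @sum a p T c S h1 h2 h3 h4 h5 h6 =>
    have e1 : ∀ b, Function.extend ι (fun b => {j : ℕ | ((j : ℕ) : ZMod 0) = c b}) (fun _ => ∅)
        (ι b) = {j : ℕ | ((j : ℕ) : ZMod 0) = c b} := fun b => hinj.extend_apply _ _ b
    have e2 : ∀ b, Function.extend ι (fun b => mapL ι '' S b) (fun _ => ∅) (ι b) =
        mapL ι '' S b := fun b => hinj.extend_apply _ _ b
    refine .sum (a := ι a) (p := ι p) (T := ι '' T)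
      (A := Function.extend ι (fun b => {j : ℕ | ((j : ℕ) : ZMod 0) = c b}) (fun _ => ∅))
      (A' := {j : ℕ | ((j : ℕ) : ZMod 0) = ∑ᶠ b ∈ T, c b})
      (S := Function.extend ι (fun b => mapL ι '' S b) (fun _ => ∅)) ?_ ?_ ?_ ?_ ?_
      ⟨_, h5, rfl⟩ ⟨_, h6, rfl⟩
    · rintro _ ⟨b, hb, rfl⟩
      rw [e1, e2]
      exact hmod b _ _ (h1 b hb)
    · rintro _ ⟨b, hb, rfl⟩ _ ⟨b', hb', rfl⟩ hne
      have hbb : b ≠ b' := fun e => hne (congrArg ι e)
      show Disjoint (Function.extend ι (fun b => mapL ι '' S b) (fun _ => ∅) (ι b))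
        (Function.extend ι (fun b => mapL ι '' S b) (fun _ => ∅) (ι b'))
      rw [e2, e2, Set.disjoint_image_iff (Pool.H31.PH.mapL_injective hinj)]
      exact h2 hb hb' hbb
    · rw [hand p _ h3, Set.image_image, Set.image_image]
      rfl
    · rw [hmod a _ _ h4, Set.biUnion_image, Set.image_iUnion₂]
      simp only [e2]
    · intro c' hc'
      show ((∑ᶠ b ∈ ι '' T, c' b : ℕ) : ZMod 0) = ∑ᶠ b ∈ T, c b
      rw [finsum_mem_image hinj.injOn]
      have h7 := AddMonoidHom.map_finsum_mem (fun b => c' (ι b)) (Nat.castAddMonoidHom (ZMod 0))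
        (Set.toFinite T)
      simp only [Nat.coe_castAddMonoidHom] at h7
      rw [h7]
      refine finsum_mem_congr rfl ?_
      intro b hb
      have h8 := hc' (ι b) ⟨b, hb, rfl⟩
      rw [e1] at h8
      exact h8

theorem goodC_conv (ι : C₀.N → C.N) (hinj : Function.Injective ι)
    (hι : ∀ a, C.gate (ι a) = convG ι (C₀.gate a))
    (hσ : ∀ (σ : Equiv.Perm (Fin n)) (a : C₀.N), ι (σ • a) = σ • ι a)
    {Ls : Set (Set (Lit C₀.N))} (h : GoodD ψ D C₀ Ls) :
    GoodC ψ D C ((fun Γ => mapL ι '' Γ) '' Ls) := by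
  obtain ⟨hc, order, ho⟩ := h
  refine ⟨?_, fun Γ => order (mapL ι ⁻¹' Γ), ?_⟩
  · rintro σ _ ⟨Γ, hΓ, rfl⟩
    exact ⟨σ • Γ, hc σ Γ hΓ, Pool.H31.PH.mapL_image_smul ι hσ σ Γ⟩
  · rintro _ ⟨Γ, hΓ, rfl⟩
    refine step_more ?_ (step_conv ι hinj hι (ho Γ hΓ))
    rintro _ ⟨Δ, ⟨h1, h2⟩, rfl⟩
    refine ⟨⟨Δ, h1, rfl⟩, ?_⟩
    show order (mapL ι ⁻¹' (mapL ι '' Δ)) < order (mapL ι ⁻¹' (mapL ι '' Γ))
    rw [Set.preimage_image_eq _ (Pool.H31.PH.mapL_injective hinj),
      Set.preimage_image_eq _ (Pool.H31.PH.mapL_injective hinj)]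
    exact h2

/-- A circuit with exact counting gates as a circuit with symmetric gates. -/
def convC (C₀ : Pool.H93.SY.Circuit L 0 s n) : Circuit L s n where
  N := C₀.N
  gate a := convG id (C₀.gate a)
  rank := C₀.rank
  rank_lt a x hx := by
    refine C₀.rank_lt a x ?_
    cases hg : C₀.gate a with
    | var v =>
      rw [hg] at hx
      exact hx
    | and S =>
      rw [hg] at hx
      obtain ⟨y, hy, rfl⟩ := hx
      exact hy
    | mod c S =>
      rw [hg] at hx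
      obtain ⟨y, hy, rfl⟩ := hx
      exact hy
  gate_smul σ a := by
    have key : ∀ S : Set (Lit C₀.N), mapL (id : C₀.N → C₀.N) '' S = S := by
      intro S
      ext x
      constructor
      · rintro ⟨y, hy, rfl⟩
        exact hy
      · intro hx
        exact ⟨x, hx, rfl⟩
    rw [C₀.gate_smul]
    cases C₀.gate a with
    | var v => rfl
    | and S =>
      show Gate.and (mapL id '' (σ • S)) = Gate.and (σ • (mapL id '' S))
      rw [key, key]
    | mod c S =>
      show Gate.sym _ (mapL id '' (σ • S)) = Gate.sym _ (σ • (mapL id '' S))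
      rw [key, key]

/-- A refutation with exact counting gates is a refutation with symmetric gates. -/
theorem refutation_conv (R₀ : Pool.H93.SY.Refutation ψ 0 s n D) :
    ∃ R : Refutation ψ s n D, R.size = R₀.size := by
  have h : GoodC ψ D (convC R₀.C) ((fun Γ => mapL (id : R₀.C.N → R₀.C.N) '' Γ) '' R₀.lines) :=
    goodC_conv (C₀ := R₀.C) (C := convC R₀.C) (fun a => a) Function.injective_id (fun _ => rfl)
      (fun _ _ => rfl) ⟨R₀.smul_mem, R₀.order, R₀.step⟩
  obtain ⟨R, -, hR⟩ := h.refutation ⟨∅, R₀.empty_mem, Set.image_empty _⟩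
  refine ⟨R, ?_⟩
  have hinj : Function.Injective (fun Γ : Set (Lit R₀.C.N) => mapL (id : R₀.C.N → R₀.C.N) '' Γ) :=
    (Pool.H31.PH.mapL_injective Function.injective_id).image_injective
  exact hR.trans (congrArg (fun x => Nat.card R₀.C.N + x)
    (Set.ncard_image_of_injective R₀.lines hinj))

end Pool.H93.CG
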