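import Pool.Agent.H93.CG.UBr
import Pool.Agent.H93.CG.UCl

/-!
# [H93 CG UX] Every point is in a closed set

PROOF (complete). Let `h = hE.h`, `0` the index of the unit element. `closed_lines` gives the lines `K`. The index type of all families
is (a finite power product containing) `(Fin q → Fin n) × Fin n × …`; every family is added by `goodC_add`.
Let `i` be a point, `j : Fin q → Fin n`, `N = NB h i j q = {(Dn (h a) i (j a)).neg | a}`.
Case 1: `j` is injective and `j 0 = i`. Let `B` be the set of the `j a` (`q` elements, `Ok i B`).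
 (1a) For `a`, `b`: `N ∪ {⟨I (h b) (j a) B, false⟩} ∪ {Dn (h b) (j a) x | x ∈ B}` by `weak` from `K a b c i (j a) (j c)`,
   `h c = h b * h a` (`hE.mul`).
 (1b) `N ∪ {⟨I (h b) (j a) B, false⟩}` by `andE`.
 (1c) `insert ⟨I (h b) (j a) B, false⟩ (N ∪ {⟨O i B, true⟩})` by `weak`.
 (1d) `N ∪ {⟨O i B, true⟩}` by `andI` (the members of the set of `O i B` are the `⟨I x y B, false⟩`, `x ∈ H`, `y ∈ B`; `x = h b`,
   `y = j a`).
 (1e) `N ∪ Ex i` by `weak`.
Case 2: `j a = j b` for some `a ≠ b`: `N ∪ Ex i` by `weak` from `hb.fr (h a) (h b) i (j a)`.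
Case 3: `j 0 ≠ i`: `insert (Dn 1 i i) {(Dn 1 i (j 0)).neg}` and `insert (Dn 1 i i).neg {(Dn 1 i (j 0)).neg}` by `weak` from `hb.one i`,
 `hb.fn 1 i i (j 0)`; `{(Dn 1 i (j 0)).neg}` by `cut`; `N ∪ Ex i` by `weak`.
So `N ∪ Ex i` is derived for all `j`, and `branch` with `Y = Fin n`, `V = univ`, `pt = id`, `Γ i = Ex i` gives the lines `Ex i`
(`σ • Ex i = Ex (σ i)` by `ok_smul`).
`Basic G` is monotone in `Ls`. Every family has at most `n ^ q * n * q ^ 2 ≤ big ^ 4` lines; about 8 families.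
-/

set_option autoImplicit false

namespace Pool.H93.CG

open FirstOrder FirstOrder.Language
open Pool.H93.SY (Lit Atom)
open Pool.H31.SY (Nd gateN rk dep subf Rels)
open Pool.H31.PH (Sl mapL)
open scoped Pointwise

variable {s n q : ℕ}

private theorem negDn_smul (σ : Equiv.Perm (Fin n)) (h : Fin s) (i j : Fin n) :
    (Dn h (σ i) (σ j) : Lit (Un s n q)).neg = σ • (Dn h i j).neg := by
  rw [Dn_smul]
  rfl

private theorem nb_smul (hh : Fin q → Fin s) (σ : Equiv.Perm (Fin n)) (i : Fin n)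
    (j : Fin q → Fin n) (r : ℕ) : NB hh (σ i) (σ ∘ j) r = σ • NB hh i j r := by
  refine Pool.H31.PH.smul_set_of σ fun x => ?_
  constructor
  · rintro ⟨a, ha, rfl⟩
    exact ⟨a, ha, (negDn_smul σ _ _ _).symm⟩
  · rintro ⟨a, ha, hx⟩
    refine ⟨a, ha, ?_⟩
    apply MulAction.injective σ
    show σ • x = σ • (Dn (hh a) i (j a)).neg
    rw [hx]
    exact negDn_smul σ _ _ _

private theorem ex_smul (σ : Equiv.Perm (Fin n)) (i : Fin n) :
    (Ex (σ i) : Set (Lit (Un s n q))) = σ • Ex i := by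
  refine Pool.H31.PH.smul_set_of σ fun x => ?_
  constructor
  · rintro ⟨B, hB, rfl⟩
    exact ⟨σ • B, (ok_smul σ).2 hB, rfl⟩
  · rintro ⟨B, hB, hx⟩
    refine ⟨σ⁻¹ • B, ?_, ?_⟩
    · rw [← ok_smul σ, smul_inv_smul]
      exact hB
    · apply MulAction.injective σ
      show σ • x = (⟨.O (σ i) (σ • σ⁻¹ • B), true⟩ : Lit (Un s n q))
      rw [smul_inv_smul, hx]

/-- The atoms `h y = z`, `z ∈ B`. -/
private def DB (h : Fin s) (y : Fin n) (B : Sl (Fin n) q) : Set (Lit (Un s n q)) :=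
  {x | ∃ z ∈ B.set, x = Dn h y z}

private theorem db_smul (σ : Equiv.Perm (Fin n)) (h : Fin s) (y : Fin n) (B : Sl (Fin n) q) :
    DB h (σ y) (σ • B) = σ • DB h y B := by
  refine Pool.H31.PH.smul_set_of σ fun x => ?_
  constructor
  · rintro ⟨z, hz, rfl⟩
    exact ⟨σ z, Pool.H31.PH.mem_smul_sl.2 ⟨z, hz, rfl⟩, (Dn_smul σ _ _ _).symm⟩
  · rintro ⟨z, hz, hx⟩
    obtain ⟨w, hw, rfl⟩ := Pool.H31.PH.mem_smul_sl.1 hz
    refine ⟨w, hw, ?_⟩
    apply MulAction.injective σ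
    show σ • x = σ • Dn h y w
    rw [hx]
    exact Dn_smul σ _ _ _

/-- The set of the values of `j`. -/
private def Bs (j : Fin q → Fin n) : Sl (Fin n) q :=
  ⟨Finset.univ.image j, Finset.card_image_le.trans (by simp)⟩

private theorem bs_smul (σ : Equiv.Perm (Fin n)) (j : Fin q → Fin n) : Bs (σ ∘ j) = σ • Bs j := by
  refine Pool.H31.PH.Sl.ext ?_
  show Finset.univ.image (σ ∘ j) = (Finset.univ.image j).image (σ • ·)
  rw [Finset.image_image]
  rfl

private theorem mem_bs (j : Fin q → Fin n) (a : Fin q) : j a ∈ (Bs j).set :=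
  Finset.mem_image.2 ⟨a, Finset.mem_univ _, rfl⟩

private theorem ok_bs {j : Fin q → Fin n} (hj : Function.Injective j) (a : Fin q) :
    Ok (j a) (Bs j) := by
  refine ⟨?_, mem_bs j a⟩
  show (Finset.univ.image j).card = q
  rw [Finset.card_image_of_injective _ hj]
  simp

/-- The indices. -/
private abbrev Ix (n q : ℕ) : Type := (Fin q → Fin n) × Fin n × Fin q × Fin q

private def axt (σ : Equiv.Perm (Fin n)) (t : Ix n q) : Ix n q := (σ ∘ t.1, σ t.2.1, t.2.2)

private theorem big_facts : 4 ≤ big s n q ∧ n + 1 ≤ big s n q ∧ q ≤ big s n q ∧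
    n ^ q ≤ big s n q := by
  unfold big
  refine ⟨?_, ?_, ?_, ?_⟩ <;> omega

private theorem card_ix : Nat.card (Ix n q) ≤ big s n q ^ 4 := by
  obtain ⟨h1, h2, h3, h4⟩ := big_facts (s := s) (n := n) (q := q)
  have h5 : Nat.card (Ix n q) = n ^ q * (n * (q * q)) := by
    simp
  rw [h5]
  have h6 : n ≤ big s n q := by omega
  calc n ^ q * (n * (q * q)) ≤ big s n q * (big s n q * (big s n q * big s n q)) :=
        Nat.mul_le_mul h4 (Nat.mul_le_mul h6 (Nat.mul_le_mul h3 h3))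
    _ = big s n q ^ 4 := by ring

private theorem basic_mono {G : Group (Fin s)} {Ls Ls' : Set (Set (Lit (Un s n q)))}
    (hb : Basic G Ls) (h : Ls ⊆ Ls') : Basic G Ls' :=
  ⟨fun a i => h (hb.tot a i), fun a i j j' hj => h (hb.fn a i j j' hj),
    fun a b i j hj => h (hb.fr a b i j hj), fun a b i j x => h (hb.mul a b i j x),
    fun i => h (hb.one i)⟩

private theorem grow {G : Group (Fin s)} {H : Finset (Fin s)}
    {Ls : Set (Set (Lit (Un s n q)))} (hg : GoodC free (table G n) (uc s n q H) Ls)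
    (F : Ix n q → Set (Lit (Un s n q))) (J : Set (Ix n q))
    (hJ : ∀ σ : Equiv.Perm (Fin n), ∀ t ∈ J, axt σ t ∈ J)
    (hF : ∀ (σ : Equiv.Perm (Fin n)) (t : Ix n q), F (axt σ t) = σ • F t)
    (hs : ∀ t ∈ J, Step free (table G n) (uc s n q H) Ls (F t)) :
    ∃ Ls' : Set (Set (Lit (Un s n q))), GoodC free (table G n) (uc s n q H) Ls' ∧ Ls ⊆ Ls' ∧
      (∀ t ∈ J, F t ∈ Ls') ∧ Ls'.ncard ≤ Ls.ncard + big s n q ^ 4 := by
  refine ⟨Ls ∪ F '' J, goodC_add F J hg (fun σ t ht => ⟨axt σ t, hJ σ t ht, hF σ t⟩) hs,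
    Set.subset_union_left, fun t ht => Or.inr ⟨t, ht, rfl⟩, ?_⟩
  refine (Set.ncard_union_le _ _).trans ?_
  exact Nat.add_le_add_left ((ncard_family (C := uc s n q H) F J).trans card_ix) _

theorem ex_lines {G : Group (Fin s)} {H : Finset (Fin s)} (hE : Enum G q H)
    {Ls : Set (Set (Lit (Un s n q)))} (hg : GoodC free (table G n) (uc s n q H) Ls)
    (hb : Basic G Ls) :
    ∃ Ls' : Set (Set (Lit (Un s n q))), GoodC free (table G n) (uc s n q H) Ls' ∧ Ls ⊆ Ls' ∧
      (∀ i, Ex i ∈ Ls') ∧ Ls'.ncard ≤ Ls.ncard + big s n q ^ 10 := by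
  classical
  have hbig := big_facts (s := s) (n := n) (q := q)
  set z0 : Fin q := ⟨0, hE.pos⟩ with hz0
  have hz1 : hE.h z0 = G.one := hE.zero
  -- the lines `K`
  obtain ⟨L1, g1, s1, K1, c1⟩ := closed_lines hE.h hg hb
  have b1 := basic_mono hb s1
  -- the injective families
  let J : Set (Ix n q) := {t | Function.Injective t.1 ∧ t.1 z0 = t.2.1}
  have hJ : ∀ σ : Equiv.Perm (Fin n), ∀ t ∈ J, axt σ t ∈ J := by
    rintro σ t ⟨h1, h2⟩
    exact ⟨σ.injective.comp h1, congrArg σ h2⟩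
  let D : Ix n q → Lit (Un s n q) := fun t =>
    ⟨.I (hE.h t.2.2.2) (t.1 t.2.2.1) (Bs t.1), false⟩
  have hD : ∀ (σ : Equiv.Perm (Fin n)) (t : Ix n q), D (axt σ t) = σ • D t := by
    intro σ t
    show (⟨.I (hE.h t.2.2.2) (σ (t.1 t.2.2.1)) (Bs (σ ∘ t.1)), false⟩ : Lit (Un s n q)) = _
    rw [bs_smul]
    rfl
  let O : Ix n q → Lit (Un s n q) := fun t => ⟨.O t.2.1 (Bs t.1), true⟩
  have hO : ∀ (σ : Equiv.Perm (Fin n)) (t : Ix n q), O (axt σ t) = σ • O t := by
    intro σ t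
    show (⟨.O (σ t.2.1) (Bs (σ ∘ t.1)), true⟩ : Lit (Un s n q)) = _
    rw [bs_smul]
    rfl
  let Nn : Ix n q → Set (Lit (Un s n q)) := fun t => NB hE.h t.2.1 t.1 q
  have hN : ∀ (σ : Equiv.Perm (Fin n)) (t : Ix n q), Nn (axt σ t) = σ • Nn t :=
    fun σ t => nb_smul _ σ _ _ _
  have memN : ∀ (t : Ix n q) (a : Fin q), (Dn (hE.h a) t.2.1 (t.1 a)).neg ∈ Nn t :=
    fun t a => ⟨a, a.2, rfl⟩
  -- (1a)
  obtain ⟨L2, g2, s2, K2, c2⟩ := grow g1
    (fun t => Nn t ∪ {D t} ∪ DB (hE.h t.2.2.2) (t.1 t.2.2.1) (Bs t.1)) J hJ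
    (by
      intro σ t
      show Nn (axt σ t) ∪ {D (axt σ t)} ∪ DB (hE.h t.2.2.2) (σ (t.1 t.2.2.1)) (Bs (σ ∘ t.1)) = _
      rw [Set.smul_set_union, Set.smul_set_union, Set.smul_set_singleton, hN, hD, bs_smul,
        db_smul])
    (by
      rintro ⟨j, i, a, b⟩ ⟨h1, h2⟩
      obtain ⟨c, hc⟩ := hE.mul b a
      refine .weak (K1 a b c i (j a) (j c) hc) ?_
      rintro x (rfl | rfl | rfl)
      · exact Or.inl (Or.inl (memN (j, i, a, b) a))
      · exact Or.inl (Or.inl (memN (j, i, a, b) c))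
      · exact Or.inr ⟨j c, mem_bs j c, rfl⟩)
  -- (1b)
  obtain ⟨L3, g3, s3, K3, c3⟩ := grow g2 (fun t => Nn t ∪ {D t}) J hJ
    (by
      intro σ t
      show Nn (axt σ t) ∪ {D (axt σ t)} = _
      rw [Set.smul_set_union, Set.smul_set_singleton, hN, hD])
    (by
      rintro ⟨j, i, a, b⟩ ht
      refine .andE (a := Un.I (hE.h b) (j a) (Bs j))
        (S := {x | ∃ z ∈ (Bs j).set, x = (Dn (hE.h b) (j a) z).neg}) rfl (Or.inr rfl) ?_
      have h3 := K2 (j, i, a, b) ht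
      have h4 : Lit.neg '' {x : Lit (Un s n q) | ∃ z ∈ (Bs j).set,
          x = (Dn (hE.h b) (j a) z).neg} = DB (hE.h b) (j a) (Bs j) := by
        ext x
        constructor
        · rintro ⟨y, ⟨z, hz, rfl⟩, rfl⟩
          exact ⟨z, hz, rfl⟩
        · rintro ⟨z, hz, rfl⟩
          exact ⟨_, ⟨z, hz, rfl⟩, rfl⟩
      rw [← h4] at h3
      exact h3)
  -- (1c)
  obtain ⟨L4, g4, s4, K4, c4⟩ := grow g3 (fun t => insert (D t) (Nn t ∪ {O t})) J hJ
    (by
      intro σ t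
      show insert (D (axt σ t)) (Nn (axt σ t) ∪ {O (axt σ t)}) = _
      rw [Set.smul_set_insert, Set.smul_set_union, Set.smul_set_singleton, hN, hD, hO])
    (by
      intro t ht
      refine .weak (K3 t ht) ?_
      rintro x (hx | rfl)
      · exact Or.inr (Or.inl hx)
      · exact Or.inl rfl)
  -- (1d)
  obtain ⟨L5, g5, s5, K5, c5⟩ := grow g4 (fun t => Nn t ∪ {O t}) J hJ
    (by
      intro σ t
      show Nn (axt σ t) ∪ {O (axt σ t)} = _
      rw [Set.smul_set_union, Set.smul_set_singleton, hN, hO])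
    (by
      rintro ⟨j, i, a, b⟩ ht
      refine .andI (a := Un.O i (Bs j))
        (S := {x | ∃ h ∈ H, ∃ i ∈ (Bs j).set, x = ⟨.I h i (Bs j), false⟩}) rfl (Or.inr rfl) ?_
      rintro x ⟨g, hgH, y, hy, rfl⟩
      obtain ⟨b', rfl⟩ := (hE.mem g).1 hgH
      obtain ⟨a', -, rfl⟩ := Finset.mem_image.1 hy
      exact K4 (j, i, a', b') ht)
  have b5 := basic_mono b1 (s2.trans (s3.trans (s4.trans s5)))
  -- case 3
  let J3 : Set (Ix n q) := {t | t.1 z0 ≠ t.2.1}
  have hJ3 : ∀ σ : Equiv.Perm (Fin n), ∀ t ∈ J3, axt σ t ∈ J3 := by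
    intro σ t ht h2
    exact ht (σ.injective h2)
  obtain ⟨L6, g6, s6, K6, c6⟩ := grow g5
    (fun t => insert (Dn G.one t.2.1 t.2.1) {(Dn G.one t.2.1 (t.1 z0)).neg}) J3 hJ3
    (by
      intro σ t
      show insert (Dn G.one (σ t.2.1) (σ t.2.1)) {(Dn G.one (σ t.2.1) (σ (t.1 z0))).neg} = _
      rw [Set.smul_set_insert, Set.smul_set_singleton, negDn_smul, Dn_smul])
    (by
      intro t ht
      refine .weak (b5.one t.2.1) ?_
      rintro x rfl
      exact Or.inl rfl)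
  have b6 := basic_mono b5 s6
  obtain ⟨L7, g7, s7, K7, c7⟩ := grow g6
    (fun t => insert (Dn G.one t.2.1 t.2.1).neg {(Dn G.one t.2.1 (t.1 z0)).neg}) J3 hJ3
    (by
      intro σ t
      show insert (Dn G.one (σ t.2.1) (σ t.2.1)).neg {(Dn G.one (σ t.2.1) (σ (t.1 z0))).neg} = _
      rw [Set.smul_set_insert, Set.smul_set_singleton, negDn_smul, negDn_smul])
    (by
      intro t ht
      exact .weak (b6.fn G.one t.2.1 t.2.1 (t.1 z0) (fun h => ht h.symm)) (fun x hx => hx))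
  have b7 := basic_mono b6 s7
  obtain ⟨L8, g8, s8, K8, c8⟩ := grow g7
    (fun t => {(Dn G.one t.2.1 (t.1 z0)).neg}) J3 hJ3
    (by
      intro σ t
      show {(Dn G.one (σ t.2.1) (σ (t.1 z0))).neg} = _
      rw [Set.smul_set_singleton, negDn_smul])
    (by
      intro t ht
      exact .cut (s7 (K6 t ht)) (K7 t ht))
  have b8 := basic_mono b7 s8
  -- all together
  obtain ⟨L9, g9, s9, K9, c9⟩ := grow g8 (fun t => Nn t ∪ Ex t.2.1) Set.univ
    (fun _ _ _ => Set.mem_univ _)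
    (by
      intro σ t
      show Nn (axt σ t) ∪ Ex (σ t.2.1) = _
      rw [Set.smul_set_union, hN, ex_smul])
    (by
      intro t _
      by_cases h3 : t.1 z0 = t.2.1
      · by_cases h4 : Function.Injective t.1
        · refine .weak (s8 (s7 (s6 (K5 t ⟨h4, h3⟩)))) ?_
          rintro x (hx | rfl)
          · exact Or.inl hx
          · refine Or.inr ⟨Bs t.1, ?_, rfl⟩
            have h5 := ok_bs h4 z0
            rw [h3] at h5
            exact h5
        · unfold Function.Injective at h4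
          push Not at h4
          obtain ⟨a, b, h5, h6⟩ := h4
          refine .weak (b8.fr (hE.h a) (hE.h b) t.2.1 (t.1 a) (fun h => h6 (hE.inj h))) ?_
          rintro x (rfl | rfl)
          · exact Or.inl (memN t a)
          · rw [h5]
            exact Or.inl (memN t b)
      · refine .weak (K8 t h3) ?_
        rintro x rfl
        have h4 := memN t z0
        rw [hz1] at h4
        exact Or.inl h4)
  have b9 := basic_mono b8 s9
  obtain ⟨L10, g10, s10, K10, c10⟩ := branch hE.h g9 b9 (Y := Fin n) Set.univ id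
    (fun i => Ex i) (fun σ y _ => ⟨σ y, Set.mem_univ _, rfl, ex_smul σ y⟩)
    (fun y _ j => K9 (j, y, z0, z0) (Set.mem_univ _))
  refine ⟨L10, g10, ?_, fun i => K10 i (Set.mem_univ _), ?_⟩
  · exact s1.trans (s2.trans (s3.trans (s4.trans (s5.trans (s6.trans (s7.trans (s8.trans
      (s9.trans s10))))))))
  · obtain ⟨h1, h2, -, -⟩ := hbig
    rw [Nat.card_fin] at c10
    have e1 : (n + 1) * big s n q ^ 7 ≤ big s n q ^ 8 := by
      calc (n + 1) * big s n q ^ 7 ≤ big s n q * big s n q ^ 7 := Nat.mul_le_mul_right _ h2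
        _ = big s n q ^ 8 := by ring
    have e2 : big s n q ^ 8 ≤ big s n q ^ 9 := Nat.pow_le_pow_right (by omega) (by norm_num)
    have e3 : 8 * big s n q ^ 4 ≤ big s n q ^ 9 := by
      calc 8 * big s n q ^ 4 ≤ 4 ^ 5 * big s n q ^ 4 := Nat.mul_le_mul_right _ (by norm_num)
        _ ≤ big s n q ^ 5 * big s n q ^ 4 := Nat.mul_le_mul_right _ (Nat.pow_le_pow_left h1 5)
        _ = big s n q ^ 9 := by ring
    have e4 : 4 * big s n q ^ 9 ≤ big s n q ^ 10 := by
      calc 4 * big s n q ^ 9 ≤ big s n q * big s n q ^ 9 := Nat.mul_le_mul_right _ h1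
        _ = big s n q ^ 10 := by ring
    omega

end Pool.H93.CG
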