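import Pool.Agent.H93.CG.UBr

/-!
# [H93 CG UU] Two closed sets containing a point are equal

PROOF (complete). Let `h = hE.h`. Every family is added by `goodC_add`.
(1) For `a : Fin q`, `Ok i B`: `{⟨O i B, false⟩, ⟨I (h a) i B, false⟩}`: first
`{⟨O i B, false⟩, ⟨I (h a) i B, false⟩} ∪ {⟨I x y B, true⟩ | x ∈ H, y ∈ B}` by `ident` (`⟨I (h a) i B, true⟩` is a member as `h a ∈ H`,
`i ∈ B`), then `andE` for `O i B`.
(2) For `x ∉ B`: `{⟨I (h a) i B, true⟩, (Dn (h a) i x).neg}` by `andI` from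
`insert (Dn (h a) i x').neg {⟨I (h a) i B, true⟩, (Dn (h a) i x).neg}`, `x' ∈ B`: `weak` from `hb.fn (h a) i x' x` (`x' ≠ x`).
(3) For `x ∉ B`, `Ok i B`: `{⟨O i B, false⟩, (Dn (h a) i x).neg}` by `cut` on `I (h a) i B` from weakenings of (1), (2).
(4) Let `Ok i B`, `Ok i B'`, `B ≠ B'`, `j : Fin q → Fin n`. `NB h i j q ∪ Uq i B B'` by `weak`: if `j a = j b` for some `a ≠ b` from
`hb.fr (h a) (h b) i (j a)`. Otherwise `j` is injective; some `j a` is not in `B ∩ B'` (otherwise the `q` points `j a` are in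
`B ∩ B'`, so `B = B ∩ B' = B'` by cardinalities), and the line follows from (3) for `B` or `B'`.
(5) `branch` with `Y = Fin n × Sl (Fin n) q × Sl (Fin n) q`, `V = {(i, B, B') | Ok i B ∧ Ok i B' ∧ B ≠ B'}`, `Γ (i, B, B') = Uq i B B'`.
Sizes: all families have at most `big ^ 6` lines; `Nat.card Y + 1 ≤ big ^ 3`.
-/

set_option autoImplicit false

namespace Pool.H93.CG

open FirstOrder FirstOrder.Language
open Pool.H93.SY (Lit Atom)
open Pool.H31.SY (Nd gateN rk dep subf Rels)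
open Pool.H31.PH (Sl mapL)
open scoped Pointwise

variable {s n q : ℕ}

private theorem neg_smul' (σ : Equiv.Perm (Fin n)) (h : Fin s) (i j : Fin n) :
    (Dn h (σ i) (σ j) : Lit (Un s n q)).neg = σ • (Dn h i j).neg := by
  rw [Dn_smul]
  rfl

/-- The indices: `a`, `i`, `B`, `x`, `x'`. -/
private abbrev Jx (q n : ℕ) : Type := Fin q × Fin n × Sl (Fin n) q × Fin n × Fin n

/-- The set of the node `O i B`. -/
private def SO (H : Finset (Fin s)) (B : Sl (Fin n) q) : Set (Lit (Un s n q)) :=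
  {x | ∃ h ∈ H, ∃ i ∈ B.set, x = ⟨.I h i B, false⟩}

private theorem so_mem (H : Finset (Fin s)) (σ : Equiv.Perm (Fin n)) (B : Sl (Fin n) q)
    {x : Lit (Un s n q)} (hx : x ∈ Lit.neg '' SO H B) : σ • x ∈ Lit.neg '' SO H (σ • B) := by
  obtain ⟨_, ⟨h, hh, i, hi, rfl⟩, rfl⟩ := hx
  exact ⟨⟨.I h (σ i) (σ • B), false⟩,
    ⟨h, hh, σ i, Pool.H31.PH.mem_smul_sl.2 ⟨i, hi, rfl⟩, rfl⟩, rfl⟩

private theorem so_smul (H : Finset (Fin s)) (σ : Equiv.Perm (Fin n)) (B : Sl (Fin n) q) :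
    (Lit.neg '' SO H (σ • B) : Set (Lit (Un s n q))) = σ • (Lit.neg '' SO H B) := by
  apply Pool.H31.PH.smul_set_of
  intro x
  constructor
  · exact so_mem H σ B
  · intro h
    have h1 := so_mem H σ⁻¹ (σ • B) h
    rwa [inv_smul_smul, inv_smul_smul] at h1

/-- The lines. -/
private def FU (H : Finset (Fin s)) (hh : Fin q → Fin s) : Fin 7 × Jx q n → Set (Lit (Un s n q))
  | (0, a, i, B, _, _) => {⟨.O i B, false⟩, ⟨.I (hh a) i B, false⟩} ∪ Lit.neg '' SO H B
  | (1, a, i, B, _, _) => {⟨.O i B, false⟩, ⟨.I (hh a) i B, false⟩}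
  | (2, a, i, B, x, x') => insert (Dn (hh a) i x').neg
      {⟨.I (hh a) i B, true⟩, (Dn (hh a) i x).neg}
  | (3, a, i, B, x, _) => {⟨.I (hh a) i B, true⟩, (Dn (hh a) i x).neg}
  | (4, a, i, B, x, _) => insert ⟨.I (hh a) i B, true⟩ {⟨.O i B, false⟩, (Dn (hh a) i x).neg}
  | (5, a, i, B, x, _) => insert ⟨.I (hh a) i B, false⟩ {⟨.O i B, false⟩, (Dn (hh a) i x).neg}
  | (6, a, i, B, x, _) => {⟨.O i B, false⟩, (Dn (hh a) i x).neg}

/-- The index set. -/
private def JU (u : Fin 7 × Jx q n) : Prop :=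
  Ok u.2.2.1 u.2.2.2.1 ∧ u.2.2.2.2.1 ∉ u.2.2.2.1.set ∧
    (u.1 = 2 → u.2.2.2.2.2 ∈ u.2.2.2.1.set)

/-- The action on the indices. -/
private def aJ (σ : Equiv.Perm (Fin n)) : Jx q n → Jx q n
  | (a, i, B, x, x') => (a, σ i, σ • B, σ x, σ x')

private theorem fu_smul (H : Finset (Fin s)) (hh : Fin q → Fin s) (σ : Equiv.Perm (Fin n))
    (k : Fin 7) (t : Jx q n) : FU H hh (k, aJ σ t) = σ • FU H hh (k, t) := by
  obtain ⟨a, i, B, x, x'⟩ := t
  match k with
  | 0 =>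
    show ({⟨.O (σ i) (σ • B), false⟩, ⟨.I (hh a) (σ i) (σ • B), false⟩} ∪
        Lit.neg '' SO H (σ • B) : Set (Lit (Un s n q))) =
      σ • ({⟨.O i B, false⟩, ⟨.I (hh a) i B, false⟩} ∪ Lit.neg '' SO H B)
    rw [Set.smul_set_union, Set.smul_set_insert, Set.smul_set_singleton, so_smul]
    rfl
  | 1 =>
    show ({⟨.O (σ i) (σ • B), false⟩, ⟨.I (hh a) (σ i) (σ • B), false⟩} :
        Set (Lit (Un s n q))) = σ • {⟨.O i B, false⟩, ⟨.I (hh a) i B, false⟩}
    rw [Set.smul_set_insert, Set.smul_set_singleton]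
    rfl
  | 2 =>
    show (insert (Dn (hh a) (σ i) (σ x')).neg
        {⟨.I (hh a) (σ i) (σ • B), true⟩, (Dn (hh a) (σ i) (σ x)).neg} :
        Set (Lit (Un s n q))) =
      σ • insert (Dn (hh a) i x').neg {⟨.I (hh a) i B, true⟩, (Dn (hh a) i x).neg}
    rw [Set.smul_set_insert, Set.smul_set_insert, Set.smul_set_singleton, neg_smul', neg_smul']
    rfl
  | 3 =>
    show ({⟨.I (hh a) (σ i) (σ • B), true⟩, (Dn (hh a) (σ i) (σ x)).neg} :
        Set (Lit (Un s n q))) = σ • {⟨.I (hh a) i B, true⟩, (Dn (hh a) i x).neg}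
    rw [Set.smul_set_insert, Set.smul_set_singleton, neg_smul']
    rfl
  | 4 =>
    show (insert ⟨.I (hh a) (σ i) (σ • B), true⟩
        {⟨.O (σ i) (σ • B), false⟩, (Dn (hh a) (σ i) (σ x)).neg} : Set (Lit (Un s n q))) =
      σ • insert ⟨.I (hh a) i B, true⟩ {⟨.O i B, false⟩, (Dn (hh a) i x).neg}
    rw [Set.smul_set_insert, Set.smul_set_insert, Set.smul_set_singleton, neg_smul']
    rfl
  | 5 =>
    show (insert ⟨.I (hh a) (σ i) (σ • B), false⟩
        {⟨.O (σ i) (σ • B), false⟩, (Dn (hh a) (σ i) (σ x)).neg} : Set (Lit (Un s n q))) =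
      σ • insert ⟨.I (hh a) i B, false⟩ {⟨.O i B, false⟩, (Dn (hh a) i x).neg}
    rw [Set.smul_set_insert, Set.smul_set_insert, Set.smul_set_singleton, neg_smul']
    rfl
  | 6 =>
    show ({⟨.O (σ i) (σ • B), false⟩, (Dn (hh a) (σ i) (σ x)).neg} : Set (Lit (Un s n q))) =
      σ • {⟨.O i B, false⟩, (Dn (hh a) i x).neg}
    rw [Set.smul_set_insert, Set.smul_set_singleton, neg_smul']
    rfl

private theorem mem_smul' (σ : Equiv.Perm (Fin n)) {B : Sl (Fin n) q} {x : Fin n} :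
    σ x ∈ (σ • B).set ↔ x ∈ B.set := by
  rw [Pool.H31.PH.mem_smul_sl]
  constructor
  · rintro ⟨y, hy, h⟩
    have h1 : y = x := σ.injective h
    rwa [← h1]
  · intro h
    exact ⟨x, h, rfl⟩

private theorem ju_smul (σ : Equiv.Perm (Fin n)) (k : Fin 7) (t : Jx q n) (h : JU (k, t)) :
    JU (k, aJ σ t) := by
  obtain ⟨a, i, B, x, x'⟩ := t
  obtain ⟨h1, h2, h3⟩ := h
  refine ⟨(ok_smul σ).2 h1, fun h4 => h2 ((mem_smul' σ).1 h4), fun h4 => ?_⟩
  exact (mem_smul' σ).2 (h3 h4)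

private theorem nb_smul' (hh : Fin q → Fin s) (σ : Equiv.Perm (Fin n)) (i : Fin n)
    (j : Fin q → Fin n) (r : ℕ) :
    (NB hh (σ i) (fun a => σ (j a)) r : Set (Lit (Un s n q))) = σ • NB hh i j r := by
  apply Pool.H31.PH.smul_set_of
  intro x
  constructor
  · rintro ⟨a, ha, rfl⟩
    exact ⟨a, ha, (neg_smul' σ _ _ _).symm⟩
  · rintro ⟨a, ha, h1⟩
    refine ⟨a, ha, ?_⟩
    apply MulAction.injective σ
    show σ • x = σ • (Dn (hh a) i (j a)).neg
    rw [h1, neg_smul']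

private theorem uq_smul' (σ : Equiv.Perm (Fin n)) (i : Fin n) (B B' : Sl (Fin n) q) :
    (Uq (σ i) (σ • B) (σ • B') : Set (Lit (Un s n q))) = σ • Uq i B B' := by
  show ({⟨.O (σ i) (σ • B), false⟩, ⟨.O (σ i) (σ • B'), false⟩} : Set (Lit (Un s n q))) =
    σ • {⟨.O i B, false⟩, ⟨.O i B', false⟩}
  rw [Set.smul_set_insert, Set.smul_set_singleton]
  rfl

private theorem big_all (s n q : ℕ) : 4 ≤ big s n q ∧ n ≤ big s n q ∧ q ≤ big s n q ∧
    s ≤ big s n q ∧ n ^ q ≤ big s n q ∧ Nat.card (Sl (Fin n) q) ≤ big s n q := by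
  unfold big
  omega

/-- Members of `NB ∪ Uq`. -/
private theorem escape (j : Fin q → Fin n) (hj : Function.Injective j) {i : Fin n}
    {B B' : Sl (Fin n) q} (hB : Ok i B) (hB' : Ok i B') (hne : B ≠ B') :
    ∃ a, j a ∉ B.set ∨ j a ∉ B'.set := by
  classical
  by_contra hcon
  push Not at hcon
  have h1 : ∀ D : Sl (Fin n) q, D.set.card = q → (∀ a, j a ∈ D.set) →
      Finset.univ.image j = D.set := by
    intro D hD h2
    apply Finset.eq_of_subset_of_card_le
    · intro y hy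
      obtain ⟨a, -, rfl⟩ := Finset.mem_image.1 hy
      exact h2 a
    · rw [Finset.card_image_of_injective _ hj, hD, Finset.card_univ, Fintype.card_fin]
  exact hne (Sl.ext ((h1 B hB.1 fun a => (hcon a).1).symm.trans
    (h1 B' hB'.1 fun a => (hcon a).2)))

theorem uq_lines {G : Group (Fin s)} {H : Finset (Fin s)} (hE : Enum G q H)
    {Ls : Set (Set (Lit (Un s n q)))} (hg : GoodC free (table G n) (uc s n q H) Ls)
    (hb : Basic G Ls) :
    ∃ Ls' : Set (Set (Lit (Un s n q))), GoodC free (table G n) (uc s n q H) Ls' ∧ Ls ⊆ Ls' ∧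
      (∀ i B B', Ok i B → Ok i B' → B ≠ B' → Uq i B B' ∈ Ls') ∧
      Ls'.ncard ≤ Ls.ncard + big s n q ^ 11 := by
  classical
  obtain ⟨hb4, hbn, hbq, hbs, hbnq, hbS⟩ := big_all s n q
  -- the first family
  have h1 : GoodC free (table G n) (uc s n q H) (Ls ∪ FU H hE.h '' {u | JU u}) := by
    refine goodC_family (C := uc s n q H) (FU H hE.h) {u | JU u} (fun u => u.1.val) hg ?_ ?_
    · rintro σ ⟨k, t⟩ hu
      exact ⟨(k, aJ σ t), ju_smul σ k t hu, fu_smul H hE.h σ k t⟩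
    · rintro ⟨k, a, i, B, x, x'⟩ hu
      obtain ⟨hok, hx, hx'⟩ := hu
      have hin : ∀ (k' : Fin 7) (z : Fin n), k'.val < k.val → (k' = 2 → z ∈ B.set) →
          FU H hE.h (k', a, i, B, x, z) ∈
            Ls ∪ {Λ | ∃ j ∈ {u | JU u}, j.1.val < k.val ∧ Λ = FU H hE.h j} := by
        intro k' z h2 h3
        exact Or.inr ⟨(k', a, i, B, x, z), ⟨hok, hx, h3⟩, h2, rfl⟩
      match k, hx', hin with
      | 0, hx', hin =>
        refine .ident (a := (.I (hE.h a) i B : Un s n q)) (b := (.I (hE.h a) i B : Un s n q)) rfl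
          ?_ ?_
        · exact Or.inr ⟨⟨.I (hE.h a) i B, false⟩,
            ⟨hE.h a, (hE.mem _).2 ⟨a, rfl⟩, i, hok.2, rfl⟩, rfl⟩
        · exact Or.inl (Or.inr rfl)
      | 1, hx', hin =>
        exact .andE (a := (.O i B : Un s n q)) (S := SO H B) rfl (Or.inl rfl)
          (hin 0 x (by decide) (fun h => absurd h (by decide)))
      | 2, hx', hin =>
        have hxx : x' ∈ B.set := hx' rfl
        refine .weak (Δ := LF (hE.h a) (hE.h a) i x' x) (Or.inl (hb.fn (hE.h a) i x' x ?_)) ?_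
        · rintro rfl
          exact hx hxx
        · rintro z (rfl | rfl)
          · exact Or.inl rfl
          · exact Or.inr (Or.inr rfl)
      | 3, hx', hin =>
        refine .andI (a := (.I (hE.h a) i B : Un s n q))
          (S := {z | ∃ j ∈ B.set, z = (Dn (hE.h a) i j).neg}) rfl (Or.inl rfl) ?_
        rintro z ⟨j, hj, rfl⟩
        exact hin 2 j (by decide) (fun _ => hj)
      | 4, hx', hin =>
        refine .weak (hin 3 x (by decide) (fun h => absurd h (by decide))) ?_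
        rintro z (rfl | rfl)
        · exact Or.inl rfl
        · exact Or.inr (Or.inr rfl)
      | 5, hx', hin =>
        refine .weak (hin 1 x (by decide) (fun h => absurd h (by decide))) ?_
        rintro z (rfl | rfl)
        · exact Or.inr (Or.inl rfl)
        · exact Or.inl rfl
      | 6, hx', hin =>
        exact .cut (a := (.I (hE.h a) i B : Un s n q))
          (hin 4 x (by decide) (fun h => absurd h (by decide)))
          (hin 5 x (by decide) (fun h => absurd h (by decide)))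
  have hout : ∀ (a : Fin q) (i : Fin n) (B : Sl (Fin n) q) (x : Fin n), Ok i B → x ∉ B.set →
      ({⟨.O i B, false⟩, (Dn (hE.h a) i x).neg} : Set (Lit (Un s n q))) ∈
        Ls ∪ FU H hE.h '' {u | JU u} := by
    intro a i B x hok hx
    have h62 : ¬ (6 : Fin 7) = 2 := by decide
    exact Or.inr ⟨(6, a, i, B, x, x), ⟨hok, hx, fun h => absurd h h62⟩, rfl⟩
  -- the second family
  obtain ⟨VV, hVV⟩ : ∃ VV : Set (Fin n × Sl (Fin n) q × Sl (Fin n) q),
      VV = {y | Ok y.1 y.2.1 ∧ Ok y.1 y.2.2 ∧ y.2.1 ≠ y.2.2} := ⟨_, rfl⟩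
  have hVVσ : ∀ (σ : Equiv.Perm (Fin n)) (i : Fin n) (B B' : Sl (Fin n) q), (i, B, B') ∈ VV →
      (σ i, σ • B, σ • B') ∈ VV := by
    intro σ i B B' h
    rw [hVV] at h ⊢
    exact ⟨(ok_smul σ).2 h.1, (ok_smul σ).2 h.2.1, fun e => h.2.2 (MulAction.injective σ e)⟩
  have h2 : GoodC free (table G n) (uc s n q H) ((Ls ∪ FU H hE.h '' {u | JU u}) ∪
      (fun u : (Fin q → Fin n) × (Fin n × Sl (Fin n) q × Sl (Fin n) q) =>
        (NB hE.h u.2.1 u.1 q ∪ Uq u.2.1 u.2.2.1 u.2.2.2 : Set (Lit (Un s n q)))) ''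
          {u | u.2 ∈ VV}) := by
    refine goodC_add (C := uc s n q H) _ _ h1 ?_ ?_
    · rintro σ ⟨j, i, B, B'⟩ hu
      refine ⟨((fun a => σ (j a)), σ i, σ • B, σ • B'), hVVσ σ i B B' hu, ?_⟩
      show (NB hE.h (σ i) (fun a => σ (j a)) q ∪ Uq (σ i) (σ • B) (σ • B') :
        Set (Lit (Un s n q))) = σ • (NB hE.h i j q ∪ Uq i B B')
      rw [nb_smul', uq_smul', Set.smul_set_union]
    · rintro ⟨j, i, B, B'⟩ hu
      have hu' : (i, B, B') ∈ VV := hu
      rw [hVV] at hu'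
      obtain ⟨hB, hB', hne⟩ := hu'
      by_cases hj : Function.Injective j
      · obtain ⟨a, ha⟩ := escape j hj hB hB' hne
        rcases ha with ha | ha
        · refine .weak (hout a i B (j a) hB ha) ?_
          rintro z (rfl | rfl)
          · exact Or.inr (Or.inl rfl)
          · exact Or.inl ⟨a, a.isLt, rfl⟩
        · refine .weak (hout a i B' (j a) hB' ha) ?_
          rintro z (rfl | rfl)
          · exact Or.inr (Or.inr rfl)
          · exact Or.inl ⟨a, a.isLt, rfl⟩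
      · have hex : ∃ a b, j a = j b ∧ a ≠ b := by
          by_contra hcon
          push Not at hcon
          exact hj fun a b hab => hcon a b hab
        obtain ⟨a, b, hab, hne'⟩ := hex
        refine .weak (Or.inl (hb.fr (hE.h a) (hE.h b) i (j a) fun h => hne' (hE.inj h))) ?_
        rintro z (rfl | rfl)
        · exact Or.inl ⟨a, a.isLt, rfl⟩
        · refine Or.inl ⟨b, b.isLt, ?_⟩
          rw [hab]
  -- the branching
  have hb2 : Basic G ((Ls ∪ FU H hE.h '' {u | JU u}) ∪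
      (fun u : (Fin q → Fin n) × (Fin n × Sl (Fin n) q × Sl (Fin n) q) =>
        (NB hE.h u.2.1 u.1 q ∪ Uq u.2.1 u.2.2.1 u.2.2.2 : Set (Lit (Un s n q)))) ''
          {u | u.2 ∈ VV}) :=
    ⟨fun h i => Or.inl (Or.inl (hb.tot h i)), fun h i j j' hj => Or.inl (Or.inl (hb.fn h i j j' hj)),
      fun h h' i j hj => Or.inl (Or.inl (hb.fr h h' i j hj)),
      fun a b i j x => Or.inl (Or.inl (hb.mul a b i j x)), fun i => Or.inl (Or.inl (hb.one i))⟩
  obtain ⟨Ls', hg', hsub', hΓ', hc'⟩ := branch hE.h h2 hb2 VV (fun y => y.1)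
    (fun y => Uq y.1 y.2.1 y.2.2) (by
      rintro σ ⟨i, B, B'⟩ hy
      exact ⟨(σ i, σ • B, σ • B'), hVVσ σ i B B' hy, rfl, uq_smul' σ i B B'⟩) (by
      rintro ⟨i, B, B'⟩ hy j
      exact Or.inr ⟨(j, i, B, B'), hy, rfl⟩)
  refine ⟨Ls', hg', (Set.subset_union_left.trans Set.subset_union_left).trans hsub', ?_, ?_⟩
  · intro i B B' hB hB' hne
    refine hΓ' (i, B, B') ?_
    rw [hVV]
    exact ⟨hB, hB', hne⟩
  · have c1 := ncard_family (C := uc s n q H) (FU H hE.h) {u : Fin 7 × Jx q n | JU u}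
    have c2 := ncard_family (C := uc s n q H)
      (fun u : (Fin q → Fin n) × (Fin n × Sl (Fin n) q × Sl (Fin n) q) =>
        (NB hE.h u.2.1 u.1 q ∪ Uq u.2.1 u.2.2.1 u.2.2.2 : Set (Lit (Un s n q)))) {u | u.2 ∈ VV}
    have k1 : Nat.card (Fin 7 × Jx q n) =
        7 * (q * (n * (Nat.card (Sl (Fin n) q) * (n * n)))) := by
      rw [Nat.card_prod, Nat.card_prod, Nat.card_prod, Nat.card_prod, Nat.card_prod, Nat.card_fin,
        Nat.card_fin, Nat.card_fin]
    have k3 : Nat.card (Fin n × Sl (Fin n) q × Sl (Fin n) q) =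
        n * (Nat.card (Sl (Fin n) q) * Nat.card (Sl (Fin n) q)) := by
      rw [Nat.card_prod, Nat.card_prod, Nat.card_fin]
    have k2 : Nat.card ((Fin q → Fin n) × (Fin n × Sl (Fin n) q × Sl (Fin n) q)) =
        n ^ q * (n * (Nat.card (Sl (Fin n) q) * Nat.card (Sl (Fin n) q))) := by
      rw [Nat.card_prod, k3, Nat.card_fun, Nat.card_fin, Nat.card_fin]
    rw [k1] at c1
    rw [k2] at c2
    rw [k3] at hc'
    obtain ⟨β, hβ⟩ : ∃ β, β = big s n q := ⟨_, rfl⟩
    obtain ⟨S0, hS0⟩ : ∃ S0, S0 = Nat.card (Sl (Fin n) q) := ⟨_, rfl⟩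
    rw [← hβ] at hb4 hbn hbq hbs hbnq hbS hc' ⊢
    rw [← hS0] at c1 c2 hc' hbS
    have e1 : 7 * (q * (n * (S0 * (n * n)))) ≤ β ^ 7 := by
      have e2 : 7 ≤ β * β := by nlinarith
      calc 7 * (q * (n * (S0 * (n * n)))) ≤ (β * β) * (β * (β * (β * (β * β)))) := by gcongr
        _ = β ^ 7 := by ring
    have e2 : n ^ q * (n * (S0 * S0)) ≤ β ^ 4 := by
      calc n ^ q * (n * (S0 * S0)) ≤ β * (β * (β * β)) := by gcongr
        _ = β ^ 4 := by ring
    have e3 : n * (S0 * S0) ≤ β ^ 3 := by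
      calc n * (S0 * S0) ≤ β * (β * β) := by gcongr
        _ = β ^ 3 := by ring
    have e4 : β ^ 7 ≤ β ^ 10 := Nat.pow_le_pow_right (by omega) (by omega)
    have e5 : β ^ 4 ≤ β ^ 10 := Nat.pow_le_pow_right (by omega) (by omega)
    have e6 : (n * (S0 * S0) + 1) * β ^ 7 ≤ β ^ 10 + β ^ 7 := by
      have e7 : (n * (S0 * S0) + 1) * β ^ 7 ≤ (β ^ 3 + 1) * β ^ 7 := by gcongr
      refine e7.trans (le_of_eq ?_)
      ring
    have e8 : 4 * β ^ 10 ≤ β ^ 11 := by
      calc 4 * β ^ 10 ≤ β * β ^ 10 := by gcongr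
        _ = β ^ 11 := by ring
    refine hc'.trans ?_
    refine (Nat.add_le_add (Set.ncard_union_le _ _) e6).trans ?_
    refine (Nat.add_le_add_right (Nat.add_le_add (Set.ncard_union_le _ _) (c2.trans e2)) _).trans ?_
    refine (Nat.add_le_add_right (Nat.add_le_add_right (Nat.add_le_add_left (c1.trans e1) _) _)
      _).trans ?_
    omega

end Pool.H93.CG
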