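import Pool.Agent.H93.CG.UBas
import Pool.Agent.H93.CG.UEx
import Pool.Agent.H93.CG.UUq
import Pool.Agent.H93.CG.UCa
import Pool.Agent.H93.CG.UCb
import Pool.Agent.H88.PG.Final

/-!
# [H93 CG UF] The upper bounds

PROOF of `upper_free` (complete). `q = p ^ e`, `p` prime, `0 < e` (`isPrimePow_nat_iff`). `Fin s` with the group structure `G` has `s`
elements and `p ^ e ∣ s`, so it has a subgroup with `q` elements (`Sylow.exists_subgroup_card_pow_prime`). `H` is its finset,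
`Enum G q H`: an enumeration `Fin q ≃ H` (`Finset.equivFinOfCardEq`) composed with a transposition so that `0 ↦ 1`.
`basic_lines`, `ex_lines`, `uq_lines` (with `Basic` monotone), `one_lines`, `final_lines` and `GoodC.refutation` give a refutation of size
`Nat.card (Un s n q) + Ls.ncard ≤ big ^ (c + 12)`-like; `Nat.card (Un s n q)` by `Un.code_injective` (`Nat.card_le_card_of_injective`,
`card_nd` for `Nd free s n`).
`big s n q ≤ (s + n) ^ (5 * q)`-like: `2 ≤ q ≤ s` (`q ∣ s`, `0 < s`), `1 ≤ n` (`¬ q ∣ n`), so `3 ≤ s + n`; `n ^ q ≤ (s + n) ^ q`;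
`Nat.card (Sl (Fin n) q) ≤ (n + 1) ^ q ≤ (s + n) ^ q` (a set of at most `q` points is the image of a function
`Fin q → Option (Fin n)`, or `card_sl`-lemmas in `Pool/Agent/H31/PH/Comb.lean` if there); constants are absorbed as `2 ≤ s + n`. The rank is at
most `dep free + 4` (`rk_le`).
PROOF of `upper_php`: `Pool.Agent.H88.PG.final`, second part, with `m = 0`, `k = 2`: `Alike 0 2 n N` would give (`i = 1`)
`0 ∣ (n - N).choose 1 = n - N > 0`; so there is a refutation over `Pool.H93.SY` with exact gates of size at most `(s + n) ^ (c * 2)`;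
`refutation_conv`.
-/

set_option autoImplicit false

namespace Pool.H93.CG

open FirstOrder FirstOrder.Language
open Pool.H93.SY (Lit Atom)
open Pool.H31.SY (Nd gateN rk dep subf Rels)
open Pool.H31.PH (Sl mapL)
open scoped Pointwise

private theorem exists_enum {s q : ℕ} (G : Group (Fin s)) (hq : IsPrimePow q) (hd : q ∣ s) :
    ∃ H : Finset (Fin s), Nonempty (Enum G q H) := by
  classical
  letI := G
  obtain ⟨p, k, hp, hk, hpk⟩ := (isPrimePow_nat_iff q).1 hq
  haveI : Fact p.Prime := ⟨hp⟩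
  have hcard : Nat.card (Fin s) = s := Nat.card_fin s
  obtain ⟨K, hK⟩ := Sylow.exists_subgroup_card_pow_prime (G := Fin s) p (n := k) (by
    rw [hcard, hpk]
    exact hd)
  rw [hpk] at hK
  have hpos : 0 < q := hq.pos
  let e : Fin q ≃ K := (Finite.equivFinOfCardEq hK).symm
  let z : Fin q := ⟨0, hpos⟩
  let f : Fin q ≃ K := (Equiv.swap z (e.symm 1)).trans e
  refine ⟨Finset.univ.filter (· ∈ K), ⟨{
    h := fun a => (f a).1
    inj := fun a b hab => f.injective (Subtype.ext hab)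
    mem := ?_
    pos := hpos
    zero := ?_
    mul := ?_ }⟩⟩
  · intro x
    rw [Finset.mem_filter]
    constructor
    · rintro ⟨-, hx⟩
      exact ⟨f.symm ⟨x, hx⟩, by rw [f.apply_symm_apply]⟩
    · rintro ⟨a, rfl⟩
      exact ⟨Finset.mem_univ _, (f a).2⟩
  · show (e (Equiv.swap z (e.symm 1) z)).1 = _
    rw [Equiv.swap_apply_left, e.apply_symm_apply]
    rfl
  · intro a b
    refine ⟨f.symm (f a * f b), ?_⟩
    show (f (f.symm (f a * f b))).1 = _
    rw [f.apply_symm_apply]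
    rfl

private theorem card_un {s n q : ℕ} {K A X : ℕ} (hX : X = big s n q)
    (hN : Nat.card (Nd free s n) ≤ A * X ^ K) : Nat.card (Un s n q) ≤ X ^ (A + K + 6) := by
  have h1 := Nat.card_le_card_of_injective _ (Un.code_injective (s := s) (n := n) (q := q))
  simp only [Nat.card_sum, Nat.card_prod, Nat.card_eq_fintype_card (α := Fin n),
    Nat.card_eq_fintype_card (α := Fin s), Nat.card_eq_fintype_card (α := Bool),
    Nat.card_eq_fintype_card (α := Unit), Fintype.card_fin, Fintype.card_bool,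
    Fintype.card_unit] at h1
  obtain ⟨Z, hZ⟩ : ∃ Z, Z = Nat.card (Sl (Fin n) q) := ⟨_, rfl⟩
  rw [← hZ] at h1
  have hb : big s n q = s + n + q + 4 + Z + n ^ q := by
    rw [hZ]
    rfl
  rw [← hX] at hb
  have hs : s ≤ X := by omega
  have hn : n ≤ X := by omega
  have hz : Z ≤ X := by omega
  have h4 : 4 ≤ X := by omega
  have e1 : s * n ≤ X ^ 3 := by
    calc s * n ≤ X * X := Nat.mul_le_mul hs hn
      _ = X ^ 2 := by ring
      _ ≤ X ^ 3 := Nat.pow_le_pow_right (by omega) (by norm_num)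
  have e2 : s * (n * Z) ≤ X ^ 3 := by
    calc s * (n * Z) ≤ X * (X * X) := Nat.mul_le_mul hs (Nat.mul_le_mul hn hz)
      _ = X ^ 3 := by ring
  have e3 : n * Z ≤ X ^ 3 := by
    calc n * Z ≤ X * X := Nat.mul_le_mul hn hz
      _ = X ^ 2 := by ring
      _ ≤ X ^ 3 := Nat.pow_le_pow_right (by omega) (by norm_num)
  have e4 : X ≤ X ^ 3 := by
    calc X = X ^ 1 := (pow_one X).symm
      _ ≤ X ^ 3 := Nat.pow_le_pow_right (by omega) (by norm_num)
  have e5 : Nat.card (Un s n q) ≤ A * X ^ K + 16 * X ^ 3 := by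
    have h5 : 1 ≤ X ^ 3 := Nat.one_le_pow _ _ (by omega)
    nlinarith
  have hA : A ≤ X ^ A := by
    calc A ≤ 2 ^ A := Nat.lt_two_pow_self.le
      _ ≤ X ^ A := Nat.pow_le_pow_left (by omega) A
  have e6 : A * X ^ K ≤ X ^ (A + K + 5) := by
    calc A * X ^ K ≤ X ^ A * X ^ K := Nat.mul_le_mul_right _ hA
      _ = X ^ (A + K) := by ring
      _ ≤ X ^ (A + K + 5) := Nat.pow_le_pow_right (by omega) (by omega)
  have e7 : 16 * X ^ 3 ≤ X ^ (A + K + 5) := by
    calc 16 * X ^ 3 ≤ X ^ 2 * X ^ 3 := Nat.mul_le_mul_right _ (by nlinarith)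
      _ = X ^ 5 := by ring
      _ ≤ X ^ (A + K + 5) := Nat.pow_le_pow_right (by omega) (by omega)
  calc Nat.card (Un s n q) ≤ X ^ (A + K + 5) + X ^ (A + K + 5) := by omega
    _ = 2 * X ^ (A + K + 5) := by ring
    _ ≤ X * X ^ (A + K + 5) := Nat.mul_le_mul_right _ (by omega)
    _ = X ^ (A + K + 6) := by ring

private theorem big_le {s n q : ℕ} (hq : 2 ≤ q) (hqs : q ≤ s) (hn : 1 ≤ n) :
    big s n q ≤ (s + n) ^ (2 * q) := by
  obtain ⟨T, hT⟩ : ∃ T, T = s + n := ⟨_, rfl⟩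
  have hT3 : 3 ≤ T := by omega
  have hZ : Nat.card (Sl (Fin n) q) ≤ T ^ q := by
    refine (Pool.H31.PH.card_sl (Fin n) q).trans ?_
    rw [Nat.card_fin]
    exact Nat.pow_le_pow_left (by omega) q
  have h1 : T ≤ T ^ q := by
    calc T = T ^ 1 := (pow_one T).symm
      _ ≤ T ^ q := Nat.pow_le_pow_right (by omega) (by omega)
  have h2 : n ^ q ≤ T ^ q := Nat.pow_le_pow_left (by omega) q
  have h3 : T ^ 2 ≤ T ^ q := Nat.pow_le_pow_right (by omega) hq
  have h4 : 9 ≤ T ^ 2 := by nlinarith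
  unfold big
  rw [← hT]
  have h5 : T + q + 4 + Nat.card (Sl (Fin n) q) + n ^ q ≤ 5 * T ^ q := by
    have : q ≤ T := by omega
    omega
  calc T + q + 4 + Nat.card (Sl (Fin n) q) + n ^ q ≤ 5 * T ^ q := h5
    _ ≤ T ^ q * T ^ q := Nat.mul_le_mul_right _ (by omega)
    _ = T ^ (2 * q) := by ring

private theorem basic_mono {s n q : ℕ} {G : Group (Fin s)}
    {Ls Ls' : Set (Set (Lit (Un s n q)))} (h : Basic G Ls) (hs : Ls ⊆ Ls') : Basic G Ls' :=
  ⟨fun a i => hs (h.tot a i), fun a i j j' hj => hs (h.fn a i j j' hj),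
    fun a b i j hab => hs (h.fr a b i j hab), fun a b i j x => hs (h.mul a b i j x),
    fun i => hs (h.one i)⟩

private theorem ru_le {s n q : ℕ} (a : Un s n q) : ru a ≤ dep free + 4 := by
  cases a with
  | base a => exact (Pool.H31.SY.rk_le a).trans (Nat.le_add_right _ _)
  | w h i => exact Nat.add_le_add_left (by norm_num) _
  | I h i B => exact Nat.add_le_add_left (by norm_num) _
  | O i B => exact Nat.add_le_add_left (by norm_num) _
  | g i => exact Nat.add_le_add_left (by norm_num) _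
  | z b i B => exact Nat.add_le_add_left (by norm_num) _
  | p i B => exact Nat.add_le_add_left (by norm_num) _
  | e i => exact Nat.add_le_add_left (by norm_num) _
  | E => exact Nat.add_le_add_left (by norm_num) _
  | tot b => exact Nat.add_le_add_left (by norm_num) _
  | y b B => exact Nat.add_le_add_left (by norm_num) _
  | c B => exact Nat.add_le_add_left (by norm_num) _
  | Q => exact Nat.add_le_add_left (by norm_num) _

theorem upper_free : ∃ c : ℕ, ∀ (s n q : ℕ) (G : Group (Fin s)), IsPrimePow q → q ∣ s →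
    ¬ q ∣ n → ∃ R : Refutation free s n (table G n), R.size ≤ (s + n) ^ (c * q) ∧
      ∀ a, R.C.rank a ≤ c := by
  obtain ⟨c₀, hc₀⟩ := basic_lines
  obtain ⟨K, hK⟩ : ∃ K, ∀ t : Pool.H31.SY.Sh free, Pool.H31.SY.ar free t ≤ K := by
    obtain ⟨K, hK⟩ := Finite.bddAbove_range (Pool.H31.SY.ar free)
    exact ⟨K, fun t => hK ⟨t, rfl⟩⟩
  obtain ⟨A, hA⟩ : ∃ A, A = Nat.card (Pool.H31.SY.Sh free) := ⟨_, rfl⟩
  obtain ⟨E, hE⟩ : ∃ E, E = A + K + 6 + (c₀ + 13) := ⟨_, rfl⟩
  refine ⟨2 * E + (dep free + 4), fun s n q G hq hqs hqn => ?_⟩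
  obtain ⟨H, ⟨hen⟩⟩ := exists_enum G hq hqs
  obtain ⟨Ls₁, g₁, b₁, n₁⟩ := hc₀ s n q G H
  obtain ⟨Ls₂, g₂, s₂, x₂, n₂⟩ := ex_lines hen g₁ b₁
  obtain ⟨Ls₃, g₃, s₃, x₃, n₃⟩ := uq_lines hen g₂ (basic_mono b₁ s₂)
  obtain ⟨Ls₄, g₄, s₄, x₄, n₄⟩ := one_lines g₃ (fun i => s₃ (x₂ i)) x₃
  obtain ⟨Ls₅, g₅, s₅, x₅, n₅⟩ := final_lines hq.pos hqn g₄ x₄
  obtain ⟨R, hR, hsz⟩ := g₅.refutation x₅
  have h2q : 2 ≤ q := hq.two_le
  have hn1 : 1 ≤ n := by
    rcases Nat.eq_zero_or_pos n with h | h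
    · subst h
      exact absurd (dvd_zero q) hqn
    · exact h
  have hs0 : 0 < s := by
    rcases Nat.eq_zero_or_pos s with h | h
    · subst h
      exact (G.one).elim0
    · exact h
  have hqs' : q ≤ s := Nat.le_of_dvd hs0 hqs
  obtain ⟨X, hX⟩ : ∃ X, X = big s n q := ⟨_, rfl⟩
  have hX4 : 4 ≤ X := by
    rw [hX]
    unfold big
    omega
  have hsnX : s + n ≤ X := by
    rw [hX]
    unfold big
    omega
  have hN : Nat.card (Nd free s n) ≤ A * X ^ K := by
    refine (Pool.H31.SY.card_nd hK (by omega : 0 < s + n)).trans ?_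
    rw [← hA]
    exact Nat.mul_le_mul_left _ (Nat.pow_le_pow_left hsnX K)
  have hU := card_un hX hN
  rw [← hX] at n₁ n₂ n₃ n₄ n₅
  have hls : Ls₅.ncard ≤ X ^ (c₀ + 13) := by
    have k1 : X ^ c₀ ≤ X ^ (c₀ + 11) := Nat.pow_le_pow_right (by omega) (by omega)
    have k2 : X ^ 10 ≤ X ^ (c₀ + 11) := Nat.pow_le_pow_right (by omega) (by omega)
    have k3 : X ^ 11 ≤ X ^ (c₀ + 11) := Nat.pow_le_pow_right (by omega) (by omega)
    have k4 : X ^ 6 ≤ X ^ (c₀ + 11) := Nat.pow_le_pow_right (by omega) (by omega)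
    have k5 : X ^ (c₀ + 13) = X * X * X ^ (c₀ + 11) := by ring
    have k6 : 16 * X ^ (c₀ + 11) ≤ X * X * X ^ (c₀ + 11) :=
      Nat.mul_le_mul_right _ (by nlinarith)
    omega
  have htot : R.size ≤ X ^ E := by
    have k1 : Nat.card (Un s n q) + Ls₅.ncard ≤ X ^ (A + K + 6) * X ^ (c₀ + 13) := by
      have a1 : 2 ≤ X ^ (A + K + 6) := by
        calc 2 ≤ X ^ 1 := by rw [pow_one]; omega
          _ ≤ X ^ (A + K + 6) := Nat.pow_le_pow_right (by omega) (by omega)
      have a2 : 2 ≤ X ^ (c₀ + 13) := by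
        calc 2 ≤ X ^ 1 := by rw [pow_one]; omega
          _ ≤ X ^ (c₀ + 13) := Nat.pow_le_pow_right (by omega) (by omega)
      nlinarith
    rw [hsz, hE, pow_add]
    exact k1
  refine ⟨R, ?_, ?_⟩
  · calc R.size ≤ X ^ E := htot
      _ ≤ ((s + n) ^ (2 * q)) ^ E := Nat.pow_le_pow_left (by
          rw [hX]
          exact big_le h2q hqs' hn1) E
      _ = (s + n) ^ (2 * q * E) := by rw [← pow_mul]
      _ ≤ (s + n) ^ ((2 * E + (dep free + 4)) * q) := by
          refine Nat.pow_le_pow_right (by omega) ?_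
          nlinarith [Nat.zero_le ((dep free + 4) * q)]
  · subst hE
    have hrank : ∀ a, R.C.rank a ≤ dep free + 4 := by
      rw [hR]
      exact ru_le
    intro a
    exact (hrank a).trans (Nat.le_add_left _ _)

theorem upper_php : ∃ c : ℕ, ∀ s n : ℕ, 2 ≤ s + n → s < n →
    ∃ R : Refutation Pool.Agent.H88.SY.php s n (Pool.Agent.H88.SY.pigeons s n),
      R.size ≤ (s + n) ^ c := by
  obtain ⟨c, hc⟩ := Pool.Agent.H88.PG.final.2.1
  refine ⟨c * 2, fun s n hsn hlt => ?_⟩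
  obtain ⟨R₀, h₀⟩ := (hc 0 s n 2 hsn).1 hlt (by
    intro N hN _ hA
    have h1 := hA 1 (by norm_num) (by norm_num)
    rw [Nat.choose_one_right, max_eq_left (by omega), min_eq_right (by omega),
      Nat.zero_dvd] at h1
    omega)
  obtain ⟨R, hR⟩ := refutation_conv R₀
  exact ⟨R, hR.trans_le h₀⟩

end Pool.H93.CG
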